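import Pool.Agent.P.MP_8acafb_co.Defs
import Mathlib

-- part Pool.Agent.P.MP_8acafb_co.Basic
section

namespace Pool.Agent.P.MP_8acafb_co

/-- output before the final flush -/
def out : List ℕ → List ℕ → List ℕ
  | _, [] => []
  | st, x :: xs => st.takeWhile (· < x) ++ out (x :: st.dropWhile (· < x)) xs

/-- final stack -/
def stk : List ℕ → List ℕ → List ℕ
  | st, [] => st
  | st, x :: xs => stk (x :: st.dropWhile (· < x)) xs

theorem pass_eq (l : List ℕ) : ∀ st, pass st l = out st l ++ stk st l := by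
  induction l with
  | nil => intro st; simp [pass, out, stk]
  | cons x l ih => intro st; simp [pass, out, stk, ih]

theorem out_append (a b : List ℕ) : ∀ st, out st (a ++ b) = out st a ++ out (stk st a) b := by
  induction a with
  | nil => intro st; simp [out, stk]
  | cons x a ih => intro st; simp [out, stk, ih]

theorem pass_perm (l : List ℕ) : ∀ st, (pass st l).Perm (st ++ l) := by
  induction l with
  | nil => intro st; simp [pass]
  | cons x l ih =>
    intro st
    simp only [pass]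
    refine ((ih _).append_left _).trans ?_
    conv_rhs => rw [← List.takeWhile_append_dropWhile (p := (· < x)) (l := st)]
    rw [List.append_assoc]
    refine List.Perm.append_left _ ?_
    simpa using (List.perm_middle (a := x) (l₁ := st.dropWhile (· < x)) (l₂ := l)).symm

theorem mem_takeWhile_sorted (x : ℕ) (st : List ℕ) (h : st.Pairwise (· ≤ ·)) (e : ℕ) :
    (e ∈ st.takeWhile (· < x) ↔ e ∈ st ∧ e < x) ∧
      (e ∈ st.dropWhile (· < x) ↔ e ∈ st ∧ ¬ e < x) := by
  induction st with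
  | nil => simp
  | cons y st ih =>
    rw [List.pairwise_cons] at h
    have ih := ih h.2
    by_cases hy : y < x
    · simp only [List.takeWhile_cons, List.dropWhile_cons, hy, decide_true, if_true,
        List.mem_cons, ih.1, ih.2]
      constructor
      · constructor
        · rintro (rfl | h1)
          · exact ⟨Or.inl rfl, hy⟩
          · exact ⟨Or.inr h1.1, h1.2⟩
        · rintro ⟨rfl | h1, h2⟩
          · exact Or.inl rfl
          · exact Or.inr ⟨h1, h2⟩
      · constructor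
        · rintro ⟨h1, h2⟩; exact ⟨Or.inr h1, h2⟩
        · rintro ⟨rfl | h1, h2⟩
          · exact absurd hy h2
          · exact ⟨h1, h2⟩
    · simp only [List.takeWhile_cons, List.dropWhile_cons, hy, decide_false, List.mem_cons]
      constructor
      · simp only [Bool.false_eq_true, if_false, List.not_mem_nil, false_iff]
        rintro ⟨rfl | h1, h2⟩
        · exact hy h2
        · exact hy ((h.1 e h1).trans_lt h2)
      · simp only [Bool.false_eq_true, if_false, List.mem_cons]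
        constructor
        · rintro (rfl | h1)
          · exact ⟨Or.inl rfl, hy⟩
          · exact ⟨Or.inr h1, fun h2 => hy ((h.1 e h1).trans_lt h2)⟩
        · exact fun h1 => h1.1

theorem push_sorted (x : ℕ) (st : List ℕ) (h : st.Pairwise (· ≤ ·)) :
    (x :: st.dropWhile (· < x)).Pairwise (· ≤ ·) := by
  rw [List.pairwise_cons]
  refine ⟨fun e he => not_lt.1 ((mem_takeWhile_sorted x st h e).2.1 he).2, ?_⟩
  exact h.sublist (List.dropWhile_sublist _)

theorem stk_sorted (l : List ℕ) : ∀ st : List ℕ, st.Pairwise (· ≤ ·) →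
    (stk st l).Pairwise (· ≤ ·) := by
  induction l with
  | nil => intro st h; exact h
  | cons x l ih => intro st h; exact ih _ (push_sorted x st h)

theorem pass_sorted (l : List ℕ) : ∀ st : List ℕ, st.Pairwise (· ≤ ·) → l.Pairwise (· ≤ ·) →
    (pass st l).Pairwise (· ≤ ·) := by
  induction l with
  | nil => intro st h _; exact h
  | cons x l ih =>
    intro st h hl
    rw [List.pairwise_cons] at hl
    simp only [pass]
    rw [List.pairwise_append]
    refine ⟨h.sublist (List.takeWhile_sublist _), ih _ (push_sorted x st h) hl.2, ?_⟩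
    intro a ha b hb
    have h1 := ((mem_takeWhile_sorted x st h a).1.1 ha).2
    have h2 := (pass_perm l _).subset hb
    simp only [List.cons_append, List.mem_cons, List.mem_append] at h2
    rcases h2 with rfl | h2 | h2
    · exact h1.le
    · exact h1.le.trans (not_lt.1 ((mem_takeWhile_sorted x st h b).2.1 h2).2)
    · exact h1.le.trans (hl.1 b h2)

theorem out_sorted (l st : List ℕ) (h : st.Pairwise (· ≤ ·)) (hl : l.Pairwise (· ≤ ·)) :
    (out st l).Pairwise (· ≤ ·) := by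
  have := pass_sorted l st h hl
  rw [pass_eq, List.pairwise_append] at this
  exact this.1

theorem mem_out (l : List ℕ) (e : ℕ) : ∀ st : List ℕ, st.Pairwise (· ≤ ·) →
    l.Pairwise (· ≤ ·) → (e ∈ out st l ↔ (e ∈ st ∨ e ∈ l) ∧ ∃ m ∈ l, e < m) := by
  induction l with
  | nil => intro st _ _; simp [out]
  | cons x l ih =>
    intro st h hl
    rw [List.pairwise_cons] at hl
    have h1 := mem_takeWhile_sorted x st h e
    simp only [out, List.mem_append, ih _ (push_sorted x st h) hl.2, List.mem_cons, h1.1, h1.2]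
    constructor
    · rintro (⟨h2, h3⟩ | ⟨h2, m, hm, h3⟩)
      · exact ⟨Or.inl h2, x, Or.inl rfl, h3⟩
      · refine ⟨?_, m, Or.inr hm, h3⟩
        tauto
    · rintro ⟨h2, m, hm, h3⟩
      by_cases hx : e < x
      · rcases h2 with h2 | rfl | h2
        · exact Or.inl ⟨h2, hx⟩
        · exact absurd hx (lt_irrefl _)
        · exact absurd hx (not_lt.2 (hl.1 e h2))
      · rcases hm with rfl | hm
        · exact absurd h3 hx
        · refine Or.inr ⟨?_, m, hm, h3⟩
          tauto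

/-- output of one pass before the flush -/
def D (l : List ℕ) : List ℕ := out [] l
/-- stack content at the end of one pass -/
def S (l : List ℕ) : List ℕ := stk [] l

theorem s_eq (l : List ℕ) : s l = D l ++ S l := pass_eq l []

theorem s_perm (l : List ℕ) : (s l).Perm l := by simpa [s] using pass_perm l []

theorem iter_s_perm (k : ℕ) (l : List ℕ) : (s^[k] l).Perm l := by
  induction k with
  | zero => exact List.Perm.refl _
  | succ k ih => rw [Function.iterate_succ_apply']; exact (s_perm _).trans ih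

theorem DS_perm (l : List ℕ) : (D l ++ S l).Perm l := s_eq l ▸ s_perm l

theorem D_append (a b : List ℕ) : D (a ++ b) = D a ++ out (S a) b := out_append a b []

theorem S_sorted (l : List ℕ) : (S l).Pairwise (· ≤ ·) := stk_sorted l [] (by simp)

theorem D_subset (l : List ℕ) : D l ⊆ l := fun _ he =>
  (DS_perm l).subset (List.mem_append_left _ he)

theorem D_nodup (l : List ℕ) (h : l.Nodup) : (D l).Nodup :=
  (List.nodup_append.1 ((DS_perm l).nodup_iff.2 h)).1

theorem mem_S (l : List ℕ) (h : l.Nodup) (e : ℕ) : e ∈ S l ↔ e ∈ l ∧ e ∉ D l := by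
  have h1 := List.nodup_append.1 ((DS_perm l).nodup_iff.2 h)
  constructor
  · intro he
    exact ⟨(DS_perm l).subset (List.mem_append_right _ he), fun h2 => h1.2.2 e h2 e he rfl⟩
  · rintro ⟨h2, h3⟩
    rcases List.mem_append.1 ((DS_perm l).symm.subset h2) with h4 | h4
    · exact absurd h4 h3
    · exact h4

theorem stk_ne_nil (l : List ℕ) : ∀ st : List ℕ, st ≠ [] → stk st l ≠ [] := by
  induction l with
  | nil => intro st h; exact h
  | cons x l ih => intro st _; exact ih _ (by simp)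

theorem length_D (l : List ℕ) : (D l).length ≤ l.length - 1 := by
  cases l with
  | nil => simp [D, out]
  | cons x l =>
    have h1 := (DS_perm (x :: l)).length_eq
    have h2 : S (x :: l) ≠ [] := stk_ne_nil l _ (by simp)
    have h3 := List.length_pos_iff.2 h2
    rw [List.length_append] at h1
    omega

theorem length_iter_D (k : ℕ) (l : List ℕ) : (D^[k] l).length ≤ l.length - k := by
  induction k with
  | zero => simp
  | succ k ih =>
    rw [Function.iterate_succ_apply']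
    have := length_D (D^[k] l)
    omega

theorem iter_D_nodup (k : ℕ) (l : List ℕ) (h : l.Nodup) : (D^[k] l).Nodup := by
  induction k with
  | zero => exact h
  | succ k ih => rw [Function.iterate_succ_apply']; exact D_nodup _ ih

theorem iter_D_anti (l : List ℕ) {j k : ℕ} (h : j ≤ k) : D^[k] l ⊆ D^[j] l := by
  induction k, h using Nat.le_induction with
  | base => exact fun _ h => h
  | succ k _ ih => rw [Function.iterate_succ_apply']; exact fun e he => ih (D_subset _ he)

theorem iter_D_init (k : ℕ) (p q : List ℕ) : ∃ r, s^[k] (p ++ q) = D^[k] p ++ r := by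
  induction k with
  | zero => exact ⟨q, rfl⟩
  | succ k ih =>
    obtain ⟨r, hr⟩ := ih
    rw [Function.iterate_succ_apply', Function.iterate_succ_apply', hr, s_eq, D_append,
      List.append_assoc]
    exact ⟨_, rfl⟩

theorem ex_rank (p : List ℕ) (e : ℕ) : ∃ k, e ∉ D^[k] p := by
  refine ⟨p.length, fun h => ?_⟩
  have h1 := length_iter_D p.length p
  have h2 := List.length_pos_of_mem h
  omega

/-- the index of the stack that holds `e` after reading `p` (0 if `e` is not in `p`) -/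
def rk (p : List ℕ) (e : ℕ) : ℕ := Nat.find (ex_rank p e)

theorem lt_rk (p : List ℕ) (e k : ℕ) : k < rk p e ↔ e ∈ D^[k] p := by
  rw [rk, Nat.lt_find_iff]
  constructor
  · intro h; simpa using h k le_rfl
  · intro h m hm; simpa using iter_D_anti p hm h

theorem rk_pos (p : List ℕ) (e : ℕ) : 0 < rk p e ↔ e ∈ p := lt_rk p e 0

theorem rk_eq_zero (p : List ℕ) (e : ℕ) (h : e ∉ p) : rk p e = 0 := by
  by_contra h1
  exact h ((rk_pos p e).1 (Nat.pos_of_ne_zero h1))

/-- entries that leave the `k`-th stack when `x` arrives after `p` -/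
def Mv (p : List ℕ) (x : ℕ) : ℕ → List ℕ
  | 0 => [x]
  | k + 1 => out (S (D^[k] p)) (Mv p x k)

theorem iter_D_snoc (p : List ℕ) (x k : ℕ) : D^[k] (p ++ [x]) = D^[k] p ++ Mv p x k := by
  induction k with
  | zero => rfl
  | succ k ih =>
    rw [Function.iterate_succ_apply', Function.iterate_succ_apply', ih, D_append, Mv]

theorem Mv_sorted (p : List ℕ) (x k : ℕ) : (Mv p x k).Pairwise (· ≤ ·) := by
  induction k with
  | zero => simp [Mv]
  | succ k ih => exact out_sorted _ _ (S_sorted _) ih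

section arrival
variable {p : List ℕ} {x : ℕ} (hn : (p ++ [x]).Nodup)
include hn

theorem mem_Mv (k e : ℕ) : e ∈ Mv p x k ↔ rk p e ≤ k ∧ k < rk (p ++ [x]) e := by
  have h1 := iter_D_nodup k _ hn
  rw [iter_D_snoc] at h1
  rw [lt_rk, ← not_lt, lt_rk, iter_D_snoc, List.mem_append]
  constructor
  · intro h
    exact ⟨fun h2 => (List.nodup_append.1 h1).2.2 e h2 e h rfl, Or.inr h⟩
  · rintro ⟨h2, h3 | h3⟩
    · exact absurd h3 h2
    · exact h3

theorem mem_Mv_succ (k e : ℕ) : e ∈ Mv p x (k + 1) ↔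
    (rk p e = k + 1 ∨ e ∈ Mv p x k) ∧ ∃ m ∈ Mv p x k, e < m := by
  have hp : p.Nodup := (List.nodup_append.1 hn).1
  rw [Mv, mem_out _ _ _ (S_sorted _) (Mv_sorted p x k), mem_S _ (iter_D_nodup k p hp),
    ← Function.iterate_succ_apply' D k p, ← lt_rk, ← lt_rk]
  have : (k < rk p e ∧ ¬ k.succ < rk p e) ↔ rk p e = k + 1 := by omega
  rw [this]

omit hn in
theorem rk_mono_one (e : ℕ) : rk p e ≤ rk (p ++ [x]) e := by
  by_contra h
  have h1 := (lt_rk p e _).1 (not_le.1 h)
  have h2 : e ∈ D^[rk (p ++ [x]) e] (p ++ [x]) := by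
    rw [iter_D_snoc]; exact List.mem_append_left _ h1
  exact lt_irrefl _ ((lt_rk _ _ _).2 h2)

theorem rk_new : rk (p ++ [x]) x = 1 := by
  have hx : x ∉ p := fun h => (List.nodup_append.1 hn).2.2 x h x (by simp) rfl
  have h0 := rk_eq_zero p x hx
  have h1 : 0 < rk (p ++ [x]) x := (rk_pos _ _).2 (by simp)
  by_contra h
  have h2 : x ∈ Mv p x (0 + 1) := (mem_Mv hn _ _).2 ⟨by omega, by omega⟩
  obtain ⟨_, m, hm, h3⟩ := (mem_Mv_succ hn _ _).1 h2
  simp only [Mv, List.mem_singleton] at hm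
  omega

theorem Mv_down (y : ℕ) (k : ℕ) (hy : y ∈ Mv p x k) (j : ℕ) (hj : j ≤ k) :
    ∃ m ∈ Mv p x j, y ≤ m := by
  induction k generalizing y with
  | zero => obtain rfl : j = 0 := by omega
            exact ⟨y, hy, le_rfl⟩
  | succ k ih =>
    rcases Nat.lt_or_ge j (k + 1) with h | h
    · obtain ⟨_, m, hm, h3⟩ := (mem_Mv_succ hn _ _).1 hy
      obtain ⟨m', hm', h4⟩ := ih m hm (by omega)
      exact ⟨m', hm', by omega⟩
    · obtain rfl : j = k + 1 := by omega
      exact ⟨y, hy, le_rfl⟩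

/-- F5 -/
theorem smaller_moves (y k e : ℕ) (hy : y ∈ Mv p x k) (he : e ∈ p ++ [x]) (hlt : e < y) :
    k + 1 < rk (p ++ [x]) e := by
  have key : ∀ j, j ≤ k + 1 → j < rk (p ++ [x]) e := by
    intro j
    induction j with
    | zero => intro _; exact (rk_pos _ _).2 he
    | succ j ih =>
      intro hj
      have h1 := ih (by omega)
      obtain ⟨m, hm, h2⟩ := Mv_down hn y k hy j (by omega)
      have hmono := rk_mono_one (p := p) (x := x) e
      by_cases h3 : j + 1 < rk p e
      · omega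
      · have : e ∈ Mv p x (j + 1) := by
          refine (mem_Mv_succ hn _ _).2 ⟨?_, m, hm, by omega⟩
          by_cases h4 : rk p e = j + 1
          · exact Or.inl h4
          · exact Or.inr ((mem_Mv hn _ _).2 ⟨by omega, h1⟩)
        exact ((mem_Mv hn _ _).1 this).2
  exact key _ le_rfl

/-- F4, one step -/
theorem rk_lt_one (e f : ℕ) (hef : e < f) (h : rk p f < rk p e) :
    rk (p ++ [x]) f < rk (p ++ [x]) e := by
  have h1 := rk_mono_one (p := p) (x := x) e
  have h2 := rk_mono_one (p := p) (x := x) f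
  by_cases h3 : rk (p ++ [x]) f = rk p f
  · omega
  · obtain ⟨k, hk⟩ : ∃ k, rk (p ++ [x]) f = k + 1 := ⟨rk (p ++ [x]) f - 1, by omega⟩
    have h4 : f ∈ Mv p x k := (mem_Mv hn _ _).2 ⟨by omega, by omega⟩
    have := smaller_moves hn f k e h4 ((rk_pos _ _).1 (by omega)) hef
    omega

/-- F3 -/
theorem exists_larger (y k : ℕ) (h1 : rk p y < k + 2) (h2 : rk (p ++ [x]) y = k + 2) :
    ∃ z, y < z ∧ rk p z < k + 1 ∧ rk (p ++ [x]) z = k + 1 := by
  have h3 : y ∈ Mv p x (k + 1) := (mem_Mv hn _ _).2 ⟨by omega, by omega⟩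
  obtain ⟨_, m, hm, h4⟩ := (mem_Mv_succ hn _ _).1 h3
  obtain ⟨z, hz, hmax⟩ := Finset.exists_max_image (Mv p x k).toFinset id
    ⟨m, List.mem_toFinset.2 hm⟩
  rw [List.mem_toFinset] at hz
  have h5 := (mem_Mv hn _ _).1 hz
  have h6 : m ≤ z := hmax m (List.mem_toFinset.2 hm)
  refine ⟨z, by omega, by omega, ?_⟩
  by_contra h7
  have h8 : z ∈ Mv p x (k + 1) := (mem_Mv hn _ _).2 ⟨by omega, by omega⟩
  obtain ⟨_, m', hm', h9⟩ := (mem_Mv_succ hn _ _).1 h8
  have : m' ≤ z := hmax m' (List.mem_toFinset.2 hm')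
  omega

end arrival

theorem rk_mono (p u : List ℕ) (e : ℕ) : rk p e ≤ rk (p ++ u) e := by
  induction u generalizing p with
  | nil => simp
  | cons x u ih =>
    have := ih (p ++ [x])
    rw [List.append_assoc, List.singleton_append] at this
    exact (rk_mono_one e).trans this

theorem rk_lt (p u : List ℕ) (hn : (p ++ u).Nodup) (e f : ℕ) (hef : e < f)
    (h : rk p f < rk p e) : rk (p ++ u) f < rk (p ++ u) e := by
  induction u generalizing p with
  | nil => simpa using h
  | cons x u ih =>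
    have h1 : p ++ x :: u = (p ++ [x]) ++ u := by simp
    rw [h1] at hn ⊢
    exact ih _ hn (rk_lt_one (List.nodup_append.1 hn).1 e f hef h)

/-- the re-ranking lemma -/
theorem rk_stable (p u : List ℕ) (hn : (p ++ u).Nodup) (y v : ℕ) (hy : y ∈ p) (hyv : y < v)
    (h : rk (p ++ u) y = rk (p ++ u) v) : rk p v = rk (p ++ u) v := by
  induction u generalizing p with
  | nil => simp
  | cons x u ih =>
    have h1 : p ++ x :: u = (p ++ [x]) ++ u := by simp
    rw [h1] at hn h ⊢
    have hn' := (List.nodup_append.1 hn).1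
    have h2 := ih _ hn (List.mem_append_left _ hy) h
    by_contra h3
    have h4 := rk_mono_one (p := p) (x := x) v
    obtain ⟨k, hk⟩ : ∃ k, rk (p ++ [x]) v = k + 1 := ⟨rk (p ++ [x]) v - 1, by omega⟩
    have h5 : v ∈ Mv p x k := (mem_Mv hn' _ _).2 ⟨by omega, by omega⟩
    have h6 := smaller_moves hn' v k y h5 (List.mem_append_left _ hy) hyv
    have h7 := rk_mono (p ++ [x]) u y
    omega

/-- entries of equal rank appear in decreasing order -/
theorem rk_pairwise (w : List ℕ) (hn : w.Nodup) :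
    w.Pairwise (fun a b => rk w a = rk w b → b < a) := by
  rw [List.pairwise_iff_forall_sublist]
  intro a b hab h
  obtain ⟨r1, r2, hw, ha, hb⟩ := List.cons_sublist_iff.1 hab
  rw [List.singleton_sublist] at hb
  obtain ⟨r3, r4, rfl⟩ := List.append_of_mem hb
  have hw' : w = (r1 ++ r3) ++ b :: r4 := by simp [hw]
  have hb' : b ∉ r1 ++ r3 := fun h2 => by
    rw [hw'] at hn
    exact (List.nodup_append.1 hn).2.2 b h2 b (by simp) rfl
  have ha' : a ∈ r1 ++ r3 := List.mem_append_left _ ha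
  by_contra h3
  have h4 : a < b := lt_of_le_of_ne (not_lt.1 h3) (fun h5 => hb' (h5 ▸ ha'))
  have h5 := rk_lt (r1 ++ r3) (b :: r4) (hw' ▸ hn) a b h4
    (by rw [rk_eq_zero _ _ hb']; exact (rk_pos _ _).2 ha')
  rw [← hw'] at h5
  omega

/-- in a sortable word an entry with a smaller entry still to come has rank at most `t` -/
theorem rk_le_of_sorted (t : ℕ) (p q : List ℕ) (hn : (p ++ q).Nodup)
    (hs : (s^[t] (p ++ q)).Pairwise (· ≤ ·)) (v y : ℕ) (hy : y ∈ q) (hyv : y < v) :
    rk p v ≤ t := by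
  by_contra h
  have h1 := (lt_rk p v t).1 (not_le.1 h)
  obtain ⟨r, hr⟩ := iter_D_init t p q
  have h2 : y ∈ s^[t] (p ++ q) := (iter_s_perm t _).symm.subset (List.mem_append_right _ hy)
  rw [hr] at hs h2
  rcases List.mem_append.1 h2 with h3 | h3
  · exact (List.nodup_append.1 hn).2.2 y (iter_D_anti p (Nat.zero_le t) h3) y hy rfl
  · have := (List.pairwise_append.1 hs).2.2 v h1 y h3
    omega

end Pool.Agent.P.MP_8acafb_co
end

-- part Pool.Agent.P.MP_8acafb_co.Words
section

namespace Pool.Agent.P.MP_8acafb_co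

open Finset

theorem sum_biUnion_le' {ι α : Type*} [DecidableEq α] (s : Finset ι) (t : ι → Finset α)
    (f : α → ℝ) (hf : ∀ a, 0 ≤ f a) : ∑ a ∈ s.biUnion t, f a ≤ ∑ i ∈ s, ∑ a ∈ t i, f a := by
  classical
  induction s using Finset.induction_on with
  | empty => simp
  | insert i s hi ih =>
    rw [biUnion_insert, sum_insert hi]
    have h1 := sum_union_inter (s₁ := t i) (s₂ := s.biUnion t) (f := f)
    have h2 : 0 ≤ ∑ a ∈ t i ∩ s.biUnion t, f a := sum_nonneg (fun a _ => hf a)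
    linarith

theorem sum_union_le' {α : Type*} [DecidableEq α] (s t : Finset α)
    (f : α → ℝ) (hf : ∀ a, 0 ≤ f a) : ∑ a ∈ s ∪ t, f a ≤ ∑ a ∈ s, f a + ∑ a ∈ t, f a := by
  have h1 := sum_union_inter (s₁ := s) (s₂ := t) (f := f)
  have h2 : 0 ≤ ∑ a ∈ s ∩ t, f a := sum_nonneg (fun a _ => hf a)
  linarith

/-- label words accepted from the state `A` (the set of pending ranks) -/
def Words (g t : ℕ) : ℕ → Finset ℕ → Finset (List (ℕ ⊕ ℕ))
  | 0, _ => {[]}
  | r + 1, A =>
    ((range g).biUnion (fun v => (Words g t r A).image (List.cons (Sum.inl v)))) ∪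
    ((Icc 2 t \ A).biUnion (fun k => (Words g t r (insert k A)).image (List.cons (Sum.inr k)))) ∪
    (((Icc 1 t).filter (fun j => Icc 2 j ⊆ A)).biUnion
      (fun j => (Words g t r (A \ Icc 2 j)).image (List.cons (Sum.inr 1))))

/-- transfer operator -/
noncomputable def Pf (t : ℕ) (f : Finset ℕ → ℝ) (A : Finset ℕ) : ℝ :=
  ∑ k ∈ Icc 2 t \ A, f (insert k A) +
    ∑ j ∈ (Icc 1 t).filter (fun j => Icc 2 j ⊆ A), f (A \ Icc 2 j)

/-- weighted number of words -/
noncomputable def F (t : ℕ) (a b : ℝ) : ℕ → Finset ℕ → ℝ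
  | 0, _ => 1
  | r + 1, A => b * F t a b r A + a * Pf t (F t a b r) A

theorem Pf_nonneg (t : ℕ) (f : Finset ℕ → ℝ) (hf : ∀ A, 0 ≤ f A) (A : Finset ℕ) :
    0 ≤ Pf t f A :=
  add_nonneg (sum_nonneg fun _ _ => hf _) (sum_nonneg fun _ _ => hf _)

theorem F_nonneg (t : ℕ) (a b : ℝ) (ha : 0 ≤ a) (hb : 0 ≤ b) (r : ℕ) :
    ∀ A, 0 ≤ F t a b r A := by
  induction r with
  | zero => intro A; simp [F]
  | succ r ih =>
    intro A
    exact add_nonneg (mul_nonneg hb (ih A)) (mul_nonneg ha (Pf_nonneg t _ ih A))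

/-- number of short letters -/
def nl (w : List (ℕ ⊕ ℕ)) : ℕ := w.countP Sum.isLeft

theorem sum_Words_le (g t : ℕ) (c : ℝ) (hc : 0 ≤ c) (r : ℕ) :
    ∀ A, ∑ w ∈ Words g t r A, c ^ nl w ≤ F t 1 (g * c) r A := by
  induction r with
  | zero => intro A; simp [Words, F, nl]
  | succ r ih =>
    intro A
    have hf : ∀ w : List (ℕ ⊕ ℕ), 0 ≤ c ^ nl w := fun w => pow_nonneg hc _
    have himg : ∀ (z : ℕ ⊕ ℕ) (X : Finset (List (ℕ ⊕ ℕ))),
        ∑ w ∈ X.image (List.cons z), c ^ nl w = ∑ w ∈ X, c ^ nl (z :: w) := fun z X =>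
      sum_image (fun a _ b _ h => List.cons_injective h)
    have hl : ∀ v w, nl (Sum.inl v :: w) = nl w + 1 := fun v w => by simp [nl]
    have hr : ∀ v w, nl (Sum.inr v :: w) = nl w := fun v w => by simp [nl]
    rw [Words, F, Pf]
    refine (sum_union_le' _ _ _ hf).trans ?_
    refine (add_le_add_left (sum_union_le' _ _ _ hf) _).trans ?_
    rw [one_mul, ← add_assoc]
    refine add_le_add (add_le_add ?_ ?_) ?_
    · refine (sum_biUnion_le' _ _ _ hf).trans ?_
      simp only [himg, hl, pow_succ, ← sum_mul, sum_const, card_range, nsmul_eq_mul]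
      have := ih A
      have hg : (0 : ℝ) ≤ g := Nat.cast_nonneg g
      calc (g : ℝ) * (∑ w ∈ Words g t r A, c ^ nl w) * c
          = (g * c) * ∑ w ∈ Words g t r A, c ^ nl w := by ring
        _ ≤ _ := mul_le_mul_of_nonneg_left this (mul_nonneg hg hc)
    · refine (sum_biUnion_le' _ _ _ hf).trans (sum_le_sum fun k _ => ?_)
      simp only [himg, hr]
      exact ih _
    · refine (sum_biUnion_le' _ _ _ hf).trans (sum_le_sum fun k _ => ?_)
      simp only [himg, hr]
      exact ih _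

theorem Pf_sum (t : ℕ) (s : Finset ℕ) (c : ℕ → ℝ) (f : ℕ → Finset ℕ → ℝ) (A : Finset ℕ) :
    Pf t (fun B => ∑ i ∈ s, c i * f i B) A = ∑ i ∈ s, c i * Pf t (f i) A := by
  simp only [Pf, mul_add, sum_add_distrib, mul_sum]
  rw [sum_comm, sum_comm (s := filter _ _)]

theorem F_binom (t : ℕ) (a b : ℝ) (r : ℕ) : ∀ A, F t a b r A =
    ∑ i ∈ range (r + 1), (r.choose i : ℝ) * (a ^ i * b ^ (r - i) * F t 1 0 i A) := by
  induction r with
  | zero => intro A; simp [F]
  | succ r ih =>
    intro A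
    have h1 := sum_choose_succ_mul (R := ℝ) (fun i j => a ^ i * b ^ j * F t 1 0 i A) r
    have h2 : F t a b r = fun B => ∑ i ∈ range (r + 1),
        ((r.choose i : ℝ) * (a ^ i * b ^ (r - i))) * F t 1 0 i B := by
      funext B; rw [ih B]; simp only [mul_assoc]
    rw [h1, F]
    congr 1
    · rw [ih A, mul_sum]
      refine sum_congr rfl fun i hi => ?_
      have : r + 1 - i = (r - i) + 1 := by have := mem_range.1 hi; omega
      rw [this]; ring
    · rw [h2, Pf_sum, mul_sum]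
      refine sum_congr rfl fun i _ => ?_
      simp only [F]; ring

theorem prod_add_ge (A : Finset ℕ) (ω : ℕ → ℝ) (hω : ∀ k, 0 ≤ ω k) (x : ℝ) (hx : 0 ≤ x) :
    ∏ k ∈ A, ω k + x * ∑ k ∈ A, ∏ j ∈ A.erase k, ω j ≤ ∏ k ∈ A, (ω k + x) := by
  induction A using Finset.induction_on with
  | empty => simp
  | insert a A ha ih =>
    rw [prod_insert ha, prod_insert ha, sum_insert ha, erase_insert ha]
    have h1 : ∑ k ∈ A, ∏ j ∈ (insert a A).erase k, ω j = ω a * ∑ k ∈ A, ∏ j ∈ A.erase k, ω j := by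
      rw [mul_sum]
      refine sum_congr rfl fun k hk => ?_
      have hak : a ≠ k := fun h => ha (by rw [h]; exact hk)
      rw [erase_insert_of_ne hak, prod_insert (fun h => ha (mem_of_mem_erase h))]
    rw [h1]
    have h2 : 0 ≤ ∑ k ∈ A, ∏ j ∈ A.erase k, ω j :=
      sum_nonneg fun _ _ => prod_nonneg fun _ _ => hω _
    have h3 := mul_le_mul_of_nonneg_left ih (add_nonneg (hω a) hx)
    nlinarith [mul_nonneg hx (mul_nonneg hx h2)]

/-- multilinear generating polynomial -/
noncomputable def Mx (t : ℕ) (G : Finset ℕ → ℝ) (ω : ℕ → ℝ) : ℝ :=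
  ∑ A ∈ (Icc 2 t).powerset, (∏ k ∈ A, ω k) * G A

theorem Mx_insert (t : ℕ) (G : Finset ℕ → ℝ) (hG : ∀ A, 0 ≤ G A) (ω : ℕ → ℝ)
    (hω : ∀ k, 0 ≤ ω k) (x : ℝ) (hx : 0 ≤ x) :
    Mx t G ω + x * ∑ A ∈ (Icc 2 t).powerset, (∏ k ∈ A, ω k) * ∑ k ∈ Icc 2 t \ A, G (insert k A)
      ≤ Mx t G (fun k => ω k + x) := by
  have h1 : ∑ A ∈ (Icc 2 t).powerset, (∏ k ∈ A, ω k) * ∑ k ∈ Icc 2 t \ A, G (insert k A)
      = ∑ A ∈ (Icc 2 t).powerset, (∑ k ∈ A, ∏ j ∈ A.erase k, ω j) * G A := by
    simp only [mul_sum, sum_mul]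
    rw [sum_sigma', sum_sigma']
    refine sum_nbij' (fun z => ⟨insert z.2 z.1, z.2⟩) (fun z => ⟨z.1.erase z.2, z.2⟩) ?_ ?_ ?_ ?_ ?_
    · rintro ⟨A, k⟩ h
      simp only [mem_sigma, mem_powerset, mem_sdiff] at h ⊢
      exact ⟨insert_subset h.2.1 h.1, mem_insert_self _ _⟩
    · rintro ⟨A, k⟩ h
      simp only [mem_sigma, mem_powerset, mem_sdiff] at h ⊢
      exact ⟨(erase_subset _ _).trans h.1, h.1 h.2, notMem_erase _ _⟩
    · rintro ⟨A, k⟩ h
      simp only [mem_sigma, mem_powerset, mem_sdiff] at h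
      simp only [erase_insert h.2.2]
    · rintro ⟨A, k⟩ h
      simp only [mem_sigma, mem_powerset] at h
      simp only [insert_erase h.2]
    · rintro ⟨A, k⟩ h
      simp only [mem_sigma, mem_powerset, mem_sdiff] at h
      simp only [erase_insert h.2.2]
  rw [h1, Mx, Mx, mul_sum, ← sum_add_distrib]
  refine sum_le_sum fun A _ => ?_
  rw [← mul_assoc, ← add_mul]
  exact mul_le_mul_of_nonneg_right (prod_add_ge A ω hω x hx) (hG A)

theorem Mx_clear (t : ℕ) (G : Finset ℕ → ℝ) (hG : ∀ A, 0 ≤ G A) (ω : ℕ → ℝ)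
    (hω : ∀ k, 0 ≤ ω k) (J : Finset ℕ) :
    ∑ A ∈ (Icc 2 t).powerset.filter (fun A => J ⊆ A), (∏ k ∈ A, ω k) * G (A \ J)
      ≤ (∏ k ∈ J, ω k) * Mx t G (fun k => if k ∈ J then 0 else ω k) := by
  have h1 : ∑ A ∈ (Icc 2 t).powerset.filter (fun A => J ⊆ A), (∏ k ∈ A, ω k) * G (A \ J)
      = (∏ k ∈ J, ω k) * ∑ A ∈ ((Icc 2 t).powerset.filter (fun A => J ⊆ A)).image (· \ J),
        (∏ k ∈ A, if k ∈ J then 0 else ω k) * G A := by
    rw [sum_image, mul_sum]
    · refine sum_congr rfl fun A hA => ?_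
      have hJ := (mem_filter.1 hA).2
      rw [← prod_sdiff hJ, ← mul_assoc, mul_comm (∏ k ∈ J, ω k)]
      congr 2
      refine prod_congr rfl fun k hk => ?_
      rw [if_neg (mem_sdiff.1 hk).2]
    · intro A hA B hB h
      have h1 := sdiff_union_of_subset (mem_filter.1 hA).2
      have h2 := sdiff_union_of_subset (mem_filter.1 hB).2
      simp only at h
      rw [← h1, ← h2, h]
  rw [h1]
  refine mul_le_mul_of_nonneg_left ?_ (prod_nonneg fun _ _ => hω _)
  refine sum_le_sum_of_subset_of_nonneg ?_ fun A _ _ => ?_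
  · intro A hA
    obtain ⟨B, hB, rfl⟩ := mem_image.1 hA
    exact mem_powerset.2 (sdiff_subset.trans (mem_powerset.1 (mem_filter.1 hB).1))
  · refine mul_nonneg (prod_nonneg fun k _ => ?_) (hG A)
    split_ifs
    · exact le_rfl
    · exact hω k

theorem le_exp_div (u : ℝ) : u ≤ Real.exp (u / Real.exp 1) := by
  have h1 := Real.add_one_le_exp (u / Real.exp 1 - 1)
  have h2 : Real.exp (u / Real.exp 1 - 1) = Real.exp (u / Real.exp 1) / Real.exp 1 :=
    Real.exp_sub _ _
  rw [h2, sub_add_cancel] at h1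
  exact (div_le_div_iff_of_pos_right (Real.exp_pos 1)).1 h1

theorem Mx_bound (t : ℕ) (ε : ℕ → ℝ) (hε : ∀ k, 0 < ε k) (hε1 : ∀ k, ε k ≤ 1) (x : ℝ)
    (hx : 0 ≤ x) (B : ℝ)
    (hB : ∑ k ∈ Icc 2 t, 1 / (Real.exp 1 * ε k) + ∑ j ∈ Icc 1 t, ∏ k ∈ Icc 2 j, ε k ≤ B)
    (T : ℕ) : ∀ ω : ℕ → ℝ, (∀ k, 0 ≤ ω k) → Mx t (F t x 1 T) ω ≤
      2 ^ t * Real.exp (∑ k ∈ Icc 2 t, ω k / (Real.exp 1 * ε k)) * Real.exp (x * B) ^ T := by
  have hkey : ∀ k (u : ℝ), u ≤ ε k * Real.exp (u / (Real.exp 1 * ε k)) := by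
    intro k u
    have h1 := le_exp_div (u / ε k)
    rw [div_le_iff₀ (hε k), div_div, mul_comm (ε k) (Real.exp 1)] at h1
    linarith
  induction T with
  | zero =>
    intro ω hω
    simp only [Mx, F, mul_one, pow_zero]
    rw [← prod_one_add, Real.exp_sum]
    calc ∏ i ∈ Icc 2 t, (1 + ω i) ≤ ∏ i ∈ Icc 2 t, 2 * Real.exp (ω i / (Real.exp 1 * ε i)) := by
          refine prod_le_prod (fun i _ => add_nonneg zero_le_one (hω i)) fun i _ => ?_
          have h1 := hkey i (ω i)
          have h2 : 1 ≤ Real.exp (ω i / (Real.exp 1 * ε i)) :=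
            Real.one_le_exp (div_nonneg (hω i) (mul_pos (Real.exp_pos 1) (hε i)).le)
          have h3 := mul_le_mul_of_nonneg_right (hε1 i) (zero_le_one.trans h2)
          linarith
      _ = 2 ^ (Icc 2 t).card * ∏ i ∈ Icc 2 t, Real.exp (ω i / (Real.exp 1 * ε i)) := by
          rw [prod_mul_distrib, prod_const]
      _ ≤ _ := by
          refine mul_le_mul_of_nonneg_right (pow_le_pow_right₀ one_le_two ?_)
            (prod_nonneg fun _ _ => (Real.exp_pos _).le)
          simp only [Nat.card_Icc]; omega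
  | succ T ih =>
    intro ω hω
    set G := F t x 1 T with hGdef
    have hG : ∀ A, 0 ≤ G A := F_nonneg t x 1 hx zero_le_one T
    set E := ∑ k ∈ Icc 2 t, ω k / (Real.exp 1 * ε k) with hE
    set C := ∑ k ∈ Icc 2 t, 1 / (Real.exp 1 * ε k) with hC
    set Q := ∑ j ∈ Icc 1 t, ∏ k ∈ Icc 2 j, ε k with hQ
    set L := Real.exp (x * B) ^ T with hL
    have hL0 : 0 ≤ L := pow_nonneg (Real.exp_pos _).le _
    have h1 : Mx t (F t x 1 (T + 1)) ω = (Mx t G ω + x * ∑ A ∈ (Icc 2 t).powerset,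
        (∏ k ∈ A, ω k) * ∑ k ∈ Icc 2 t \ A, G (insert k A)) +
        x * ∑ j ∈ Icc 1 t, ∑ A ∈ (Icc 2 t).powerset.filter (fun A => Icc 2 j ⊆ A),
          (∏ k ∈ A, ω k) * G (A \ Icc 2 j) := by
      have h2 : ∑ j ∈ Icc 1 t, ∑ A ∈ (Icc 2 t).powerset.filter (fun A => Icc 2 j ⊆ A),
          (∏ k ∈ A, ω k) * G (A \ Icc 2 j) = ∑ A ∈ (Icc 2 t).powerset, (∏ k ∈ A, ω k) *
            ∑ j ∈ (Icc 1 t).filter (fun j => Icc 2 j ⊆ A), G (A \ Icc 2 j) := by
        simp only [mul_sum]
        refine sum_comm' ?_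
        intro j A
        simp only [mem_filter]
        tauto
      rw [h2, Mx, Mx, mul_sum, mul_sum, ← sum_add_distrib, ← sum_add_distrib]
      refine sum_congr rfl fun A _ => ?_
      simp only [F, Pf, ← hGdef]
      ring
    have h3 : Mx t G (fun k => ω k + x) ≤ 2 ^ t * Real.exp E * L * Real.exp (x * C) := by
      refine (ih _ (fun k => add_nonneg (hω k) hx)).trans (le_of_eq ?_)
      have : ∑ k ∈ Icc 2 t, (ω k + x) / (Real.exp 1 * ε k) = E + x * C := by
        rw [hE, hC, mul_sum, ← sum_add_distrib]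
        refine sum_congr rfl fun k _ => ?_
        ring
      rw [this, Real.exp_add]; ring
    have h4 : ∀ j ∈ Icc 1 t, ∑ A ∈ (Icc 2 t).powerset.filter (fun A => Icc 2 j ⊆ A),
          (∏ k ∈ A, ω k) * G (A \ Icc 2 j) ≤ 2 ^ t * Real.exp E * L * ∏ k ∈ Icc 2 j, ε k := by
      intro j hj
      refine (Mx_clear t G hG ω hω _).trans ?_
      have h5 := ih (fun k => if k ∈ Icc 2 j then 0 else ω k) (fun k => by
        split_ifs
        · exact le_rfl
        · exact hω k)
      refine (mul_le_mul_of_nonneg_left h5 (prod_nonneg fun _ _ => hω _)).trans ?_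
      have hsub : Icc 2 j ⊆ Icc 2 t := Icc_subset_Icc_right (mem_Icc.1 hj).2
      have h6 : E = ∑ k ∈ Icc 2 t, (if k ∈ Icc 2 j then 0 else ω k) / (Real.exp 1 * ε k)
          + ∑ k ∈ Icc 2 j, ω k / (Real.exp 1 * ε k) := by
        rw [hE, ← sum_sdiff hsub, ← sum_sdiff hsub]
        have h7 : ∑ k ∈ Icc 2 j, (if k ∈ Icc 2 j then 0 else ω k) / (Real.exp 1 * ε k) = 0 :=
          sum_eq_zero fun k hk => by rw [if_pos hk, zero_div]
        rw [h7, add_zero]
        congr 1
        exact sum_congr rfl fun k hk => by rw [if_neg (mem_sdiff.1 hk).2]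
      have h8 : ∏ k ∈ Icc 2 j, ω k ≤ (∏ k ∈ Icc 2 j, ε k) *
          Real.exp (∑ k ∈ Icc 2 j, ω k / (Real.exp 1 * ε k)) := by
        rw [Real.exp_sum, ← prod_mul_distrib]
        exact prod_le_prod (fun k _ => hω k) fun k _ => hkey k _
      rw [h6, Real.exp_add]
      refine (mul_le_mul_of_nonneg_right h8 (by positivity)).trans (le_of_eq ?_)
      ring
    have h9 := sum_le_sum h4
    rw [← mul_sum, ← hQ] at h9
    have h10 := Mx_insert t G hG ω hω x hx
    have hC0 : 0 ≤ C := sum_nonneg fun k _ => (one_div_pos.2 (mul_pos (Real.exp_pos 1) (hε k))).le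
    have hQ0 : 0 ≤ Q := sum_nonneg fun j _ => prod_nonneg fun k _ => (hε k).le
    have h11 : Real.exp (x * C) + x * Q ≤ Real.exp (x * B) := by
      have h12 : 1 ≤ Real.exp (x * C) := Real.one_le_exp (mul_nonneg hx hC0)
      have h13 := Real.add_one_le_exp (x * Q)
      have h14 : Real.exp (x * C) * Real.exp (x * Q) ≤ Real.exp (x * B) := by
        rw [← Real.exp_add, ← mul_add]
        exact Real.exp_le_exp.2 (mul_le_mul_of_nonneg_left hB hx)
      nlinarith [mul_nonneg hx hQ0]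
    have h15 : 0 ≤ 2 ^ t * Real.exp E * L := by positivity
    rw [h1, pow_succ, ← hL]
    have h16 := mul_le_mul_of_nonneg_left h9 hx
    have h17 := mul_le_mul_of_nonneg_left h11 h15
    nlinarith

theorem factorial_upper (s : ℕ) : (s.factorial : ℝ) * Real.exp s ≤ Real.exp 1 * (s + 1) * s ^ s := by
  rcases Nat.eq_zero_or_pos s with rfl | hs
  · simp
  · obtain ⟨m, rfl⟩ : ∃ m, s = m + 1 := ⟨s - 1, by omega⟩
    have h1 : Stirling.stirlingSeq (m + 1) ≤ Stirling.stirlingSeq 1 :=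
      Stirling.stirlingSeq'_antitone (Nat.zero_le m)
    rw [Stirling.stirlingSeq_one, Stirling.stirlingSeq] at h1
    set s : ℝ := ((m + 1 : ℕ) : ℝ) with hs'
    have hs0 : 1 ≤ s := by rw [hs']; exact_mod_cast Nat.succ_le_succ (Nat.zero_le m)
    have h2 : √(2 * s) = √2 * √s := Real.sqrt_mul (by norm_num) _
    have h3 : √s ≤ s + 1 := by
      rw [Real.sqrt_le_left (by linarith)]; nlinarith
    have h4 : 0 < √2 := Real.sqrt_pos.2 (by norm_num)
    have h5 : 0 < √s := Real.sqrt_pos.2 (by linarith)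
    have h6 : Real.exp s = Real.exp 1 ^ (m + 1) := by
      rw [hs', ← Real.exp_nat_mul, mul_one]
    rw [div_le_div_iff₀ (by positivity) h4, h2, div_pow, ← h6] at h1
    have h7 : 0 < Real.exp s := Real.exp_pos s
    have h8 : ((m + 1).factorial : ℝ) * Real.exp s ≤ Real.exp 1 * √s * s ^ (m + 1) := by
      have h9 : ((m + 1).factorial : ℝ) ≤ Real.exp 1 * √s * s ^ (m + 1) / Real.exp s := by
        refine le_of_mul_le_mul_right (h1.trans (le_of_eq ?_)) h4
        ring
      exact (le_div_iff₀ h7).1 h9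
    refine h8.trans ?_
    gcongr

/-- total number of blank-free words of length `s` -/
theorem N_bound (t : ℕ) (ε : ℕ → ℝ) (hε : ∀ k, 0 < ε k) (hε1 : ∀ k, ε k ≤ 1) (B : ℝ)
    (hB0 : 0 < B)
    (hB : ∑ k ∈ Icc 2 t, 1 / (Real.exp 1 * ε k) + ∑ j ∈ Icc 1 t, ∏ k ∈ Icc 2 j, ε k ≤ B)
    (s : ℕ) : ∑ A ∈ (Icc 2 t).powerset, F t 1 0 s A ≤
      2 ^ t * Real.exp (B + 2) * (s + 1) * B ^ s := by
  have hQ0 : 0 ≤ ∑ j ∈ Icc 1 t, ∏ k ∈ Icc 2 j, ε k :=
    sum_nonneg fun j _ => prod_nonneg fun k _ => (hε k).le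
  rcases Nat.eq_zero_or_pos s with rfl | hs
  · simp only [F, sum_const, card_powerset, Nat.card_Icc, nsmul_eq_mul, mul_one, pow_zero,
      Nat.cast_zero, zero_add, Nat.cast_pow, Nat.cast_ofNat]
    have h1 : (2 : ℝ) ^ (t + 1 - 2) ≤ 2 ^ t := pow_le_pow_right₀ one_le_two (by omega)
    have h2 : 1 ≤ Real.exp (B + 2) := Real.one_le_exp (by linarith)
    have h3 : (0 : ℝ) < 2 ^ t := by positivity
    nlinarith
  · have hs0 : (0 : ℝ) < s := by exact_mod_cast hs
    set x : ℝ := 1 / (B * s) with hx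
    have hx0 : 0 < x := by positivity
    set T := s + s ^ 2 with hT
    have h1 := Mx_bound t ε hε hε1 x hx0.le B hB T (fun _ => 1) (fun _ => zero_le_one)
    have h2 : (T.choose s : ℝ) * x ^ s * ∑ A ∈ (Icc 2 t).powerset, F t 1 0 s A
        ≤ Mx t (F t x 1 T) (fun _ => 1) := by
      rw [Mx, mul_sum]
      refine sum_le_sum fun A _ => ?_
      rw [prod_const_one, one_mul, F_binom t x 1 T A]
      have := single_le_sum (f := fun i => (T.choose i : ℝ) * (x ^ i * 1 ^ (T - i) * F t 1 0 i A))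
        (s := range (T + 1)) (a := s) (fun i _ => mul_nonneg (Nat.cast_nonneg _)
          (mul_nonneg (by positivity) (F_nonneg t 1 0 zero_le_one le_rfl i A)))
        (mem_range.2 (by omega))
      simpa [mul_assoc] using this
    have h3 : ((s : ℝ) ^ 2) ^ s / s.factorial ≤ T.choose s := by
      refine le_trans ?_ (Nat.pow_le_choose s T)
      have : T + 1 - s = s ^ 2 + 1 := by omega
      rw [this]
      push_cast
      gcongr
      linarith
    have h4 : Real.exp (x * B) ^ T = Real.exp s * Real.exp 1 := by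
      rw [← Real.exp_nat_mul, ← Real.exp_add]
      congr 1
      rw [hx, hT]; push_cast; field_simp; ring
    have h5 : Real.exp (∑ k ∈ Icc 2 t, 1 / (Real.exp 1 * ε k)) ≤ Real.exp B :=
      Real.exp_le_exp.2 (by linarith)
    set Z := ∑ A ∈ (Icc 2 t).powerset, F t 1 0 s A with hZ
    have hZ0 : 0 ≤ Z := sum_nonneg fun A _ => F_nonneg t 1 0 zero_le_one le_rfl s A
    have h6 : ((s : ℝ) ^ 2) ^ s / s.factorial * x ^ s * Z ≤
        2 ^ t * Real.exp B * (Real.exp s * Real.exp 1) := by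
      calc _ ≤ (T.choose s : ℝ) * x ^ s * Z := by gcongr
        _ ≤ _ := h2.trans (h1.trans (by rw [h4]; gcongr))
    have h7 : ((s : ℝ) ^ 2) ^ s / s.factorial * x ^ s = (s : ℝ) ^ s / (s.factorial * B ^ s) := by
      rw [hx, one_div, inv_pow, mul_pow, ← pow_mul, two_mul, pow_add]
      field_simp
    rw [h7, div_mul_eq_mul_div, div_le_iff₀ (by positivity)] at h6
    have h8 := factorial_upper s
    have h9 : (0 : ℝ) < (s : ℝ) ^ s := by positivity
    refine le_of_mul_le_mul_left (h6.trans ?_) h9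
    have h10 : Real.exp (B + 2) = Real.exp B * Real.exp 1 * Real.exp 1 := by
      rw [← Real.exp_add, ← Real.exp_add]; congr 1; ring
    rw [h10]
    calc 2 ^ t * Real.exp B * (Real.exp s * Real.exp 1) * (s.factorial * B ^ s)
        = (2 ^ t * Real.exp B * Real.exp 1 * B ^ s) * (s.factorial * Real.exp s) := by ring
      _ ≤ (2 ^ t * Real.exp B * Real.exp 1 * B ^ s) * (Real.exp 1 * (s + 1) * s ^ s) := by gcongr
      _ = _ := by ring

theorem F_total (t : ℕ) (ε : ℕ → ℝ) (hε : ∀ k, 0 < ε k) (hε1 : ∀ k, ε k ≤ 1) (B : ℝ)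
    (hB0 : 0 < B)
    (hB : ∑ k ∈ Icc 2 t, 1 / (Real.exp 1 * ε k) + ∑ j ∈ Icc 1 t, ∏ k ∈ Icc 2 j, ε k ≤ B)
    (b : ℝ) (hb : 0 ≤ b) (R : ℕ) : ∑ A ∈ (Icc 2 t).powerset, F t 1 b R A ≤
      2 ^ t * Real.exp (B + 2) * (R + 1) * (B + b) ^ R := by
  simp only [F_binom t 1 b R]
  rw [sum_comm, add_pow, mul_sum]
  refine sum_le_sum fun i hi => ?_
  simp only [one_pow, one_mul, ← mul_sum]
  have h1 := N_bound t ε hε hε1 B hB0 hB i
  have h2 : (i : ℝ) + 1 ≤ R + 1 := by
    have := mem_range.1 hi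
    exact_mod_cast this
  calc (R.choose i : ℝ) * (b ^ (R - i) * ∑ A ∈ (Icc 2 t).powerset, F t 1 0 i A)
      ≤ (R.choose i : ℝ) * (b ^ (R - i) * (2 ^ t * Real.exp (B + 2) * (R + 1) * B ^ i)) := by
        gcongr
        exact h1.trans (by gcongr)
    _ = _ := by ring

/-- all accepted words, from any initial state -/
def AllWords (g t R : ℕ) : Finset (List (ℕ ⊕ ℕ)) := (Icc 2 t).powerset.biUnion (Words g t R)

theorem B_ok (t : ℕ) (e : ℝ) (he : 0 < e) :
    ∑ k ∈ Icc 2 t, 1 / (Real.exp 1 * (if k = 2 then e else 1)) +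
      ∑ j ∈ Icc 1 t, ∏ k ∈ Icc 2 j, (if k = 2 then e else 1) ≤
        t / Real.exp 1 + 1 / e + 1 + t * e := by
  have h0 : 1 ≤ Real.exp 1 := Real.one_le_exp zero_le_one
  have h1 : ∑ k ∈ Icc 2 t, 1 / (Real.exp 1 * (if k = 2 then e else 1)) ≤
      ∑ k ∈ Icc 2 t, (1 / Real.exp 1 + if k = 2 then 1 / e else 0) := by
    refine sum_le_sum fun k _ => ?_
    split_ifs
    · have : 1 / (Real.exp 1 * e) ≤ 1 / e := by
        apply one_div_le_one_div_of_le he; nlinarith
      have : 0 < 1 / Real.exp 1 := by positivity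
      linarith
    · simp
  have h2 : ∑ j ∈ Icc 1 t, ∏ k ∈ Icc 2 j, (if k = 2 then e else 1) ≤
      ∑ j ∈ Icc 1 t, (e + if j = 1 then 1 else 0) := by
    refine sum_le_sum fun j hj => ?_
    rw [prod_ite_eq']
    have := mem_Icc.1 hj
    by_cases h : j = 1
    · subst h; simp; exact he.le
    · rw [if_pos (mem_Icc.2 ⟨le_rfl, by omega⟩), if_neg h, add_zero]
  rw [sum_add_distrib, sum_const, sum_ite_eq', Nat.card_Icc, nsmul_eq_mul] at h1 h2
  have h3 : ((t + 1 - 2 : ℕ) : ℝ) ≤ t := by exact_mod_cast (by omega : t + 1 - 2 ≤ t)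
  have h4 : ((t + 1 - 2 : ℕ) : ℝ) * (1 / Real.exp 1) ≤ t / Real.exp 1 := by
    rw [mul_one_div]; gcongr
  have h5 : (if 2 ∈ Icc 2 t then 1 / e else 0) ≤ 1 / e := by
    split_ifs
    · exact le_rfl
    · positivity
  have h6 : (if 1 ∈ Icc 1 t then (1 : ℝ) else 0) ≤ 1 := by
    split_ifs
    · exact le_rfl
    · exact zero_le_one
  rw [Nat.add_sub_cancel] at h2
  linarith

theorem sum_AllWords_le (g t R : ℕ) (c : ℝ) (hc : 0 ≤ c) (e : ℝ) (he : 0 < e) (he1 : e ≤ 1)
    (B : ℝ) (hB : t / Real.exp 1 + 1 / e + 1 + t * e ≤ B) :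
    ∑ w ∈ AllWords g t R, c ^ nl w ≤ 2 ^ t * Real.exp (B + 2) * (R + 1) * (B + g * c) ^ R := by
  have hB0 : 0 < B := lt_of_lt_of_le (by positivity) hB
  refine (sum_biUnion_le' _ _ _ (fun w => pow_nonneg hc _)).trans ?_
  refine (sum_le_sum fun A _ => sum_Words_le g t c hc R A).trans ?_
  refine F_total t (fun k => if k = 2 then e else 1) (fun k => ?_) (fun k => ?_) B hB0
    ((B_ok t e he).trans hB) _ (by positivity) R
  · split_ifs
    · exact he
    · exact zero_lt_one
  · split_ifs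
    · exact he1
    · exact le_rfl

end Pool.Agent.P.MP_8acafb_co
end
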