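import Pool.Agent.K.MP_8acafb_co.C0

namespace Pool.Agent.P.MP_8acafb_co

open Finset

/-- label of an entry: its distance below the floor `f`, or its rank in `w` -/
def lab (w : List ℕ) (f v : ℕ) : ℕ ⊕ ℕ := if v < f then Sum.inl (f - 1 - v) else Sum.inr (rk w v)

/-- pending ranks -/
def St (t : ℕ) (w : List ℕ) (f : ℕ) (p : List ℕ) : Finset ℕ :=
  (Icc 2 t).filter (fun k => ∃ v ∈ p, f ≤ v ∧ rk w v = k ∧ rk p v < k)

theorem pending_unique (p u : List ℕ) (hn : (p ++ u).Nodup) (y v : ℕ) (hy : y ∈ p) (hv : v ∈ p)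
    (h : rk (p ++ u) y = rk (p ++ u) v) (h1 : rk p y < rk (p ++ u) y)
    (h2 : rk p v < rk (p ++ u) v) : y = v := by
  rcases lt_trichotomy y v with h3 | h3 | h3
  · have := rk_stable p u hn y v hy h3 h; omega
  · exact h3
  · have := rk_stable p u hn v y hv h3 h.symm; omega

theorem word_mem (g t f : ℕ) (u : List ℕ) : ∀ (p w : List ℕ), w = p ++ u → w.Nodup →
    (∀ v, f ≤ v → rk w v ≤ t) → (∀ v ∈ u, v < f → f - 1 - v < g) →
    u.map (lab w f) ∈ Words g t u.length (St t w f p) := by
  induction u with
  | nil => intro p w _ _ _ _; simp [Words]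
  | cons x u ih =>
    intro p w hw hn ht hg
    have hw' : w = (p ++ [x]) ++ u := by simp [hw]
    have ih := ih (p ++ [x]) w hw' hn ht (fun v hv => hg v (by simp [hv]))
    have hn1 : ((p ++ [x]) ++ u).Nodup := hw' ▸ hn
    have hn2 : (p ++ x :: u).Nodup := hw ▸ hn
    have hn' : (p ++ [x]).Nodup := (List.nodup_append.1 hn1).1
    have hxp : x ∉ p := fun h => (List.nodup_append.1 hn').2.2 x h x (by simp) rfl
    have hx1 : rk (p ++ [x]) x = 1 := rk_new hn'
    have hm1 : ∀ v, rk p v ≤ rk (p ++ [x]) v := fun v => rk_mono_one v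
    have hm2 : ∀ v, rk (p ++ [x]) v ≤ rk w v := fun v => hw' ▸ rk_mono (p ++ [x]) u v
    -- entries attaining their final rank now
    let Att : ℕ → Prop := fun k => ∃ y, f ≤ y ∧ rk w y = k ∧ rk p y < k ∧ rk (p ++ [x]) y = k
    have hdown : ∀ k, Att (k + 2) → Att (k + 1) := by
      rintro k ⟨y, h1, h2, h3, h4⟩
      obtain ⟨z, h5, h6, h7⟩ := exists_larger hn' y k h3 h4
      have h8 := rk_lt (p ++ [x]) u hn1 y z h5 (by omega)
      rw [← hw'] at h8
      have := hm2 z
      exact ⟨z, by omega, by omega, h6, h7⟩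
    have hdown' : ∀ k j, Att k → 1 ≤ j → j ≤ k → Att j := by
      intro k
      induction k with
      | zero => intro j _ h1 h2; omega
      | succ k ihk =>
        intro j h h1 h2
        rcases Nat.lt_or_ge j (k + 1) with h3 | h3
        · obtain ⟨k, rfl⟩ : ∃ k', k = k' + 1 := ⟨k - 1, by omega⟩
          exact ihk j (hdown k h) h1 (by omega)
        · obtain rfl : j = k + 1 := by omega
          exact h
    have hone : Att 1 → f ≤ x ∧ rk w x = 1 := by
      rintro ⟨y, h1, h2, h3, h4⟩
      have h5 : y ∈ p ++ [x] := (rk_pos _ _).1 (by omega)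
      have h6 : y ∉ p := fun h => by have := (rk_pos p y).2 h; omega
      obtain rfl : y = x := by simpa [h6] using h5
      exact ⟨h1, h2⟩
    have hin : ∀ k y, 2 ≤ k → rk (p ++ [x]) y = k → y ∈ p := by
      intro k y h1 h2
      have h5 : y ∈ p ++ [x] := (rk_pos _ _).1 (by omega)
      rcases List.mem_append.1 h5 with h | h
      · exact h
      · rw [List.mem_singleton] at h
        subst h; omega
    have hSt : ∀ k, k ∈ St t w f (p ++ [x]) ↔
        (k ∈ St t w f p ∧ ¬ Att k) ∨ (k ∈ Icc 2 t ∧ f ≤ x ∧ rk w x = k) := by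
      intro k
      simp only [St, mem_filter]
      constructor
      · rintro ⟨hk, v, hv, h1, h2, h3⟩
        rcases List.mem_append.1 hv with h | h
        · have h4 := hm1 v
          refine Or.inl ⟨⟨hk, v, h, h1, h2, by omega⟩, ?_⟩
          rintro ⟨y, h5, h6, h7, h8⟩
          have h9 := hin k y (mem_Icc.1 hk).1 h8
          have := pending_unique p (x :: u) hn2 y v h9 h (by rw [← hw]; omega)
            (by rw [← hw]; omega) (by rw [← hw]; omega)
          subst this; omega
        · rw [List.mem_singleton] at h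
          subst h
          exact Or.inr ⟨hk, h1, h2⟩
      · rintro (⟨⟨hk, v, hv, h1, h2, h3⟩, h4⟩ | ⟨hk, h1, h2⟩)
        · refine ⟨hk, v, List.mem_append_left _ hv, h1, h2, ?_⟩
          by_contra h5
          have := hm2 v
          exact h4 ⟨v, h1, h2, h3, by omega⟩
        · have := (mem_Icc.1 hk).1
          exact ⟨hk, x, by simp, h1, h2, by omega⟩
    rw [List.map_cons, List.length_cons, Words]
    simp only [mem_union, mem_biUnion, mem_image]
    by_cases hxf : x < f
    · have hno : ∀ k, 1 ≤ k → ¬ Att k := fun k hk h => by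
        have := (hone (hdown' k 1 h le_rfl hk)).1; omega
      have hS : St t w f (p ++ [x]) = St t w f p := by
        ext k
        rw [hSt]
        constructor
        · rintro (h | h)
          · exact h.1
          · omega
        · intro h
          have := (mem_Icc.1 (mem_filter.1 h).1).1
          exact Or.inl ⟨h, hno k (by omega)⟩
      refine Or.inl (Or.inl ⟨f - 1 - x, mem_range.2 (hg x (by simp) hxf), _, hS ▸ ih, ?_⟩)
      simp [lab, hxf]
    · have hxf' : f ≤ x := not_lt.1 hxf
      have hxt := ht x hxf'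
      have hx2 := hm2 x
      by_cases hx : rk w x = 1
      · have hA1 : Att 1 := ⟨x, hxf', hx, by rw [rk_eq_zero p x hxp]; omega, hx1⟩
        classical
        set j := Nat.findGreatest Att t with hj
        have hj1 : 1 ≤ j := Nat.le_findGreatest (by omega) hA1
        have hj2 : j ≤ t := Nat.findGreatest_le t
        have hj3 : Att j := Nat.findGreatest_spec (m := 1) (by omega) hA1
        have hsub : Icc 2 j ⊆ St t w f p := by
          intro k hk
          have hk' := mem_Icc.1 hk
          obtain ⟨y, h1, h2, h3, h4⟩ := hdown' j k hj3 (by omega) hk'.2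
          exact mem_filter.2 ⟨mem_Icc.2 ⟨hk'.1, by omega⟩, y, hin k y hk'.1 h4, h1, h2, h3⟩
        have hS : St t w f (p ++ [x]) = St t w f p \ Icc 2 j := by
          ext k
          rw [hSt, mem_sdiff]
          constructor
          · rintro (h | h)
            · refine ⟨h.1, fun h1 => h.2 ?_⟩
              have := mem_Icc.1 h1
              exact hdown' j k hj3 (by omega) this.2
            · have := (mem_Icc.1 h.1).1; omega
          · rintro ⟨h1, h2⟩
            have h3 := mem_Icc.1 (mem_filter.1 h1).1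
            exact Or.inl ⟨h1, fun h4 => h2 (mem_Icc.2 ⟨h3.1, Nat.le_findGreatest h3.2 h4⟩)⟩
        refine Or.inr ⟨j, mem_filter.2 ⟨mem_Icc.2 ⟨hj1, hj2⟩, hsub⟩, _, hS ▸ ih, ?_⟩
        simp [lab, hxf, hx]
      · have hno : ∀ k, 1 ≤ k → ¬ Att k := fun k hk h => hx (hone (hdown' k 1 h le_rfl hk)).2
        have hk : rk w x ∈ Icc 2 t := mem_Icc.2 ⟨by omega, hxt⟩
        have hS : St t w f (p ++ [x]) = insert (rk w x) (St t w f p) := by
          ext k
          rw [hSt, mem_insert]
          constructor
          · rintro (h | h)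
            · exact Or.inr h.1
            · exact Or.inl h.2.2.symm
          · rintro (h | h)
            · exact Or.inr ⟨h ▸ hk, hxf', h.symm⟩
            · have := (mem_Icc.1 (mem_filter.1 h).1).1
              exact Or.inl ⟨h, hno k (by omega)⟩
        have hnot : rk w x ∉ St t w f p := by
          intro h
          obtain ⟨_, v, hv, h1, h2, h3⟩ := mem_filter.1 h
          have h4 : rk (p ++ [x]) v < rk w x := by
            by_contra h5
            have := hm2 v
            exact hno (rk w x) (by omega) ⟨v, h1, h2, h3, by omega⟩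
          have := pending_unique (p ++ [x]) u hn1 v x (List.mem_append_left _ hv) (by simp)
            (by rw [← hw']; omega) (by rw [← hw']; omega) (by rw [← hw']; omega)
          exact hxp (this ▸ hv)
        refine Or.inl (Or.inr ⟨rk w x, mem_sdiff.2 ⟨hk, hnot⟩, _, hS ▸ ih, ?_⟩)
        simp [lab, hxf]

/-- peeling lemma: the window is determined by its labels -/
theorem window_eq {γ : Type*} (L : ℕ → γ) (u1 : List ℕ) : ∀ (u2 p1 p2 : List ℕ),
    (p1 ++ u1).Perm (p2 ++ u2) → (p1 ++ u1).Pairwise (fun a b => L a = L b → b < a) →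
    (p2 ++ u2).Pairwise (fun a b => L a = L b → b < a) → u1.map L = u2.map L → u1 = u2 := by
  induction u1 using List.reverseRecOn with
  | nil => intro u2 _ _ _ _ _ h; simpa using h.symm
  | append_singleton u1 x1 ih =>
    intro u2 p1 p2 hp h1 h2 h
    rcases List.eq_nil_or_concat u2 with rfl | ⟨u2, x2, rfl⟩
    · simp at h
    · rw [List.concat_eq_append] at *
      rw [List.map_append, List.map_append] at h
      obtain ⟨h3, h4⟩ := List.append_inj' h rfl
      have h5 : L x1 = L x2 := by simpa using h4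
      rw [← List.append_assoc] at hp h1 h2
      rw [← List.append_assoc] at hp
      rw [List.pairwise_append] at h1 h2
      have h6 : x1 = x2 := by
        by_contra hne
        have h7 : x1 ∈ p2 ++ u2 := by
          have := hp.subset (List.mem_append_right _ (List.mem_singleton_self x1))
          simpa [hne] using this
        have h8 : x2 ∈ p1 ++ u1 := by
          have := hp.symm.subset (List.mem_append_right _ (List.mem_singleton_self x2))
          simpa [Ne.symm hne] using this
        have h9 := h1.2.2 x2 h8 x1 (by simp) h5.symm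
        have h10 := h2.2.2 x1 h7 x2 (by simp) h5
        omega
      subst h6
      rw [ih u2 p1 p2 ((List.perm_append_right_iff _).1 hp) h1.1 h2.1 h3]

/-- the floor: the least entry still to come (`n` if none) -/
def fl (n : ℕ) (q : List ℕ) : ℕ := q.foldr min n

theorem fl_le (n : ℕ) (q : List ℕ) : fl n q ≤ n ∧ ∀ v ∈ q, fl n q ≤ v := by
  induction q with
  | nil => simp [fl]
  | cons x q ih =>
    have : fl n (x :: q) = min x (fl n q) := rfl
    rw [this]
    refine ⟨(min_le_right _ _).trans ih.1, fun v hv => ?_⟩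
    rcases List.mem_cons.1 hv with rfl | hv
    · exact min_le_left _ _
    · exact (min_le_right _ _).trans (ih.2 v hv)

theorem fl_mem (n : ℕ) (q : List ℕ) : fl n q = n ∨ fl n q ∈ q := by
  induction q with
  | nil => simp [fl]
  | cons x q ih =>
    have : fl n (x :: q) = min x (fl n q) := rfl
    rw [this]
    rcases le_total x (fl n q) with h | h
    · rw [min_eq_left h]; simp
    · rw [min_eq_right h]
      rcases ih with ih | ih
      · exact Or.inl ih
      · exact Or.inr (List.mem_cons_of_mem _ ih)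

theorem fl_append_le (n : ℕ) (u q : List ℕ) : fl n (u ++ q) ≤ fl n q := by
  rcases fl_mem n q with h | h
  · rw [h]; exact (fl_le n _).1
  · exact (fl_le n _).2 _ (List.mem_append_right _ h)

/-- `π` is a permutation of `0..n-1` sorted by `t` passes -/
def Srt (t n : ℕ) (π : List ℕ) : Prop := π.Perm (List.range n) ∧ s^[t] π = List.range n

theorem Srt.nodup {t n : ℕ} {π : List ℕ} (h : Srt t n π) : π.Nodup :=
  h.1.nodup_iff.2 List.nodup_range

theorem rk_le_of_Srt {t n : ℕ} {p q : List ℕ} (h : Srt t n (p ++ q)) (v : ℕ) (hv : fl n q ≤ v) :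
    rk p v ≤ t := by
  by_cases hp : v ∈ p
  · have h1 : v < n := List.mem_range.1 (h.1.subset (List.mem_append_left _ hp))
    have h2 : fl n q ∈ q := (fl_mem n q).resolve_left (by omega)
    have h3 : fl n q ≠ v := fun h4 => (List.nodup_append.1 h.nodup).2.2 v hp _ h2 h4.symm
    refine rk_le_of_sorted t p q h.nodup ?_ v _ h2 (lt_of_le_of_ne hv h3)
    rw [h.2]; exact List.pairwise_le_range
  · rw [rk_eq_zero p v hp]; exact Nat.zero_le _

/-- what is remembered after reading `p`, with `q` still to come -/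
def info (n : ℕ) (p q : List ℕ) : List ℕ × (ℕ → ℕ) :=
  (q, fun v => if fl n q ≤ v then rk p v else 0)

/-- the code of a window `u` -/
noncomputable def code (t n : ℕ) (p u q : List ℕ) : ℕ × List (ℕ ⊕ ℕ) × List ℕ × List ℕ :=
  (fl n q - fl n (u ++ q), u.map (lab (p ++ u) (fl n q)),
    ((List.range' (fl n (u ++ q)) (fl n q - fl n (u ++ q))).filter (· ∉ u)).map (rk p),
    (List.range (t + 1)).map
      (fun k => min t (rk p (sInf {v | v ∈ p ∧ fl n q ≤ v ∧ rk (p ++ u) v = k}))))

theorem lab_pairwise (w : List ℕ) (hn : w.Nodup) (f : ℕ) :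
    w.Pairwise (fun a b => lab w f a = lab w f b → b < a) := by
  refine (hn.and (rk_pairwise w hn)).imp ?_
  rintro a b ⟨h1, h2⟩ h
  unfold lab at h
  split_ifs at h with h3 h4
  · simp only [Sum.inl.injEq] at h; omega
  · exact h2 (Sum.inr.inj h)

theorem info_determined {t n : ℕ} {p1 u1 q1 p2 u2 q2 : List ℕ} (h1 : Srt t n (p1 ++ u1 ++ q1))
    (h2 : Srt t n (p2 ++ u2 ++ q2)) (hi : info n (p1 ++ u1) q1 = info n (p2 ++ u2) q2)
    (hc : code t n p1 u1 q1 = code t n p2 u2 q2) :
    info n p1 (u1 ++ q1) = info n p2 (u2 ++ q2) := by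
  obtain rfl : q1 = q2 := congrArg Prod.fst hi
  have hr : ∀ v, fl n q1 ≤ v → rk (p1 ++ u1) v = rk (p2 ++ u2) v := fun v hv => by
    have := congrFun (congrArg Prod.snd hi) v
    simpa [info, hv] using this
  have hlab : lab (p1 ++ u1) (fl n q1) = lab (p2 ++ u2) (fl n q1) := by
    funext v
    unfold lab
    split_ifs with h
    · rfl
    · rw [hr v (not_lt.1 h)]
  have hn1 := (List.nodup_append.1 h1.nodup).1
  have hn2 := (List.nodup_append.1 h2.nodup).1
  have hp : (p1 ++ u1).Perm (p2 ++ u2) := (List.perm_append_right_iff _).1 (h1.1.trans h2.1.symm)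
  simp only [code, Prod.mk.injEq] at hc
  obtain ⟨-, hw, hβ, hrr⟩ := hc
  obtain rfl : u1 = u2 := by
    refine window_eq (lab (p1 ++ u1) (fl n q1)) u1 u2 p1 p2 hp (lab_pairwise _ hn1 _) ?_ ?_
    · rw [hlab]; exact lab_pairwise _ hn2 _
    · rw [hw, hlab]
  have hp' : p1.Perm p2 := (List.perm_append_right_iff _).1 hp
  simp only [info, Prod.mk.injEq, true_and]
  funext v
  split_ifs with hv
  swap
  · rfl
  by_cases hvp : v ∈ p1
  swap
  · rw [rk_eq_zero _ _ hvp, rk_eq_zero _ _ (fun h => hvp (hp'.symm.subset h))]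
  have hvp2 := hp'.subset hvp
  by_cases hvf : v < fl n q1
  · refine List.map_inj_left.1 hβ v (List.mem_filter.2 ⟨List.mem_range'_1.2 ⟨hv, by omega⟩, ?_⟩)
    simpa using fun h => (List.nodup_append.1 hn1).2.2 v hvp v h rfl
  · have hvf' := not_lt.1 hvf
    have hk := rk_le_of_Srt h1 v hvf'
    have hE := List.map_inj_left.1 hrr (rk (p1 ++ u1) v) (List.mem_range.2 (by omega))
    have hset : {y | y ∈ p2 ∧ fl n q1 ≤ y ∧ rk (p2 ++ u1) y = rk (p1 ++ u1) v} =
        {y | y ∈ p1 ∧ fl n q1 ≤ y ∧ rk (p1 ++ u1) y = rk (p1 ++ u1) v} := by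
      ext y
      simp only [Set.mem_ofPred_eq, hp'.mem_iff]
      constructor
      · rintro ⟨a, b, c⟩; exact ⟨a, b, by rw [hr y b, c]⟩
      · rintro ⟨a, b, c⟩; exact ⟨a, b, by rw [← hr y b, c]⟩
    simp only [hset] at hE
    set E := {y | y ∈ p1 ∧ fl n q1 ≤ y ∧ rk (p1 ++ u1) y = rk (p1 ++ u1) v} with hEdef
    have hvE : v ∈ E := ⟨hvp, hvf', rfl⟩
    have hy : sInf E ∈ E := Nat.sInf_mem ⟨v, hvE⟩
    have hm1 := rk_mono p1 u1 v
    have hm2 := rk_mono p2 u1 v
    have hrv := hr v hvf'
    rcases (Nat.sInf_le hvE).eq_or_lt with h | h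
    · rw [h] at hE; omega
    · rw [rk_stable p1 u1 hn1 _ v hy.1 h hy.2.2,
        rk_stable p2 u1 hn2 _ v (hp'.subset hy.1) h (by rw [← hr _ hy.2.1, ← hrv]; exact hy.2.2),
        hrv]

/-- lists of length `L` with entries at most `t` -/
def Lst (t : ℕ) : ℕ → Finset (List ℕ)
  | 0 => {[]}
  | L + 1 => (range (t + 1)).biUnion (fun v => (Lst t L).image (List.cons v))

theorem mem_Lst (t : ℕ) (l : List ℕ) (h : ∀ v ∈ l, v ≤ t) : l ∈ Lst t l.length := by
  induction l with
  | nil => simp [Lst]
  | cons x l ih =>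
    simp only [List.length_cons, Lst, mem_biUnion, mem_image]
    exact ⟨x, mem_range.2 (Nat.lt_succ_of_le (h x (by simp))), l,
      ih (fun v hv => h v (by simp [hv])), rfl⟩

theorem card_Lst (t L : ℕ) : (Lst t L).card ≤ (t + 1) ^ L := by
  induction L with
  | zero => simp [Lst]
  | succ L ih =>
    refine card_biUnion_le.trans ?_
    refine (sum_le_sum (g := fun _ => (t + 1) ^ L) fun v _ => card_image_le.trans ih).trans ?_
    simp [pow_succ, mul_comm]

/-- all codes -/
def Codes (t n R : ℕ) : Finset (ℕ × List (ℕ ⊕ ℕ) × List ℕ × List ℕ) :=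
  (range (n + 1)).biUnion (fun g => ((AllWords g t R).filter (fun w => nl w ≤ g)).biUnion
    (fun w => (Lst t (g - nl w) ×ˢ Lst t (t + 1)).image (fun z => (g, w, z))))

theorem code_mem {t n : ℕ} {p u q : List ℕ} (h : Srt t n (p ++ u ++ q)) :
    code t n p u q ∈ Codes t n u.length := by
  have hn1 := (List.nodup_append.1 h.nodup).1
  have hnu := (List.nodup_append.1 hn1).2.1
  have hf := fl_append_le n u q
  have hu : ∀ v ∈ u, fl n (u ++ q) ≤ v := fun v hv => (fl_le n _).2 v (List.mem_append_left _ hv)
  set f := fl n (u ++ q) with hfdef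
  set f' := fl n q with hf'def
  have hnl : nl (u.map (lab (p ++ u) f')) =
      ((List.range' f (f' - f)).filter (· ∈ u)).length := by
    rw [nl, List.countP_map, List.countP_eq_length_filter]
    refine List.Perm.length_eq ((List.perm_ext_iff_of_nodup (hnu.filter _)
      ((List.nodup_range' (step := 1) Nat.one_pos).filter _)).2 fun v => ?_)
    simp only [List.mem_filter, Function.comp, List.mem_range'_1, decide_eq_true_eq, lab]
    constructor
    · rintro ⟨h1, h2⟩
      have := hu v h1
      split_ifs at h2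
      · exact ⟨⟨this, by omega⟩, h1⟩
      · simp at h2
    · rintro ⟨⟨h1, h2⟩, h3⟩
      rw [if_pos (by omega)]
      exact ⟨h3, rfl⟩
  have hlen := List.length_eq_length_filter_add (l := List.range' f (f' - f)) (fun v => decide (v ∈ u))
  rw [List.length_range', ← hnl] at hlen
  simp only [Codes, mem_biUnion, mem_image, mem_filter, mem_product]
  refine ⟨f' - f, mem_range.2 (by have := (fl_le n q).1; omega), u.map (lab (p ++ u) f'),
    ⟨?_, by omega⟩, ((code t n p u q).2.2.1, (code t n p u q).2.2.2), ⟨?_, ?_⟩, rfl⟩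
  · refine mem_biUnion.2 ⟨St t (p ++ u) f' p, mem_powerset.2 (filter_subset _ _), ?_⟩
    refine word_mem _ t f' u p _ rfl hn1 (fun v hv => rk_le_of_Srt h v hv) fun v hv h1 => ?_
    have := hu v hv
    omega
  · have h1 := mem_Lst t (code t n p u q).2.2.1 (by
      intro k hk
      simp only [code, List.mem_map, List.mem_filter, List.mem_range'_1] at hk
      obtain ⟨v, ⟨⟨h2, _⟩, _⟩, rfl⟩ := hk
      exact rk_le_of_Srt (by rw [← List.append_assoc]; exact h) v h2)
    have h2 : (code t n p u q).2.2.1.length = f' - f - nl (u.map (lab (p ++ u) f')) := by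
      simp only [code, List.length_map, ← hfdef, ← hf'def, decide_not]
      omega
    rwa [h2] at h1
  · have h1 := mem_Lst t (code t n p u q).2.2.2 (by
      intro k hk
      simp only [code, List.mem_map] at hk
      obtain ⟨v, _, rfl⟩ := hk
      exact min_le_left _ _)
    have h2 : (code t n p u q).2.2.2.length = t + 1 := by simp [code]
    rwa [h2] at h1

end Pool.Agent.P.MP_8acafb_co
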