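import Pool.Agent.K.MP_8acafb_co.C0
import Pool.Agent.K.MP_8acafb_co.C8
import Pool.Agent.K.MP_8acafb_co.C10
import Pool.Agent.K.MP_8acafb_co.C9
import Pool.Agent.K.MP_8acafb_co.C2

-- part Pool.Agent.P.MP_8acafb_co.T3Defs
section

namespace Pool.Agent.P.MP_8acafb_co.T3

open Finset

/-- exactly `n` objects satisfy `P` -/
def Cnt {α : Type} (P : α → Prop) (n : ℕ) : Prop :=
  ∃ F : Finset α, (∀ a, a ∈ F ↔ P a) ∧ F.card = n

/-- labelled binary trees -/
inductive Tr where
  | nil : Tr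
  | node : Tr → ℕ → Tr → Tr

/-- shapes of binary trees -/
inductive Sp where
  | nil : Sp
  | node : Sp → Sp → Sp

def Tr.sp : Tr → Sp
  | .nil => .nil
  | .node l _ r => .node l.sp r.sp

/-- in-order reading -/
def Tr.ino : Tr → List ℕ
  | .nil => []
  | .node l v r => l.ino ++ v :: r.ino

/-- post-order reading -/
def Tr.post : Tr → List ℕ
  | .nil => []
  | .node l v r => l.post ++ r.post ++ [v]

/-- decreasing trees -/
def Tr.dec : Tr → Prop
  | .nil => True
  | .node l v r => l.dec ∧ r.dec ∧ (∀ x ∈ l.post, x < v) ∧ (∀ x ∈ r.post, x < v)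

def Sp.size : Sp → ℕ
  | .nil => 0
  | .node l r => l.size + r.size + 1

def Sp.isN : Sp → ℕ
  | .nil => 1
  | .node _ _ => 0

/-- concatenated post-order readings; the head of the list is the last tree -/
def cat : List Tr → List ℕ
  | [] => []
  | T :: F => cat F ++ T.post

/-- `F` is a list of `k` nonempty decreasing trees with concatenated reading `w` -/
def Fo (w : List ℕ) (k : ℕ) (F : List Tr) : Prop :=
  F.length = k ∧ (∀ T ∈ F, T ≠ .nil ∧ T.dec) ∧ cat F = w

def cv (f g : ℕ → ℕ) (k : ℕ) : ℕ := ∑ p ∈ antidiagonal k, f p.1 * g p.2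

def opA (f : ℕ → ℕ) : ℕ → ℕ
  | 0 => 0
  | k + 1 => f k + 2 * f (k + 1) + f (k + 2)

def A : Sp → ℕ → ℕ
  | .nil => fun k => if k = 0 then 1 else 0
  | .node l r => cv (opA (A l)) (A r)

def vB (f : ℕ → ℕ) (b : ℕ) : ℕ := f (b + 1) + if b = 0 then f 0 else 0

def B : Sp → ℕ → ℕ
  | .nil => fun _ => 0
  | .node l r => fun m => ∑ j ∈ range (m + 1),
      (l.isN * r.isN * (if j = 0 then 1 else 0) + r.isN * B l j + l.isN * B r j
        + cv (B l) (vB (B r)) j)

/-- number of pairs (tree of the shape, initial stack of size `m`) with final stack of size `u` -/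
def N : Sp → ℕ → ℕ → ℕ
  | .nil, u, m => if u = m then 1 else 0
  | .node l r, u, m => if 1 ≤ u ∧ u ≤ m + 1 then B (.node l r) (m + 1 - u) else 0

/-- reading the tree `p.1` from the stack `p.2` outputs `c, ..., c+e-1` and leaves the stack `U` -/
def Yp (S : Sp) (c e : ℕ) (U : List ℕ) (m : ℕ) (p : Tr × List ℕ) : Prop :=
  p.1.sp = S ∧ p.1.dec ∧ p.2.length = m ∧ p.2.Pairwise (· < ·) ∧
    out p.2 p.1.post = List.range' c e ∧ stk p.2 p.1.post = U

open Classical in
/-- shapes of height at most `n` -/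
noncomputable def HT : ℕ → Finset Sp
  | 0 => {.nil}
  | n + 1 => insert .nil ((HT n ×ˢ HT n).image fun p => .node p.1 p.2)

/-- real arrays -/
abbrev Ar := ℕ → ℕ → ℝ

def sh (y : ℝ) (f : Ar) : Ar
  | _, 0 => 0
  | i, j + 1 => y * f i j

def dn (f : Ar) : Ar
  | 0, _ => 0
  | i + 1, j => f i j

def Uo (x : ℝ) (f : Ar) : Ar
  | 0, _ => 0
  | i + 1, j => f (i + 1) j + 2 * x * f i j + x ^ 2 * dn f i j

noncomputable def Vo (y : ℝ) (f : Ar) : Ar :=
  fun i j => f i (j + 1) / y + if j = 0 then f i 0 else 0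

noncomputable def Lin (x : ℝ) (f : Ar) : Ar :=
  fun i j => f (i + 1) j / x + 2 * f i j + 2 * x * dn f i j

def cv2 (f g : Ar) : Ar :=
  fun i j => ∑ p ∈ antidiagonal i, ∑ q ∈ antidiagonal j, f p.1 q.1 * g p.2 q.2

def del : Ar := fun i j => if i = 0 ∧ j = 0 then 1 else 0

noncomputable def R (x y : ℝ) (f : Ar) : Ar :=
  fun i j => del i j + Lin x f i j + cv2 (Uo x f) (Vo y f) i j

noncomputable def Lam (x y : ℝ) (P d : Ar) : Ar :=
  fun i j => Lin x d i j + cv2 (Uo x P) (Vo y d) i j + cv2 (Uo x d) (Vo y P) i j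

/-- weight array of one shape -/
def gs (x y z : ℝ) (S : Sp) : Ar :=
  fun i j => z ^ S.size * ((A S (i + 1) : ℝ) * x ^ i) * ((B S j : ℝ) * y ^ j)

noncomputable def GG (x y z : ℝ) (n : ℕ) : Ar := fun i j => ∑ S ∈ HT n, gs x y z S i j

/-- the iteration `G 0 = 0`, `G (n+1) = sh G (n+1) + z R (G n)` of nonnegative arrays -/
structure Iter (x y z : ℝ) (G : ℕ → Ar) : Prop where
  zero : ∀ i j, G 0 i j = 0
  succ : ∀ n i j, G (n + 1) i j = sh y (G (n + 1)) i j + z * R x y (G n) i j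
  nonneg : ∀ n i j, 0 ≤ G n i j

/-- nonnegative arrays that vanish outside a box -/
structure Box (I J : ℕ) (P : Ar) : Prop where
  nonneg : ∀ i j, 0 ≤ P i j
  supp : ∀ i j, I ≤ i ∨ J ≤ j → P i j = 0

/-- sum over a square -/
def nm (M : ℕ) (f : Ar) : ℝ := ∑ i ∈ range M, ∑ j ∈ range M, f i j

end Pool.Agent.P.MP_8acafb_co.T3
end

-- part Pool.Agent.P.MP_8acafb_co.T3Cnt
section

namespace Pool.Agent.P.MP_8acafb_co.T3

open Finset

variable {α β : Type} {P Q : α → Prop} {m n : ℕ}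

theorem Cnt.congr (h : Cnt P n) (hPQ : ∀ a, P a ↔ Q a) : Cnt Q n := by
  obtain ⟨F, h1, h2⟩ := h
  exact ⟨F, fun a => (h1 a).trans (hPQ a), h2⟩

theorem Cnt.unique (h : Cnt P m) (h' : Cnt P n) : m = n := by
  obtain ⟨F, h1, rfl⟩ := h
  obtain ⟨G, h3, rfl⟩ := h'
  rw [show F = G from Finset.ext fun a => (h1 a).trans (h3 a).symm]

theorem Cnt.zero (h : ∀ a, ¬ P a) : Cnt P 0 := ⟨∅, fun a => by simp [h a], rfl⟩

theorem Cnt.one (a0 : α) (h : ∀ a, P a ↔ a = a0) : Cnt P 1 := ⟨{a0}, fun a => by simp [h a], rfl⟩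

theorem Cnt.map (h : Cnt P n) (f : α → β) (hinj : ∀ a b, P a → P b → f a = f b → a = b) :
    Cnt (fun b => ∃ a, P a ∧ f a = b) n := by
  classical
  obtain ⟨F, h1, rfl⟩ := h
  refine ⟨F.image f, fun b => by simp [h1], card_image_of_injOn fun a ha b hb hab => ?_⟩
  exact hinj a b ((h1 a).1 ha) ((h1 b).1 hb) hab

/-- transport along a bijection -/
theorem Cnt.bij {Q : β → Prop} (h : Cnt P n) (f : α → β)
    (hinj : ∀ a b, P a → P b → f a = f b → a = b) (hf : ∀ a, P a → Q (f a))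
    (hs : ∀ b, Q b → ∃ a, P a ∧ f a = b) : Cnt Q n :=
  (h.map f hinj).congr fun b => ⟨fun ⟨a, ha, hb⟩ => hb ▸ hf a ha, hs b⟩

theorem Cnt.or (h : Cnt P m) (h' : Cnt Q n) (hd : ∀ a, P a → Q a → False) :
    Cnt (fun a => P a ∨ Q a) (m + n) := by
  classical
  obtain ⟨F, h1, rfl⟩ := h
  obtain ⟨G, h3, rfl⟩ := h'
  refine ⟨F ∪ G, fun a => by simp [h1, h3], card_union_of_disjoint ?_⟩
  exact disjoint_left.2 fun a ha hb => hd a ((h1 a).1 ha) ((h3 a).1 hb)

theorem Cnt.fiber {ι : Type} (I : Finset ι) (g : α → ι) (n : ι → ℕ) (hI : ∀ a, P a → g a ∈ I)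
    (h : ∀ i ∈ I, Cnt (fun a => P a ∧ g a = i) (n i)) : Cnt P (∑ i ∈ I, n i) := by
  classical
  choose! F hF hc using h
  refine ⟨I.biUnion F, fun a => ?_, ?_⟩
  · rw [mem_biUnion]
    exact ⟨fun ⟨i, hi, ha⟩ => ((hF i hi a).1 ha).1,
      fun ha => ⟨g a, hI a ha, (hF _ (hI a ha) a).2 ⟨ha, rfl⟩⟩⟩
  · rw [card_biUnion, sum_congr rfl hc]
    intro i hi j hj hij
    exact disjoint_left.2 fun a ha hb =>
      hij (((hF i hi a).1 ha).2.symm.trans ((hF j hj a).1 hb).2)

theorem Cnt.prod {Q : α → β → Prop} (h : Cnt P m) (h' : ∀ a, P a → Cnt (Q a) n) :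
    Cnt (fun p : α × β => P p.1 ∧ Q p.1 p.2) (m * n) := by
  obtain ⟨F, h1, rfl⟩ := h
  have := Cnt.fiber (P := fun p : α × β => P p.1 ∧ Q p.1 p.2) F Prod.fst (fun _ => n)
    (fun p hp => (h1 _).2 hp.1) fun a ha => by
      refine (h' a ((h1 a).1 ha)).bij (fun b => (a, b)) (fun b c _ _ hbc => by simpa using hbc)
        (fun b hb => ⟨⟨(h1 a).1 ha, hb⟩, rfl⟩) ?_
      rintro ⟨a', b⟩ ⟨⟨_, hb⟩, rfl⟩
      exact ⟨b, hb, rfl⟩
  simpa using this

end Pool.Agent.P.MP_8acafb_co.T3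
end

-- part Pool.Agent.P.MP_8acafb_co.T3Kron
section

namespace Pool.Agent.P.MP_8acafb_co.T3

open Finset

/-- arrays of natural numbers -/
abbrev NA := ℕ → ℕ → ℕ

def cvN (f g : NA) : NA :=
  fun i j => ∑ p ∈ antidiagonal i, ∑ q ∈ antidiagonal j, f p.1 q.1 * g p.2 q.2

def pk1 (q n : ℕ) (c : ℕ → ℕ) : ℕ := ∑ k ∈ range n, c k * q ^ k

theorem pk1_lt (q n : ℕ) (c : ℕ → ℕ) (hc : ∀ k < n, c k < q) : pk1 q n c < q ^ n := by
  induction n with
  | zero => simp [pk1]
  | succ n ih =>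
    have h1 := ih fun k hk => hc k (by omega)
    have h2 : (c n + 1) * q ^ n ≤ q * q ^ n := Nat.mul_le_mul_right _ (hc n (by omega))
    simp only [pk1, sum_range_succ] at h1 ⊢
    rw [pow_succ']
    nlinarith

theorem pk1_digit (q n : ℕ) (c : ℕ → ℕ) (hc : ∀ k < n, c k < q) (i : ℕ) (hi : i < n) :
    pk1 q n c / q ^ i % q = c i := by
  have hq : 0 < q := by have := hc i hi; omega
  induction n with
  | zero => omega
  | succ n ih =>
    have e1 : pk1 q (n + 1) c = pk1 q n c + c n * q ^ n := sum_range_succ _ _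
    rcases Nat.lt_or_ge i n with h | h
    · obtain ⟨t, rfl⟩ : ∃ t, n = i + (t + 1) := ⟨n - i - 1, by omega⟩
      have e2 : c (i + (t + 1)) * q ^ (i + (t + 1)) = q ^ i * (q * (c (i + (t + 1)) * q ^ t)) := by
        ring
      rw [e1, e2, Nat.add_mul_div_left _ _ (pow_pos hq i), Nat.add_mul_mod_self_left]
      exact ih (fun k hk => hc k (by omega)) h
    · obtain rfl : i = n := by omega
      rw [e1, Nat.add_mul_div_right _ _ (pow_pos hq i),
        Nat.div_eq_of_lt (pk1_lt q i c fun k hk => hc k (by omega)), zero_add,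
        Nat.mod_eq_of_lt (hc i hi)]

theorem pk1_mul (q n : ℕ) (a b : ℕ → ℕ) (ha : ∀ k, n ≤ k → a k = 0) (hb : ∀ k, n ≤ k → b k = 0) :
    pk1 q n a * pk1 q n b = pk1 q (2 * n) (cv a b) := by
  have h1 : pk1 q (2 * n) (cv a b) = ∑ k ∈ range (2 * n), ∑ p ∈ antidiagonal k,
      a p.1 * q ^ p.1 * (b p.2 * q ^ p.2) := by
    refine sum_congr rfl fun k _ => ?_
    rw [cv, sum_mul]
    refine sum_congr rfl fun p hp => ?_
    rw [← mem_antidiagonal.1 hp]; ring
  rw [h1, pk1, pk1, sum_mul_sum, ← sum_product', ← sum_biUnion]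
  · refine sum_subset (fun p hp => ?_) fun p _ hp => ?_
    · simp only [mem_product, mem_range, mem_biUnion, HasAntidiagonal.mem_antidiagonal] at hp ⊢
      exact ⟨p.1 + p.2, by omega, rfl⟩
    · simp only [mem_product, mem_range, not_and_or, not_lt] at hp
      rcases hp with hp | hp
      · simp [ha _ hp]
      · simp [hb _ hp]
  · intro i _ j _ hij
    exact disjoint_left.2 fun p h1 h2 =>
      hij ((mem_antidiagonal.1 h1).symm.trans (mem_antidiagonal.1 h2))

def pk2 (b S I J : ℕ) (f : NA) : ℕ := pk1 (b ^ S) I fun i => pk1 b J (f i)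

theorem pk2_mul (b S I J : ℕ) (f g : NA) (hf : ∀ i j, I ≤ i ∨ J ≤ j → f i j = 0)
    (hg : ∀ i j, I ≤ i ∨ J ≤ j → g i j = 0) :
    pk2 b S I J f * pk2 b S I J g = pk2 b S (2 * I) (2 * J) (cvN f g) := by
  rw [pk2, pk2, pk1_mul _ _ (fun i => pk1 b J (f i)) (fun i => pk1 b J (g i))
    (fun k hk => sum_eq_zero fun j _ => by simp [hf k j (Or.inl hk)])
    (fun k hk => sum_eq_zero fun j _ => by simp [hg k j (Or.inl hk)]), pk2]
  congr 1
  funext i
  rw [cv, sum_congr rfl fun p _ => pk1_mul b J (f p.1) (g p.2) (fun k hk => hf _ _ (Or.inr hk))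
    (fun k hk => hg _ _ (Or.inr hk))]
  simp only [pk1, cv, cvN, sum_mul]
  rw [sum_comm]

theorem pk2_add (b S I J : ℕ) (f g : NA) :
    pk2 b S I J f + pk2 b S I J g = pk2 b S I J fun i j => f i j + g i j := by
  simp only [pk2, pk1, add_mul, sum_add_distrib]

theorem pk2_digit (b I S : ℕ) (c : NA) (hc : ∀ i < I, ∀ j < S, c i j < b) (i : ℕ) (hi : i < I)
    (j : ℕ) (hj : j < S) : pk2 b S I S c / (b ^ S) ^ i % b ^ S / b ^ j % b = c i j := by
  rw [pk2, pk1_digit _ _ _ (fun k hk => pk1_lt _ _ _ (hc k hk)) i hi, pk1_digit _ _ _ (hc i hi) j hj]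

theorem cvN_le (f g : NA) (M M' : ℕ) (hf : ∀ i j, f i j ≤ M) (hg : ∀ i j, g i j ≤ M')
    (i j : ℕ) : cvN f g i j ≤ (i + 1) * ((j + 1) * (M * M')) := by
  have h1 : cvN f g i j ≤ ∑ _p ∈ antidiagonal i, ∑ _q ∈ antidiagonal j, M * M' :=
    sum_le_sum fun _ _ => sum_le_sum fun _ _ => Nat.mul_le_mul (hf _ _) (hg _ _)
  simpa using h1

/-! evaluation helpers -/

noncomputable def fB (n : ℕ) (k : ℕ → Bool) : Bool :=
  Nat.rec (k 0) (fun m _ => k (Nat.succ m)) n

noncomputable def fN (n : ℕ) (k : ℕ → ℕ) : ℕ :=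
  Nat.rec (k 0) (fun m _ => k (Nat.succ m)) n

theorem fB_eq (n : ℕ) (k : ℕ → Bool) : fB n k = k n := by cases n <;> rfl

theorem fN_eq (n : ℕ) (k : ℕ → ℕ) : fN n k = k n := by cases n <;> rfl

/-- pack `2^d` lanes of width `w`, skipping those from `n` on -/
noncomputable def pkT (w n : ℕ) (f : ℕ → ℕ) (d : ℕ) : ℕ → ℕ :=
  Nat.rec (motive := fun _ => ℕ → ℕ) (fun lo => f lo)
    (fun d ih lo => Nat.add (ih lo) (fN (Nat.add lo (Nat.shiftLeft 1 d)) fun hi =>
      cond (Nat.ble n hi) 0 (Nat.shiftLeft (ih hi) (Nat.shiftLeft w d)))) d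

theorem pkT_eq (w n : ℕ) (f : ℕ → ℕ) (hf : ∀ k, n ≤ k → f k = 0) (d : ℕ) :
    ∀ lo, pkT w n f d lo = pk1 (2 ^ w) (2 ^ d) fun k => f (lo + k) := by
  induction d with
  | zero => intro lo; simp [pkT, pk1]
  | succ d ih =>
    intro lo
    have e : pkT w n f (d + 1) lo = pkT w n f d lo + (fN (lo + 1 <<< d) fun hi =>
      cond (Nat.ble n hi) 0 ((pkT w n f d hi) <<< (w <<< d))) := rfl
    rw [e, fN_eq, ih, ih, pk1, pk1, pk1, pow_succ, mul_two, sum_range_add]
    congr 1
    simp only [Nat.shiftLeft_eq, one_mul]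
    cases h : Nat.ble n (lo + 2 ^ d) with
    | true =>
      have h1 := Nat.le_of_ble_eq_true h
      exact (sum_eq_zero fun k _ => by rw [hf _ (by omega), zero_mul]).symm
    | false =>
      simp only [cond_false, sum_mul]
      refine sum_congr rfl fun k _ => ?_
      rw [add_assoc, pow_add, pow_mul]; ring

/-- run `k` on the first `2^d` lanes of width `w`, skipping those from `n` on -/
noncomputable def spl (w n : ℕ) (k : ℕ → ℕ → Bool) (d : ℕ) : ℕ → ℕ → Bool :=
  Nat.rec (motive := fun _ => ℕ → ℕ → Bool)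
    (fun lo X => fB (Nat.land X (Nat.sub (Nat.shiftLeft 1 w) 1)) fun Y => k lo Y)
    (fun d ih lo X =>
      and (fB (Nat.land X (Nat.sub (Nat.shiftLeft 1 (Nat.shiftLeft w d)) 1)) fun Y => ih lo Y)
        (fB (Nat.add lo (Nat.shiftLeft 1 d)) fun hi => cond (Nat.ble n hi) true
          (fB (Nat.shiftRight X (Nat.shiftLeft w d)) fun Y => ih hi Y))) d

theorem spl_ok (w n : ℕ) (k : ℕ → ℕ → Bool) (d : ℕ) : ∀ lo X, spl w n k d lo X = true →
    ∀ t < 2 ^ d, lo + t < n → k (lo + t) (X / (2 ^ w) ^ t % 2 ^ w) = true := by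
  induction d with
  | zero =>
    intro lo X h t ht _
    obtain rfl : t = 0 := by simpa using ht
    have e : spl w n k 0 lo X = fB (X &&& (1 <<< w - 1)) fun Y => k lo Y := rfl
    rw [e, fB_eq, Nat.shiftLeft_eq, one_mul, Nat.and_two_pow_sub_one_eq_mod] at h
    simpa using h
  | succ d ih =>
    intro lo X h t ht hn
    have e : spl w n k (d + 1) lo X =
      and (fB (X &&& (1 <<< (w <<< d) - 1)) fun Y => spl w n k d lo Y)
        (fB (lo + 1 <<< d) fun hi => cond (Nat.ble n hi) true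
          (fB (X >>> (w <<< d)) fun Y => spl w n k d hi Y)) := rfl
    simp only [e, fB_eq, Nat.shiftLeft_eq, one_mul, Nat.and_two_pow_sub_one_eq_mod,
      Nat.shiftRight_eq_div_pow, Bool.and_eq_true] at h
    rcases Nat.lt_or_ge t (2 ^ d) with h1 | h1
    · have h2 := ih _ _ h.1 t h1 hn
      obtain ⟨u, hu⟩ : ∃ u, 2 ^ d = t + (u + 1) := ⟨2 ^ d - t - 1, by omega⟩
      have e2 : 2 ^ (w * 2 ^ d) = (2 ^ w) ^ t * (2 ^ w * (2 ^ w) ^ u) := by
        rw [pow_mul, hu]; ring
      rwa [e2, Nat.mod_mul_right_div_self, Nat.mod_mul_right_mod] at h2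
    · obtain ⟨u, rfl⟩ : ∃ u, t = 2 ^ d + u := ⟨t - 2 ^ d, by omega⟩
      have h3 : Nat.ble n (lo + 2 ^ d) = false := by
        cases h4 : Nat.ble n (lo + 2 ^ d) with
        | false => rfl
        | true => have := Nat.le_of_ble_eq_true h4; omega
      have h5 := h.2
      rw [h3, cond_false] at h5
      have h2 := ih _ _ h5 u (by rw [pow_succ] at ht; omega) (by omega)
      rwa [Nat.div_div_eq_div_mul, pow_mul, ← pow_add, add_assoc] at h2

end Pool.Agent.P.MP_8acafb_co.T3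
end

-- part Pool.Agent.P.MP_8acafb_co.T3Mono
section

namespace Pool.Agent.P.MP_8acafb_co.T3

open Finset

variable {x y : ℝ} {f g f' g' P d : Ar}

theorem sh_mono (hy : 0 ≤ y) (h : ∀ i j, f i j ≤ g i j) (i j : ℕ) : sh y f i j ≤ sh y g i j := by
  cases j with
  | zero => exact le_rfl
  | succ j => exact mul_le_mul_of_nonneg_left (h i j) hy

theorem sh_nonneg (hy : 0 ≤ y) (h : ∀ i j, 0 ≤ f i j) (i j : ℕ) : 0 ≤ sh y f i j := by
  cases j with
  | zero => exact le_rfl
  | succ j => exact mul_nonneg hy (h i j)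

theorem dn_mono (h : ∀ i j, f i j ≤ g i j) (i j : ℕ) : dn f i j ≤ dn g i j := by
  cases i with
  | zero => exact le_rfl
  | succ i => exact h i j

theorem dn_nonneg (h : ∀ i j, 0 ≤ f i j) (i j : ℕ) : 0 ≤ dn f i j := by
  cases i with
  | zero => exact le_rfl
  | succ i => exact h i j

theorem Uo_mono (hx : 0 ≤ x) (h : ∀ i j, f i j ≤ g i j) (i j : ℕ) :
    Uo x f i j ≤ Uo x g i j := by
  cases i with
  | zero => exact le_rfl
  | succ i =>
    have h1 := h (i + 1) j
    have h2 := h i j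
    have h3 := dn_mono h i j
    simp only [Uo]
    gcongr

theorem Uo_nonneg (hx : 0 ≤ x) (h : ∀ i j, 0 ≤ f i j) (i j : ℕ) : 0 ≤ Uo x f i j := by
  cases i with
  | zero => exact le_rfl
  | succ i =>
    have h1 := h (i + 1) j
    have h2 := h i j
    have h3 := dn_nonneg h i j
    simp only [Uo]
    positivity

theorem Vo_mono (hy : 0 ≤ y) (h : ∀ i j, f i j ≤ g i j) (i j : ℕ) :
    Vo y f i j ≤ Vo y g i j := by
  have h1 := h i (j + 1)
  have h2 := h i 0
  simp only [Vo]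
  split_ifs <;> gcongr

theorem Vo_nonneg (hy : 0 ≤ y) (h : ∀ i j, 0 ≤ f i j) (i j : ℕ) : 0 ≤ Vo y f i j := by
  have h1 := h i (j + 1)
  have h2 := h i 0
  simp only [Vo]
  split_ifs <;> positivity

theorem Lin_mono (hx : 0 ≤ x) (h : ∀ i j, f i j ≤ g i j) (i j : ℕ) :
    Lin x f i j ≤ Lin x g i j := by
  have h1 := h (i + 1) j
  have h2 := h i j
  have h3 := dn_mono h i j
  simp only [Lin]
  gcongr

theorem Lin_nonneg (hx : 0 ≤ x) (h : ∀ i j, 0 ≤ f i j) (i j : ℕ) : 0 ≤ Lin x f i j := by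
  have h1 := h (i + 1) j
  have h2 := h i j
  have h3 := dn_nonneg h i j
  simp only [Lin]
  positivity

theorem cv2_mono (hf : ∀ i j, 0 ≤ f i j) (hg : ∀ i j, 0 ≤ g i j) (h : ∀ i j, f i j ≤ f' i j)
    (h' : ∀ i j, g i j ≤ g' i j) (i j : ℕ) : cv2 f g i j ≤ cv2 f' g' i j :=
  sum_le_sum fun _ _ => sum_le_sum fun _ _ =>
    mul_le_mul (h _ _) (h' _ _) (hg _ _) ((hf _ _).trans (h _ _))

theorem cv2_nonneg (hf : ∀ i j, 0 ≤ f i j) (hg : ∀ i j, 0 ≤ g i j) (i j : ℕ) :
    0 ≤ cv2 f g i j :=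
  sum_nonneg fun _ _ => sum_nonneg fun _ _ => mul_nonneg (hf _ _) (hg _ _)

theorem del_nonneg (i j : ℕ) : 0 ≤ del i j := by
  simp only [del]
  split_ifs <;> norm_num

theorem R_mono (hx : 0 ≤ x) (hy : 0 ≤ y) (hf : ∀ i j, 0 ≤ f i j) (h : ∀ i j, f i j ≤ g i j)
    (i j : ℕ) : R x y f i j ≤ R x y g i j :=
  add_le_add (add_le_add le_rfl (Lin_mono hx h i j))
    (cv2_mono (Uo_nonneg hx hf) (Vo_nonneg hy hf) (Uo_mono hx h) (Vo_mono hy h) i j)

theorem R_nonneg (hx : 0 ≤ x) (hy : 0 ≤ y) (hf : ∀ i j, 0 ≤ f i j) (i j : ℕ) :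
    0 ≤ R x y f i j :=
  add_nonneg (add_nonneg (del_nonneg i j) (Lin_nonneg hx hf i j))
    (cv2_nonneg (Uo_nonneg hx hf) (Vo_nonneg hy hf) i j)

theorem Lam_mono (hx : 0 ≤ x) (hy : 0 ≤ y) (hP : ∀ i j, 0 ≤ P i j) (hf : ∀ i j, 0 ≤ f i j)
    (h : ∀ i j, f i j ≤ g i j) (i j : ℕ) : Lam x y P f i j ≤ Lam x y P g i j :=
  add_le_add (add_le_add (Lin_mono hx h i j)
    (cv2_mono (Uo_nonneg hx hP) (Vo_nonneg hy hf) (fun _ _ => le_rfl) (Vo_mono hy h) i j))
    (cv2_mono (Uo_nonneg hx hf) (Vo_nonneg hy hP) (Uo_mono hx h) (fun _ _ => le_rfl) i j)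

theorem Lam_nonneg (hx : 0 ≤ x) (hy : 0 ≤ y) (hP : ∀ i j, 0 ≤ P i j) (hf : ∀ i j, 0 ≤ f i j)
    (i j : ℕ) : 0 ≤ Lam x y P f i j :=
  add_nonneg (add_nonneg (Lin_nonneg hx hf i j)
    (cv2_nonneg (Uo_nonneg hx hP) (Vo_nonneg hy hf) i j))
    (cv2_nonneg (Uo_nonneg hx hf) (Vo_nonneg hy hP) i j)

/-- linear combinations `f + c g` -/
def lc (f : Ar) (c : ℝ) (g : Ar) : Ar := fun i j => f i j + c * g i j

theorem sh_lc (c : ℝ) (i j : ℕ) : sh y (lc f c g) i j = sh y f i j + c * sh y g i j := by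
  cases j <;> simp only [sh, lc] <;> ring

theorem dn_lc (c : ℝ) (i j : ℕ) : dn (lc f c g) i j = dn f i j + c * dn g i j := by
  cases i <;> simp only [dn, lc] <;> ring

theorem Uo_lc (c : ℝ) (i j : ℕ) : Uo x (lc f c g) i j = Uo x f i j + c * Uo x g i j := by
  cases i with
  | zero => simp [Uo]
  | succ i => simp only [Uo, dn_lc]; simp only [lc]; ring

theorem Vo_lc (c : ℝ) (i j : ℕ) : Vo y (lc f c g) i j = Vo y f i j + c * Vo y g i j := by
  simp only [Vo, lc]
  split_ifs <;> ring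

theorem Lin_lc (c : ℝ) (i j : ℕ) : Lin x (lc f c g) i j = Lin x f i j + c * Lin x g i j := by
  simp only [Lin, dn_lc]; simp only [lc]; ring

theorem R_lc (c : ℝ) (i j : ℕ) : R x y (lc P c d) i j =
    R x y P i j + c * Lam x y P d i j + c ^ 2 * cv2 (Uo x d) (Vo y d) i j := by
  simp only [R, Lam, cv2, Lin_lc, Uo_lc, Vo_lc, mul_add, add_mul, sum_add_distrib, mul_sum]
  have h1 : ∀ a b : ℝ, c * a * (c * b) = c ^ 2 * (a * b) := fun a b => by ring
  have h2 : ∀ a b : ℝ, a * (c * b) = c * (a * b) := fun a b => by ring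
  simp only [h1]
  simp only [h2, mul_assoc]
  ring

theorem Lam_smul (c : ℝ) (i j : ℕ) :
    Lam x y P (fun i j => c * d i j) i j = c * Lam x y P d i j := by
  have h0 : (fun i j => c * d i j) = lc (fun _ _ => 0) c d := by
    funext i j; simp [lc]
  have hU : ∀ i j, Uo x (fun _ _ => (0 : ℝ)) i j = 0 := fun i j => by
    rcases i with _ | _ | i <;> simp [Uo, dn]
  have hV : ∀ i j, Vo y (fun _ _ => (0 : ℝ)) i j = 0 := fun i j => by simp [Vo]
  have hL : ∀ i j, Lin x (fun _ _ => (0 : ℝ)) i j = 0 := fun i j => by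
    cases i <;> simp [Lin, dn]
  have h2 : ∀ a b : ℝ, a * (c * b) = c * (a * b) := fun a b => by ring
  simp only [h0, Lam, cv2, Lin_lc, Uo_lc, Vo_lc, hU, hV, hL, zero_add, mul_add, mul_sum, h2,
    mul_assoc]

theorem sh_smul (c : ℝ) (i j : ℕ) : sh y (fun i j => c * d i j) i j = c * sh y d i j := by
  cases j <;> simp only [sh] <;> ring

end Pool.Agent.P.MP_8acafb_co.T3
end

-- part Pool.Agent.P.MP_8acafb_co.T3Tree
section

namespace Pool.Agent.P.MP_8acafb_co.T3

open Finset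

theorem post_perm (T : Tr) : T.post.Perm T.ino := by
  induction T with
  | nil => exact List.Perm.refl _
  | node l v r ihl ihr =>
    simp only [Tr.post, Tr.ino]
    rw [List.append_assoc]
    exact ihl.append ((List.perm_append_singleton v r.post).trans (ihr.cons v))

theorem length_post (T : Tr) : T.post.length = T.sp.size := by
  induction T with
  | nil => rfl
  | node l v r ihl ihr =>
    simp only [Tr.post, Tr.sp, Sp.size, List.length_append, ihl, ihr, List.length_singleton]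

theorem tree_ino_lt {l r : Tr} {v : ℕ} (h : (Tr.node l v r).dec) :
    (∀ x ∈ l.ino, x < v) ∧ (∀ x ∈ r.ino, x < v) :=
  ⟨fun x hx => h.2.2.1 x ((post_perm l).symm.subset hx),
    fun x hx => h.2.2.2 x ((post_perm r).symm.subset hx)⟩

theorem s_ino (T : Tr) (h : T.dec) : s T.ino = T.post := by
  induction T with
  | nil => rfl
  | node l v r ihl ihr =>
    have h1 := tree_ino_lt h
    simp only [Tr.post, Tr.ino]
    rw [s_rec _ _ _ h1.1 h1.2, ihl h.1, ihr h.2.1]

theorem tree_le_root {l r : Tr} {v : ℕ} (h : (Tr.node l v r).dec) :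
    ∀ x ∈ (Tr.node l v r).ino, x ≤ v := by
  have h1 := tree_ino_lt h
  intro x hx
  simp only [Tr.ino, List.mem_append, List.mem_cons] at hx
  rcases hx with hx | rfl | hx
  · exact (h1.1 x hx).le
  · exact le_rfl
  · exact (h1.2 x hx).le

theorem ino_inj (T T' : Tr) (h : T.dec) (h' : T'.dec) (he : T.ino = T'.ino) : T = T' := by
  induction T generalizing T' with
  | nil =>
    cases T' with
    | nil => rfl
    | node l' v' r' => simp [Tr.ino] at he
  | node l v r ihl ihr =>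
    cases T' with
    | nil => simp [Tr.ino] at he
    | node l' v' r' =>
      have h1 : v ≤ v' := tree_le_root h' v (by rw [← he]; simp [Tr.ino])
      have h2 : v' ≤ v := tree_le_root h v' (by rw [he]; simp [Tr.ino])
      have h3 : v = v' := le_antisymm h1 h2
      subst h3
      have h4 := tree_ino_lt h
      have h5 : v ∉ l.ino := fun hx => lt_irrefl _ (h4.1 v hx)
      have h6 : v ∉ r.ino := fun hx => lt_irrefl _ (h4.2 v hx)
      simp only [Tr.ino] at he
      obtain ⟨e1, -, e2⟩ := (List.append_cons_inj_of_notMem h5 h6).1 he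
      rw [ihl l' h.1 h'.1 e1, ihr r' h.2.1 h'.2.1 e2]

theorem ex_ino (w : List ℕ) (h : w.Nodup) : ∃ T : Tr, T.dec ∧ T.ino = w := by
  induction hn : w.length using Nat.strong_induction_on generalizing w with
  | _ n ih =>
    by_cases hw : w = []
    · exact ⟨.nil, trivial, hw.symm⟩
    · obtain ⟨v, hv, hmax⟩ := w.toFinset.exists_max_image id
        (by simpa [List.toFinset_nonempty_iff] using hw)
      have hv' : v ∈ w := List.mem_toFinset.1 hv
      have hmax' : ∀ x ∈ w, x ≤ v := fun x hx => hmax x (List.mem_toFinset.2 hx)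
      obtain ⟨a, b, rfl⟩ := List.append_of_mem hv'
      rw [List.nodup_append] at h
      obtain ⟨ha, hb, hab⟩ := h
      rw [List.nodup_cons] at hb
      have hlen : a.length + b.length + 1 = n := by
        rw [← hn, List.length_append, List.length_cons]
        omega
      obtain ⟨l, hl, rfl⟩ := ih a.length (by omega) a ha rfl
      obtain ⟨r, hr, rfl⟩ := ih b.length (by omega) b hb.2 rfl
      refine ⟨.node l v r, ⟨hl, hr, fun x hx => ?_, fun x hx => ?_⟩, rfl⟩
      · have hx' := (post_perm l).subset hx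
        exact lt_of_le_of_ne (hmax' x (by simp [hx'])) (hab x hx' v (by simp))
      · have hx' := (post_perm r).subset hx
        exact lt_of_le_of_ne (hmax' x (by simp [hx'])) (fun e => hb.1 (e ▸ hx'))

theorem stk_append (a b : List ℕ) : ∀ st, stk st (a ++ b) = stk (stk st a) b := by
  induction a with
  | nil => intro st; rfl
  | cons x a ih => intro st; simp [stk, ih]

theorem os_perm (w st : List ℕ) : (out st w ++ stk st w).Perm (st ++ w) := by
  rw [← pass_eq]
  exact pass_perm w st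

theorem os_big (w : List ℕ) : ∀ a b : List ℕ, (∀ x ∈ w, ∀ y ∈ b, ¬ y < x) →
    out (a ++ b) w = out a w ∧ stk (a ++ b) w = stk a w ++ b := by
  induction w with
  | nil => intro a b _; exact ⟨rfl, rfl⟩
  | cons x R ih =>
    intro a b h
    have h1 := takeWhile_append_big x a b (h x (by simp))
    have h2 := ih (x :: a.dropWhile (· < x)) b (fun z hz => h z (by simp [hz]))
    simp only [out, stk, h1.1, h1.2]
    rw [← List.cons_append, h2.1, h2.2]
    exact ⟨rfl, rfl⟩

/-- reading a decreasing tree pops the entries below its root and leaves only the root -/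
theorem os_node (l r : Tr) (v : ℕ) (h : (Tr.node l v r).dec) (O : List ℕ)
    (hO : O.Pairwise (· < ·)) :
    out O (Tr.node l v r).post = out (O.takeWhile (· < v)) (Tr.node l v r).post ∧
      stk O (Tr.node l v r).post = v :: O.dropWhile (· < v) := by
  have hO' : O.Pairwise (· ≤ ·) := hO.imp le_of_lt
  have h1 := os_big (Tr.node l v r).post (O.takeWhile (· < v)) (O.dropWhile (· < v)) (by
    intro x hx y hy hlt
    have h2 := tree_le_root h x ((post_perm _).subset hx)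
    exact ((mem_takeWhile_sorted v O hO' y).2.1 hy).2 (hlt.trans_le h2))
  rw [List.takeWhile_append_dropWhile] at h1
  refine ⟨h1.1, ?_⟩
  rw [h1.2]
  have h3 : (stk (O.takeWhile (· < v)) (l.post ++ r.post)).dropWhile (· < v) = [] := by
    rw [List.dropWhile_eq_nil_iff]
    intro x hx
    have h4 := (os_perm (l.post ++ r.post) (O.takeWhile (· < v))).subset
      (List.mem_append_right _ hx)
    rcases List.mem_append.1 h4 with h5 | h5
    · exact decide_eq_true ((mem_takeWhile_sorted v O hO' x).1.1 h5).2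
    · rcases List.mem_append.1 h5 with h6 | h6
      · exact decide_eq_true (h.2.2.1 x h6)
      · exact decide_eq_true (h.2.2.2 x h6)
  simp only [Tr.post]
  rw [stk_append]
  simp only [stk, h3, List.cons_append, List.nil_append]

theorem length_stk (T : Tr) (h : T.dec) (O : List ℕ) (hO : O.Pairwise (· < ·)) :
    (stk O T.post).length ≤ O.length + 1 := by
  cases T with
  | nil => simp [Tr.post, stk]
  | node l v r =>
    rw [(os_node l r v h O hO).2, List.length_cons]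
    have := (List.dropWhile_sublist (l := O) (· < v)).length_le
    omega

end Pool.Agent.P.MP_8acafb_co.T3
end

-- part Pool.Agent.P.MP_8acafb_co.T3Chk
section

namespace Pool.Agent.P.MP_8acafb_co.T3

open Finset

/-- lane `j` of a row -/
def ln (w r j : ℕ) : ℕ :=
  Nat.land (Nat.shiftRight r (Nat.mul w j)) (Nat.sub (Nat.shiftLeft 1 w) 1)

theorem ln_eq (w r j : ℕ) : ln w r j = r / (2 ^ w) ^ j % 2 ^ w := by
  change (r >>> (w * j)) &&& (1 <<< w - 1) = _
  rw [Nat.shiftLeft_eq, one_mul, Nat.and_two_pow_sub_one_eq_mod, Nat.shiftRight_eq_div_pow, pow_mul]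

theorem ln_zero (w j : ℕ) : ln w 0 j = 0 := by simp [ln_eq]

theorem ln_big (w r J j : ℕ) (h : r < (2 ^ w) ^ J) (hj : J ≤ j) : ln w r j = 0 := by
  rw [ln_eq, Nat.div_eq_of_lt (h.trans_le (Nat.pow_le_pow_right (by positivity) hj)), Nat.zero_mod]

theorem ln_and (w r s j : ℕ) : ln w (r &&& s) j = ln w r j &&& ln w s j := by
  simp only [ln_eq, ← pow_mul, ← Nat.shiftRight_eq_div_pow, Nat.shiftRight_and_distrib,
    Nat.and_mod_two_pow]

theorem pk1_ln (w r n : ℕ) (h : r < (2 ^ w) ^ n) : pk1 (2 ^ w) n (ln w r) = r := by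
  have key : ∀ n, pk1 (2 ^ w) n (ln w r) = r % (2 ^ w) ^ n := by
    intro n
    induction n with
    | zero => simp [pk1, Nat.mod_one]
    | succ n ih => rw [Nat.mod_pow_succ, ← ih, pk1, sum_range_succ, ln_eq, mul_comm, pk1]
  rw [key, Nat.mod_eq_of_lt h]

theorem ln_pk1 (w n : ℕ) (c : ℕ → ℕ) (hc : ∀ k < n, c k < 2 ^ w) (i : ℕ) (hi : i < n) :
    ln w (pk1 (2 ^ w) n c) i = c i := by
  rw [ln_eq, pk1_digit _ _ _ hc i hi]

theorem pk1_mod (q n J : ℕ) (c : ℕ → ℕ) (hc : ∀ k < n, c k < q) (hJ : J ≤ n) :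
    pk1 q n c % q ^ J = pk1 q J c := by
  obtain ⟨t, rfl⟩ := Nat.exists_eq_add_of_le hJ
  have e : pk1 q (J + t) c = pk1 q J c + q ^ J * ∑ k ∈ range t, c (J + k) * q ^ k := by
    rw [pk1, sum_range_add, mul_sum, pk1]
    congr 1
    exact sum_congr rfl fun k _ => by ring
  rw [e, Nat.add_mul_mod_self_left,
    Nat.mod_eq_of_lt (pk1_lt _ _ _ fun k hk => hc k (by omega))]

theorem pk1_lin (q n c1 c2 c3 : ℕ) (f g h : ℕ → ℕ) :
    c1 * pk1 q n f + c2 * pk1 q n g + c3 * pk1 q n h =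
      pk1 q n fun j => c1 * f j + c2 * g j + c3 * h j := by
  simp only [pk1, mul_sum, add_mul, sum_add_distrib, mul_assoc]

/-- the row with `J` lanes equal to one -/
noncomputable def ones (w J : ℕ) : ℕ :=
  Nat.rec 0 (fun k ih => Nat.add ih (Nat.shiftLeft 1 (Nat.mul w k))) J

theorem ones_eq (w J c : ℕ) : c * ones w J = pk1 (2 ^ w) J fun _ => c := by
  induction J with
  | zero => simp [ones, pk1]
  | succ J ih =>
    have e : ones w (J + 1) = ones w J + 1 <<< (w * J) := rfl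
    rw [e, mul_add, ih, Nat.shiftLeft_eq, one_mul, pow_mul, pk1, pk1, sum_range_succ]

/-- lane by lane comparison `L + m ≤ R` of the first `J` lanes of width `w + 1` -/
noncomputable def leR (w J m L R : ℕ) : Bool :=
  fB (Nat.mul (Nat.shiftLeft 1 w) (ones (Nat.succ w) J)) fun H =>
    fB (Nat.sub (Nat.shiftLeft 1 (Nat.mul (Nat.succ w) J)) 1) fun mk =>
      Nat.beq (Nat.land (Nat.sub (Nat.add (Nat.land R mk) H)
        (Nat.add (Nat.land L mk) (Nat.mul m (ones (Nat.succ w) J)))) H) H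

theorem leR_ok (w J m n : ℕ) (a b : ℕ → ℕ) (hJ : J ≤ n) (ha : ∀ j < n, a j + m < 2 ^ w)
    (hb : ∀ j < n, b j < 2 ^ w)
    (h : leR w J m (pk1 (2 ^ (w + 1)) n a) (pk1 (2 ^ (w + 1)) n b) = true) (j : ℕ) (hj : j < J) :
    a j + m ≤ b j := by
  have e : ∀ L R, leR w J m L R = fB (1 <<< w * ones (w + 1) J) fun H =>
    fB (1 <<< ((w + 1) * J) - 1) fun mk =>
      Nat.beq ((((R &&& mk) + H) - ((L &&& mk) + m * ones (w + 1) J)) &&& H) H := fun _ _ => rfl
  have hq : 2 ^ (w + 1) = 2 * 2 ^ w := pow_succ' 2 w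
  simp only [e, fB_eq, Nat.shiftLeft_eq, one_mul, Nat.and_two_pow_sub_one_eq_mod, Nat.beq_eq,
    ones_eq] at h
  rw [pow_mul, pk1_mod _ _ _ a (fun k hk => by have := ha k hk; omega) hJ,
    pk1_mod _ _ _ b (fun k hk => by have := hb k hk; omega) hJ] at h
  have e2 : pk1 (2 ^ (w + 1)) J b + (pk1 (2 ^ (w + 1)) J fun _ => 2 ^ w) =
      (pk1 (2 ^ (w + 1)) J fun k => b k + 2 ^ w - (a k + m))
        + (pk1 (2 ^ (w + 1)) J a + pk1 (2 ^ (w + 1)) J fun _ => m) := by
    simp only [pk1, ← sum_add_distrib, ← add_mul]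
    refine sum_congr rfl fun k hk => ?_
    have := ha k ((mem_range.1 hk).trans_le hJ)
    congr 1
    omega
  rw [e2, Nat.add_sub_cancel] at h
  have h2 := congrArg (fun r => ln (w + 1) r j) h
  simp only [ln_and] at h2
  rw [ln_pk1 _ _ _ (fun k hk => by have := hb k (by omega); omega) j hj,
    ln_pk1 _ _ (fun _ => 2 ^ w) (fun k _ => by have := Nat.two_pow_pos w; omega) j hj] at h2
  have h3 : (b j + 2 ^ w - (a j + m)) &&& 2 ^ w ≤ b j + 2 ^ w - (a j + m) := Nat.and_le_left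
  have h4 := ha j (by omega)
  omega

/-- entries of a data list -/
noncomputable def nth (l : List ℕ) : ℕ → ℕ :=
  List.rec (motive := fun _ => ℕ → ℕ) (fun _ => 0)
    (fun a _ ih i => Nat.rec a (fun i _ => ih i) i) l

/-- row `i`; every list entry holds `g` rows -/
noncomputable def rows (w I J g : ℕ) (l : List ℕ) (i : ℕ) : ℕ :=
  Nat.land (cond (Nat.ble I i) 0
      (Nat.shiftRight (nth l (Nat.div i g)) (Nat.mul 64 (Nat.mod i g))))
    (Nat.mul 18446744073709551615 (ones w J))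

structure Good (w : ℕ) (ρ : ℕ → ℕ) (I J : ℕ) : Prop where
  zero : ∀ i, I ≤ i → ρ i = 0
  lt : ∀ i, ρ i < (2 ^ w) ^ J
  le : ∀ i j, ln w (ρ i) j ≤ 18446744073709551615

theorem good_rows (w I J g : ℕ) (l : List ℕ) (hw : 64 ≤ w) : Good w (rows w I J g l) I J := by
  have e : ∀ i, rows w I J g l i = (cond (Nat.ble I i) 0 (nth l (i / g) >>> (64 * (i % g)))) &&&
    (18446744073709551615 * ones w J) := fun _ => rfl
  have h1 : 18446744073709551615 < 2 ^ w :=
    lt_of_lt_of_le (by norm_num) (Nat.pow_le_pow_right two_pos hw)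
  have h2 : ∀ i, rows w I J g l i < (2 ^ w) ^ J := fun i => by
    rw [e, ones_eq]
    exact Nat.and_le_right.trans_lt (pk1_lt _ _ _ fun _ _ => h1)
  refine ⟨fun i hi => ?_, h2, fun i j => ?_⟩
  · rw [e, Nat.ble_eq_true_of_le hi]
    simp
  · rcases Nat.lt_or_ge j J with hj | hj
    · rw [e, ln_and, ones_eq, ln_pk1 _ _ (fun _ => 18446744073709551615) (fun _ _ => h1) j hj]
      exact Nat.and_le_right
    · rw [ln_big w _ J j (h2 i) hj]
      exact Nat.zero_le _

/-- previous row -/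
noncomputable def pv (ρ : ℕ → ℕ) (i : ℕ) : ℕ := Nat.rec 0 (fun i _ => ρ i) i

def upL (xa xb e0 e1 e2 : ℕ) : ℕ := xb * xb * e0 + 2 * (xa * xb) * e1 + xa * xa * e2

def lpL (xa xb ep e0 em : ℕ) : ℕ := xb * xb * ep + 2 * (xa * xb) * e0 + 2 * (xa * xa) * em

noncomputable def upN (w xa xb : ℕ) (ρ : ℕ → ℕ) : NA := fun i j =>
  Nat.rec 0 (fun i _ => upL xa xb (ln w (ρ (i + 1)) j) (ln w (ρ i) j) (ln w (pv ρ i) j)) i

def vpN (w ya yb : ℕ) (ρ : ℕ → ℕ) : NA := fun i j =>
  yb * ln w (ρ i) (j + 1) + if j = 0 then ya * ln w (ρ i) 0 else 0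

noncomputable def shL (w r j : ℕ) : ℕ := Nat.rec 0 (fun j _ => ln w r j) j

/-- width of a packed row -/
def rwd (w J : ℕ) : ℕ := Nat.mul w (Nat.mul 2 J)

theorem rwd_eq (w J : ℕ) : 2 ^ rwd w J = (2 ^ w) ^ (2 * J) := pow_mul 2 w (2 * J)

noncomputable def bigU (w d I J xa xb : ℕ) (ρ : ℕ → ℕ) : ℕ :=
  pkT (rwd w J) (Nat.add I 2)
    (fun i => Nat.rec 0 (fun i _ => upL xa xb (ρ (Nat.succ i)) (ρ i) (pv ρ i)) i) d 0

noncomputable def bigV (w d I J ya yb : ℕ) (ρ : ℕ → ℕ) : ℕ :=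
  pkT (rwd w J) I (fun i => Nat.add (Nat.mul yb (Nat.shiftRight (ρ i) w))
    (Nat.mul ya (ln w (ρ i) 0))) d 0

variable {ρ : ℕ → ℕ} {w I J : ℕ}

theorem Good.pv_lt (h : Good w ρ I J) (i : ℕ) : pv ρ i < (2 ^ w) ^ J := by
  cases i with
  | zero => exact Nat.pow_pos (Nat.two_pow_pos w)
  | succ i => exact h.lt i

theorem Good.pv_le (h : Good w ρ I J) (i j : ℕ) : ln w (pv ρ i) j ≤ 18446744073709551615 := by
  cases i with
  | zero => exact (ln_zero w j).trans_le (Nat.zero_le _)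
  | succ i => exact h.le i j

theorem upN_supp (h : Good w ρ I J) (xa xb i j : ℕ) (hij : I + 2 ≤ i ∨ J ≤ j) :
    upN w xa xb ρ i j = 0 := by
  cases i with
  | zero => rfl
  | succ i =>
    change upL xa xb (ln w (ρ (i + 1)) j) (ln w (ρ i) j) (ln w (pv ρ i) j) = 0
    rcases hij with hi | hj
    · obtain ⟨i, rfl⟩ : ∃ k, i = k + 1 := ⟨i - 1, by omega⟩
      change upL xa xb (ln w (ρ (i + 1 + 1)) j) (ln w (ρ (i + 1)) j) (ln w (ρ i) j) = 0
      rw [h.zero _ (by omega), h.zero (i + 1) (by omega), h.zero i (by omega), ln_zero]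
      rfl
    · rw [ln_big w _ J j (h.lt _) hj, ln_big w _ J j (h.lt _) hj, ln_big w _ J j (h.pv_lt _) hj]
      rfl

theorem vpN_supp (h : Good w ρ I J) (ya yb i j : ℕ) (hij : I ≤ i ∨ J ≤ j) :
    vpN w ya yb ρ i j = 0 := by
  have h1 : ∀ k, j ≤ k → ln w (ρ i) k = 0 := fun k hk => by
    rcases hij with hi | hj
    · rw [h.zero i hi, ln_zero]
    · exact ln_big w _ J k (h.lt _) (by omega)
  cases j with
  | zero => simp [vpN, h1]
  | succ j => simp [vpN, h1 (j + 1 + 1) (by omega)]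

theorem upN_le (h : Good w ρ I J) (xa xb i j : ℕ) :
    upN w xa xb ρ i j ≤ (xa + xb) ^ 2 * 18446744073709551615 := by
  cases i with
  | zero => exact Nat.zero_le _
  | succ i =>
    change xb * xb * ln w (ρ (i + 1)) j + 2 * (xa * xb) * ln w (ρ i) j
      + xa * xa * ln w (pv ρ i) j ≤ _
    have h0 := Nat.mul_le_mul_left (xb * xb) (h.le (i + 1) j)
    have h1 := Nat.mul_le_mul_left (2 * (xa * xb)) (h.le i j)
    have h2 := Nat.mul_le_mul_left (xa * xa) (h.pv_le i j)
    nlinarith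

theorem vpN_le (h : Good w ρ I J) (ya yb i j : ℕ) :
    vpN w ya yb ρ i j ≤ (ya + yb) * 18446744073709551615 := by
  have h0 := Nat.mul_le_mul_left yb (h.le i (j + 1))
  have h1 := Nat.mul_le_mul_left ya (h.le i 0)
  simp only [vpN]
  split_ifs <;> nlinarith

theorem bigU_eq (h : Good w ρ I J) (d xa xb : ℕ) :
    bigU w d I J xa xb ρ = pk2 (2 ^ w) (2 * J) (2 ^ d) J (upN w xa xb ρ) := by
  have key : ∀ i : ℕ, (Nat.rec 0 (fun i _ => upL xa xb (ρ (Nat.succ i)) (ρ i) (pv ρ i)) i : ℕ) =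
      pk1 (2 ^ w) J (upN w xa xb ρ i) := by
    intro i
    cases i with
    | zero => simp [pk1, upN]
    | succ i =>
      change upL xa xb (ρ (i + 1)) (ρ i) (pv ρ i) = _
      conv_lhs => rw [← pk1_ln w _ J (h.lt (i + 1)), ← pk1_ln w _ J (h.lt i),
        ← pk1_ln w _ J (h.pv_lt i), upL, pk1_lin]
      rfl
  rw [bigU, pkT_eq, rwd_eq, pk2]
  · simp only [zero_add, key]
  · intro k hk
    rw [key]
    exact sum_eq_zero fun j _ => by rw [upN_supp h xa xb k j (Or.inl hk), zero_mul]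

theorem bigV_eq (h : Good w ρ I J) (hJ : 0 < J) (d ya yb : ℕ) :
    bigV w d I J ya yb ρ = pk2 (2 ^ w) (2 * J) (2 ^ d) J (vpN w ya yb ρ) := by
  have key : ∀ i : ℕ, Nat.add (Nat.mul yb (Nat.shiftRight (ρ i) w)) (Nat.mul ya (ln w (ρ i) 0)) =
      pk1 (2 ^ w) J (vpN w ya yb ρ i) := by
    intro i
    change yb * (ρ i >>> w) + ya * ln w (ρ i) 0 = _
    have h1 : ∀ j, ln w (ρ i / 2 ^ w) j = ln w (ρ i) (j + 1) := fun j => by
      rw [ln_eq, ln_eq, Nat.div_div_eq_div_mul, ← pow_succ']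
    rw [Nat.shiftRight_eq_div_pow,
      ← pk1_ln w (ρ i / 2 ^ w) J ((Nat.div_le_self _ _).trans_lt (h.lt i))]
    simp only [pk1, vpN, h1, add_mul, sum_add_distrib, mul_sum, mul_assoc, ite_mul, zero_mul,
      sum_ite_eq', mem_range, hJ, if_true, pow_zero, mul_one]
  rw [bigV, pkT_eq, rwd_eq, pk2]
  · simp only [zero_add, key]
  · intro k hk
    rw [key]
    exact sum_eq_zero fun j _ => by rw [vpN_supp h ya yb k j (Or.inl hk), zero_mul]

/-- run the test `k i (row) (shifted row) (linear term) (row of X)` on all rows -/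
noncomputable def run (w d I J xa xb : ℕ) (ρ : ℕ → ℕ) (k : ℕ → ℕ → ℕ → ℕ → ℕ → Bool)
    (X : ℕ) : Bool :=
  fB X fun X => spl (rwd w J) I (fun i c => fB (ρ i) fun r0 =>
    k i r0 (Nat.shiftLeft r0 w) (lpL xa xb (ρ (Nat.succ i)) r0 (pv ρ i)) c) d 0 X

theorem run_ok (h : Good w ρ I J) (hJ : 0 < J) (d xa xb : ℕ) (k : ℕ → ℕ → ℕ → ℕ → ℕ → Bool)
    (c : NA) (hc : ∀ i < 2 * 2 ^ d, ∀ j < 2 * J, c i j < 2 ^ w) (hI : I ≤ 2 ^ d)
    (hr : run w d I J xa xb ρ k (pk2 (2 ^ w) (2 * J) (2 * 2 ^ d) (2 * J) c) = true)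
    (i : ℕ) (hi : i < I) :
    k i (pk1 (2 ^ w) (2 * J) (ln w (ρ i))) (pk1 (2 ^ w) (2 * J) (shL w (ρ i)))
      (pk1 (2 ^ w) (2 * J) fun j =>
        lpL xa xb (ln w (ρ (i + 1)) j) (ln w (ρ i) j) (ln w (pv ρ i) j))
      (pk1 (2 ^ w) (2 * J) (c i)) = true := by
  rw [run, fB_eq] at hr
  have h1 := spl_ok _ _ _ _ _ _ hr i (by omega) (by omega)
  simp only [fB_eq, zero_add] at h1
  have hm : ∀ r n, r < (2 ^ w) ^ J → J ≤ n → pk1 (2 ^ w) n (ln w r) = r := fun r n hr hn =>
    pk1_ln w r n (hr.trans_le (Nat.pow_le_pow_right (Nat.two_pow_pos w) hn))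
  have e1 : pk1 (2 ^ w) (2 * J) (shL w (ρ i)) = Nat.shiftLeft (ρ i) w := by
    obtain ⟨n, hn⟩ : ∃ n, 2 * J = n + 1 := ⟨2 * J - 1, by omega⟩
    change _ = ρ i <<< w
    conv_rhs => rw [Nat.shiftLeft_eq, ← hm (ρ i) n (h.lt i) (by omega), pk1, sum_mul]
    rw [hn, pk1, sum_range_succ']
    simp only [shL, Nat.rec_zero, zero_mul, add_zero, pow_succ, mul_assoc]
  have e2 : (pk1 (2 ^ w) (2 * J) fun j =>
      lpL xa xb (ln w (ρ (i + 1)) j) (ln w (ρ i) j) (ln w (pv ρ i) j)) =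
      lpL xa xb (ρ (i + 1)) (ρ i) (pv ρ i) := by
    simp only [lpL]
    rw [← pk1_lin, hm _ _ (h.lt _) (by omega), hm _ _ (h.lt _) (by omega),
      hm _ _ (h.pv_lt _) (by omega)]
  rw [e1, e2, hm _ _ (h.lt _) (by omega)]
  rwa [rwd_eq, pk2, pk1_digit _ _ _ (fun k hk => pk1_lt _ _ _ (hc k hk)) i (by omega)] at h1

end Pool.Agent.P.MP_8acafb_co.T3
end

-- part Pool.Agent.P.MP_8acafb_co.T3For
section

namespace Pool.Agent.P.MP_8acafb_co.T3

open Finset

theorem for_post_ne {T : Tr} (h : T ≠ .nil) : T.post ≠ [] := by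
  cases T with
  | nil => exact absurd rfl h
  | node l v r => simp [Tr.post]

theorem for_cat_nil {F : List Tr} (h : ∀ T ∈ F, T ≠ .nil ∧ T.dec) (hc : cat F = []) : F = [] := by
  cases F with
  | nil => rfl
  | cons T F =>
    simp only [cat, List.append_eq_nil_iff] at hc
    exact absurd hc.2 (for_post_ne (h T (by simp)).1)

theorem for_cat_append (F G : List Tr) : cat (F ++ G) = cat G ++ cat F := by
  induction F with
  | nil => simp [cat]
  | cons T F ih => simp [cat, ih]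

theorem for_cons {w : List ℕ} {k : ℕ} {T : Tr} {F : List Tr} :
    Fo w (k + 1) (T :: F) ↔ T ≠ .nil ∧ T.dec ∧ Fo (cat F) k F ∧ cat F ++ T.post = w := by
  simp only [Fo, List.length_cons, Nat.add_right_cancel_iff, List.forall_mem_cons, cat, and_true]
  tauto

theorem for_ex {w : List ℕ} {k : ℕ} {F : List Tr} (h : Fo w (k + 1) F) :
    ∃ T F', F = T :: F' := by
  cases F with
  | nil => simp [Fo] at h
  | cons T F => exact ⟨T, F, rfl⟩

theorem for_self {w : List ℕ} {k : ℕ} {F : List Tr} (h : Fo w k F) : Fo (cat F) k F :=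
  ⟨h.1, h.2.1, rfl⟩

theorem Fo_nil (k : ℕ) : Cnt (Fo [] k) (if k = 0 then 1 else 0) := by
  split_ifs with hk
  · subst hk
    refine Cnt.one [] fun F => ⟨fun h => for_cat_nil h.2.1 h.2.2, ?_⟩
    rintro rfl
    simp [Fo, cat]
  · refine Cnt.zero fun F h => hk ?_
    have := for_cat_nil h.2.1 h.2.2
    rw [← h.1, this]; rfl

theorem for_node {w : List ℕ} {v : ℕ} (hw : ∀ x ∈ w, x < v) {k : ℕ} {l r : Tr} {u : ℕ}
    {F : List Tr} : Fo (w ++ [v]) (k + 1) (.node l u r :: F) ↔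
      u = v ∧ l.dec ∧ r.dec ∧ Fo (cat F) k F ∧ cat F ++ l.post ++ r.post = w := by
  rw [for_cons]
  simp only [Tr.post, Tr.dec, ← List.append_assoc]
  constructor
  · rintro ⟨-, ⟨h1, h2, -, -⟩, h3, h4⟩
    obtain ⟨h5, h6⟩ := List.append_inj' h4 rfl
    exact ⟨by simpa using h6, h1, h2, h3, h5⟩
  · rintro ⟨rfl, h1, h2, h3, rfl⟩
    exact ⟨by simp, ⟨h1, h2, fun x hx => hw x (by simp [hx]), fun x hx => hw x (by simp [hx])⟩,
      h3, rfl⟩

theorem Fo_op (w : List ℕ) (v : ℕ) (hw : ∀ x ∈ w, x < v) (f : ℕ → ℕ)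
    (h : ∀ k, Cnt (Fo w k) (f k)) (k : ℕ) : Cnt (Fo (w ++ [v]) k) (opA f k) := by
  cases k with
  | zero =>
    refine Cnt.zero fun F hF => ?_
    have h1 : F = [] := List.length_eq_zero_iff.1 hF.1
    have h2 := hF.2.2
    simp [h1, cat] at h2
  | succ k =>
    have c1 : Cnt (fun b => ∃ F, b = Tr.node .nil v .nil :: F ∧ Fo w k F) (f k) :=
      (h k).bij (fun a => Tr.node .nil v .nil :: a) (fun a b _ _ hab => by simpa using hab)
        (fun a ha => ⟨a, rfl, ha⟩) (fun b ⟨F, h1, h2⟩ => ⟨F, h2, h1.symm⟩)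
    have c2 : Cnt (fun b => ∃ T F, b = Tr.node T v .nil :: F ∧ Fo w (k + 1) (T :: F))
        (f (k + 1)) := by
      refine (h (k + 1)).bij (fun a => Tr.node (a.headD .nil) v .nil :: a.tail) ?_ ?_ ?_
      · intro a b ha hb hab
        obtain ⟨T, F, rfl⟩ := for_ex ha
        obtain ⟨T', F', rfl⟩ := for_ex hb
        simpa using hab
      · intro a ha
        obtain ⟨T, F, rfl⟩ := for_ex ha
        exact ⟨T, F, rfl, ha⟩
      · rintro b ⟨T, F, rfl, h2⟩
        exact ⟨T :: F, h2, rfl⟩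
    have c3 : Cnt (fun b => ∃ T F, b = Tr.node .nil v T :: F ∧ Fo w (k + 1) (T :: F))
        (f (k + 1)) := by
      refine (h (k + 1)).bij (fun a => Tr.node .nil v (a.headD .nil) :: a.tail) ?_ ?_ ?_
      · intro a b ha hb hab
        obtain ⟨T, F, rfl⟩ := for_ex ha
        obtain ⟨T', F', rfl⟩ := for_ex hb
        simpa using hab
      · intro a ha
        obtain ⟨T, F, rfl⟩ := for_ex ha
        exact ⟨T, F, rfl, ha⟩
      · rintro b ⟨T, F, rfl, h2⟩
        exact ⟨T :: F, h2, rfl⟩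
    have c4 : Cnt (fun b => ∃ l r F, b = Tr.node l v r :: F ∧ Fo w (k + 2) (r :: l :: F))
        (f (k + 2)) := by
      refine (h (k + 2)).bij
        (fun a => Tr.node (a.tail.headD .nil) v (a.headD .nil) :: a.tail.tail) ?_ ?_ ?_
      · intro a b ha hb hab
        obtain ⟨T, F, rfl⟩ := for_ex ha
        obtain ⟨T', F', rfl⟩ := for_ex hb
        obtain ⟨S, G, rfl⟩ := for_ex (for_cons.1 ha).2.2.1
        obtain ⟨S', G', rfl⟩ := for_ex (for_cons.1 hb).2.2.1
        simp only [List.tail_cons, List.headD_cons, List.cons.injEq, Tr.node.injEq] at hab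
        simp [hab.1.1, hab.1.2.2, hab.2]
      · intro a ha
        obtain ⟨T, F, rfl⟩ := for_ex ha
        obtain ⟨S, G, rfl⟩ := for_ex (for_cons.1 ha).2.2.1
        exact ⟨S, T, G, rfl, ha⟩
      · rintro b ⟨l, r, F, rfl, h2⟩
        exact ⟨r :: l :: F, h2, rfl⟩
    have c12 := c1.or c2 (by
      rintro b ⟨F, rfl, -⟩ ⟨T, F', h1, h2⟩
      simp only [List.cons.injEq, Tr.node.injEq] at h1
      exact (for_cons.1 h2).1 h1.1.1.symm)
    have c123 := c12.or c3 (by
      rintro b (⟨F, rfl, -⟩ | ⟨S, F, rfl, -⟩) ⟨T, F', h1, h2⟩ <;>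
      · simp only [List.cons.injEq, Tr.node.injEq] at h1
        exact (for_cons.1 h2).1 h1.1.2.2.symm)
    have c1234 := c123.or c4 (by
      rintro b ((⟨F, rfl, -⟩ | ⟨S, F, rfl, -⟩) | ⟨S, F, rfl, -⟩) ⟨l, r, F', h1, h2⟩
      · simp only [List.cons.injEq, Tr.node.injEq] at h1
        exact (for_cons.1 h2).1 h1.1.2.2.symm
      · simp only [List.cons.injEq, Tr.node.injEq] at h1
        exact (for_cons.1 h2).1 h1.1.2.2.symm
      · simp only [List.cons.injEq, Tr.node.injEq] at h1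
        exact (for_cons.1 (for_cons.1 h2).2.2.1).1 h1.1.1.symm)
    have e : opA f (k + 1) = f k + f (k + 1) + f (k + 1) + f (k + 2) := by
      simp only [opA]; ring
    rw [e]
    refine c1234.congr fun b => ⟨?_, fun hb => ?_⟩
    · rintro (((⟨F, rfl, h2⟩ | ⟨T, F, rfl, h2⟩) | ⟨T, F, rfl, h2⟩) | ⟨l, r, F, rfl, h2⟩)
      · exact (for_node hw).2 ⟨rfl, trivial, trivial, for_self h2, by simpa [Tr.post] using h2.2.2⟩
      · obtain ⟨-, h3, h4, h5⟩ := for_cons.1 h2
        exact (for_node hw).2 ⟨rfl, h3, trivial, h4, by simpa [Tr.post] using h5⟩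
      · obtain ⟨-, h3, h4, h5⟩ := for_cons.1 h2
        exact (for_node hw).2 ⟨rfl, trivial, h3, h4, by simpa [Tr.post] using h5⟩
      · obtain ⟨-, h3, h4, h5⟩ := for_cons.1 h2
        obtain ⟨-, h6, h7, -⟩ := for_cons.1 h4
        exact (for_node hw).2 ⟨rfl, h6, h3, h7, h5⟩
    · obtain ⟨T, F, rfl⟩ := for_ex hb
      cases T with
      | nil => exact absurd rfl (for_cons.1 hb).1
      | node l u r =>
        obtain ⟨rfl, h1, h2, h3, h4⟩ := (for_node hw).1 hb
        by_cases hl : l = .nil <;> by_cases hr : r = .nil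
        · subst hl hr
          refine Or.inl (Or.inl (Or.inl ⟨F, rfl, h3.1, h3.2.1, ?_⟩))
          simpa [Tr.post] using h4
        · subst hl
          exact Or.inl (Or.inr ⟨r, F, rfl,
            for_cons.2 ⟨hr, h2, h3, by simpa [Tr.post] using h4⟩⟩)
        · subst hr
          exact Or.inl (Or.inl (Or.inr ⟨l, F, rfl,
            for_cons.2 ⟨hl, h1, h3, by simpa [Tr.post] using h4⟩⟩))
        · exact Or.inr ⟨l, r, F, rfl,
            for_cons.2 ⟨hr, h2, for_cons.2 ⟨hl, h1, h3, rfl⟩, h4⟩⟩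

theorem for_cut (w1 : List ℕ) (v : ℕ) (F : List Tr) (hF : ∀ T ∈ F, T ≠ .nil ∧ T.dec) :
    ∀ w2 : List ℕ, (∀ x ∈ w2, x < v) → cat F = w1 ++ v :: w2 →
      ∃ F1 F2, F = F2 ++ F1 ∧ cat F1 = w1 ++ [v] ∧ cat F2 = w2 := by
  induction F with
  | nil => intro w2 _ hc; simp [cat] at hc
  | cons T F ih =>
    intro w2 h2 hc
    rcases List.eq_nil_or_concat w2 with rfl | ⟨w3, u, rfl⟩
    · exact ⟨T :: F, [], rfl, hc, rfl⟩
    · obtain ⟨hT, hd⟩ := hF T (by simp)
      cases T with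
      | nil => exact absurd rfl hT
      | node a u' b =>
        have hc' : (cat F ++ (a.post ++ b.post)) ++ [u'] = (w1 ++ v :: w3) ++ [u] := by
          simpa [cat, Tr.post] using hc
        obtain ⟨h5, h6⟩ := List.append_inj' hc' rfl
        obtain rfl : u' = u := by simpa using h6
        have hu : u' < v := h2 u' (by simp)
        have hv : v ∉ a.post ++ b.post := by
          intro hv
          rcases List.mem_append.1 hv with hv | hv
          · exact absurd (hd.2.2.1 v hv) (by omega)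
          · exact absurd (hd.2.2.2 v hv) (by omega)
        have h7 : ∃ w4, cat F = w1 ++ v :: w4 ∧ w3 = w4 ++ (a.post ++ b.post) := by
          rcases List.append_eq_append_iff.1 h5 with ⟨x, -, hx⟩ | ⟨x, hx1, hx2⟩
          · exact absurd (by rw [hx]; simp) hv
          · cases x with
            | nil => exact absurd (by rw [List.nil_append] at hx2; rw [← hx2]; simp) hv
            | cons y x =>
              simp only [List.cons_append, List.cons.injEq] at hx2
              exact ⟨x, by rw [hx1, hx2.1], hx2.2⟩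
        obtain ⟨w4, h8, rfl⟩ := h7
        obtain ⟨F1, F2, rfl, h9, h10⟩ := ih (fun T hT => hF T (by simp [hT])) w4
          (fun x hx => h2 x (by simp [hx])) h8
        exact ⟨F1, .node a u' b :: F2, rfl, h9, by simp [cat, Tr.post, h10]⟩

theorem Fo_split (w1 : List ℕ) (v : ℕ) (w2 : List ℕ) (h2 : ∀ x ∈ w2, x < v) (g h : ℕ → ℕ)
    (hg : ∀ k, Cnt (Fo (w1 ++ [v]) k) (g k)) (hh : ∀ k, Cnt (Fo w2 k) (h k)) (k : ℕ) :
    Cnt (Fo (w1 ++ v :: w2) k) (cv g h k) := by
  have c : Cnt (fun p : List Tr × List Tr => Fo (w1 ++ [v]) p.1.length p.1 ∧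
      Fo w2 p.2.length p.2 ∧ p.1.length + p.2.length = k) (cv g h k) := by
    refine Cnt.fiber (antidiagonal k) (fun p => (p.1.length, p.2.length)) _
      (fun p hp => mem_antidiagonal.2 hp.2.2) fun i hi => ?_
    refine ((hg i.1).prod (Q := fun _ => Fo w2 i.2) fun _ _ => hh i.2).congr fun p => ?_
    constructor
    · rintro ⟨h3, h4⟩
      have e1 := h3.1
      have e2 := h4.1
      refine ⟨⟨e1 ▸ h3, e2 ▸ h4, ?_⟩, Prod.ext e1 e2⟩
      rw [e1, e2]
      exact mem_antidiagonal.1 hi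
    · rintro ⟨⟨h3, h4, -⟩, rfl⟩
      exact ⟨h3, h4⟩
  refine c.bij (fun p => p.2 ++ p.1) ?_ ?_ ?_
  · rintro ⟨F1, F2⟩ ⟨G1, G2⟩ ⟨a1, a2, -⟩ ⟨b1, b2, -⟩ hab
    have key : ∀ {X Y E : List Tr}, Fo w2 X.length X → Fo w2 Y.length Y → Y = X ++ E → E = [] := by
      intro X Y E hX hY hE
      have h3 := hY.2.2
      rw [hE, for_cat_append, hX.2.2] at h3
      exact for_cat_nil (fun T hT => hY.2.1 T (by simp [hE, hT])) (by simpa using h3)
    rcases List.append_eq_append_iff.1 hab with ⟨E, h3, h4⟩ | ⟨E, h3, h4⟩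
    · obtain rfl := key a2 b2 h3
      simp only [List.append_nil, List.nil_append] at h3 h4
      exact Prod.ext h4 h3.symm
    · obtain rfl := key b2 a2 h3
      simp only [List.append_nil, List.nil_append] at h3 h4
      exact Prod.ext h4.symm h3
  · rintro ⟨F1, F2⟩ ⟨a1, a2, a3⟩
    refine ⟨by rw [List.length_append, add_comm]; exact a3, fun T hT => ?_, ?_⟩
    · rcases List.mem_append.1 hT with hT | hT
      · exact a2.2.1 T hT
      · exact a1.2.1 T hT
    · rw [for_cat_append, a1.2.2, a2.2.2]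
      simp
  · intro F hF
    obtain ⟨F1, F2, rfl, h3, h4⟩ := for_cut w1 v F hF.2.1 w2 h2 hF.2.2
    refine ⟨(F1, F2), ⟨⟨rfl, fun T hT => hF.2.1 T (by simp [hT]), h3⟩,
      ⟨rfl, fun T hT => hF.2.1 T (by simp [hT]), h4⟩, ?_⟩, rfl⟩
    have := hF.1
    rw [List.length_append, add_comm] at this
    exact this

theorem Fo_cnt (T : Tr) (hT : T.dec) (k : ℕ) : Cnt (Fo T.ino k) (A T.sp k) := by
  induction T generalizing k with
  | nil => exact Fo_nil k
  | node l v r ihl ihr =>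
    obtain ⟨h1, h2, h3, h4⟩ := hT
    exact Fo_split l.ino v r.ino (fun x hx => h4 x ((post_perm r).mem_iff.2 hx)) _ _
      (Fo_op l.ino v (fun x hx => h3 x ((post_perm l).mem_iff.2 hx)) _ (ihl h1)) (ihr h2) k

end Pool.Agent.P.MP_8acafb_co.T3
end

-- part Pool.Agent.P.MP_8acafb_co.T3G
section

namespace Pool.Agent.P.MP_8acafb_co.T3

open Finset

theorem gs_nil (x y z : ℝ) (i j : ℕ) : gs x y z .nil i j = 0 := by
  simp [gs, B]

theorem g_nil_fun (x y z : ℝ) : gs x y z .nil = fun _ _ => 0 := by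
  funext i j; exact gs_nil x y z i j

/-- the difference term of `B` -/
def gD (l r : Sp) (j : ℕ) : ℕ :=
  l.isN * r.isN * (if j = 0 then 1 else 0) + r.isN * B l j + l.isN * B r j
    + cv (B l) (vB (B r)) j

theorem g_step (x y z : ℝ) (l r : Sp) (i j : ℕ) :
    gs x y z (.node l r) i j = sh y (gs x y z (.node l r)) i j +
      z * (z ^ l.size * z ^ r.size * ((A (.node l r) (i + 1) : ℝ) * x ^ i) *
        ((gD l r j : ℝ) * y ^ j)) := by
  cases j with
  | zero =>
    have h : B (.node l r) 0 = gD l r 0 := by simp [B, gD]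
    simp only [gs, sh, h, Sp.size]; ring
  | succ j =>
    have h : B (.node l r) (j + 1) = B (.node l r) j + gD l r (j + 1) := by
      simp only [B, gD]; rw [sum_range_succ _ (j + 1)]
    simp only [gs, sh, h, Sp.size]; push_cast; ring

theorem g_A0 (l r : Sp) : A (.node l r) 0 = 0 := by simp [A, cv, opA]

theorem g_Asucc (l r : Sp) (i : ℕ) : A (.node l r) (i + 1) =
    ∑ p ∈ antidiagonal i, opA (A l) p.1 * A r (p.2 + 1) + opA (A l) (i + 1) * A r 0 := by
  simp only [A, cv]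
  rw [Finset.Nat.sum_antidiagonal_succ', add_comm]

theorem g_Arnil (l : Sp) (i : ℕ) : A (.node l .nil) (i + 1) = opA (A l) (i + 1) := by
  rw [g_Asucc]; simp [A]

theorem g_Alnil (r : Sp) (i : ℕ) : A (.node .nil r) (i + 1) = A r i := by
  have h : A (.node .nil r) (i + 1) = ∑ p ∈ antidiagonal (i + 1), opA (A .nil) p.1 * A r p.2 := rfl
  rw [h, Finset.Nat.sum_antidiagonal_succ]
  cases i with
  | zero => simp [opA, A]
  | succ i => rw [Finset.Nat.sum_antidiagonal_succ]; simp [opA, A]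

theorem g_Uo (x y z : ℝ) (a b : Sp) (p j : ℕ) : Uo x (gs x y z (.node a b)) p j =
    z ^ (Sp.node a b).size * ((opA (A (.node a b)) p : ℝ) * x ^ p) *
      ((B (.node a b) j : ℝ) * y ^ j) := by
  rcases p with _ | _ | p
  · simp [Uo, opA]
  · simp only [Uo, dn, gs, opA, g_A0]; push_cast; ring
  · simp only [Uo, dn, gs, opA]; push_cast; ring

theorem g_Vo (x y z : ℝ) (hy : y ≠ 0) (r : Sp) (q b : ℕ) : Vo y (gs x y z r) q b =
    z ^ r.size * ((A r (q + 1) : ℝ) * x ^ q) * ((vB (B r) b : ℝ) * y ^ b) := by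
  simp only [Vo, gs, vB]
  split_ifs with h
  · subst h; push_cast; field_simp
  · push_cast; field_simp; ring

theorem g_U0 (x : ℝ) (i j : ℕ) : Uo x (fun _ _ => (0 : ℝ)) i j = 0 := by
  rcases i with _ | _ | i <;> simp [Uo, dn]

theorem g_d0 (i j : ℕ) : dn (fun _ _ => (0 : ℝ)) i j = 0 := by cases i <;> simp [dn]

theorem gs_node (x y z : ℝ) (hx : x ≠ 0) (hy : y ≠ 0) (l r : Sp) (i j : ℕ) :
    gs x y z (.node l r) i j = sh y (gs x y z (.node l r)) i j + z *
      ((l.isN : ℝ) * r.isN * del i j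
        + r.isN * (gs x y z l (i + 1) j / x + 2 * gs x y z l i j + x * dn (gs x y z l) i j)
        + l.isN * (x * dn (gs x y z r) i j)
        + cv2 (Uo x (gs x y z l)) (Vo y (gs x y z r)) i j) := by
  rw [g_step]
  congr 2
  cases l with
  | nil =>
    rw [g_Alnil]
    cases r with
    | nil =>
      simp only [g_nil_fun, cv2, g_U0, g_d0, gD, Sp.isN, Sp.size, A, B, cv, del]
      by_cases hi : i = 0 <;> by_cases hj : j = 0 <;> simp [hi, hj]
    | node a b =>
      have h : gD .nil (.node a b) j = B (.node a b) j := by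
        simp only [gD, Sp.isN, cv]; simp [B]
      rw [h]
      simp only [g_nil_fun, cv2, g_U0, g_d0, Sp.isN]
      cases i with
      | zero => simp [dn, g_A0]
      | succ i => simp only [dn, gs, Sp.size]; simp; ring
  | node a b =>
    cases r with
    | nil =>
      have h : gD (.node a b) .nil j = B (.node a b) j := by
        simp only [gD, Sp.isN, cv, vB]; simp [B]
      rw [h, g_Arnil]
      simp only [g_nil_fun, cv2, Vo, Sp.isN]
      cases i with
      | zero => simp only [dn, gs, opA, g_A0, Sp.size]; simp; field_simp; ring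
      | succ i => simp only [dn, gs, opA, Sp.size]; simp; field_simp; ring
    | node c d =>
      have h : gD (.node a b) (.node c d) j = cv (B (.node a b)) (vB (B (.node c d))) j := by
        simp only [gD, Sp.isN]; simp
      rw [h, g_Asucc, g_A0]
      simp only [cv2, g_Uo, g_Vo x y z hy, Sp.isN, cv]
      push_cast
      simp only [mul_zero, add_zero, zero_mul, zero_add, sum_mul, mul_sum]
      rw [sum_comm]
      refine sum_congr rfl fun p hp => sum_congr rfl fun q hq => ?_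
      rw [← mem_antidiagonal.1 hp, ← mem_antidiagonal.1 hq]
      ring

theorem g_sh_sum (y : ℝ) {α : Type} (F : Finset α) (f : α → Ar) (i j : ℕ) :
    sh y (fun i j => ∑ a ∈ F, f a i j) i j = ∑ a ∈ F, sh y (f a) i j := by
  cases j <;> simp [sh, mul_sum]

theorem g_dn_sum {α : Type} (F : Finset α) (f : α → Ar) (i j : ℕ) :
    dn (fun i j => ∑ a ∈ F, f a i j) i j = ∑ a ∈ F, dn (f a) i j := by
  cases i <;> simp [dn]

theorem g_Uo_sum (x : ℝ) {α : Type} (F : Finset α) (f : α → Ar) (i j : ℕ) :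
    Uo x (fun i j => ∑ a ∈ F, f a i j) i j = ∑ a ∈ F, Uo x (f a) i j := by
  cases i with
  | zero => simp [Uo]
  | succ i => simp only [Uo, g_dn_sum, mul_sum, sum_add_distrib]

theorem g_Vo_sum (y : ℝ) {α : Type} (F : Finset α) (f : α → Ar) (i j : ℕ) :
    Vo y (fun i j => ∑ a ∈ F, f a i j) i j = ∑ a ∈ F, Vo y (f a) i j := by
  simp only [Vo, sum_add_distrib, sum_div]
  split_ifs <;> simp

theorem g_HT_sum (n : ℕ) (f : Sp → ℝ) :
    ∑ S ∈ HT (n + 1), f S = f .nil + ∑ l ∈ HT n, ∑ r ∈ HT n, f (.node l r) := by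
  classical
  rw [HT, sum_insert (by simp), sum_image (by
    rintro ⟨a, b⟩ _ ⟨c, d⟩ _ h
    simp only [Sp.node.injEq] at h
    exact Prod.ext h.1 h.2), sum_product]

theorem g_isN (n : ℕ) : ∑ S ∈ HT n, (S.isN : ℝ) = 1 := by
  cases n with
  | zero => simp [HT, Sp.isN]
  | succ n => rw [g_HT_sum]; simp [Sp.isN]

theorem g_cv2_sum (x y : ℝ) (F : Finset Sp) (f : Sp → Ar) (i j : ℕ) :
    cv2 (Uo x fun i j => ∑ a ∈ F, f a i j) (Vo y fun i j => ∑ a ∈ F, f a i j) i j =
      ∑ l ∈ F, ∑ r ∈ F, cv2 (Uo x (f l)) (Vo y (f r)) i j := by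
  simp only [cv2, g_Uo_sum, g_Vo_sum, sum_mul_sum]
  calc _ = ∑ p ∈ antidiagonal i, ∑ l ∈ F, ∑ r ∈ F, ∑ q ∈ antidiagonal j,
        Uo x (f l) p.1 q.1 * Vo y (f r) p.2 q.2 := by
        refine sum_congr rfl fun p _ => ?_
        rw [sum_comm]
        exact sum_congr rfl fun l _ => sum_comm
    _ = _ := by
        rw [sum_comm]
        exact sum_congr rfl fun l _ => sum_comm

theorem GG_iter (x y z : ℝ) (hx : 0 < x) (hy : 0 < y) (hz : 0 ≤ z) :
    Iter x y z (GG x y z) := by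
  refine ⟨fun i j => by simp [GG, HT, gs_nil], fun n i j => ?_, fun n i j => ?_⟩
  · have h1 : sh y (GG x y z (n + 1)) i j =
        ∑ l ∈ HT n, ∑ r ∈ HT n, sh y (gs x y z (.node l r)) i j := by
      have := g_sh_sum y (HT (n + 1)) (gs x y z) i j
      rw [g_HT_sum n (fun S => sh y (gs x y z S) i j)] at this
      refine this.trans ?_
      rw [g_nil_fun]
      cases j <;> simp [sh]
    have h2 : GG x y z (n + 1) i j = ∑ l ∈ HT n, ∑ r ∈ HT n, gs x y z (.node l r) i j := by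
      have := g_HT_sum n (fun S => gs x y z S i j)
      rw [gs_nil, zero_add] at this
      exact this
    have h3 := g_cv2_sum x y (HT n) (gs x y z) i j
    have h4 := g_dn_sum (HT n) (gs x y z) i j
    have h5 : R x y (GG x y z n) i j = del i j +
        ((∑ S ∈ HT n, gs x y z S (i + 1) j) / x + 2 * ∑ S ∈ HT n, gs x y z S i j +
          2 * x * ∑ a ∈ HT n, dn (gs x y z a) i j) +
        ∑ l ∈ HT n, ∑ r ∈ HT n, cv2 (Uo x (gs x y z l)) (Vo y (gs x y z r)) i j := by
      rw [← h3, ← h4]; rfl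
    rw [h1, h2, h5]
    simp only [gs_node x y z hx.ne' hy.ne' _ _ i j, sum_add_distrib, ← mul_sum, ← sum_mul,
      ← sum_div, g_isN, one_mul]
    ring
  · exact sum_nonneg fun S _ => by simp only [gs]; positivity

end Pool.Agent.P.MP_8acafb_co.T3
end

-- part Pool.Agent.P.MP_8acafb_co.T3Lo
section

namespace Pool.Agent.P.MP_8acafb_co.T3

open Finset

theorem lo_box {I J : ℕ} {k : ℕ × ℕ} (hk : k ∈ range I ×ˢ range J) : k.1 < I ∧ k.2 < J := by
  simpa [mem_product] using hk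

theorem lo_step1 (x y z0 z1 : ℝ) (hx : 0 ≤ x) (hy : 0 ≤ y) (hz0 : 0 ≤ z0) (hz : z0 ≤ z1)
    (G : Ar) (hG0 : ∀ i j, 0 ≤ G i j) (hG : ∀ i j, sh y G i j + z1 * R x y G i j ≤ G i j)
    (I J : ℕ) (hI : 0 < I) (hJ : 0 < J) (P v : Ar) (hP : Box I J P) (hv : Box I J v)
    (hvp : ∀ i < I, ∀ j < J, 0 < v i j)
    (h1 : ∀ i < I, ∀ j < J, P i j < sh y P i j + z0 * R x y P i j)
    (h2 : ∀ i < I, ∀ j < J, sh y v i j + z0 * Lam x y P v i j < v i j) :
    ∀ i j, P i j ≤ G i j := by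
  set d : Ar := fun i j => P i j - min (P i j) (G i j) with hd
  have hd0 : ∀ i j, 0 ≤ d i j := fun i j => sub_nonneg.2 (min_le_left _ _)
  have hne : (range I ×ˢ range J).Nonempty := ⟨(0, 0), by simp [mem_product, hI, hJ]⟩
  obtain ⟨k, hk, hmax⟩ := exists_max_image (range I ×ˢ range J)
    (fun k : ℕ × ℕ => d k.1 k.2 / v k.1 k.2) hne
  obtain ⟨hk1, hk2⟩ := lo_box hk
  set c := d k.1 k.2 / v k.1 k.2 with hc
  have hvk := hvp _ hk1 _ hk2
  have hdv : ∀ i j, d i j ≤ c * v i j := by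
    intro i j
    by_cases h : i < I ∧ j < J
    · have := hmax (i, j) (by simp [mem_product, h.1, h.2])
      exact (div_le_iff₀ (hvp i h.1 j h.2)).1 this
    · have h' : I ≤ i ∨ J ≤ j := by omega
      have e1 := hP.supp i j h'
      have e2 := hv.supp i j h'
      simp only [hd, e1, e2, min_eq_left (hG0 i j)]
      simp
  have hc0 : 0 ≤ c := div_nonneg (hd0 _ _) hvk.le
  rcases hc0.eq_or_lt with h0 | hpos
  · intro i j
    have := hdv i j
    rw [← h0, zero_mul] at this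
    have h3 : P i j ≤ min (P i j) (G i j) := by simp only [hd] at this; linarith
    exact h3.trans (min_le_right _ _)
  · exfalso
    have hdk : d k.1 k.2 = c * v k.1 k.2 := by rw [hc]; field_simp
    have hdkp : 0 < d k.1 k.2 := by rw [hdk]; positivity
    have hmk : d k.1 k.2 = P k.1 k.2 - G k.1 k.2 := by
      have : min (P k.1 k.2) (G k.1 k.2) = G k.1 k.2 := by
        apply min_eq_right
        by_contra hcon
        have := min_eq_left (not_le.1 hcon).le
        simp only [hd, this] at hdkp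
        linarith
      simp only [hd, this]
    have hm0 : ∀ i j, 0 ≤ lc P (-1) d i j := fun i j => by
      have := le_min (hP.nonneg i j) (hG0 i j)
      simp only [lc, hd]; linarith
    have hmG : ∀ i j, lc P (-1) d i j ≤ G i j := fun i j => by
      have := min_le_right (P i j) (G i j)
      simp only [lc, hd]; linarith
    have a1 := R_lc (x := x) (y := y) (P := P) (d := d) (-1) k.1 k.2
    have a2 := sh_lc (y := y) (f := P) (g := d) (-1) k.1 k.2
    have a3 := R_mono hx hy hm0 hmG k.1 k.2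
    have a4 := sh_mono hy hmG k.1 k.2
    have a5 := cv2_nonneg (Uo_nonneg hx hd0) (Vo_nonneg hy hd0) k.1 k.2
    have a6 := Lam_mono hx hy hP.nonneg hd0 hdv k.1 k.2
    rw [Lam_smul] at a6
    have a7 := sh_mono hy hdv k.1 k.2
    rw [sh_smul] at a7
    have a8 := R_nonneg hx hy hG0 k.1 k.2
    have b1 := hG k.1 k.2
    have b2 := h1 _ hk1 _ hk2
    have b3 := h2 _ hk1 _ hk2
    have b4 : z0 * R x y G k.1 k.2 ≤ z1 * R x y G k.1 k.2 := mul_le_mul_of_nonneg_right hz a8
    have b5 : R x y P k.1 k.2 ≤ R x y G k.1 k.2 + c * Lam x y P v k.1 k.2 := by nlinarith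
    have b6 := mul_le_mul_of_nonneg_left b5 hz0
    have b7 := mul_lt_mul_of_pos_left b3 hpos
    nlinarith

theorem lower (x y z0 z1 : ℝ) (hx : 0 ≤ x) (hy : 0 ≤ y) (hz0 : 0 ≤ z0) (hz : z0 ≤ z1)
    (G : Ar) (hG0 : ∀ i j, 0 ≤ G i j) (hG : ∀ i j, sh y G i j + z1 * R x y G i j ≤ G i j)
    (I J : ℕ) (hI : 0 < I) (hJ : 0 < J) (P v : Ar) (hP : Box I J P) (hv : Box I J v)
    (h1 : ∀ i < I, ∀ j < J, P i j < sh y P i j + z0 * R x y P i j)
    (h2 : ∀ i < I, ∀ j < J, sh y v i j + z0 * Lam x y P v i j < v i j)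
    (h3 : ∀ i < I, ∀ j < J, v i j ≤ sh y v i j + z1 * Lam x y P v i j) : False := by
  have hvp : ∀ i < I, ∀ j < J, 0 < v i j := fun i hi j hj => by
    have a1 := sh_nonneg hy hv.nonneg i j
    have a2 := mul_nonneg hz0 (Lam_nonneg hx hy hP.nonneg hv.nonneg i j)
    have := h2 i hi j hj
    linarith
  have hPG := lo_step1 x y z0 z1 hx hy hz0 hz G hG0 hG I J hI hJ P v hP hv hvp h1 h2
  have hne : (range I ×ˢ range J).Nonempty := ⟨(0, 0), by simp [mem_product, hI, hJ]⟩
  obtain ⟨k, hk, hmin⟩ := exists_min_image (range I ×ˢ range J)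
    (fun k : ℕ × ℕ => (G k.1 k.2 - P k.1 k.2) / v k.1 k.2) hne
  obtain ⟨hk1, hk2⟩ := lo_box hk
  set c := (G k.1 k.2 - P k.1 k.2) / v k.1 k.2 with hc
  have hvk := hvp _ hk1 _ hk2
  have hc0 : 0 ≤ c := div_nonneg (sub_nonneg.2 (hPG _ _)) hvk.le
  have hle : ∀ i j, lc P c v i j ≤ G i j := by
    intro i j
    by_cases h : i < I ∧ j < J
    · have := hmin (i, j) (by simp [mem_product, h.1, h.2])
      have := (le_div_iff₀ (hvp i h.1 j h.2)).1 this
      simp only [lc]; linarith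
    · have h' : I ≤ i ∨ J ≤ j := by omega
      have e1 := hP.supp i j h'
      have e2 := hv.supp i j h'
      simp only [lc, e1, e2]
      simpa using hG0 i j
  have hn : ∀ i j, 0 ≤ lc P c v i j := fun i j =>
    add_nonneg (hP.nonneg i j) (mul_nonneg hc0 (hv.nonneg i j))
  have hk0 : G k.1 k.2 = P k.1 k.2 + c * v k.1 k.2 := by rw [hc]; field_simp; ring
  have hz1 : 0 ≤ z1 := hz0.trans hz
  have a1 := R_lc (x := x) (y := y) (P := P) (d := v) c k.1 k.2
  have a2 := sh_lc (y := y) (f := P) (g := v) c k.1 k.2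
  have a3 := R_mono hx hy hn hle k.1 k.2
  have a4 := sh_mono hy hle k.1 k.2
  have a5 := mul_nonneg (sq_nonneg c)
    (cv2_nonneg (Uo_nonneg hx hv.nonneg) (Vo_nonneg hy hv.nonneg) k.1 k.2)
  have a8 := R_nonneg hx hy hP.nonneg k.1 k.2
  have b1 := hG k.1 k.2
  have b2 := h1 _ hk1 _ hk2
  have b3 := mul_le_mul_of_nonneg_left (h3 _ hk1 _ hk2) hc0
  have b4 : z0 * R x y P k.1 k.2 ≤ z1 * R x y P k.1 k.2 := mul_le_mul_of_nonneg_right hz a8
  have b5 : R x y P k.1 k.2 + c * Lam x y P v k.1 k.2 ≤ R x y G k.1 k.2 := by linarith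
  have b6 := mul_le_mul_of_nonneg_left b5 hz1
  nlinarith

theorem lo_mono (x y z : ℝ) (hx : 0 < x) (hy : 0 < y) (hz : 0 < z) (G : ℕ → Ar)
    (hG : Iter x y z G) : ∀ n i j, G n i j ≤ G (n + 1) i j := by
  intro n
  induction n with
  | zero => intro i j; rw [hG.zero]; exact hG.nonneg _ _ _
  | succ n ih =>
    intro i j
    have hR : ∀ j, z * R x y (G n) i j ≤ z * R x y (G (n + 1)) i j := fun j =>
      mul_le_mul_of_nonneg_left (R_mono hx.le hy.le (hG.nonneg n) ih i j) hz.le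
    induction j with
    | zero =>
      rw [hG.succ n, hG.succ (n + 1)]
      have := hR 0
      simp only [sh]; linarith
    | succ j ihj =>
      rw [hG.succ n, hG.succ (n + 1)]
      have := hR (j + 1)
      have h2 := mul_le_mul_of_nonneg_left ihj hy.le
      simp only [sh]; linarith

theorem lo_zR (x y z : ℝ) (hy : 0 < y) (G : ℕ → Ar)
    (hG : Iter x y z G) (n i j : ℕ) : z * R x y (G n) i j ≤ G (n + 1) i j := by
  rw [hG.succ n]
  have := sh_nonneg hy.le (hG.nonneg (n + 1)) i j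
  linarith

theorem lo_row (x y z : ℝ) (hx : 0 < x) (hy : 0 < y) (hz : 0 < z) (G : ℕ → Ar)
    (hG : Iter x y z G) (n i j : ℕ) : G n (i + 1) j ≤ x / z * G (n + 1) i j := by
  have a1 := lo_zR x y z hy G hG n i j
  have a2 := del_nonneg i j
  have a3 := cv2_nonneg (Uo_nonneg hx.le (hG.nonneg n)) (Vo_nonneg hy.le (hG.nonneg n)) i j
  have a4 := mul_nonneg (mul_nonneg zero_le_two hx.le) (dn_nonneg (hG.nonneg n) i j)
  have a5 := hG.nonneg n i j
  have a6 : G n (i + 1) j / x ≤ R x y (G n) i j := by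
    simp only [R, Lin]; linarith
  have a7 := mul_le_mul_of_nonneg_left a6 hz.le
  have a8 : z * (G n (i + 1) j / x) ≤ G (n + 1) i j := a7.trans a1
  have : G n (i + 1) j = x / z * (z * (G n (i + 1) j / x)) := by field_simp
  rw [this]
  exact mul_le_mul_of_nonneg_left a8 (by positivity)

theorem lo_col (x y z : ℝ) (hx : 0 < x) (hy : 0 < y) (hz : 0 < z) (G : ℕ → Ar)
    (hG : Iter x y z G) (n j : ℕ) :
    G (n + 1) 0 (j + 1) ≤ y / (2 * x * z ^ 2) * G (n + 2) 1 j := by
  have hU := Uo_nonneg hx.le (hG.nonneg (n + 1))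
  have hV := Vo_nonneg hy.le (hG.nonneg (n + 1))
  have a0 : z ≤ G (n + 1) 0 0 := by
    have a1 := lo_zR x y z hy G hG n 0 0
    have a3 := cv2_nonneg (Uo_nonneg hx.le (hG.nonneg n)) (Vo_nonneg hy.le (hG.nonneg n)) 0 0
    have a4 := Lin_nonneg hx.le (hG.nonneg n) 0 0
    have a5 : 1 ≤ R x y (G n) 0 0 := by
      have : del 0 0 = 1 := by simp [del]
      simp only [R]; linarith
    nlinarith
  have a1 := lo_zR x y z hy G hG (n + 1) 1 j
  have a2 := del_nonneg 1 j
  have a3 := Lin_nonneg hx.le (hG.nonneg (n + 1)) 1 j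
  have a4 : Uo x (G (n + 1)) 1 0 * Vo y (G (n + 1)) 0 j
      ≤ cv2 (Uo x (G (n + 1))) (Vo y (G (n + 1))) 1 j := by
    have s1 : Uo x (G (n + 1)) 1 0 * Vo y (G (n + 1)) 0 j ≤
        ∑ q ∈ antidiagonal j, Uo x (G (n + 1)) 1 q.1 * Vo y (G (n + 1)) 0 q.2 :=
      single_le_sum (f := fun q : ℕ × ℕ => Uo x (G (n + 1)) 1 q.1 * Vo y (G (n + 1)) 0 q.2)
        (fun q _ => mul_nonneg (hU _ _) (hV _ _)) (a := (0, j)) (by simp)
    refine s1.trans ?_
    exact single_le_sum (f := fun p : ℕ × ℕ => ∑ q ∈ antidiagonal j,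
        Uo x (G (n + 1)) p.1 q.1 * Vo y (G (n + 1)) p.2 q.2)
      (fun p _ => sum_nonneg fun q _ => mul_nonneg (hU _ _) (hV _ _)) (a := (1, 0)) (by simp)
  have a5 : 2 * x * z ≤ Uo x (G (n + 1)) 1 0 := by
    have := hG.nonneg (n + 1) 1 0
    have h2 := mul_le_mul_of_nonneg_left a0 (by positivity : 0 ≤ 2 * x)
    simp only [Uo, dn, zero_add]; linarith
  have a6 : G (n + 1) 0 (j + 1) / y ≤ Vo y (G (n + 1)) 0 j := by
    have := hG.nonneg (n + 1) 0 0
    simp only [Vo]; split_ifs <;> linarith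
  have a7 : 2 * x * z * (G (n + 1) 0 (j + 1) / y) ≤
      Uo x (G (n + 1)) 1 0 * Vo y (G (n + 1)) 0 j :=
    mul_le_mul a5 a6 (div_nonneg (hG.nonneg _ _ _) hy.le) (hU _ _)
  have a8 : 2 * x * z * (G (n + 1) 0 (j + 1) / y) ≤ R x y (G (n + 1)) 1 j := by
    simp only [R]; linarith
  have a9 := (mul_le_mul_of_nonneg_left a8 hz.le).trans a1
  have : G (n + 1) 0 (j + 1) =
      y / (2 * x * z ^ 2) * (z * (2 * x * z * (G (n + 1) 0 (j + 1) / y))) := by field_simp
  rw [this]
  exact mul_le_mul_of_nonneg_left a9 (by positivity)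

theorem lo_bdd (x y z : ℝ) (hx : 0 < x) (hy : 0 < y) (hz : 0 < z) (G : ℕ → Ar)
    (hG : Iter x y z G) (C : ℝ) (hC : ∀ n, G n 0 0 ≤ C) :
    ∀ j i, ∃ D, ∀ n, G n i j ≤ D := by
  have hrow : ∀ j, (∃ D, ∀ n, G n 0 j ≤ D) → ∀ i, ∃ D, ∀ n, G n i j ≤ D := by
    intro j h0 i
    induction i with
    | zero => exact h0
    | succ i ih =>
      obtain ⟨D, hD⟩ := ih
      exact ⟨x / z * D, fun n => (lo_row x y z hx hy hz G hG n i j).trans
        (mul_le_mul_of_nonneg_left (hD _) (by positivity))⟩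
  intro j
  induction j with
  | zero => exact hrow 0 ⟨C, hC⟩
  | succ j ih =>
    obtain ⟨D, hD⟩ := ih 1
    refine hrow _ ⟨y / (2 * x * z ^ 2) * D, fun n => ?_⟩
    exact (lo_mono x y z hx hy hz G hG n _ _).trans ((lo_col x y z hx hy hz G hG n j).trans
      (mul_le_mul_of_nonneg_left (hD _) (by positivity)))

open Filter Topology in
theorem lo_tend (x y : ℝ) (G : ℕ → Ar) (H : Ar)
    (h : ∀ i j, Tendsto (fun n => G n i j) atTop (𝓝 (H i j))) (i j : ℕ) :
    Tendsto (fun n => R x y (G n) i j) atTop (𝓝 (R x y H i j)) := by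
  have hd : ∀ i j, Tendsto (fun n => dn (G n) i j) atTop (𝓝 (dn H i j)) := fun i j => by
    cases i with
    | zero => exact tendsto_const_nhds
    | succ i => exact h i j
  have hU : ∀ i j, Tendsto (fun n => Uo x (G n) i j) atTop (𝓝 (Uo x H i j)) := fun i j => by
    cases i with
    | zero => exact tendsto_const_nhds
    | succ i =>
      exact ((h _ _).add ((h _ _).const_mul _)).add ((hd _ _).const_mul _)
  have hV : ∀ i j, Tendsto (fun n => Vo y (G n) i j) atTop (𝓝 (Vo y H i j)) := fun i j => by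
    simp only [Vo]
    split_ifs
    · exact ((h _ _).div_const _).add (h _ _)
    · exact ((h _ _).div_const _).add tendsto_const_nhds
  have hL : Tendsto (fun n => Lin x (G n) i j) atTop (𝓝 (Lin x H i j)) :=
    (((h _ _).div_const _).add ((h _ _).const_mul _)).add ((hd _ _).const_mul _)
  exact (tendsto_const_nhds.add hL).add (tendsto_finsetSum _ fun p _ =>
    tendsto_finsetSum _ fun q _ => (hU _ _).mul (hV _ _))

theorem ex_super (x y z : ℝ) (hx : 0 < x) (hy : 0 < y) (hz : 0 < z) (G : ℕ → Ar)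
    (hG : Iter x y z G) (C : ℝ) (hC : ∀ n, G n 0 0 ≤ C) :
    ∃ H : Ar, (∀ i j, 0 ≤ H i j) ∧ ∀ i j, sh y H i j + z * R x y H i j ≤ H i j := by
  have hb : ∀ i j, BddAbove (Set.range fun n => G n i j) := fun i j => by
    obtain ⟨D, hD⟩ := lo_bdd x y z hx hy hz G hG C hC j i
    exact ⟨D, by rintro _ ⟨n, rfl⟩; exact hD n⟩
  have hm : ∀ i j, Monotone fun n => G n i j := fun i j =>
    monotone_nat_of_le_succ fun n => lo_mono x y z hx hy hz G hG n i j
  set H : Ar := fun i j => ⨆ n, G n i j with hH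
  have ht : ∀ i j, Filter.Tendsto (fun n => G n i j) Filter.atTop (nhds (H i j)) :=
    fun i j => tendsto_atTop_ciSup (hm i j) (hb i j)
  have hle : ∀ n i j, G n i j ≤ H i j := fun n i j => le_ciSup (hb i j) n
  refine ⟨H, fun i j => (hG.nonneg 0 i j).trans (hle 0 i j), fun i j => ?_⟩
  have hs : Filter.Tendsto (fun n => sh y (G (n + 1)) i j) Filter.atTop (nhds (sh y H i j)) := by
    cases j with
    | zero => exact tendsto_const_nhds
    | succ j => exact ((ht i j).comp (Filter.tendsto_add_atTop_nat 1)).const_mul _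
  refine le_of_tendsto' (hs.add ((lo_tend x y G H ht i j).const_mul z)) fun n => ?_
  rw [← hG.succ n]
  exact hle _ _ _

end Pool.Agent.P.MP_8acafb_co.T3
end

-- part Pool.Agent.P.MP_8acafb_co.T3Red
section

namespace Pool.Agent.P.MP_8acafb_co.T3

open Finset

theorem red_cv (f g : ℕ → ℕ) (m : ℕ) :
    ∑ j ∈ range (m + 1), cv f (vB g) j
      = ∑ a ∈ range (m + 1), f a * ∑ b ∈ range (m + 1 - a + 1), g b := by
  induction m with
  | zero => simp [cv, vB, sum_range_succ, add_comm]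
  | succ m ih =>
    rw [sum_range_succ, ih, cv, Finset.Nat.sum_antidiagonal_eq_sum_range_succ_mk,
      sum_range_succ _ (m + 1), sum_range_succ _ (m + 1), ← add_assoc, ← sum_add_distrib]
    congr 1
    · refine sum_congr rfl fun a ha => ?_
      have ha' : a < m + 1 := mem_range.1 ha
      have e1 : m + 1 + 1 - a = m + 1 - a + 1 := by omega
      have e2 : ¬ (m + 1 - a = 0) := by omega
      rw [e1, sum_range_succ g (m + 1 - a + 1), mul_add]
      simp [vB, e2]
    · simp [vB, sum_range_succ, add_comm]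

theorem red_M_nil (u : ℕ) : ∑ p ∈ range (u + 2), N .nil p u = 1 := by
  simp [N]

theorem red_N_node (a b : Sp) (F : ℕ → ℕ) (m : ℕ) :
    ∑ u ∈ range (m + 2), F u * N (.node a b) u m
      = ∑ i ∈ range (m + 1), B (.node a b) i * F (m + 1 - i) := by
  rw [sum_range_succ', ← sum_range_reflect (fun i => B (.node a b) i * F (m + 1 - i))]
  have h0 : N (.node a b) 0 m = 0 := by simp [N]
  rw [h0, mul_zero, add_zero]
  refine sum_congr rfl fun i hi => ?_
  have hi' : i < m + 1 := mem_range.1 hi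
  have e1 : m + 1 - (m + 1 - 1 - i) = i + 1 := by omega
  have e2 : m + 1 - (i + 1) = m + 1 - 1 - i := by omega
  have e3 : 1 ≤ i + 1 ∧ i + 1 ≤ m + 1 := by omega
  rw [e1, N, if_pos e3, e2, mul_comm]

theorem red_M_node (a b : Sp) (u : ℕ) :
    ∑ p ∈ range (u + 2), N (.node a b) p u = ∑ i ∈ range (u + 1), B (.node a b) i := by
  simpa using red_N_node a b (fun _ => 1) u

theorem red_B_node (l r : Sp) (m : ℕ) : B (.node l r) m = ∑ j ∈ range (m + 1),
      (l.isN * r.isN * (if j = 0 then 1 else 0) + r.isN * B l j + l.isN * B r j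
        + cv (B l) (vB (B r)) j) := rfl

theorem red_B_nil (j : ℕ) : B .nil j = 0 := rfl

theorem B_eq (l r : Sp) (m : ℕ) :
    B (.node l r) m = ∑ u ∈ range (m + 2), ∑ p ∈ range (u + 2), N r p u * N l u m := by
  simp only [← sum_mul]
  rw [red_B_node]
  cases l with
  | nil =>
    have h1 : ∑ u ∈ range (m + 2), (∑ p ∈ range (u + 2), N r p u) * N .nil u m
        = ∑ p ∈ range (m + 2), N r p m := by
      simp [N]
    rw [h1]
    cases r with
    | nil => rw [red_M_nil]; simp [Sp.isN, red_B_nil, cv]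
    | node a b => rw [red_M_node]; simp [Sp.isN, red_B_nil, cv]
  | node a b =>
    rw [red_N_node]
    cases r with
    | nil => simp only [red_M_nil]; simp [Sp.isN, red_B_nil, cv, vB]
    | node a' b' =>
      simp only [red_M_node]
      rw [← red_cv]
      simp [Sp.isN]

theorem Y_reduce (l r : Sp) (c e v : ℕ) (U : List ℕ) (m n : ℕ)
    (hU : (v :: U).Pairwise (· < ·)) (hv : c + e ≤ v)
    (h : U.length ≤ m → Cnt (Yp (.node l r) c e [v] (m - U.length)) n) :
    Cnt (Yp (.node l r) c e (v :: U) m) (if U.length ≤ m then n else 0) := by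
  have key : ∀ (T : Tr) (O : List ℕ), Yp (.node l r) c e (v :: U) m (T, O) →
      U.length ≤ m ∧ O.takeWhile (· < v) ++ U = O ∧
        Yp (.node l r) c e [v] (m - U.length) (T, O.takeWhile (· < v)) := by
    intro T O hp
    obtain ⟨h1, h2, h3, h4, h5, h6⟩ := hp
    cases T with
    | nil => simp [Tr.sp] at h1
    | node l' v' r' =>
      dsimp only at h1 h2 h3 h4 h5 h6
      have h7 := os_node l' r' v' h2 O h4
      rw [h7.2] at h6
      obtain ⟨rfl, h8⟩ := List.cons.inj h6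
      have h9 : O.takeWhile (· < v') ++ U = O := by
        rw [← h8]; exact List.takeWhile_append_dropWhile
      have h10 : (O.takeWhile (· < v')).length + U.length = m := by
        rw [← List.length_append, h9, h3]
      have h11 : (O.takeWhile (· < v')).Pairwise (· < ·) := h4.sublist (List.takeWhile_sublist _)
      refine ⟨by omega, h9, h1, h2, by dsimp only; omega, h11, ?_, ?_⟩
      · dsimp only; rw [← h7.1, h5]
      · dsimp only
        rw [(os_node l' r' v' h2 _ h11).2]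
        congr 1
        rw [List.dropWhile_eq_nil_iff]
        intro x hx
        exact List.mem_takeWhile_imp (p := fun x => decide (x < v')) hx
  split_ifs with hm
  · refine (h hm).bij (fun p => (p.1, p.2 ++ U)) ?_ ?_ ?_
    · rintro ⟨T, O⟩ ⟨T', O'⟩ _ _ hab
      simp only [Prod.mk.injEq, List.append_cancel_right_eq] at hab
      exact Prod.ext hab.1 hab.2
    · rintro ⟨T, O⟩ ⟨h1, h2, h3, h4, h5, h6⟩
      dsimp only at h1 h2 h3 h4 h5 h6
      have hp := os_perm T.post O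
      rw [h5, h6] at hp
      have hle : ∀ x ∈ O ++ T.post, x ≤ v := by
        intro x hx
        rcases List.mem_append.1 (hp.symm.subset hx) with hx | hx
        · have := List.mem_range'_1.1 hx; omega
        · exact (List.mem_singleton.1 hx).le
      have hUv : ∀ y ∈ U, v < y := (List.pairwise_cons.1 hU).1
      have hb := os_big T.post O U fun x hx y hy => by
        have := hle x (List.mem_append_right _ hx)
        have := hUv y hy
        omega
      refine ⟨h1, h2, ?_, ?_, ?_, ?_⟩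
      · dsimp only; rw [List.length_append]; omega
      · dsimp only
        refine List.pairwise_append.2 ⟨h4, (List.pairwise_cons.1 hU).2, fun x hx y hy => ?_⟩
        exact (hle x (List.mem_append_left _ hx)).trans_lt (hUv y hy)
      · dsimp only; rw [hb.1, h5]
      · dsimp only; rw [hb.2, h6]; rfl
    · rintro ⟨T, O⟩ hp
      obtain ⟨_, h2, h3⟩ := key T O hp
      exact ⟨_, h3, by simp [h2]⟩
  · exact Cnt.zero fun p hp => hm (key p.1 p.2 hp).1

end Pool.Agent.P.MP_8acafb_co.T3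
end

-- part Pool.Agent.P.MP_8acafb_co.T3Up
section

namespace Pool.Agent.P.MP_8acafb_co.T3

open Finset

theorem up_one (F : ℕ → ℝ) (hF : ∀ i, 0 ≤ F i) {a b : ℕ} (h : a ≤ b) :
    ∑ i ∈ range a, F i ≤ ∑ i ∈ range b, F i :=
  sum_le_sum_of_subset_of_nonneg (range_mono h) fun i _ _ => hF i

theorem up_rect (f : Ar) (hf : ∀ i j, 0 ≤ f i j) {a a' b b' : ℕ} (h : a ≤ a') (h' : b ≤ b') :
    ∑ i ∈ range a, ∑ j ∈ range b, f i j ≤ ∑ i ∈ range a', ∑ j ∈ range b', f i j :=
  (sum_le_sum fun i _ => up_one (f i) (hf i) h').trans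
    (up_one (fun i => ∑ j ∈ range b', f i j) (fun i => sum_nonneg fun j _ => hf i j) h)

theorem up_anti (F : ℕ × ℕ → ℝ) (hF : ∀ p, 0 ≤ F p) (M : ℕ) :
    ∑ k ∈ range M, ∑ p ∈ antidiagonal k, F p ≤ ∑ a ∈ range M, ∑ b ∈ range M, F (a, b) := by
  rw [← sum_product (range M) (range M) F, ← sum_biUnion]
  · refine sum_le_sum_of_subset_of_nonneg ?_ fun p _ _ => hF p
    intro p hp
    obtain ⟨k, hk, hp⟩ := mem_biUnion.1 hp
    have h1 := mem_range.1 hk
    have h2 := mem_antidiagonal.1 hp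
    exact mem_product.2 ⟨mem_range.2 (by omega), mem_range.2 (by omega)⟩
  · intro a _ b _ hab
    refine disjoint_left.2 fun p h1 h2 => hab ?_
    rw [← mem_antidiagonal.1 h1, ← mem_antidiagonal.1 h2]

theorem up_row (f : Ar) (hf : ∀ i j, 0 ≤ f i j) (M : ℕ) :
    ∑ i ∈ range M, ∑ j ∈ range M, f (i + 1) j ≤ nm (M + 1) f - ∑ j ∈ range (M + 1), f 0 j := by
  rw [nm, sum_range_succ' _ M, add_sub_cancel_right]
  exact up_rect (fun i j => f (i + 1) j) (fun i j => hf _ _) le_rfl (Nat.le_succ M)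

theorem up_col (f : Ar) (hf : ∀ i j, 0 ≤ f i j) (M : ℕ) :
    ∑ i ∈ range M, ∑ j ∈ range M, f i (j + 1) ≤ nm (M + 1) f - ∑ i ∈ range (M + 1), f i 0 := by
  have h : nm (M + 1) f = ∑ i ∈ range (M + 1), ∑ j ∈ range M, f i (j + 1)
      + ∑ i ∈ range (M + 1), f i 0 := by
    rw [nm, ← sum_add_distrib]
    exact sum_congr rfl fun i _ => sum_range_succ' _ M
  rw [h, add_sub_cancel_right]
  exact up_rect (fun i j => f i (j + 1)) (fun i j => hf _ _) (Nat.le_succ M) le_rfl

theorem up_dn (f : Ar) (hf : ∀ i j, 0 ≤ f i j) (a b : ℕ) :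
    ∑ i ∈ range a, ∑ j ∈ range b, dn f i j ≤ ∑ i ∈ range a, ∑ j ∈ range b, f i j := by
  cases a with
  | zero => simp
  | succ a =>
    rw [sum_range_succ' _ a]
    simp only [dn, sum_const_zero, add_zero]
    exact up_rect f hf (Nat.le_succ a) le_rfl

theorem nm_cv2 (f g : Ar) (hf : ∀ i j, 0 ≤ f i j) (hg : ∀ i j, 0 ≤ g i j) (M : ℕ) :
    nm M (cv2 f g) ≤ nm M f * nm M g := by
  have h1 : nm M (cv2 f g) = ∑ i ∈ range M, ∑ p ∈ antidiagonal i,
      ∑ j ∈ range M, ∑ q ∈ antidiagonal j, f p.1 q.1 * g p.2 q.2 := by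
    simp only [nm, cv2]
    exact sum_congr rfl fun i _ => sum_comm
  have h2 : nm M f * nm M g = ∑ a ∈ range M, ∑ b ∈ range M,
      ∑ c ∈ range M, ∑ d ∈ range M, f a c * g b d := by
    simp only [nm]
    rw [sum_mul_sum]
    exact sum_congr rfl fun a _ => sum_congr rfl fun b _ => sum_mul_sum _ _ _ _
  rw [h1, h2]
  refine (up_anti (fun p => ∑ j ∈ range M, ∑ q ∈ antidiagonal j, f p.1 q.1 * g p.2 q.2)
    (fun p => sum_nonneg fun _ _ => sum_nonneg fun _ _ => mul_nonneg (hf _ _) (hg _ _)) M).trans ?_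
  exact sum_le_sum fun a _ => sum_le_sum fun b _ =>
    up_anti (fun q => f a q.1 * g b q.2) (fun q => mul_nonneg (hf _ _) (hg _ _)) M

theorem nm_sh (y : ℝ) (hy : 0 ≤ y) (f : Ar) (hf : ∀ i j, 0 ≤ f i j) (M : ℕ) :
    nm M (sh y f) ≤ y * nm M f := by
  simp only [nm]
  rw [mul_sum]
  refine sum_le_sum fun i _ => ?_
  cases M with
  | zero => simp
  | succ M =>
    rw [sum_range_succ' _ M]
    simp only [sh, add_zero]
    rw [← mul_sum]
    exact mul_le_mul_of_nonneg_left (up_one (f i) (hf i) (Nat.le_succ M)) hy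

theorem nm_Uo (x : ℝ) (hx : 0 ≤ x) (f : Ar) (hf : ∀ i j, 0 ≤ f i j) (M : ℕ) :
    nm M (Uo x f) ≤ (1 + x) ^ 2 * nm (M + 1) f - ∑ j ∈ range (M + 1), f 0 j := by
  have h0 : nm M (Uo x f) ≤ ∑ i ∈ range M, ∑ j ∈ range M, Uo x f (i + 1) j := by
    refine (up_rect _ (Uo_nonneg hx hf) (Nat.le_succ M) le_rfl).trans ?_
    rw [sum_range_succ' _ M]
    simp only [Uo, sum_const_zero, add_zero, le_refl]
  have h1 := up_row f hf M
  have h2 : ∑ i ∈ range M, ∑ j ∈ range M, f i j ≤ nm (M + 1) f :=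
    up_rect f hf (Nat.le_succ M) (Nat.le_succ M)
  have h3 := (up_dn f hf M M).trans h2
  simp only [Uo, sum_add_distrib, ← mul_sum] at h0
  have h4 := mul_le_mul_of_nonneg_left h2 (show 0 ≤ 2 * x by positivity)
  have h5 := mul_le_mul_of_nonneg_left h3 (show 0 ≤ x ^ 2 by positivity)
  nlinarith

theorem nm_Vo (y : ℝ) (hy : 0 < y) (f : Ar) (hf : ∀ i j, 0 ≤ f i j) (M : ℕ) :
    nm M (Vo y f) ≤ (nm (M + 1) f - ∑ i ∈ range (M + 1), f i 0) / y
      + ∑ i ∈ range (M + 1), f i 0 := by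
  have h1 := div_le_div_of_nonneg_right (up_col f hf M) hy.le
  have h2 : ∑ i ∈ range M, ∑ j ∈ range M, (if j = 0 then f i 0 else 0) ≤
      ∑ i ∈ range (M + 1), f i 0 := by
    refine le_trans (sum_le_sum fun i _ => ?_) (up_one (fun i => f i 0) (fun i => hf i 0)
      (Nat.le_succ M))
    rw [sum_ite_eq']
    split_ifs
    · exact le_rfl
    · exact hf i 0
  have h3 : nm M (Vo y f) = (∑ i ∈ range M, ∑ j ∈ range M, f i (j + 1)) / y
      + ∑ i ∈ range M, ∑ j ∈ range M, (if j = 0 then f i 0 else 0) := by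
    simp only [nm, Vo, sum_add_distrib, sum_div]
  rw [h3]
  exact add_le_add h1 h2

theorem nm_Lin (x : ℝ) (hx : 0 < x) (f : Ar) (hf : ∀ i j, 0 ≤ f i j) (M : ℕ) :
    nm M (Lin x f) ≤ (nm (M + 1) f - ∑ j ∈ range (M + 1), f 0 j) / x
      + (2 + 2 * x) * nm (M + 1) f := by
  have h1 := div_le_div_of_nonneg_right (up_row f hf M) hx.le
  have h2 : ∑ i ∈ range M, ∑ j ∈ range M, f i j ≤ nm (M + 1) f :=
    up_rect f hf (Nat.le_succ M) (Nat.le_succ M)
  have h3 := (up_dn f hf M M).trans h2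
  have h4 : nm M (Lin x f) = (∑ i ∈ range M, ∑ j ∈ range M, f (i + 1) j) / x
      + 2 * ∑ i ∈ range M, ∑ j ∈ range M, f i j
      + 2 * x * ∑ i ∈ range M, ∑ j ∈ range M, dn f i j := by
    simp only [nm, Lin, sum_add_distrib, sum_div, mul_sum]
  have h5 := mul_le_mul_of_nonneg_left h3 (show 0 ≤ 2 * x by positivity)
  rw [h4]
  linarith

theorem nm_del (M : ℕ) : nm M del ≤ 1 := by
  cases M with
  | zero => simp [nm]
  | succ M =>
    rw [nm, sum_range_succ' _ M, sum_range_succ' _ M]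
    simp [del]

theorem nm_mono_M (f : Ar) (hf : ∀ i j, 0 ≤ f i j) {M M' : ℕ} (h : M ≤ M') :
    nm M f ≤ nm M' f :=
  up_rect f hf h h

end Pool.Agent.P.MP_8acafb_co.T3
end

-- part Pool.Agent.P.MP_8acafb_co.T3Real
section

namespace Pool.Agent.P.MP_8acafb_co.T3

open Finset

/-- the real array given by the lanes of the rows, divided by `D` -/
noncomputable def ca (w D : ℕ) (ρ : ℕ → ℕ) : Ar := fun i j => (ln w (ρ i) j : ℝ) / D

variable {ρ σ : ℕ → ℕ} {w I J D xa xb ya yb : ℕ}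

theorem ca_box (h : Good w ρ I J) (D : ℕ) : Box I J (ca w D ρ) := by
  refine ⟨fun i j => by simp only [ca]; positivity, fun i j hij => ?_⟩
  rcases hij with hi | hj
  · simp [ca, h.zero i hi, ln_zero]
  · simp [ca, ln_big w _ J j (h.lt i) hj]

theorem dn_ca (i j : ℕ) : dn (ca w D ρ) i j = (ln w (pv ρ i) j : ℝ) / D := by
  cases i with
  | zero => simp [dn, pv, ln_zero]
  | succ i => rfl

theorem sh_ca (y : ℝ) (i j : ℕ) : sh y (ca w D ρ) i j = y * ((shL w (ρ i) j : ℝ) / D) := by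
  cases j with
  | zero => simp [sh, shL]
  | succ j => rfl

theorem Uo_ca (hD : 0 < D) (hb : 0 < xb) (i j : ℕ) :
    Uo ((xa : ℝ) / xb) (ca w D ρ) i j = (upN w xa xb ρ i j : ℝ) / (D * xb ^ 2) := by
  cases i with
  | zero => simp [Uo, upN]
  | succ i =>
    have e : upN w xa xb ρ (i + 1) j = xb * xb * ln w (ρ (i + 1)) j
      + 2 * (xa * xb) * ln w (ρ i) j + xa * xa * ln w (pv ρ i) j := rfl
    simp only [Uo, dn_ca, e, ca]
    push_cast
    field_simp

theorem Vo_ca (hD : 0 < D) (ha : 0 < ya) (hb : 0 < yb) (i j : ℕ) :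
    Vo ((ya : ℝ) / yb) (ca w D ρ) i j = (vpN w ya yb ρ i j : ℝ) / (D * ya) := by
  simp only [Vo, vpN, ca]
  split_ifs
  · push_cast
    field_simp
  · push_cast
    field_simp
    ring

theorem Lin_ca (hD : 0 < D) (ha : 0 < xa) (hb : 0 < xb) (i j : ℕ) :
    Lin ((xa : ℝ) / xb) (ca w D ρ) i j =
      (lpL xa xb (ln w (ρ (i + 1)) j) (ln w (ρ i) j) (ln w (pv ρ i) j) : ℝ) / (D * xa * xb) := by
  simp only [Lin, dn_ca, lpL, ca]
  push_cast
  field_simp

theorem cv2_ca (hD : 0 < D) (hb : 0 < xb) (hya : 0 < ya) (hyb : 0 < yb) (i j : ℕ) :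
    cv2 (Uo ((xa : ℝ) / xb) (ca w D ρ)) (Vo ((ya : ℝ) / yb) (ca w D σ)) i j =
      (cvN (upN w xa xb ρ) (vpN w ya yb σ) i j : ℝ) / (D * xb ^ 2 * (D * ya)) := by
  simp only [cv2, cvN, Uo_ca hD hb, Vo_ca hD hya hyb, div_mul_div_comm, ← sum_div]
  push_cast
  rfl

/-- cleared form of the right side -/
def rhs (D xa xb ya yb za zb s l c : ℕ) : ℕ :=
  D * xa * xb * xb * ya * ya * zb * s + za * D * xb * ya * yb * l + za * xa * yb * c

/-- cleared form of the left side -/
def lhs (D xa xb ya yb zb e : ℕ) : ℕ := D * xa * xb * xb * ya * yb * zb * e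

noncomputable def dl (D xa xb ya yb za t : ℕ) : ℕ :=
  Nat.rec (za * D * D * xa * xb * xb * ya * yb) (fun _ _ => 0) t

theorem dl_eq (za i j : ℕ) : (dl D xa xb ya yb za (i + j) : ℝ) =
    za * D * D * xa * xb * xb * ya * yb * del i j := by
  rcases h : i + j with _ | t
  · have h1 : i = 0 ∧ j = 0 := by omega
    simp [dl, del, h1]
  · have h1 : ¬ (i = 0 ∧ j = 0) := by omega
    simp [dl, del, h1]

theorem dl_le (za t : ℕ) : dl D xa xb ya yb za t ≤ za * D * D * xa * xb * xb * ya * yb := by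
  cases t with
  | zero => exact le_rfl
  | succ t => exact Nat.zero_le _

theorem dl_pk (za i q n : ℕ) (hn : 0 < n) :
    dl D xa xb ya yb za i = pk1 q n fun j => dl D xa xb ya yb za (i + j) := by
  obtain ⟨n, rfl⟩ : ∃ k, n = k + 1 := ⟨n - 1, by omega⟩
  have h : ∀ k, dl D xa xb ya yb za (i + (k + 1)) = 0 := fun k => rfl
  simp [pk1, sum_range_succ', h]

theorem lhs_pk (zb q n : ℕ) (e : ℕ → ℕ) :
    lhs D xa xb ya yb zb (pk1 q n e) = pk1 q n fun j => lhs D xa xb ya yb zb (e j) := by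
  simp only [lhs, pk1, mul_sum, mul_assoc]

theorem rhs_pk (za zb q n : ℕ) (s l c : ℕ → ℕ) :
    rhs D xa xb ya yb za zb (pk1 q n s) (pk1 q n l) (pk1 q n c) =
      pk1 q n fun j => rhs D xa xb ya yb za zb (s j) (l j) (c j) := pk1_lin _ _ _ _ _ _ _ _

theorem pk1_add (q n : ℕ) (f g : ℕ → ℕ) : pk1 q n f + pk1 q n g = pk1 q n fun j => f j + g j := by
  simp only [pk1, add_mul, sum_add_distrib]

theorem clear (hD : 0 < D) (ha : 0 < xa) (hb : 0 < xb) (hya : 0 < ya) (hyb : 0 < yb)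
    (za zb : ℕ) (hzb : 0 < zb) (e s l c : ℕ) (δ : ℝ) : ∃ K : ℝ, 0 < K ∧
    (lhs D xa xb ya yb zb e : ℝ) = K * ((e : ℝ) / D) ∧
    (rhs D xa xb ya yb za zb s l c : ℝ) + za * D * D * xa * xb * xb * ya * yb * δ =
      K * ((ya : ℝ) / yb * ((s : ℝ) / D) + (za : ℝ) / zb *
        (δ + (l : ℝ) / (D * xa * xb) + (c : ℝ) / (D * xb ^ 2 * (D * ya)))) := by
  refine ⟨(D : ℝ) * D * xa * xb * xb * ya * yb * zb, by positivity, ?_, ?_⟩
  · rw [lhs]; push_cast; field_simp
  · rw [rhs]; push_cast; field_simp; ring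

/-- bound for the lanes of one product -/
def cb (d J xa xb ya yb : ℕ) : ℕ := 2 * 2 ^ d * (2 * J * ((xa + xb) ^ 2 * 18446744073709551615
    * ((ya + yb) * 18446744073709551615)))

/-- size condition for the lanes -/
def Fit (w d J D xa xb ya yb za zb : ℕ) : Prop :=
  2 * cb d J xa xb ya yb < 2 ^ w ∧ lhs D xa xb ya yb zb 18446744073709551615 + 1 < 2 ^ w ∧
    rhs D xa xb ya yb za zb 18446744073709551615
      (lpL xa xb 18446744073709551615 18446744073709551615 18446744073709551615)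
      (2 * cb d J xa xb ya yb) + za * D * D * xa * xb * xb * ya * yb + 1 < 2 ^ w

theorem cv_fit (h : Good w ρ I J) (h' : Good w σ I J) (d : ℕ) (i : ℕ) (hi : i < 2 * 2 ^ d) (j : ℕ)
    (hj : j < 2 * J) : cvN (upN w xa xb ρ) (vpN w ya yb σ) i j ≤ cb d J xa xb ya yb :=
  (cvN_le _ _ _ _ (upN_le h xa xb) (vpN_le h' ya yb) i j).trans
    (Nat.mul_le_mul hi (Nat.mul_le_mul_right _ hj))

theorem lhs_fit (h : Good w ρ I J) (zb i j : ℕ) :
    lhs D xa xb ya yb zb (ln w (ρ i) j) ≤ lhs D xa xb ya yb zb 18446744073709551615 :=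
  Nat.mul_le_mul_left _ (h.le i j)

theorem rhs_fit (h : Good w ρ I J) (za zb i j c C : ℕ) (hc : c ≤ C) :
    rhs D xa xb ya yb za zb (shL w (ρ i) j)
      (lpL xa xb (ln w (ρ (i + 1)) j) (ln w (ρ i) j) (ln w (pv ρ i) j)) c ≤
    rhs D xa xb ya yb za zb 18446744073709551615
      (lpL xa xb 18446744073709551615 18446744073709551615 18446744073709551615) C := by
  have h1 : shL w (ρ i) j ≤ 18446744073709551615 := by
    cases j with
    | zero => exact Nat.zero_le _
    | succ j => exact h.le i j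
  have h2 := h.le (i + 1) j
  have h3 := h.le i j
  have h4 := h.pv_le i j
  unfold rhs lpL
  gcongr

theorem big_mul (h : Good w ρ I J) (h' : Good w σ I J) (hJ : 0 < J) (d : ℕ)
    (hI : I + 2 ≤ 2 ^ d) : bigU w d I J xa xb ρ * bigV w d I J ya yb σ =
      pk2 (2 ^ w) (2 * J) (2 * 2 ^ d) (2 * J) (cvN (upN w xa xb ρ) (vpN w ya yb σ)) := by
  rw [bigU_eq h, bigV_eq h' hJ, pk2_mul]
  · exact fun i j hij => upN_supp h xa xb i j (by omega)
  · exact fun i j hij => vpN_supp h' ya yb i j (by omega)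

/-- check of `P + m / K ≤ sh P + z R P` -/
noncomputable def chkP (w d I J D xa xb ya yb za zb m : ℕ) (ρ : ℕ → ℕ) : Bool :=
  run (Nat.succ w) d I J xa xb ρ (fun t e s l c => leR w J m (lhs D xa xb ya yb zb e)
      (Nat.add (rhs D xa xb ya yb za zb s l c) (dl D xa xb ya yb za t)))
    (Nat.mul (bigU (Nat.succ w) d I J xa xb ρ) (bigV (Nat.succ w) d I J ya yb ρ))

/-- check of `sh v + z Lam v < v ≤ sh v + z' Lam v` -/
noncomputable def chkV (w d I J D xa xb ya yb za zb za' zb' : ℕ) (ρ σ : ℕ → ℕ) : Bool :=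
  run (Nat.succ w) d I J xa xb σ (fun _ e s l c =>
      and (leR w J 1 (rhs D xa xb ya yb za zb s l c) (lhs D xa xb ya yb zb e))
        (leR w J 0 (lhs D xa xb ya yb zb' e) (rhs D xa xb ya yb za' zb' s l c)))
    (Nat.add (Nat.mul (bigU (Nat.succ w) d I J xa xb ρ) (bigV (Nat.succ w) d I J ya yb σ))
      (Nat.mul (bigU (Nat.succ w) d I J xa xb σ) (bigV (Nat.succ w) d I J ya yb ρ)))

section ok
variable (hD : 0 < D) (ha : 0 < xa) (hb : 0 < xb) (hya : 0 < ya) (hyb : 0 < yb)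
  {d : ℕ} (hI : I + 2 ≤ 2 ^ d) (hJ : 0 < J)
include hD ha hb hya hyb hI hJ

theorem chkP_ok (h : Good (w + 1) ρ I J) {za zb m : ℕ} (hzb : 0 < zb) (hm : m ≤ 1)
    (hF : Fit w d J D xa xb ya yb za zb)
    (hc : chkP w d I J D xa xb ya yb za zb m ρ = true) (i : ℕ) (hi : i < I) (j : ℕ)
    (hj : j < J) : ∃ K : ℝ, 0 < K ∧ K * ca (w + 1) D ρ i j + m ≤
      K * (sh ((ya : ℝ) / yb) (ca (w + 1) D ρ) i j
        + (za : ℝ) / zb * R ((xa : ℝ) / xb) ((ya : ℝ) / yb) (ca (w + 1) D ρ) i j) := by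
  have e : chkP w d I J D xa xb ya yb za zb m ρ = run (w + 1) d I J xa xb ρ
    (fun t e s l c => leR w J m (lhs D xa xb ya yb zb e)
      (rhs D xa xb ya yb za zb s l c + dl D xa xb ya yb za t))
    (bigU (w + 1) d I J xa xb ρ * bigV (w + 1) d I J ya yb ρ) := rfl
  obtain ⟨f1, f2, f3⟩ := hF
  have hq : 2 ^ (w + 1) = 2 * 2 ^ w := pow_succ' 2 w
  have hcv := cv_fit (xa := xa) (xb := xb) (ya := ya) (yb := yb) h h d
  rw [e, big_mul h h hJ d hI] at hc
  have h1 := run_ok h hJ _ _ _ _ _ (fun i hi j hj => by have := hcv i hi j hj; omega) (by omega)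
    hc i hi
  rw [lhs_pk, rhs_pk, dl_pk za i (2 ^ (w + 1)) (2 * J) (by omega), pk1_add] at h1
  have h2 := leR_ok w J m _ _ _ (by omega)
    (fun k _ => by have := lhs_fit (D := D) (xa := xa) (xb := xb) (ya := ya) (yb := yb) h zb i k
                   omega)
    (fun k hk => by
      have h3 := rhs_fit (D := D) (xa := xa) (xb := xb) (ya := ya) (yb := yb) h za zb i k _
        (2 * cb d J xa xb ya yb) ((hcv i (by omega) k hk).trans (by omega))
      have h4 := dl_le (D := D) (xa := xa) (xb := xb) (ya := ya) (yb := yb) za (i + k)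
      omega) h1 j hj
  obtain ⟨K, hK, e1, e2⟩ := clear hD ha hb hya hyb za zb hzb (ln (w + 1) (ρ i) j)
    (shL (w + 1) (ρ i) j)
    (lpL xa xb (ln (w + 1) (ρ (i + 1)) j) (ln (w + 1) (ρ i) j) (ln (w + 1) (pv ρ i) j))
    (cvN (upN (w + 1) xa xb ρ) (vpN (w + 1) ya yb ρ) i j) (del i j)
  refine ⟨K, hK, ?_⟩
  rw [R, sh_ca, Lin_ca hD ha hb, cv2_ca hD hb hya hyb, ← e2, ca, ← e1, ← dl_eq]
  exact_mod_cast h2

theorem chkV_ok (h : Good (w + 1) ρ I J) (h' : Good (w + 1) σ I J) {za zb za' zb' : ℕ}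
    (hzb : 0 < zb) (hzb' : 0 < zb') (hF : Fit w d J D xa xb ya yb za zb)
    (hF' : Fit w d J D xa xb ya yb za' zb')
    (hc : chkV w d I J D xa xb ya yb za zb za' zb' ρ σ = true) (i : ℕ)
    (hi : i < I) (j : ℕ) (hj : j < J) :
    sh ((ya : ℝ) / yb) (ca (w + 1) D σ) i j + (za : ℝ) / zb * Lam ((xa : ℝ) / xb) ((ya : ℝ) / yb)
      (ca (w + 1) D ρ) (ca (w + 1) D σ) i j < ca (w + 1) D σ i j ∧
    ca (w + 1) D σ i j ≤ sh ((ya : ℝ) / yb) (ca (w + 1) D σ) i j + (za' : ℝ) / zb' *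
      Lam ((xa : ℝ) / xb) ((ya : ℝ) / yb) (ca (w + 1) D ρ) (ca (w + 1) D σ) i j := by
  have e : chkV w d I J D xa xb ya yb za zb za' zb' ρ σ = run (w + 1) d I J xa xb σ
    (fun _ e s l c => and (leR w J 1 (rhs D xa xb ya yb za zb s l c) (lhs D xa xb ya yb zb e))
      (leR w J 0 (lhs D xa xb ya yb zb' e) (rhs D xa xb ya yb za' zb' s l c)))
    (bigU (w + 1) d I J xa xb ρ * bigV (w + 1) d I J ya yb σ
      + bigU (w + 1) d I J xa xb σ * bigV (w + 1) d I J ya yb ρ) := rfl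
  obtain ⟨f1, f2, f3⟩ := hF
  obtain ⟨-, f4, f5⟩ := hF'
  have hq : 2 ^ (w + 1) = 2 * 2 ^ w := pow_succ' 2 w
  have hcv : ∀ i < 2 * 2 ^ d, ∀ j < 2 * J, cvN (upN (w + 1) xa xb ρ) (vpN (w + 1) ya yb σ) i j
      + cvN (upN (w + 1) xa xb σ) (vpN (w + 1) ya yb ρ) i j ≤ 2 * cb d J xa xb ya yb := by
    intro i hi j hj
    have h3 := cv_fit (xa := xa) (xb := xb) (ya := ya) (yb := yb) h h' d i hi j hj
    have h4 := cv_fit (xa := xa) (xb := xb) (ya := ya) (yb := yb) h' h d i hi j hj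
    omega
  rw [e, big_mul h h' hJ d hI, big_mul h' h hJ d hI, pk2_add] at hc
  have h1 := run_ok h' hJ _ _ _ _ _ (fun i hi j hj => by have := hcv i hi j hj; omega) (by omega)
    hc i hi
  rw [lhs_pk, lhs_pk, rhs_pk, rhs_pk, Bool.and_eq_true] at h1
  have hl := lhs_fit (D := D) (xa := xa) (xb := xb) (ya := ya) (yb := yb) h'
  have hr := fun za zb k hk => rhs_fit (D := D) (xa := xa) (xb := xb) (ya := ya) (yb := yb) h'
    za zb i k _ _ (hcv i (by omega) k hk)
  have h2 := leR_ok w J 1 _ _ _ (by omega) (fun k hk => by have := hr za zb k hk; omega)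
    (fun k _ => by have := hl zb i k; omega) h1.1 j hj
  have h3 := leR_ok w J 0 _ _ _ (by omega) (fun k _ => by have := hl zb' i k; omega)
    (fun k hk => by have := hr za' zb' k hk; omega) h1.2 j hj
  have hL : Lam ((xa : ℝ) / xb) ((ya : ℝ) / yb) (ca (w + 1) D ρ) (ca (w + 1) D σ) i j = 0 +
      (lpL xa xb (ln (w + 1) (σ (i + 1)) j) (ln (w + 1) (σ i) j) (ln (w + 1) (pv σ i) j) : ℝ)
        / (D * xa * xb) +
      ((cvN (upN (w + 1) xa xb ρ) (vpN (w + 1) ya yb σ) i j
        + cvN (upN (w + 1) xa xb σ) (vpN (w + 1) ya yb ρ) i j : ℕ) : ℝ)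
        / (D * xb ^ 2 * (D * ya)) := by
    rw [Lam, Lin_ca hD ha hb, cv2_ca hD hb hya hyb, cv2_ca hD hb hya hyb]
    push_cast
    ring
  rw [hL, sh_ca, ca]
  constructor
  · obtain ⟨K, hK, e1, e2⟩ := clear hD ha hb hya hyb za zb hzb (ln (w + 1) (σ i) j)
      (shL (w + 1) (σ i) j)
      (lpL xa xb (ln (w + 1) (σ (i + 1)) j) (ln (w + 1) (σ i) j) (ln (w + 1) (pv σ i) j)) _ 0
    rw [← mul_lt_mul_iff_right₀ hK, ← e1, ← e2, mul_zero, add_zero]
    exact_mod_cast h2
  · obtain ⟨K, hK, e1, e2⟩ := clear hD ha hb hya hyb za' zb' hzb' (ln (w + 1) (σ i) j)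
      (shL (w + 1) (σ i) j)
      (lpL xa xb (ln (w + 1) (σ (i + 1)) j) (ln (w + 1) (σ i) j) (ln (w + 1) (pv σ i) j)) _ 0
    rw [← mul_le_mul_iff_right₀ hK, ← e1, ← e2, mul_zero, add_zero]
    exact_mod_cast h3

end ok

/-- total, first row and first column -/
noncomputable def sums (w d a I J p r c : ℕ) (ρ : ℕ → ℕ) : Bool :=
  fB (pkT 0 I ρ d 0) fun T => fB (ρ 0) fun r0 => and (Nat.beq (pkT 0 J (ln w T) a 0) p)
    (and (Nat.beq (pkT 0 J (ln w r0) a 0) r) (Nat.beq (ln w T 0) c))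

theorem pkT_sum (n d : ℕ) (f : ℕ → ℕ) (hf : ∀ k, n ≤ k → f k = 0) (hn : n ≤ 2 ^ d) :
    pkT 0 n f d 0 = ∑ k ∈ range n, f k := by
  rw [pkT_eq 0 n f hf, pk1]
  simp only [pow_zero, one_pow, mul_one, zero_add]
  exact (sum_subset (range_subset_range.2 hn) fun k _ hk => hf k (by simpa using hk)).symm

theorem sums_ok (h : Good w ρ I J) {d a p r c : ℕ} (hI : I ≤ 2 ^ d) (hJ : J ≤ 2 ^ a)
    (hJ0 : 0 < J) (hw : I * 18446744073709551615 < 2 ^ w)
    (hs : sums w d a I J p r c ρ = true) :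
    (p : ℝ) / D = ∑ i ∈ range I, ∑ j ∈ range J, ca w D ρ i j ∧
      (r : ℝ) / D = ∑ j ∈ range J, ca w D ρ 0 j ∧ (c : ℝ) / D = ∑ i ∈ range I, ca w D ρ i 0 := by
  have hT : ∑ i ∈ range I, ρ i = pk1 (2 ^ w) J fun j => ∑ i ∈ range I, ln w (ρ i) j := by
    rw [sum_congr rfl fun i _ => (pk1_ln w _ J (h.lt i)).symm]
    simp only [pk1, sum_mul]
    rw [sum_comm]
  have hb : ∀ k < J, ∑ i ∈ range I, ln w (ρ i) k < 2 ^ w := fun k _ => by
    have := sum_le_card_nsmul (range I) _ _ fun i _ => h.le i k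
    simp only [card_range, smul_eq_mul] at this
    omega
  simp only [sums, Bool.and_eq_true, Nat.beq_eq, fB_eq] at hs
  rw [pkT_sum I d _ h.zero hI, hT,
    pkT_sum J a _ (fun k hk => ln_big w _ J k (pk1_lt _ _ _ hb) hk) hJ,
    pkT_sum J a _ (fun k hk => ln_big w _ J k (h.lt 0) hk) hJ, ln_pk1 _ _ _ hb 0 hJ0,
    sum_congr rfl fun k hk => ln_pk1 _ _ _ hb k (mem_range.1 hk), sum_comm] at hs
  obtain ⟨rfl, rfl, rfl⟩ := hs
  simp only [ca, ← sum_div]
  push_cast
  exact ⟨rfl, rfl, rfl⟩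

end Pool.Agent.P.MP_8acafb_co.T3
end

-- part Pool.Agent.P.MP_8acafb_co.T3Up2
section

namespace Pool.Agent.P.MP_8acafb_co.T3

open Finset

theorem up2_nm_nonneg (f : Ar) (hf : ∀ i j, 0 ≤ f i j) (M : ℕ) : 0 ≤ nm M f :=
  sum_nonneg fun _ _ => sum_nonneg fun _ _ => hf _ _

theorem up2_nm_le {f g : Ar} (h : ∀ i j, f i j ≤ g i j) (M : ℕ) : nm M f ≤ nm M g :=
  sum_le_sum fun _ _ => sum_le_sum fun _ _ => h _ _

theorem up2_row {I J : ℕ} {P : Ar} (hP : Box I J P) {M : ℕ} (hM : J ≤ M) (i : ℕ) :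
    ∑ j ∈ range M, P i j = ∑ j ∈ range J, P i j := by
  refine (sum_subset (range_subset_range.2 hM) fun j _ hj => hP.supp i j (Or.inr ?_)).symm
  simpa using hj

theorem up2_col {I J : ℕ} {P : Ar} (hP : Box I J P) {M : ℕ} (hM : I ≤ M) (j : ℕ) :
    ∑ i ∈ range M, P i j = ∑ i ∈ range I, P i j := by
  refine (sum_subset (range_subset_range.2 hM) fun i _ hi => hP.supp i j (Or.inl ?_)).symm
  simpa using hi

theorem up2_box {I J : ℕ} {P : Ar} (hP : Box I J P) {M : ℕ} (hI : I ≤ M) (hJ : J ≤ M) :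
    nm M P = ∑ i ∈ range I, ∑ j ∈ range J, P i j := by
  unfold nm
  rw [sum_congr rfl fun i _ => up2_row hP hJ i, sum_comm,
    sum_congr rfl fun j _ => up2_col hP hI j, sum_comm]

theorem upper (x y z e : ℝ) (hx : 0 < x) (hy : 0 < y) (hy1 : y < 1) (hz : 0 ≤ z) (he : 0 ≤ e)
    (G : ℕ → Ar) (hG : Iter x y z G) (I J : ℕ) (P : Ar) (hP : Box I J P)
    (hsub : ∀ i < I, ∀ j < J, P i j ≤ sh y P i j + z * R x y P i j)
    (p a b u w : ℝ) (hp : p = ∑ i ∈ range I, ∑ j ∈ range J, P i j)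
    (ha : a = ∑ j ∈ range J, P 0 j) (hb : b = ∑ i ∈ range I, P i 0)
    (hu : u = (1 + x) ^ 2 * p - a) (hw : w = (p - b) / y + b)
    (hc : (y * p + z * (1 + ((p - a) / x + (2 + 2 * x) * p) + u * w) - p)
      + z * ((1 / x + 2 + 2 * x + u / y + (1 + x) ^ 2 * w) * e + (1 + x) ^ 2 / y * e ^ 2)
        ≤ (1 - y) * e) (n : ℕ) : G n 0 0 ≤ P 0 0 + e := by
  have hP0 := hP.nonneg
  -- the defect arrays
  obtain ⟨d, hd⟩ : ∃ d : ℕ → Ar, ∀ n i j, d n i j = max (G n i j - P i j) 0 :=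
    ⟨fun n i j => max (G n i j - P i j) 0, fun _ _ _ => rfl⟩
  have hd0 : ∀ n i j, 0 ≤ d n i j := fun n i j => by rw [hd]; exact le_max_right _ _
  have hGd : ∀ n i j, G n i j ≤ lc P 1 (d n) i j := fun n i j => by
    have := le_max_left (G n i j - P i j) 0
    simp only [lc, hd]
    linarith
  obtain ⟨r, hr⟩ : ∃ r : Ar, ∀ i j, r i j = sh y P i j + z * R x y P i j - P i j :=
    ⟨fun i j => sh y P i j + z * R x y P i j - P i j, fun _ _ => rfl⟩
  have hr0 : ∀ i j, 0 ≤ r i j := fun i j => by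
    rw [hr]
    by_cases h : i < I ∧ j < J
    · linarith [hsub i h.1 j h.2]
    · have h0 : P i j = 0 := hP.supp i j (by omega)
      have h1 := sh_nonneg hy.le hP0 i j
      have h2 := mul_nonneg hz (R_nonneg hx.le hy.le hP0 i j)
      linarith
  -- bounds for P
  have hbig : ∀ M : ℕ, ∃ K, M ≤ K ∧ I ≤ K ∧ J ≤ K := fun M => ⟨M + I + J, by omega, by omega, by omega⟩
  have hUP : ∀ M, nm M (Uo x P) ≤ u := fun M => by
    obtain ⟨K, h1, h2, h3⟩ := hbig M
    have h4 := nm_mono_M _ (Uo_nonneg hx.le hP0) h1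
    have h5 := nm_Uo x hx.le P hP0 K
    rw [up2_box hP (by omega) (by omega), up2_row hP (by omega), ← hp, ← ha, ← hu] at h5
    exact h4.trans h5
  have hVP : ∀ M, nm M (Vo y P) ≤ w := fun M => by
    obtain ⟨K, h1, h2, h3⟩ := hbig M
    have h4 := nm_mono_M _ (Vo_nonneg hy.le hP0) h1
    have h5 := nm_Vo y hy P hP0 K
    rw [up2_box hP (by omega) (by omega), up2_col hP (by omega), ← hp, ← hb, ← hw] at h5
    exact h4.trans h5
  have hu0 : 0 ≤ u := (up2_nm_nonneg _ (Uo_nonneg hx.le hP0) 0).trans (hUP 0)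
  have hw0 : 0 ≤ w := (up2_nm_nonneg _ (Vo_nonneg hy.le hP0) 0).trans (hVP 0)
  have hrM : ∀ M, nm M r ≤ y * p + z * (1 + ((p - a) / x + (2 + 2 * x) * p) + u * w) - p :=
    fun M => by
    obtain ⟨K, h1, h2, h3⟩ := hbig M
    refine (nm_mono_M _ hr0 h1).trans ?_
    have e1 : nm K r = nm K (sh y P)
        + z * (nm K del + nm K (Lin x P) + nm K (cv2 (Uo x P) (Vo y P))) - nm K P := by
      simp only [nm, hr, R, sum_sub_distrib, sum_add_distrib, mul_add, mul_sum]
    have h4 := nm_sh y hy.le P hP0 K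
    have h5 := nm_Lin x hx P hP0 K
    rw [up2_box hP (by omega) (by omega), up2_row hP (by omega), ← hp, ← ha] at h5
    rw [up2_box hP h2 h3, ← hp] at h4 e1
    have h6 := nm_del K
    have h7 : nm K (cv2 (Uo x P) (Vo y P)) ≤ u * w :=
      (nm_cv2 _ _ (Uo_nonneg hx.le hP0) (Vo_nonneg hy.le hP0) K).trans
        (mul_le_mul (hUP K) (hVP K) (up2_nm_nonneg _ (Vo_nonneg hy.le hP0) K) hu0)
    have h8 : z * (nm K del + nm K (Lin x P) + nm K (cv2 (Uo x P) (Vo y P)))
        ≤ z * (1 + ((p - a) / x + (2 + 2 * x) * p) + u * w) :=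
      mul_le_mul_of_nonneg_left (by linarith) hz
    linarith
  have key : ∀ n M, nm M (d n) ≤ e := by
    intro n
    induction n with
    | zero =>
      intro M
      have h0 : ∀ i j, d 0 i j = 0 := fun i j => by
        rw [hd, hG.zero]
        exact max_eq_right (by linarith [hP0 i j])
      simpa [nm, h0] using he
    | succ n ih =>
      intro M
      have hD := hd0 n
      have hpt : ∀ i j, d (n + 1) i j ≤ sh y (d (n + 1)) i j + r i j
          + z * (Lam x y P (d n) i j + cv2 (Uo x (d n)) (Vo y (d n)) i j) := fun i j => by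
        have h1 := sh_mono hy.le (hGd (n + 1)) i j
        have h2 := mul_le_mul_of_nonneg_left (R_mono hx.le hy.le (hG.nonneg n) (hGd n) i j) hz
        rw [sh_lc] at h1
        rw [R_lc] at h2
        have h3 := hG.succ n i j
        have h4 := sh_nonneg hy.le (hd0 (n + 1)) i j
        have h5 := mul_nonneg hz (add_nonneg (Lam_nonneg hx.le hy.le hP0 hD i j)
          (cv2_nonneg (Uo_nonneg hx.le hD) (Vo_nonneg hy.le hD) i j))
        have h6 := hr0 i j
        rw [hd (n + 1) i j]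
        refine max_le ?_ (by linarith)
        rw [hr]
        linarith
      have hs := up2_nm_le hpt M
      have e1 : nm M (fun i j => sh y (d (n + 1)) i j + r i j
          + z * (Lam x y P (d n) i j + cv2 (Uo x (d n)) (Vo y (d n)) i j))
          = nm M (sh y (d (n + 1))) + nm M r + z * (nm M (Lin x (d n))
            + nm M (cv2 (Uo x P) (Vo y (d n))) + nm M (cv2 (Uo x (d n)) (Vo y P))
            + nm M (cv2 (Uo x (d n)) (Vo y (d n)))) := by
        simp only [nm, Lam, sum_add_distrib, mul_add, mul_sum]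
      rw [e1] at hs
      have hN := ih (M + 1)
      have hrow : 0 ≤ ∑ j ∈ range (M + 1), d n 0 j := sum_nonneg fun _ _ => hD _ _
      have hcol : 0 ≤ ∑ i ∈ range (M + 1), d n i 0 := sum_nonneg fun _ _ => hD _ _
      have hUd : nm M (Uo x (d n)) ≤ (1 + x) ^ 2 * e := by
        have h1 := nm_Uo x hx.le _ hD M
        have h2 := mul_le_mul_of_nonneg_left hN (sq_nonneg (1 + x))
        linarith
      have hVd : nm M (Vo y (d n)) ≤ e / y := by
        refine (nm_Vo y hy _ hD M).trans ?_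
        rw [div_add' _ _ _ hy.ne', div_le_div_iff_of_pos_right hy]
        nlinarith
      have hLd : nm M (Lin x (d n)) ≤ e / x + (2 + 2 * x) * e := by
        refine (nm_Lin x hx _ hD M).trans (add_le_add ?_ ?_)
        · exact div_le_div_of_nonneg_right (by linarith) hx.le
        · exact mul_le_mul_of_nonneg_left hN (by linarith)
      have hU0 : 0 ≤ (1 + x) ^ 2 * e := mul_nonneg (sq_nonneg _) he
      have c1 : nm M (cv2 (Uo x P) (Vo y (d n))) ≤ u * (e / y) :=
        (nm_cv2 _ _ (Uo_nonneg hx.le hP0) (Vo_nonneg hy.le hD) M).trans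
          (mul_le_mul (hUP M) hVd (up2_nm_nonneg _ (Vo_nonneg hy.le hD) M) hu0)
      have c2 : nm M (cv2 (Uo x (d n)) (Vo y P)) ≤ (1 + x) ^ 2 * e * w :=
        (nm_cv2 _ _ (Uo_nonneg hx.le hD) (Vo_nonneg hy.le hP0) M).trans
          (mul_le_mul hUd (hVP M) (up2_nm_nonneg _ (Vo_nonneg hy.le hP0) M) hU0)
      have c3 : nm M (cv2 (Uo x (d n)) (Vo y (d n))) ≤ (1 + x) ^ 2 * e * (e / y) :=
        (nm_cv2 _ _ (Uo_nonneg hx.le hD) (Vo_nonneg hy.le hD) M).trans
          (mul_le_mul hUd hVd (up2_nm_nonneg _ (Vo_nonneg hy.le hD) M) hU0)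
      have c4 := nm_sh y hy.le _ (hd0 (n + 1)) M
      have c5 := hrM M
      have c6 : z * (nm M (Lin x (d n))
            + nm M (cv2 (Uo x P) (Vo y (d n))) + nm M (cv2 (Uo x (d n)) (Vo y P))
            + nm M (cv2 (Uo x (d n)) (Vo y (d n))))
          ≤ z * ((1 / x + 2 + 2 * x + u / y + (1 + x) ^ 2 * w) * e + (1 + x) ^ 2 / y * e ^ 2) := by
        refine mul_le_mul_of_nonneg_left ?_ hz
        have e2 : (1 / x + 2 + 2 * x + u / y + (1 + x) ^ 2 * w) * e + (1 + x) ^ 2 / y * e ^ 2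
            = e / x + (2 + 2 * x) * e + u * (e / y) + (1 + x) ^ 2 * e * w
              + (1 + x) ^ 2 * e * (e / y) := by ring
        rw [e2]
        linarith
      have h1y : 0 < 1 - y := by linarith
      refine le_of_mul_le_mul_left ?_ h1y
      linarith
  have h1 := key n 1
  have h2 := hGd n 0 0
  simp only [nm, sum_range_one] at h1
  simp only [lc] at h2
  linarith

end Pool.Agent.P.MP_8acafb_co.T3
end

-- part Pool.Agent.P.MP_8acafb_co.T3Y
section

namespace Pool.Agent.P.MP_8acafb_co.T3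

open Finset

/-- the counting statement for one shape -/
def Yok (S : Sp) : Prop := ∀ (c e : ℕ) (U : List ℕ) (m : ℕ), U.Pairwise (· < ·) →
  (∀ x ∈ U, c + e ≤ x) → e + U.length = S.size + m → Cnt (Yp S c e U m) (N S U.length m)

/-- size of the stack after the left subtree -/
def y_g1 : Tr × List ℕ → ℕ
  | (.nil, _) => 0
  | (.node l _ _, O) => (stk O l.post).length

/-- size of the stack after the right subtree -/
def y_g2 : Tr × List ℕ → ℕ
  | (.nil, _) => 0
  | (.node l _ r, O) => (stk (stk O l.post) r.post).length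

theorem y_out (l r : Tr) (v : ℕ) (O : List ℕ) :
    out O (Tr.node l v r).post = out O l.post ++ out (stk O l.post) r.post ++
      (stk (stk O l.post) r.post).takeWhile (· < v) := by
  simp only [Tr.post, out_append, stk_append, out, List.append_nil]

theorem y_stk (l r : Tr) (v : ℕ) (O : List ℕ) :
    stk O (Tr.node l v r).post = v :: (stk (stk O l.post) r.post).dropWhile (· < v) := by
  simp only [Tr.post, stk_append, stk]

theorem y_len (T : Tr) (O : List ℕ) :
    (out O T.post).length + (stk O T.post).length = O.length + T.sp.size := by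
  have := (os_perm T.post O).length_eq
  rwa [List.length_append, List.length_append, length_post] at this

theorem y_N (S : Sp) (u m : ℕ) (h : S.size + m < u) : N S u m = 0 := by
  cases S with
  | nil =>
    simp only [Sp.size] at h
    simp only [N]
    rw [if_neg (by omega)]
  | node l r =>
    simp only [Sp.size] at h
    simp only [N]
    rw [if_neg (by omega)]

theorem y_dec {l r : Sp} {c E v m : ℕ} (hv : c + E ≤ v) {a : Tr × List ℕ}
    (h : Yp (.node l r) c E [v] m a) :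
    ∃ l' r' O, a = (Tr.node l' v r', O) ∧ l'.sp = l ∧ r'.sp = r ∧ l'.dec ∧ r'.dec ∧
      O.length = m ∧ O.Pairwise (· < ·) ∧ (stk O l'.post).Pairwise (· < ·) ∧
      out O l'.post ++ out (stk O l'.post) r'.post ++ stk (stk O l'.post) r'.post =
        List.range' c E := by
  obtain ⟨T, O⟩ := a
  obtain ⟨h1, h2, h3, h4, h5, h6⟩ := h
  cases T with
  | nil => simp [Tr.sp] at h1
  | node l' v' r' =>
    simp only [Tr.sp, Sp.node.injEq] at h1
    have h7 := os_perm (Tr.node l' v' r').post O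
    simp only at h2 h3 h4 h5 h6
    rw [h5, h6] at h7
    have h8 : (O ++ (Tr.node l' v' r').post).Nodup := by
      rw [← h7.nodup_iff, List.nodup_append]
      refine ⟨List.nodup_range', List.nodup_singleton _, ?_⟩
      intro x hx y hy
      rw [List.mem_singleton.1 hy]
      have := List.mem_range'_1.1 hx
      omega
    have h9 : (O ++ l'.post).Nodup := by
      refine h8.sublist ?_
      simp only [Tr.post, List.append_assoc]
      exact (List.sublist_append_left _ _).append_left _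
    have h10 : (stk O l'.post).Nodup :=
      (List.nodup_append.1 ((os_perm l'.post O).nodup_iff.2 h9)).2.1
    have h11 := stk_sorted l'.post O (h4.imp le_of_lt)
    rw [y_stk] at h6
    rw [y_out] at h5
    obtain ⟨rfl, h12⟩ := List.cons.inj h6
    have h13 := List.takeWhile_append_dropWhile (p := fun x => decide (x < v'))
      (l := stk (stk O l'.post) r'.post)
    rw [h12, List.append_nil] at h13
    rw [h13] at h5
    exact ⟨l', r', O, rfl, h1.1, h1.2, h2.1, h2.2.1, h3, h4,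
      (h11.and h10).imp fun h => lt_of_le_of_ne h.1 h.2, h5⟩

theorem y_comp {c E v : ℕ} (hv : c + E ≤ v) {l' r' : Tr} {O : List ℕ} (h1 : l'.dec) (h2 : r'.dec)
    (h3 : O.Pairwise (· < ·))
    (h4 : out O l'.post ++ out (stk O l'.post) r'.post ++ stk (stk O l'.post) r'.post =
      List.range' c E) :
    Yp (.node l'.sp r'.sp) c E [v] O.length (Tr.node l' v r', O) := by
  have k0 : ∀ x ∈ out O l'.post ++ out (stk O l'.post) r'.post ++ stk (stk O l'.post) r'.post,
      x < v := by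
    intro x hx
    rw [h4] at hx
    have := List.mem_range'_1.1 hx
    omega
  have k1 : ∀ x ∈ stk O l'.post ++ r'.post, x < v := by
    intro x hx
    refine k0 x ?_
    rw [List.append_assoc]
    exact List.mem_append_right _ ((os_perm r'.post _).symm.subset hx)
  have k2 : ∀ x ∈ l'.post, x < v := by
    intro x hx
    rcases List.mem_append.1 ((os_perm l'.post O).symm.subset (List.mem_append_right _ hx))
      with h | h
    · exact k0 x (List.mem_append_left _ (List.mem_append_left _ h))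
    · exact k1 x (List.mem_append_left _ h)
  have k3 : ∀ x ∈ stk (stk O l'.post) r'.post, x < v := fun x hx =>
    k0 x (List.mem_append_right _ hx)
  refine ⟨rfl, ⟨h1, h2, k2, fun x hx => k1 x (List.mem_append_right _ hx)⟩, rfl, h3, ?_, ?_⟩
  · show out O (Tr.node l' v r').post = _
    rw [y_out, List.takeWhile_eq_self_iff.2 (by simpa using k3), h4]
  · show stk O (Tr.node l' v r').post = _
    rw [y_stk, List.dropWhile_eq_nil_iff.2 (by simpa using k3)]

theorem y_fix (l r : Sp) (hl : Yok l) (hr : Yok r) (c v m : ℕ)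
    (hv : c + (l.size + r.size + m) ≤ v) (u p : ℕ) :
    Cnt (fun a => (Yp (.node l r) c (l.size + r.size + m) [v] m a ∧ y_g1 a = u) ∧ y_g2 a = p)
      (N r p u * N l u m) := by
  by_cases hc : u ≤ l.size + m ∧ p ≤ r.size + u
  · obtain ⟨e1, he1⟩ : ∃ e1, e1 + u = l.size + m := ⟨l.size + m - u, by omega⟩
    obtain ⟨e2, he2⟩ : ∃ e2, e2 + p = r.size + u := ⟨r.size + u - p, by omega⟩
    have hE : List.range' c e1 ++ List.range' (c + e1) e2 ++ List.range' (c + e1 + e2) p =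
        List.range' c (l.size + r.size + m) := by
      rw [List.range'_append_1, add_assoc c, List.range'_append_1]
      congr 1
      omega
    have h1 := hr (c + e1) e2 (List.range' (c + e1 + e2) p) u List.pairwise_lt_range'
      (fun x hx => (List.mem_range'_1.1 hx).1) (by rw [List.length_range']; exact he2)
    rw [List.length_range'] at h1
    have h2 := h1.prod (Q := fun a b => Yp l c e1 a.2 m b) (n := N l u m) (by
      rintro ⟨r', U1⟩ ⟨-, -, a3, a4, a5, a6⟩
      simp only at a3 a4 a5 a6 ⊢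
      have h3 := hl c e1 U1 m a4 (by
        intro x hx
        have h4 := (os_perm r'.post U1).symm.subset (List.mem_append_left _ hx)
        rw [a5, a6] at h4
        rcases List.mem_append.1 h4 with h | h
        · exact (List.mem_range'_1.1 h).1
        · have := (List.mem_range'_1.1 h).1
          omega) (by omega)
      rwa [a3] at h3)
    refine h2.bij (fun q => (Tr.node q.2.1 v q.1.1, q.2.2)) ?_ ?_ ?_
    · rintro ⟨⟨r1, U1⟩, l1, O1⟩ ⟨⟨r2, U2⟩, l2, O2⟩ ⟨-, a⟩ ⟨-, b⟩ h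
      simp only [Prod.mk.injEq, Tr.node.injEq, true_and] at h
      obtain ⟨⟨rfl, rfl⟩, rfl⟩ := h
      have a1 : stk O1 l1.post = U1 := a.2.2.2.2.2
      have b1 : stk O1 l1.post = U2 := b.2.2.2.2.2
      rw [← a1, ← b1]
    · rintro ⟨⟨r', U1⟩, l', O⟩ ⟨⟨a1, a2, a3, -, a5, a6⟩, b1, b2, b3, b4, b5, b6⟩
      simp only at a1 a2 a3 a5 a6 b1 b2 b3 b4 b5 b6
      have h3 := y_comp hv b2 a2 b4 (by rw [b6, b5, a5, a6, hE])
      rw [a1, b1, b3] at h3
      refine ⟨⟨h3, ?_⟩, ?_⟩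
      · simp only [y_g1]
        rw [b6, a3]
      · simp only [y_g2]
        rw [b6, a6, List.length_range']
    · rintro a ⟨⟨h3, h4⟩, h5⟩
      obtain ⟨l', r', O, rfl, a1, a2, a3, a4, a5, a6, a7, a8⟩ := y_dec hv h3
      simp only [y_g1] at h4
      simp only [y_g2] at h5
      have k1 := y_len l' O
      rw [← hE] at a8
      obtain ⟨k3, k4⟩ := List.append_inj' a8 (by rw [List.length_range', h5])
      obtain ⟨k5, k6⟩ := List.append_inj k3 (by rw [List.length_range']; rw [a1] at k1; omega)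
      exact ⟨((r', stk O l'.post), l', O), ⟨⟨a2, a4, h4, a7, k6, k4⟩, a1, a3, a5, a6, k5, rfl⟩, rfl⟩
  · have h0 : N r p u * N l u m = 0 := by
      by_cases h : u ≤ l.size + m
      · rw [y_N r p u (by omega), zero_mul]
      · rw [y_N l u m (by omega), mul_zero]
    rw [h0]
    refine Cnt.zero ?_
    rintro a ⟨⟨h3, h4⟩, h5⟩
    obtain ⟨l', r', O, rfl, a1, a2, -, -, a5, -, -, -⟩ := y_dec hv h3
    simp only [y_g1] at h4
    simp only [y_g2] at h5
    have k1 := y_len l' O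
    have k2 := y_len r' (stk O l'.post)
    rw [a1] at k1
    rw [a2] at k2
    omega

theorem Y_top (l r : Sp) (hl : Yok l) (hr : Yok r) (c v m : ℕ)
    (hv : c + (l.size + r.size + m) ≤ v) :
    Cnt (Yp (.node l r) c (l.size + r.size + m) [v] m)
      (∑ u ∈ range (m + 2), ∑ p ∈ range (u + 2), N r p u * N l u m) := by
  refine Cnt.fiber _ y_g1 _ ?_ fun u _ => Cnt.fiber _ y_g2 _ ?_ fun p _ => y_fix l r hl hr c v m hv u p
  · intro a ha
    obtain ⟨l', r', O, rfl, -, -, a3, -, a5, a6, -, -⟩ := y_dec hv ha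
    have := length_stk l' a3 O a6
    simp only [y_g1, mem_range]
    omega
  · rintro a ⟨ha, hu⟩
    obtain ⟨l', r', O, rfl, -, -, -, a4, -, -, a7, -⟩ := y_dec hv ha
    have := length_stk r' a4 _ a7
    simp only [y_g1] at hu
    simp only [y_g2, mem_range]
    omega

theorem Y_cnt (S : Sp) : Yok S := by
  induction S with
  | nil =>
    intro c e U m hU _ he
    simp only [Sp.size] at he
    have key : ∀ a, Yp .nil c e U m a → a = (Tr.nil, U) ∧ U.length = m := by
      rintro ⟨T, O⟩ ⟨h1, -, h3, -, -, h6⟩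
      cases T with
      | nil =>
        simp only [Tr.post, stk] at h6 h3
        rw [← h6]
        exact ⟨rfl, h3⟩
      | node l v r => simp [Tr.sp] at h1
    simp only [N]
    split_ifs with h
    · refine Cnt.one (Tr.nil, U) fun a => ⟨fun ha => (key a ha).1, ?_⟩
      rintro rfl
      have h0 : e = 0 := by omega
      exact ⟨rfl, trivial, h, hU, by rw [h0]; rfl, rfl⟩
    · exact Cnt.zero fun a ha => h (key a ha).2
  | node l r hl hr =>
    intro c e U m hU hc he
    cases U with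
    | nil =>
      simp only [N, List.length_nil]
      rw [if_neg (by omega)]
      refine Cnt.zero ?_
      rintro ⟨T, O⟩ ⟨h1, -, -, -, -, h6⟩
      cases T with
      | nil => simp [Tr.sp] at h1
      | node l' v r' =>
        simp only at h6
        rw [y_stk] at h6
        exact List.cons_ne_nil _ _ h6
    | cons v U =>
      simp only [Sp.size, List.length_cons] at he
      have hv : c + e ≤ v := hc v (by simp)
      have h1 := Y_reduce l r c e v U m (B (.node l r) (m - U.length)) hU hv fun h => by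
        have h2 : e = l.size + r.size + (m - U.length) := by omega
        rw [B_eq, h2]
        exact Y_top l r hl hr c v _ (by omega)
      have h3 : N (.node l r) (v :: U).length m =
          if U.length ≤ m then B (.node l r) (m - U.length) else 0 := by
        simp only [N, List.length_cons, Nat.add_sub_add_right]
        exact if_congr (by omega) rfl rfl
      rw [h3]
      exact h1

end Pool.Agent.P.MP_8acafb_co.T3
end

-- part Pool.Agent.P.MP_8acafb_co.T3Run
section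

namespace Pool.Agent.P.MP_8acafb_co.T3

theorem runP : chkP 191 9 320 160 18446744073709551616 1 4 1 12 100000000 969918903 1
    (rows 192 320 160 3 dP) = true := by decide +kernel

theorem runV : chkV 191 9 320 160 18446744073709551616 1 4 1 12 100000000 969918903
    100000 969911 (rows 192 320 160 3 dP) (rows 192 320 160 3 dV) = true := by decide +kernel

theorem runU : chkP 255 9 256 160 18446744073709551616 501 2000 329 4000 100000 969979 0
    (rows 256 256 160 4 dU) = true := by decide +kernel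

theorem runS : sums 256 8 8 256 160 3403993747779656696 2878917136379636972 2866215098398685529
    (rows 256 256 160 4 dU) = true := by decide +kernel

end Pool.Agent.P.MP_8acafb_co.T3
end

-- part Pool.Agent.P.MP_8acafb_co.T3W
section

namespace Pool.Agent.P.MP_8acafb_co.T3

open Finset

theorem W_cnt (t n : ℕ) :
    Cnt (fun l : List ℕ => l.Perm (List.range n) ∧ s^[t] l = List.range n) (W t n) := by
  refine ⟨_, fun l => ?_, rfl⟩
  simp [List.mem_permutations]

theorem w_range (n : ℕ) : List.range (n + 1) = List.range' 0 n ++ [n] := by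
  rw [List.range_succ, List.range_eq_range']

theorem w_cat (T : Tr) : cat [T] = T.post := by simp [cat]

theorem w_fo {w : List ℕ} {Fl : List Tr} (h : Fo w 1 Fl) :
    ∃ T : Tr, Fl = [T] ∧ T.dec ∧ T.post = w := by
  obtain ⟨h1, h2, h3⟩ := h
  obtain ⟨T, rfl⟩ := List.length_eq_one_iff.1 h1
  exact ⟨T, rfl, (h2 T (by simp)).2, by rw [← h3, w_cat]⟩

theorem w_fib (n : ℕ) (S : Sp) (hS : S.size = n + 1) :
    Cnt (fun p : (Tr × List ℕ) × List Tr => Yp S 0 n [n] 0 p.1 ∧ Fo p.1.1.ino 1 p.2)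
      (B S 0 * A S 1) := by
  have h1 := Y_cnt S 0 n [n] 0 (by simp) (by simp) (by simp [hS])
  have h2 : N S [n].length 0 = B S 0 := by
    cases S with
    | nil => simp [Sp.size] at hS
    | node l r => simp [N]
  rw [h2] at h1
  refine Cnt.prod (Q := fun (a : Tr × List ℕ) (Fl : List Tr) => Fo a.1.ino 1 Fl) h1 ?_
  intro a ha
  have h3 := Fo_cnt a.1 ha.2.1 1
  rwa [ha.1] at h3

theorem W_three (n : ℕ) (hn : 0 < n) (F : Finset Sp) (hF : ∀ S, S ∈ F ↔ S.size = n) :
    W 3 n = ∑ S ∈ F, B S 0 * A S 1 := by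
  obtain ⟨n, rfl⟩ : ∃ m, n = m + 1 := ⟨n - 1, by omega⟩
  have h1 : Cnt (fun p : (Tr × List ℕ) × List Tr =>
      p.1.1.sp.size = n + 1 ∧ Yp p.1.1.sp 0 n [n] 0 p.1 ∧ Fo p.1.1.ino 1 p.2)
      (∑ S ∈ F, B S 0 * A S 1) := by
    refine Cnt.fiber F (fun p => p.1.1.sp) _ (fun p hp => (hF _).2 hp.1) fun S hS => ?_
    refine (w_fib n S ((hF S).1 hS)).congr fun p => ⟨fun hp => ?_, fun hp => ?_⟩
    · have e : p.1.1.sp = S := hp.1.1
      exact ⟨⟨by rw [e]; exact (hF S).1 hS, by rw [e]; exact hp.1, hp.2⟩, e⟩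
    · obtain ⟨⟨_, h2, h3⟩, e⟩ := hp
      have e' : p.1.1.sp = S := e
      exact ⟨by rw [← e']; exact h2, h3⟩
  refine (W_cnt 3 (n + 1)).unique
    (h1.bij (fun p => (p.2.headD .nil).ino) ?_ ?_ ?_)
  · rintro ⟨⟨T, O⟩, Fl⟩ ⟨⟨T', O'⟩, Fl'⟩ ⟨_, hY, hF1⟩ ⟨_, hY', hF1'⟩ he
    obtain ⟨T1, rfl, hd, hp⟩ := w_fo hF1
    obtain ⟨T1', rfl, hd', hp'⟩ := w_fo hF1'
    have e1 : T1 = T1' := ino_inj _ _ hd hd' he
    subst e1
    have e2 : T = T' := ino_inj _ _ hY.2.1 hY'.2.1 (hp.symm.trans hp')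
    have e3 : O = [] := List.length_eq_zero_iff.1 hY.2.2.1
    have e4 : O' = [] := List.length_eq_zero_iff.1 hY'.2.2.1
    rw [e2, e3, e4]
  · rintro ⟨⟨T, O⟩, Fl⟩ ⟨_, hY, hF1⟩
    obtain ⟨T1, rfl, hd, hp⟩ := w_fo hF1
    have e3 : O = [] := List.length_eq_zero_iff.1 hY.2.2.1
    subst e3
    have h3 : s^[3] T1.ino = List.range (n + 1) := by
      show s (s (s T1.ino)) = _
      have ho : out [] T.post = List.range' 0 n := hY.2.2.2.2.1
      have hs : stk [] T.post = [n] := hY.2.2.2.2.2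
      have hp' : T1.post = T.ino := hp
      rw [s_ino T1 hd, hp', s_ino T hY.2.1, w_range, s, pass_eq, ho, hs]
    exact ⟨by rw [← h3]; exact (iter_s_perm 3 _).symm, h3⟩
  · rintro l ⟨hl, h3⟩
    have hnd : l.Nodup := hl.nodup_iff.2 List.nodup_range
    obtain ⟨T1, hd1, e1⟩ := ex_ino l hnd
    obtain ⟨T, hd, e⟩ := ex_ino (s l) ((s_perm l).nodup_iff.2 hnd)
    have hlen : l.length = n + 1 := by rw [hl.length_eq, List.length_range]
    have hp1 : T1.post = T.ino := by rw [e, ← e1, s_ino T1 hd1]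
    have hsz : T.sp.size = n + 1 := by
      rw [← length_post, (post_perm T).length_eq, e, (s_perm l).length_eq, hlen]
    have h4 : out [] T.post ++ stk [] T.post = List.range' 0 n ++ [n] := by
      have h5 : s (s (s l)) = List.range (n + 1) := h3
      rw [← e, s_ino T hd, s, pass_eq] at h5
      rw [h5, w_range]
    have h6 : (stk [] T.post).length = 1 := by
      cases T with
      | nil => simp [Tr.sp, Sp.size] at hsz
      | node a v b => rw [(os_node a b v hd [] (by simp)).2]; simp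
    have h7 := List.append_inj' h4 (by simpa using h6)
    refine ⟨((T, []), [T1]), ⟨hsz, ⟨rfl, hd, rfl, by simp, h7.1, h7.2⟩, rfl, ?_, ?_⟩, e1⟩
    · intro X hX
      rw [List.mem_singleton.1 hX]
      refine ⟨fun h0 => ?_, hd1⟩
      rw [h0] at e1
      rw [← e1] at hlen
      simp [Tr.ino] at hlen
    · rw [w_cat]; exact hp1

theorem mem_HT (S : Sp) : ∀ n, S.size ≤ n → S ∈ HT n := by
  induction S with
  | nil => intro n _; cases n <;> simp [HT]
  | node l r ihl ihr =>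
    intro n hn
    cases n with
    | zero => simp [Sp.size] at hn
    | succ n =>
      simp only [Sp.size] at hn
      simp only [HT, mem_insert, mem_image, mem_product]
      exact Or.inr ⟨(l, r), ⟨ihl n (by omega), ihr n (by omega)⟩, rfl⟩

theorem w_gs (x y z : ℝ) (S : Sp) :
    gs x y z S 0 0 = ((B S 0 * A S 1 : ℕ) : ℝ) * z ^ S.size := by
  simp only [gs, pow_zero, mul_one, zero_add, Nat.cast_mul]
  ring

theorem w_sum (x y z : ℝ) (n : ℕ) (hn : 0 < n) :
    ∑ S ∈ (HT n).filter (fun S => S.size = n), gs x y z S 0 0 = (W 3 n : ℝ) * z ^ n := by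
  rw [W_three n hn ((HT n).filter (fun S => S.size = n))
    (fun S => by
      rw [mem_filter]
      exact ⟨fun h => h.2, fun h => ⟨mem_HT S n h.le, h⟩⟩), Nat.cast_sum, sum_mul]
  refine sum_congr rfl fun S hS => ?_
  rw [w_gs, (mem_filter.1 hS).2]

theorem w_nn (x y z : ℝ) (hz : 0 ≤ z) (S : Sp) : 0 ≤ gs x y z S 0 0 := by
  rw [w_gs]; positivity

theorem W_le_GG (x y z : ℝ) (hz : 0 ≤ z) (n : ℕ) (hn : 0 < n) :
    (W 3 n : ℝ) * z ^ n ≤ GG x y z n 0 0 := by
  rw [← w_sum x y z n hn]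
  exact sum_le_sum_of_subset_of_nonneg (filter_subset _ _) fun S _ _ => w_nn x y z hz S

theorem GG_le (x y z μ : ℝ) (hz : 0 ≤ z) (hμ : 0 ≤ μ) (h : μ * z < 1)
    (hW : ∀ n, (W 3 n : ℝ) ≤ μ ^ n) (n : ℕ) : GG x y z n 0 0 ≤ 1 / (1 - μ * z) := by
  have hq : 0 ≤ μ * z := mul_nonneg hμ hz
  have h1 : GG x y z n 0 0 = ∑ k ∈ range ((HT n).sup Sp.size + 1),
      ∑ S ∈ (HT n).filter (fun S => S.size = k), gs x y z S 0 0 :=
    (sum_fiberwise_of_maps_to (fun S hS => mem_range.2 (Nat.lt_succ_of_le (le_sup hS))) _).symm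
  have h2 : ∀ k, ∑ S ∈ (HT n).filter (fun S => S.size = k), gs x y z S 0 0 ≤ (μ * z) ^ k := by
    intro k
    rcases Nat.eq_zero_or_pos k with rfl | hk
    · refine (sum_eq_zero fun S hS => ?_).le.trans (by positivity)
      have h3 := (mem_filter.1 hS).2
      cases S with
      | nil => simp [w_gs, B]
      | node l r => simp [Sp.size] at h3
    · calc _ ≤ ∑ S ∈ (HT k).filter (fun S => S.size = k), gs x y z S 0 0 := by
            refine sum_le_sum_of_subset_of_nonneg (fun S hS => ?_) fun S _ _ => w_nn x y z hz S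
            have h3 := (mem_filter.1 hS).2
            exact mem_filter.2 ⟨mem_HT S k h3.le, h3⟩
        _ = (W 3 k : ℝ) * z ^ k := w_sum x y z k hk
        _ ≤ (μ * z) ^ k := by
            rw [mul_pow]; exact mul_le_mul_of_nonneg_right (hW k) (pow_nonneg hz k)
  rw [h1, one_div]
  exact (sum_le_sum fun k _ => h2 k).trans
    (sum_le_hasSum _ (fun k _ => pow_nonneg hq k) (hasSum_geometric_of_lt_one hq h))

end Pool.Agent.P.MP_8acafb_co.T3
end

-- part Pool.Agent.P.MP_8acafb_co.T3Main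
section

namespace Pool.Agent.P.MP_8acafb_co.T3

open Finset Filter Topology

theorem no_super (G : Ar) (hG0 : ∀ i j, 0 ≤ G i j)
    (hG : ∀ i j, sh (((1 : ℕ) : ℝ) / (12 : ℕ)) G i j + ((100000 : ℕ) : ℝ) / (969911 : ℕ) *
      R (((1 : ℕ) : ℝ) / (4 : ℕ)) (((1 : ℕ) : ℝ) / (12 : ℕ)) G i j ≤ G i j) : False := by
  have gP := good_rows 192 320 160 3 dP (by norm_num)
  have gV := good_rows 192 320 160 3 dV (by norm_num)
  have f0 : Fit 191 9 160 18446744073709551616 1 4 1 12 100000000 969918903 := by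
    unfold Fit cb lhs rhs lpL; norm_num
  have f1 : Fit 191 9 160 18446744073709551616 1 4 1 12 100000 969911 := by
    unfold Fit cb lhs rhs lpL; norm_num
  have hV := chkV_ok (w := 191) (by norm_num) (by norm_num) (by norm_num) (by norm_num)
    (by norm_num) (by norm_num) (by norm_num) gP gV (by norm_num) (by norm_num) f0 f1 runV
  refine lower _ _ (((100000000 : ℕ) : ℝ) / (969918903 : ℕ)) _ (by positivity) (by positivity)
    (by positivity) (by norm_num) G hG0 hG 320 160 (by norm_num) (by norm_num) _ _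
    (ca_box gP 18446744073709551616) (ca_box gV 18446744073709551616) (fun i hi j hj => ?_)
    (fun i hi j hj => (hV i hi j hj).1) (fun i hi j hj => (hV i hi j hj).2)
  obtain ⟨K, hK, h⟩ := chkP_ok (w := 191) (by norm_num) (by norm_num) (by norm_num) (by norm_num)
    (by norm_num) (by norm_num) (by norm_num) gP (by norm_num) le_rfl f0 runP i hi j hj
  refine (mul_lt_mul_iff_right₀ hK).1 (lt_of_lt_of_le ?_ h)
  simp

theorem bounded : ∃ C : ℝ, ∀ n, GG (((501 : ℕ) : ℝ) / (2000 : ℕ)) (((329 : ℕ) : ℝ) / (4000 : ℕ))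
    (((100000 : ℕ) : ℝ) / (969979 : ℕ)) n 0 0 ≤ C := by
  have gU := good_rows 256 256 160 4 dU (by norm_num)
  have f0 : Fit 255 9 160 18446744073709551616 501 2000 329 4000 100000 969979 := by
    unfold Fit cb lhs rhs lpL; norm_num
  obtain ⟨h1, h2, h3⟩ := sums_ok (D := 18446744073709551616) gU (by norm_num) (by norm_num)
    (by norm_num) (by norm_num) runS
  refine ⟨_, upper _ _ _ (2275 / 100000000) (by positivity) (by positivity) (by norm_num)
    (by positivity) (by positivity) _ (GG_iter _ _ _ (by positivity) (by positivity)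
    (by positivity)) 256 160 _ (ca_box gU 18446744073709551616) (fun i hi j hj => ?_)
    _ _ _ _ _ h1 h2 h3 rfl rfl (by norm_num)⟩
  obtain ⟨K, hK, h⟩ := chkP_ok (w := 255) (by norm_num) (by norm_num) (by norm_num) (by norm_num)
    (by norm_num) (by norm_num) (by norm_num) gU (by norm_num) (Nat.zero_le 1) f0 runU i hi j hj
  refine (mul_le_mul_iff_right₀ hK).1 (le_trans ?_ h)
  simp

theorem mu_le_of_bound (μ K C : ℝ) (hK : 0 < K)
    (h : Tendsto (fun n : ℕ => (W 3 n : ℝ) ^ (1 / n : ℝ)) atTop (𝓝 μ))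
    (hW : ∀ n, 0 < n → (W 3 n : ℝ) ≤ C * K ^ n) : W 3 0 ≤ 1 → μ ≤ K := by
  intro h0
  have key : ∀ m n : ℕ, W 3 n ^ m ≤ W 3 (m * n) := by
    intro m n
    induction m with
    | zero => simpa using Nat.succ_le_of_lt (W_pos 3 0)
    | succ m ih =>
      rw [pow_succ, Nat.succ_mul]
      exact (Nat.mul_le_mul_right _ ih).trans (W_supermul 3 _ _)
  refine mu_le 3 μ h 1 one_pos K hK.le fun n => ?_
  rw [mul_one, pow_one]
  rcases Nat.eq_zero_or_pos n with rfl | hn
  · simpa using h0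
  by_contra hc
  have h1 : 1 < (W 3 n : ℝ) / K ^ n := (one_lt_div (by positivity)).2 (not_le.1 hc)
  obtain ⟨m, hm, hm0⟩ := (((tendsto_pow_atTop_atTop_of_one_lt h1).eventually_gt_atTop C).and
    (eventually_gt_atTop 0)).exists
  have h2 : ((W 3 n : ℝ)) ^ m ≤ W 3 (m * n) := by exact_mod_cast key m n
  have h3 := hW (m * n) (Nat.mul_pos hm0 hn)
  rw [div_pow, lt_div_iff₀ (by positivity), ← pow_mul, mul_comm n m] at hm
  linarith

theorem main : ∃ μ : ℝ, Tendsto (fun n : ℕ => (W 3 n : ℝ) ^ (1 / n : ℝ)) atTop (𝓝 μ) ∧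
    9.6991 < μ ∧ μ < 9.6998 := by
  obtain ⟨μ, h0, h1, h2⟩ := exists_mu 3
  refine ⟨μ, h1, ?_, ?_⟩
  · by_contra hc
    have hz : μ * (((100000 : ℕ) : ℝ) / (969911 : ℕ)) < 1 := by
      have := not_lt.1 hc
      push_cast
      linarith
    obtain ⟨H, hH0, hH⟩ := ex_super (((1 : ℕ) : ℝ) / (4 : ℕ)) (((1 : ℕ) : ℝ) / (12 : ℕ)) _
      (by positivity) (by positivity) (by positivity) _
      (GG_iter _ _ _ (by positivity) (by positivity) (by positivity)) _
      (GG_le _ _ _ μ (by positivity) h0.le hz h2)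
    exact no_super H hH0 hH
  · obtain ⟨C, hC⟩ := bounded
    have := mu_le_of_bound μ (969979 / 100000) C (by norm_num) h1 (fun n hn => by
      have h3 := (W_le_GG _ _ _ (by positivity) n hn).trans (hC n)
      have h4 : (((100000 : ℕ) : ℝ) / (969979 : ℕ)) ^ n * (969979 / 100000) ^ n = 1 := by
        rw [← mul_pow]; norm_num
      have h5 := mul_le_mul_of_nonneg_right h3 (show (0 : ℝ) ≤ (969979 / 100000) ^ n by positivity)
      rwa [mul_assoc, h4, mul_one] at h5) (by simpa using h2 0)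
    linarith

end Pool.Agent.P.MP_8acafb_co.T3
end
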