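import Pool.Agent.K.MP_8acafb_co.C3

namespace Pool.Agent.P.MP_8acafb_co

open Finset Filter Topology

theorem mu_upper (t : ℕ) (ht : 1 ≤ t) (μ : ℝ)
    (h : Tendsto (fun n : ℕ => (W t n : ℝ) ^ (1 / n : ℝ)) atTop (𝓝 μ)) :
    μ ≤ (t + 1) * (t / Real.exp 1 + 2 * √t + 1) * Real.exp (36 / √√t) := by
  have hx : (1 : ℝ) ≤ t := by exact_mod_cast ht
  set x : ℝ := (t : ℝ) with hxdef
  set u := √x with hu
  set v := √u with hv
  have hu1 : 1 ≤ u := Real.one_le_sqrt.2 hx
  have hv1 : 1 ≤ v := Real.one_le_sqrt.2 hu1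
  have huu : u * u = x := Real.mul_self_sqrt (by linarith)
  have hvv : v * v = u := Real.mul_self_sqrt (by linarith)
  have hux : u ≤ x := by nlinarith
  have he1 : 1 ≤ Real.exp 1 := Real.one_le_exp zero_le_one
  have he3 : Real.exp 1 ≤ 11 / 4 := (Real.exp_one_lt_d9.trans (by norm_num)).le
  set B := x / Real.exp 1 + 2 * u + 1 with hB
  set R := ⌈x * u⌉₊ with hR
  have hR1 : x * u ≤ R := Nat.le_ceil _
  have hR2 : (R : ℝ) ≤ x * u + 1 := (Nat.ceil_lt_add_one (by positivity)).le
  have hxu : 1 ≤ x * u := by nlinarith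
  have hR0 : 0 < R := by exact_mod_cast (show (0 : ℝ) < R by linarith)
  have hBl : x / Real.exp 1 ≤ B := by linarith
  have hB1 : x / Real.exp 1 ≤ x := div_le_self (by linarith) he1
  have hBu : B ≤ 4 * x := by linarith
  have hB0 : 0 < B := by positivity
  set η : ℝ := R / (B * (x + 1)) with hη
  have hη0 : 0 < η := by positivity
  have hW := fun m => W_upper t R m hR0 (1 / u) (by positivity)
    ((div_le_one (by linarith)).2 hu1) B (by
      have : x * (1 / u) = u := by rw [← huu]; field_simp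
      rw [one_div_one_div, this]; linarith) η rfl
  have hηu : 2 * η ≤ 11 / u := by
    have h1 : x ≤ 11 / 4 * B := by
      rw [div_le_iff₀ (by linarith)] at hBl; nlinarith
    rw [hη, ← mul_div_assoc, div_le_div_iff₀ (by positivity) (by positivity)]
    have h2 : 2 * (R : ℝ) * u ≤ 4 * (x * x) := by
      have : 2 * (R : ℝ) * u ≤ 2 * (2 * (x * u)) * u := by gcongr; linarith
      nlinarith
    nlinarith
  have hlog : Real.log (2 * x) ≤ 1 + 4 * v := by
    have h1 : x = v ^ 4 := by rw [← huu, ← hvv]; ring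
    rw [Real.log_mul two_ne_zero (by linarith), h1, Real.log_pow]
    have h2 := Real.log_le_sub_one_of_pos (show (0 : ℝ) < 2 by norm_num)
    have h3 := Real.log_le_sub_one_of_pos (show 0 < v by linarith)
    push_cast
    linarith
  have hexp : 2 * x + 1 ≤ Real.exp (2 * x) := Real.add_one_le_exp _
  have hexp4 : (2 * x + 1) ^ 2 ≤ Real.exp (4 * x) := by
    have : Real.exp (4 * x) = Real.exp (2 * x) ^ 2 := by
      rw [← Real.exp_nat_mul]; congr 1; push_cast; ring
    rw [this]; gcongr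
  have hC1 : 1 + 1 / η ≤ Real.exp (4 * x) := by
    refine le_trans ?_ hexp4
    have h1 : 1 / η ≤ B * (x + 1) := by
      rw [hη, one_div_div]
      exact div_le_self (by positivity) (by linarith)
    nlinarith
  have hC2 : (x + 1) ^ (t + 1) ≤ Real.exp (2 * x * (1 + 4 * v)) := by
    have h1 : x + 1 ≤ Real.exp (1 + 4 * v) := by
      have := (Real.log_le_iff_le_exp (by linarith)).1 hlog
      linarith
    calc (x + 1) ^ (t + 1) ≤ Real.exp (1 + 4 * v) ^ (t + 1) := by gcongr
      _ = Real.exp ((x + 1) * (1 + 4 * v)) := by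
        rw [← Real.exp_nat_mul]; congr 1; push_cast; rfl
      _ ≤ _ := by gcongr; linarith
  have hC3 : (2 : ℝ) ^ t ≤ Real.exp x := by
    have h1 : (2 : ℝ) ≤ Real.exp 1 := by linarith [Real.add_one_le_exp 1]
    calc (2 : ℝ) ^ t ≤ Real.exp 1 ^ t := by gcongr
      _ = _ := by rw [← Real.exp_nat_mul, mul_one]
  have hC4 : Real.exp (B + 2) ≤ Real.exp (6 * x) := by gcongr; linarith
  have hC5 : (R : ℝ) + 1 ≤ Real.exp (4 * x) := by
    refine le_trans ?_ hexp4
    nlinarith
  have hC : (1 + 1 / η) * (x + 1) ^ (t + 1) * 2 ^ t * Real.exp (B + 2) * (R + 1) ≤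
      Real.exp ((17 + 8 * v) / u) ^ R := by
    calc _ ≤ Real.exp (4 * x) * Real.exp (2 * x * (1 + 4 * v)) * Real.exp x * Real.exp (6 * x) *
          Real.exp (4 * x) := by gcongr
      _ = Real.exp (x * u * ((17 + 8 * v) / u)) := by
        simp only [← Real.exp_add]; congr 1; field_simp; ring
      _ ≤ Real.exp (R * ((17 + 8 * v) / u)) := by gcongr
      _ = _ := Real.exp_nat_mul _ _
  refine mu_le t μ h R hR0 _ (by positivity) fun m => (hW m).trans ?_
  refine pow_le_pow_left₀ (by positivity) ?_ m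
  refine (mul_le_mul_of_nonneg_left hC (by positivity)).trans ?_
  rw [← mul_pow]
  refine pow_le_pow_left₀ (by positivity) ?_ R
  rw [mul_assoc, ← Real.exp_add]
  gcongr
  have h1 : 11 / u + (17 + 8 * v) / u ≤ 36 / v := by
    rw [← add_div, div_le_div_iff₀ (by positivity) (by positivity)]
    nlinarith
  linarith

theorem lower_simple (m : ℕ) :
    ((m + 1 : ℕ) : ℝ) * (Real.exp (-1) * Real.exp (-(4 / √√((m + 1 : ℕ) : ℝ)))) ≤
      (m.factorial : ℝ) ^ (1 / ((m + 1 : ℕ) : ℝ)) := by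
  have hx : (1 : ℝ) ≤ ((m + 1 : ℕ) : ℝ) := by exact_mod_cast Nat.succ_le_succ (Nat.zero_le m)
  have hfac : (((m + 1).factorial : ℕ) : ℝ) = ((m + 1 : ℕ) : ℝ) * m.factorial := by
    rw [Nat.factorial_succ]; push_cast; rfl
  have h3 := Real.pow_div_factorial_le_exp ((m + 1 : ℕ) : ℝ) (Nat.cast_nonneg _) (m + 1)
  rw [hfac] at h3
  rw [one_div, Real.le_rpow_inv_iff_of_pos (by positivity) (by positivity) (by positivity),
    Real.rpow_natCast, mul_pow, mul_pow, ← Real.exp_nat_mul, ← Real.exp_nat_mul]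
  set x : ℝ := ((m + 1 : ℕ) : ℝ) with hxdef
  set u := √x with hu
  set v := √u with hv
  have hu1 : 1 ≤ u := Real.one_le_sqrt.2 hx
  have hv1 : 1 ≤ v := Real.one_le_sqrt.2 hu1
  have huu : u * u = x := Real.mul_self_sqrt (by linarith)
  have hvv : v * v = u := Real.mul_self_sqrt (by linarith)
  have h1 : x = v ^ 4 := by rw [← huu, ← hvv]; ring
  have hlog : Real.log x ≤ x * (4 / v) := by
    have h2 : Real.log x ≤ 4 * v := by
      rw [h1, Real.log_pow]
      have h3 := Real.log_le_sub_one_of_pos (show 0 < v by linarith)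
      push_cast
      linarith
    have h4 : x * (4 / v) = 4 * v * (v * v) := by rw [h1]; field_simp
    rw [h4]
    nlinarith
  have h5 : x ≤ Real.exp (x * (4 / v)) := (Real.log_le_iff_le_exp (by linarith)).1 hlog
  rw [div_le_iff₀ (by positivity)] at h3
  rw [mul_neg, mul_neg, mul_one, Real.exp_neg, Real.exp_neg, ← mul_inv, ← div_eq_mul_inv,
    div_le_iff₀ (by positivity)]
  refine h3.trans ?_
  calc Real.exp x * (x * m.factorial) ≤ Real.exp x * (Real.exp (x * (4 / v)) * m.factorial) := by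
        gcongr
    _ = _ := by ring

theorem asymptotic : ∃ μ : ℕ → ℝ,
    (∀ t, Tendsto (fun n : ℕ => (W t n : ℝ) ^ (1 / n : ℝ)) atTop (𝓝 (μ t))) ∧
      Tendsto (fun t : ℕ => μ t / (t : ℝ) ^ 2) atTop (𝓝 (Real.exp (-1))) := by
  choose μ hpos hlim hle using exists_mu
  refine ⟨μ, hlim, ?_⟩
  have hN : Tendsto (fun t : ℕ => (t : ℝ)) atTop atTop := tendsto_natCast_atTop_atTop
  have hu : Tendsto (fun t : ℕ => √(t : ℝ)) atTop atTop := Real.tendsto_sqrt_atTop.comp hN
  have hv : Tendsto (fun t : ℕ => √√(t : ℝ)) atTop atTop := Real.tendsto_sqrt_atTop.comp hu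
  have hc : ∀ c : ℝ, Tendsto (fun t : ℕ => Real.exp (c / √√(t : ℝ))) atTop (𝓝 1) := fun c => by
    have := (Real.continuous_exp.tendsto _).comp (hv.const_div_atTop c)
    simpa [Function.comp_def] using this
  have hL : Tendsto (fun t : ℕ => Real.exp (-1) * Real.exp ((-4) / √√(t : ℝ))) atTop
      (𝓝 (Real.exp (-1))) := by
    simpa using (hc (-4)).const_mul (Real.exp (-1))
  have hU : Tendsto (fun t : ℕ => (1 + 1 / (t : ℝ)) * (Real.exp (-1) + 2 / √(t : ℝ) + 1 / (t : ℝ)) *
      Real.exp (36 / √√(t : ℝ))) atTop (𝓝 (Real.exp (-1))) := by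
    have h1 := hN.const_div_atTop 1
    have h2 := hu.const_div_atTop 2
    simpa using ((h1.const_add 1).mul ((h2.const_add (Real.exp (-1))).add h1)).mul (hc 36)
  refine tendsto_of_tendsto_of_tendsto_of_le_of_le' hL hU ?_ ?_
  · filter_upwards [eventually_ge_atTop 1] with t ht
    obtain ⟨m, rfl⟩ : ∃ m, t = m + 1 := ⟨t - 1, by omega⟩
    have h1 := mu_lower m _ (hpos _) (hle _)
    have h2 := lower_simple m
    have hx : (0 : ℝ) < ((m + 1 : ℕ) : ℝ) := by positivity
    rw [le_div_iff₀ (by positivity), neg_div]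
    nlinarith [mul_le_mul_of_nonneg_left h2 hx.le]
  · filter_upwards [eventually_ge_atTop 1] with t ht
    have h1 := mu_upper t ht _ (hlim t)
    have hx : (0 : ℝ) < t := by exact_mod_cast ht
    rw [div_le_iff₀ (by positivity)]
    refine h1.trans (le_of_eq ?_)
    have huu : √(t : ℝ) * √(t : ℝ) = t := Real.mul_self_sqrt hx.le
    have hu0 : 0 < √(t : ℝ) := Real.sqrt_pos.2 hx
    have h2 : 2 / √(t : ℝ) = 2 * √(t : ℝ) / t := by
      rw [div_eq_div_iff hu0.ne' hx.ne', mul_assoc, huu]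
    rw [h2, Real.exp_neg]
    field_simp

end Pool.Agent.P.MP_8acafb_co
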