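import Mathlib

namespace Pool.Agent.P.MP_8acafb_co.HW

/-- Moves of the reversed machine: `inl k` puts a new minimum on page `k`, `inr os` undoes the
reading of one input letter. -/
abbrev Op := ℕ ⊕ List ℕ

abbrev St := ℕ × (ℕ → List ℕ)

section generic

variable {α β : Type} [Inhabited α] [Inhabited β]

def hd (σ : ℕ → List α) (a : ℕ) : α := (σ a).headI

def mv (os : List ℕ) (σ : ℕ → List α) (a : ℕ) : List α :=
  ((List.range os.length).reverse.filter fun i => os.getD i 0 = a).map fun i => hd σ (i + 1)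

def cut (k : ℕ) (σ : ℕ → List α) (a : ℕ) : List α := if a ≤ k then (σ a).tail else σ a

def apA (os : List ℕ) (σ : ℕ → List α) (a : ℕ) : List α := mv os σ a ++ cut os.length σ a

def apR (k : ℕ) (x : α) (σ : ℕ → List α) (a : ℕ) : List α := if a = k then x :: σ a else σ a

theorem mem_mv {os : List ℕ} {σ : ℕ → List α} {a : ℕ} {x : α} :
    x ∈ mv os σ a ↔ ∃ i, i < os.length ∧ os.getD i 0 = a ∧ hd σ (i + 1) = x := by
  simp [mv, and_assoc]

omit [Inhabited α] in
theorem cut_sublist (k : ℕ) (σ : ℕ → List α) (a : ℕ) : (cut k σ a).Sublist (σ a) := by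
  unfold cut
  split_ifs
  · exact List.tail_sublist _
  · exact List.Sublist.refl _

theorem hd_cons {σ : ℕ → List α} {a : ℕ} (h : σ a ≠ []) : σ a = hd σ a :: (σ a).tail := by
  unfold hd
  cases hσ : σ a with
  | nil => exact absurd hσ h
  | cons x l => rfl

theorem hd_mem {σ : ℕ → List α} {a : ℕ} (h : σ a ≠ []) : hd σ a ∈ σ a := by
  have : hd σ a ∈ hd σ a :: (σ a).tail := List.mem_cons_self
  rwa [← hd_cons h] at this

theorem hd_map (f : α → β) {σ : ℕ → List α} {a : ℕ} (h : σ a ≠ []) :
    hd (fun b => (σ b).map f) a = f (hd σ a) := by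
  unfold hd
  cases hσ : σ a with
  | nil => exact absurd hσ h
  | cons x l => simp [hσ]

theorem hd_append {σ : ℕ → List α} (τ : ℕ → List α) {a : ℕ} (h : σ a ≠ []) :
    hd (fun b => σ b ++ τ b) a = hd σ a := by
  unfold hd
  cases hσ : σ a with
  | nil => exact absurd hσ h
  | cons x l => simp [hσ]

theorem mv_congr {os : List ℕ} {σ : ℕ → List α} {τ : ℕ → List β} (f : α → β)
    (h : ∀ j, j ≤ os.length → hd τ j = f (hd σ j)) (a : ℕ) : mv os τ a = (mv os σ a).map f := by
  unfold mv
  rw [List.map_map]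
  refine List.map_congr_left fun i hi => h _ ?_
  have := (List.mem_filter.1 hi).1
  simp only [List.mem_reverse, List.mem_range] at this
  omega

theorem apA_map (f : α → β) {os : List ℕ} {σ : ℕ → List α} (h : ∀ j, j ≤ os.length → σ j ≠ []) :
    apA os (fun b => (σ b).map f) = fun b => (apA os σ b).map f := by
  funext a
  unfold apA
  rw [List.map_append, mv_congr f fun j hj => hd_map f (h j hj)]
  congr 1
  unfold cut
  split_ifs <;> simp

theorem apA_append {os : List ℕ} {σ : ℕ → List α} (τ : ℕ → List α)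
    (h : ∀ j, j ≤ os.length → σ j ≠ []) :
    apA os (fun b => σ b ++ τ b) = fun b => apA os σ b ++ τ b := by
  funext a
  unfold apA
  rw [mv_congr id fun j hj => hd_append τ (h j hj), List.map_id, List.append_assoc]
  congr 1
  unfold cut
  split_ifs with h1
  · exact List.tail_append_of_ne_nil (h a h1)
  · rfl

end generic

def ap : Op → St → St
  | .inl k, S => (S.1 - 1, apR k (S.1 - 1) S.2)
  | .inr os, S => (S.1, apA os S.2)

/-- The conditions on a chain. -/
structure OkA (t : ℕ) (os : List ℕ) (σ : ℕ → List ℕ) : Prop where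
  len : os.length < t
  le : ∀ i, i < os.length → os.getD i 0 ≤ i
  ne : ∀ j, j ≤ os.length → σ j ≠ []
  dec : ∀ j, j < os.length → hd σ (j + 1) < hd σ j

def ok (t : ℕ) : Op → St → Prop
  | .inl k, S => k < t ∧ 0 < S.1
  | .inr os, S => OkA t os S.2

def run : List Op → St → St
  | [], S => S
  | o :: Y, S => run Y (ap o S)

def Ok (t : ℕ) : List Op → St → Prop
  | [], _ => True
  | o :: Y, S => ok t o S ∧ Ok t Y (ap o S)

theorem run_append (Y Z : List Op) : ∀ S, run (Y ++ Z) S = run Z (run Y S) := by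
  induction Y with
  | nil => intro S; rfl
  | cons o Y ih => intro S; exact ih _

theorem ok_append {t : ℕ} (Y Z : List Op) :
    ∀ S, Ok t (Y ++ Z) S ↔ Ok t Y S ∧ Ok t Z (run Y S) := by
  induction Y with
  | nil => intro S; simp [Ok, run]
  | cons o Y ih => intro S; simp [Ok, run, ih, and_assoc]

def nR : List Op → ℕ
  | [] => 0
  | .inl _ :: Y => nR Y + 1
  | .inr _ :: Y => nR Y

theorem nR_append (Y Z : List Op) : nR (Y ++ Z) = nR Y + nR Z := by
  induction Y with
  | nil => simp [nR]
  | cons o Y ih => cases o <;> simp [nR, ih]; omega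

theorem run_fst (Y : List Op) : ∀ S, (run Y S).1 = S.1 - nR Y := by
  induction Y with
  | nil => intro S; rfl
  | cons o Y ih => intro S; cases o <;> simp [run, nR, ih, ap]; omega

theorem nR_le {t : ℕ} (Y : List Op) : ∀ S, Ok t Y S → nR Y ≤ S.1 := by
  induction Y with
  | nil => intro S _; exact Nat.zero_le _
  | cons o Y ih =>
    intro S h
    have := ih _ h.2
    cases o with
    | inl k => have h1 := h.1.2; simp only [ap, nR] at this ⊢; omega
    | inr os => exact this

theorem OkA.anti {t : ℕ} {os : List ℕ} {σ : ℕ → List ℕ} (h : OkA t os σ) {i j : ℕ} (hij : i < j)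
    (hj : j ≤ os.length) : hd σ j < hd σ i := by
  induction j with
  | zero => omega
  | succ j ih =>
    rcases Nat.lt_succ_iff_lt_or_eq.1 hij with h1 | rfl
    · exact (h.dec j hj).trans (ih h1 (by omega))
    · exact h.dec _ hj

theorem OkA.anti' {t : ℕ} {os : List ℕ} {σ : ℕ → List ℕ} (h : OkA t os σ) {i j : ℕ} (hij : i ≤ j)
    (hj : j ≤ os.length) : hd σ j ≤ hd σ i := by
  rcases hij.lt_or_eq with h1 | rfl
  · exact (h.anti h1 hj).le
  · exact le_rfl

def Lo (S : St) : Prop := ∀ a, ∀ x ∈ S.2 a, S.1 ≤ x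

def Inc (σ : ℕ → List ℕ) : Prop := ∀ a, (σ a).Pairwise (· < ·)

theorem Inc.hd_lt {σ : ℕ → List ℕ} (h : Inc σ) {a x : ℕ} (hx : x ∈ (σ a).tail) : hd σ a < x := by
  have hne : σ a ≠ [] := fun h0 => by simp [h0] at hx
  have := h a
  rw [hd_cons hne] at this
  exact (List.pairwise_cons.1 this).1 x hx

theorem Inc.hd_le {σ : ℕ → List ℕ} (h : Inc σ) {a x : ℕ} (hx : x ∈ σ a) : hd σ a ≤ x := by
  have hne : σ a ≠ [] := List.ne_nil_of_mem hx
  rw [hd_cons hne] at hx
  rcases List.mem_cons.1 hx with rfl | hx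
  · exact le_rfl
  · exact (h.hd_lt hx).le

theorem mem_apA {α : Type} [Inhabited α] {os : List ℕ} {σ : ℕ → List α}
    (h : ∀ j, j ≤ os.length → σ j ≠ []) {a : ℕ} {x : α} (hx : x ∈ apA os σ a) : ∃ b, x ∈ σ b := by
  rcases List.mem_append.1 hx with h1 | h1
  · obtain ⟨i, hi, -, rfl⟩ := mem_mv.1 h1
    exact ⟨_, hd_mem (h _ hi)⟩
  · exact ⟨a, (cut_sublist _ _ _).subset h1⟩

theorem Lo.ap {t : ℕ} {o : Op} {S : St} (h : Lo S) (ho : ok t o S) : Lo (ap o S) := by
  intro a x hx
  cases o with
  | inl k =>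
    simp only [HW.ap, apR] at hx ⊢
    split_ifs at hx
    · rcases List.mem_cons.1 hx with rfl | hx
      · exact le_rfl
      · exact (Nat.sub_le _ _).trans (h a x hx)
    · exact (Nat.sub_le _ _).trans (h a x hx)
  | inr os =>
    obtain ⟨b, hb⟩ := mem_apA ho.ne hx
    exact h b x hb

theorem OkA.mv_inc {t : ℕ} {os : List ℕ} {σ : ℕ → List ℕ} (h : OkA t os σ) (p : ℕ → Bool) :
    (((List.range os.length).reverse.filter p).map fun i => hd σ (i + 1)).Pairwise (· < ·) := by
  rw [List.pairwise_map]
  refine List.Pairwise.filter _ ?_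
  rw [List.pairwise_reverse]
  refine List.Pairwise.imp_of_mem ?_ List.pairwise_lt_range
  intro a b _ hb hab
  exact h.anti (by omega) (List.mem_range.1 hb)

theorem OkA.mv_lt {t : ℕ} {os : List ℕ} {σ : ℕ → List ℕ} (h : OkA t os σ) {a x : ℕ}
    (hx : x ∈ mv os σ a) : a < os.length ∧ x < hd σ a := by
  obtain ⟨i, hi, h1, rfl⟩ := mem_mv.1 hx
  have := h.le i hi
  exact ⟨by omega, h.anti (by omega) hi⟩

theorem Inc.apA {t : ℕ} {os : List ℕ} {σ : ℕ → List ℕ} (h : Inc σ) (ho : OkA t os σ) :
    Inc (apA os σ) := by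
  intro a
  refine List.pairwise_append.2 ⟨ho.mv_inc _, (h a).sublist (cut_sublist _ _ _), ?_⟩
  intro x hx y hy
  exact (ho.mv_lt hx).2.trans_le (h.hd_le ((cut_sublist _ _ _).subset hy))

theorem Inc.ap {t : ℕ} {o : Op} {S : St} (h : Inc S.2) (hl : Lo S) (ho : ok t o S) :
    Inc (ap o S).2 := by
  cases o with
  | inl k =>
    intro a
    simp only [HW.ap, apR]
    split_ifs
    · refine List.pairwise_cons.2 ⟨fun x hx => ?_, h a⟩
      have := hl a x hx
      have := ho.2
      omega
    · exact h a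
  | inr os => exact h.apA ho

theorem Lo.run {t : ℕ} (Y : List Op) : ∀ {S : St}, Lo S → Ok t Y S → Lo (run Y S) := by
  induction Y with
  | nil => intro S h _; exact h
  | cons o Y ih => intro S h ho; exact ih (h.ap ho.1) ho.2

theorem Inc.run {t : ℕ} (Y : List Op) :
    ∀ {S : St}, Inc S.2 → Lo S → Ok t Y S → Inc (run Y S).2 := by
  induction Y with
  | nil => intro S h _ _; exact h
  | cons o Y ih => intro S h hl ho; exact ih (h.ap hl ho.1) (hl.ap ho.1) ho.2

theorem run_lt {t n : ℕ} (Y : List Op) : ∀ {S : St}, Ok t Y S → S.1 ≤ n →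
    (∀ a, ∀ x ∈ S.2 a, x < n) → ∀ a, ∀ x ∈ (run Y S).2 a, x < n := by
  induction Y with
  | nil => intro S _ _ h; exact h
  | cons o Y ih =>
    intro S ho hn h
    refine ih ho.2 ?_ fun a x hx => ?_
    · cases o <;> simp only [ap] <;> omega
    · cases o with
      | inl k =>
        have := ho.1.2
        simp only [ap, apR] at hx
        split_ifs at hx
        · rcases List.mem_cons.1 hx with rfl | hx
          · omega
          · exact h a x hx
        · exact h a x hx
      | inr os =>
        obtain ⟨b, hb⟩ := mem_apA ho.1.ne hx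
        exact h b x hb

/-- The change of height of page `a`. -/
def dh : Op → ℕ → ℤ
  | .inl k, a => if a = k then 1 else 0
  | .inr os, a => ((List.range os.length).reverse.filter fun i => os.getD i 0 = a).length -
      if a ≤ os.length then 1 else 0

def th (t : ℕ) (Y : List Op) (a : Fin t) : ℤ := (Y.map fun o => dh o a).sum

theorem th_nil (t : ℕ) : th t [] = 0 := rfl

theorem th_append (t : ℕ) (Y Z : List Op) : th t (Y ++ Z) = th t Y + th t Z := by
  funext a; simp [th]

theorem length_ap {t : ℕ} {o : Op} {S : St} (ho : ok t o S) (a : ℕ) :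
    (((ap o S).2 a).length : ℤ) = (S.2 a).length + dh o a := by
  cases o with
  | inl k => simp only [ap, apR, dh]; split_ifs <;> simp
  | inr os =>
    simp only [ap, apA, dh, mv, cut, List.length_append, List.length_map]
    split_ifs with h
    · have := List.length_pos_iff.2 (ho.ne a h)
      rw [List.length_tail]
      omega
    · omega

theorem length_run {t : ℕ} (Y : List Op) (a : Fin t) : ∀ {S : St}, Ok t Y S →
    (((run Y S).2 a).length : ℤ) = (S.2 a).length + th t Y a := by
  induction Y with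
  | nil => intro S _; simp [run, th]
  | cons o Y ih =>
    intro S h
    rw [run, ih h.2, length_ap h.1]
    simp [th, add_assoc]

theorem run_high {t : ℕ} (Y : List Op) {a : ℕ} (ha : t ≤ a) : ∀ {S : St}, Ok t Y S →
    (run Y S).2 a = S.2 a := by
  induction Y with
  | nil => intro S _; rfl
  | cons o Y ih =>
    intro S h
    rw [run, ih h.2]
    cases o with
    | inl k => exact if_neg (by have := h.1.1; omega)
    | inr os =>
      have h1 := h.1.len
      have h2 : mv os S.2 a = [] :=
        List.eq_nil_iff_forall_not_mem.2 fun x hx => by have := (h.1.mv_lt hx).1; omega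
      simp only [ap, apA, h2, cut, List.nil_append]
      exact if_neg (by omega)

theorem abs_dh {t : ℕ} {o : Op} {S : St} (ho : ok t o S) (a : ℕ) : |dh o a| ≤ t := by
  cases o with
  | inl k =>
    have := ho.1
    simp only [dh]
    split_ifs <;> simp
    omega
  | inr os =>
    have h1 := ho.len
    have h2 := List.length_filter_le (fun i => decide (os.getD i 0 = a))
      (List.range os.length).reverse
    simp only [List.length_reverse, List.length_range] at h2
    simp only [dh]
    rw [abs_le]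
    split_ifs <;> constructor <;> omega

theorem abs_th {t : ℕ} (Y : List Op) (a : Fin t) : ∀ {S : St}, Ok t Y S →
    |th t Y a| ≤ t * Y.length := by
  induction Y with
  | nil => intro S _; simp [th]
  | cons o Y ih =>
    intro S h
    have h1 := abs_le.1 (ih h.2)
    have h2 := abs_le.1 (abs_dh h.1 a)
    simp only [th, List.map_cons, List.sum_cons, List.length_cons] at h1 ⊢
    rw [abs_le]
    push_cast
    constructor <;> linarith [h1.1, h1.2, h2.1, h2.2]

theorem ap_append {t : ℕ} {o : Op} {r : ℕ} {ρ : ℕ → List ℕ} (β : ℕ → List ℕ)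
    (ho : ok t o (r, ρ)) : ok t o (r, fun a => ρ a ++ β a) ∧
      ap o (r, fun a => ρ a ++ β a) = ((ap o (r, ρ)).1, fun a => (ap o (r, ρ)).2 a ++ β a) := by
  cases o with
  | inl k =>
    refine ⟨ho, Prod.ext rfl (funext fun a => ?_)⟩
    simp only [ap, apR]
    split_ifs <;> rfl
  | inr os =>
    refine ⟨⟨ho.len, ho.le, fun j hj => ?_, fun j hj => ?_⟩, Prod.ext rfl (apA_append β ho.ne)⟩
    · exact List.append_ne_nil_of_left_ne_nil (ho.ne j hj) _
    · rw [hd_append β (ho.ne _ hj), hd_append β (ho.ne _ hj.le)]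
      exact ho.dec j hj

theorem run_base {t : ℕ} (β : ℕ → List ℕ) (Y : List Op) : ∀ {r : ℕ} {ρ : ℕ → List ℕ},
    Ok t Y (r, ρ) → Ok t Y (r, fun a => ρ a ++ β a) ∧
      run Y (r, fun a => ρ a ++ β a) = ((run Y (r, ρ)).1, fun a => (run Y (r, ρ)).2 a ++ β a) := by
  induction Y with
  | nil => intro r ρ _; exact ⟨trivial, rfl⟩
  | cons o Y ih =>
    intro r ρ h
    obtain ⟨h1, h2⟩ := ap_append β h.1
    simp only [Ok, run, h2]
    exact ⟨⟨h1, (ih h.2).1⟩, (ih h.2).2⟩

theorem ok_local {t : ℕ} (β : ℕ → List ℕ) (Y : List Op) : ∀ {r : ℕ} {ρ : ℕ → List ℕ},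
    (∀ a, a < t → β a = [] ∨ Y.length ≤ (ρ a).length) → Ok t Y (r, fun a => ρ a ++ β a) →
      Ok t Y (r, ρ) := by
  induction Y with
  | nil => intro r ρ _ _; trivial
  | cons o Y ih =>
    intro r ρ hb h
    have h1 : ok t o (r, ρ) := by
      cases o with
      | inl k => exact h.1
      | inr os =>
        have hne : ∀ j, j ≤ os.length → ρ j ≠ [] := fun j hj h0 => by
          rcases hb j (hj.trans_lt h.1.len) with h2 | h2
          · exact h.1.ne j hj (by simp [h0, h2])
          · simp [h0] at h2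
        refine ⟨h.1.len, h.1.le, hne, fun j hj => ?_⟩
        have := h.1.dec j hj
        rwa [hd_append β (hne _ hj), hd_append β (hne _ hj.le)] at this
    refine ⟨h1, ih (fun a ha => (hb a ha).imp_right fun h2 => ?_) ?_⟩
    · have h3 := length_ap h1 a
      have h4 : -1 ≤ dh o a := by
        cases o <;> simp only [dh] <;> split_ifs <;> omega
      simp only [List.length_cons] at h2 h3
      change Y.length ≤ ((ap o (r, ρ)).2 a).length
      omega
    · have := h.2
      rwa [(ap_append β h1).2] at this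

end Pool.Agent.P.MP_8acafb_co.HW
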