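import Pool.Agent.K.MP_8acafb_co.C6
import Pool.Agent.K.MP_8acafb_co.C2

-- part Pool.Agent.P.MP_8acafb_co.HW2
section

namespace Pool.Agent.P.MP_8acafb_co.HW

/-- The output of the first `j` stacks. -/
def Run (σ : ℕ → List ℕ) (w : List ℕ) : ℕ → List ℕ
  | 0 => w
  | j + 1 => pass (σ j) (Run σ w j)

def apw : Op → St → List ℕ → List ℕ
  | .inl _, _, w => w
  | .inr _, S, w => hd S.2 0 :: w

/-- The input word rebuilt by a code. -/
def wd : List Op → St → List ℕ → List ℕ
  | [], _, w => w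
  | o :: Y, S, w => wd Y (ap o S) (apw o S w)

theorem wd_append (Y Z : List Op) : ∀ S w, wd (Y ++ Z) S w = wd Z (run Y S) (wd Y S w) := by
  induction Y with
  | nil => intro S w; rfl
  | cons o Y ih => intro S w; exact ih _ _

theorem length_wd (Y : List Op) : ∀ S w, (wd Y S w).length + nR Y = w.length + Y.length := by
  induction Y with
  | nil => intro S w; rfl
  | cons o Y ih =>
    intro S w
    have := ih (ap o S) (apw o S w)
    cases o <;> simp only [wd, nR, apw, List.length_cons] at this ⊢ <;> omega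

theorem Run_emp (w : List ℕ) (j : ℕ) : Run emp w j = s^[j] w := by
  induction j with
  | zero => rfl
  | succ j ih => rw [Function.iterate_succ_apply', ← ih]; rfl

theorem mem_Run {σ : ℕ → List ℕ} {w : List ℕ} {y : ℕ} (j : ℕ) :
    y ∈ Run σ w j ↔ y ∈ w ∨ ∃ a, a < j ∧ y ∈ σ a := by
  induction j with
  | zero => simp [Run]
  | succ j ih =>
    rw [Run, (pass_perm _ _).mem_iff, List.mem_append, ih]
    constructor
    · rintro (h | h | ⟨a, ha, h⟩)
      · exact Or.inr ⟨j, by omega, h⟩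
      · exact Or.inl h
      · exact Or.inr ⟨a, by omega, h⟩
    · rintro (h | ⟨a, ha, h⟩)
      · exact Or.inr (Or.inl h)
      · rcases Nat.lt_succ_iff_lt_or_eq.1 ha with ha | rfl
        · exact Or.inr (Or.inr ⟨a, ha, h⟩)
        · exact Or.inl h

theorem pass_pop {x : ℕ} (st : List ℕ) {l : List ℕ} (h : ∀ y ∈ l.head?, x < y) :
    pass (x :: st) l = x :: pass st l := by
  cases l with
  | nil => rfl
  | cons y l => simp [pass, h y rfl]

theorem pass_push {x : ℕ} {st : List ℕ} (l : List ℕ) (h : ∀ y ∈ st, x < y) :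
    pass st (x :: l) = pass (x :: st) l := by
  cases st with
  | nil => rfl
  | cons y st => simp [pass, (h y List.mem_cons_self).not_gt]

theorem pass_merge {ι : Type} (f : ι → ℕ) (p : ι → Bool) (z : ℕ) (hi X : List ℕ)
    (hz : ∀ y ∈ hi, z < y) (I : List ι) (h : (I.map f).Pairwise (· < ·)) (hI : ∀ i ∈ I, f i < z) :
    pass ((I.filter p).map f ++ hi) ((I.filter fun i => !p i).map f ++ z :: X) =
      I.map f ++ pass (z :: hi) X := by
  induction I with
  | nil => exact pass_push X hz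
  | cons i I ih =>
    rw [List.map_cons, List.pairwise_cons] at h
    have ih := ih h.2 fun j hj => hI j (List.mem_cons_of_mem _ hj)
    have h1 : ∀ q : ι → Bool, ∀ y ∈ (I.filter q).map f, f i < y := fun q y hy =>
      h.1 y ((List.filter_sublist.map f).subset hy)
    have h0 := hI i List.mem_cons_self
    have h2 : ∀ y ∈ ((I.filter fun i => !p i).map f ++ z :: X).head?, f i < y := by
      intro y hy
      cases hc : (I.filter fun i => !p i).map f with
      | nil => rw [hc] at hy; cases hy; exact h0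
      | cons u l => rw [hc] at hy; cases hy; exact h1 _ _ (hc ▸ List.mem_cons_self)
    cases hp : p i with
    | true =>
      simp only [List.filter_cons, hp, Bool.not_true, if_true, List.map_cons, List.cons_append,
        Bool.false_eq_true, if_false]
      rw [pass_pop _ h2, ih]
    | false =>
      simp only [List.filter_cons, hp, Bool.not_false, if_true, List.map_cons, List.cons_append,
        Bool.false_eq_true, if_false]
      rw [pass_push, pass_pop _ h2, ih]
      intro y hy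
      rcases List.mem_append.1 hy with hy | hy
      · exact h1 _ y hy
      · exact h0.trans (hz y hy)

/-- The tokens in flight after page `j`. -/
def fl (os : List ℕ) (σ : ℕ → List ℕ) (j : ℕ) : List ℕ :=
  ((List.range os.length).reverse.filter fun i => j ≤ i ∧ os.getD i 0 ≤ j).map fun i => hd σ (i + 1)

def fl' (os : List ℕ) (σ : ℕ → List ℕ) (j : ℕ) : List ℕ :=
  ((List.range os.length).reverse.filter fun i => j ≤ i ∧ os.getD i 0 < j).map fun i => hd σ (i + 1)

variable {t : ℕ} {os : List ℕ} {σ : ℕ → List ℕ}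

theorem fl_succ (ho : OkA t os σ) {j : ℕ} (hj : j < os.length) :
    fl os σ j = fl' os σ (j + 1) ++ [hd σ (j + 1)] := by
  refine List.Pairwise.eq_of_mem_iff (r := (· < ·)) (ho.mv_inc _)
    (List.pairwise_append.2 ⟨ho.mv_inc _, List.pairwise_singleton _ _, ?_⟩) fun x => ?_
  · intro x hx y hy
    rw [List.mem_singleton.1 hy]
    simp only [fl', List.mem_map, List.mem_filter, List.mem_reverse, List.mem_range,
      decide_eq_true_eq] at hx
    obtain ⟨i, ⟨h1, h2, -⟩, rfl⟩ := hx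
    exact ho.anti (by omega) h1
  · simp only [fl, fl', List.mem_append, List.mem_map, List.mem_filter, List.mem_reverse,
      List.mem_range, decide_eq_true_eq, List.mem_singleton]
    constructor
    · rintro ⟨i, ⟨h1, h2, h3⟩, rfl⟩
      rcases h2.lt_or_eq with h2 | rfl
      · exact Or.inl ⟨i, ⟨h1, h2, by omega⟩, rfl⟩
      · exact Or.inr rfl
    · rintro (⟨i, ⟨h1, h2, h3⟩, rfl⟩ | rfl)
      · exact ⟨i, ⟨h1, by omega, by omega⟩, rfl⟩
      · exact ⟨j, ⟨hj, le_rfl, ho.le j hj⟩, rfl⟩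

theorem casc_step (ho : OkA t os σ) (hi : Inc σ) {j : ℕ} (hj : j ≤ os.length) (X : List ℕ) :
    pass (apA os σ j) (fl' os σ j ++ hd σ j :: X) = fl os σ j ++ pass (σ j) X := by
  have h := pass_merge (fun i => hd σ (i + 1)) (fun i => decide (os.getD i 0 = j)) (hd σ j)
    (σ j).tail X (fun y hy => hi.hd_lt hy) _ (ho.mv_inc fun i => j ≤ i ∧ os.getD i 0 ≤ j) (by
      intro i hi
      simp only [List.mem_filter, List.mem_reverse, List.mem_range, decide_eq_true_eq] at hi
      exact ho.anti (by omega) hi.1)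
  rw [← hd_cons (ho.ne j hj), List.filter_filter, List.filter_filter] at h
  rw [fl, ← h, apA, cut, if_pos hj, mv, fl']
  congr 3
  · refine List.filter_congr fun i hi => ?_
    have := ho.le i (by simpa using hi)
    rw [← Bool.decide_and]
    exact decide_eq_decide.2 (by omega)
  · refine List.filter_congr fun i _ => ?_
    rw [← decide_not, ← Bool.decide_and]
    exact decide_eq_decide.2 (by omega)

theorem fl_high {j : ℕ} (hj : os.length ≤ j) : fl os σ j = [] := by
  rw [fl, List.map_eq_nil_iff, List.filter_eq_nil_iff]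
  intro i hi
  simp only [List.mem_reverse, List.mem_range] at hi
  simp only [decide_eq_true_eq]
  omega

theorem casc (ho : OkA t os σ) (hi : Inc σ) (w : List ℕ) (j : ℕ) :
    Run (apA os σ) (hd σ 0 :: w) (j + 1) = fl os σ j ++ Run σ w (j + 1) := by
  induction j with
  | zero =>
    have := casc_step ho hi (Nat.zero_le _) w
    rwa [show fl' os σ 0 = [] by simp [fl']] at this
  | succ j ih =>
    rw [Run, ih]
    by_cases hj : j < os.length
    · rw [fl_succ ho hj, List.append_assoc]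
      exact casc_step ho hi hj _
    · have h2 : mv os σ (j + 1) = [] :=
        List.eq_nil_iff_forall_not_mem.2 fun x hx => by have := (ho.mv_lt hx).1; omega
      rw [fl_high (by omega), fl_high (by omega), apA, h2, cut, if_neg (by omega)]
      rfl

theorem Run_apR {k x : ℕ} {w : List ℕ} (h1 : ∀ a, ∀ y ∈ σ a, x < y) (h2 : ∀ y ∈ w, x < y)
    (j : ℕ) : Run (apR k x σ) w j = if k < j then x :: Run σ w j else Run σ w j := by
  have h3 : ∀ j, ∀ y ∈ Run σ w j, x < y := fun j y hy => by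
    rcases (mem_Run j).1 hy with h | ⟨a, -, h⟩
    · exact h2 y h
    · exact h1 a y h
  induction j with
  | zero => rfl
  | succ j ih =>
    rw [Run, ih, apR, Run]
    rcases lt_trichotomy k j with h | rfl | h
    · rw [if_neg h.ne', if_pos h, if_pos (by omega), pass_push _ (h1 j),
        pass_pop _ fun y hy => h3 j y (List.mem_of_mem_head? hy)]
    · rw [if_pos rfl, if_neg (lt_irrefl _), if_pos (by omega),
        pass_pop _ fun y hy => h3 k y (List.mem_of_mem_head? hy)]
    · rw [if_neg h.ne, if_neg h.not_gt, if_neg (by omega)]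

theorem Run_run (Y : List Op) : ∀ {S : St} {w : List ℕ} {n : ℕ}, Ok t Y S → Lo S → Inc S.2 →
    Run S.2 w t = List.range' S.1 n →
    Run (run Y S).2 (wd Y S w) t = List.range' (S.1 - nR Y) (n + nR Y) := by
  induction Y with
  | nil => intro S w n _ _ _ h; exact h
  | cons o Y ih =>
    intro S w n ho hl hi h
    cases o with
    | inl k =>
      obtain ⟨⟨h1, h2⟩, h3⟩ := ho
      have h4 : Run (ap (.inl k) S).2 w t = List.range' (ap (.inl k) S).1 (n + 1) := by
        simp only [ap]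
        rw [Run_apR, if_pos h1, h, List.range'_succ, Nat.sub_add_cancel h2]
        · intro a y hy
          have := hl a y hy
          omega
        · intro y hy
          have := List.mem_range'_1.1 (h ▸ (mem_Run t).2 (Or.inl hy))
          omega
      have := ih h3 (hl.ap (o := .inl k) ⟨h1, h2⟩) (hi.ap (o := .inl k) hl ⟨h1, h2⟩) h4
      simp only [ap, nR, run, wd, apw] at this ⊢
      rw [this]
      congr 1 <;> omega
    | inr os =>
      obtain ⟨t', rfl⟩ : ∃ t', t = t' + 1 := ⟨t - 1, by have := ho.1.len; omega⟩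
      refine ih ho.2 (hl.ap ho.1) (hi.ap hl ho.1) ?_
      simp only [ap, apw]
      rw [casc ho.1 hi, fl_high (Nat.le_of_lt_succ ho.1.len), h]
      rfl

theorem mem_mv_iff (ho : OkA t os σ) (hi : Inc σ) {a x : ℕ} :
    x ∈ mv os σ a ↔ x ∈ apA os σ a ∧ a ≤ os.length ∧ x < hd σ a := by
  refine ⟨fun h => ⟨List.mem_append_left _ h, (ho.mv_lt h).1.le, (ho.mv_lt h).2⟩, ?_⟩
  rintro ⟨h1, h2, h3⟩
  refine (List.mem_append.1 h1).resolve_right fun h => ?_
  rw [cut, if_pos h2] at h
  exact lt_asymm h3 (hi.hd_lt h)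

theorem det_step {os' : List ℕ} {σ' : ℕ → List ℕ} (ho : OkA t os σ) (ho' : OkA t os' σ')
    (hi' : Inc σ') (he : apA os σ = apA os' σ') {j : ℕ} (hj : j < os.length)
    (h : ∀ a, a ≤ j → a ≤ os'.length ∧ hd σ a = hd σ' a) :
    j < os'.length ∧ hd σ (j + 1) ≤ hd σ' (j + 1) ∧
      (hd σ (j + 1) = hd σ' (j + 1) → os.getD j 0 = os'.getD j 0) := by
  have h1 : hd σ (j + 1) ∈ mv os σ (os.getD j 0) := mem_mv.2 ⟨j, hj, rfl, rfl⟩
  have h2 := h _ (ho.le j hj)
  obtain ⟨i, hi, h3, h4⟩ := mem_mv.1 ((mem_mv_iff ho' hi').2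
    ⟨he ▸ List.mem_append_left _ h1, h2.1, h2.2 ▸ (ho.mv_lt h1).2⟩)
  have h5 : j ≤ i := by
    by_contra hc
    have := ho'.anti' (show i + 1 ≤ j by omega) (h j le_rfl).1
    have := ho.dec j hj
    have := (h j le_rfl).2
    omega
  refine ⟨by omega, h4 ▸ ho'.anti' (by omega) hi, fun h6 => ?_⟩
  rcases h5.lt_or_eq with h5 | rfl
  · have := ho'.anti (show j + 1 < i + 1 by omega) hi
    omega
  · exact h3.symm

theorem detA {os' : List ℕ} {σ' : ℕ → List ℕ} (ho : OkA t os σ) (ho' : OkA t os' σ')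
    (hi : Inc σ) (hi' : Inc σ') (he : apA os σ = apA os' σ') (h0 : hd σ 0 = hd σ' 0) :
    os = os' ∧ σ = σ' := by
  have P : ∀ j, j ≤ os.length ∨ j ≤ os'.length →
      ∀ a, a ≤ j → a ≤ os.length ∧ a ≤ os'.length ∧ hd σ a = hd σ' a := by
    intro j
    induction j with
    | zero => intro _ a ha; rw [Nat.le_zero.1 ha]; exact ⟨Nat.zero_le _, Nat.zero_le _, h0⟩
    | succ j ih =>
      intro hj a ha
      have ih := ih (by omega)
      rcases ha.lt_or_eq with ha | rfl
      · exact ih a (by omega)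
      · have s1 := fun hj => det_step ho ho' hi' he (j := j) hj fun a ha => (ih a ha).2
        have s2 := fun hj => det_step ho' ho hi he.symm (j := j) hj
          fun a ha => ⟨(ih a ha).1, (ih a ha).2.2.symm⟩
        rcases hj with hj | hj
        · exact ⟨hj, (s1 hj).1, le_antisymm (s1 hj).2.1 (s2 (s1 hj).1).2.1⟩
        · exact ⟨(s2 hj).1, hj, le_antisymm (s1 (s2 hj).1).2.1 (s2 hj).2.1⟩
  have hk : os.length = os'.length :=
    le_antisymm (P _ (Or.inl le_rfl) _ le_rfl).2.1 (P _ (Or.inr le_rfl) _ le_rfl).1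
  have P' := P _ (Or.inl le_rfl)
  have h1 : os = os' := by
    refine List.ext_getElem hk fun i h1 h2 => ?_
    have := (det_step ho ho' hi' he h1 fun a ha => (P' a (by omega)).2).2.2 (P' _ h1).2.2
    rwa [List.getD_eq_getElem _ _ h1, List.getD_eq_getElem _ _ h2] at this
  subst h1
  refine ⟨rfl, funext fun a => ?_⟩
  have h2 := congrFun he a
  rw [apA, apA, mv_congr (σ := σ) (τ := σ') id fun j hj => (P' j hj).2.2.symm, List.map_id,
    List.append_cancel_left_eq, cut, cut] at h2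
  split_ifs at h2 with h3
  · rw [hd_cons (ho.ne a h3), hd_cons (ho'.ne a h3), h2, (P' a h3).2.2]
  · exact h2

/-- Canonical codes: a letter is taken back directly after a new minimum only from page `0`. -/
def cok : Op → Op → Prop
  | .inl k, .inr _ => k = 0
  | _, _ => True

def Canon (Y : List Op) : Prop := Y.IsChain cok

theorem lo_emp (r : ℕ) : Lo (r, emp) := fun _ _ h => absurd h List.not_mem_nil

theorem inc_emp : Inc emp := fun _ => List.Pairwise.nil

theorem min_not_mem (N : ℕ) (Y : List Op) : ∀ os : List ℕ, Canon (Y ++ [.inr os]) →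
    Ok t (Y ++ [.inr os]) (N, emp) →
    ∀ a, (run Y (N, emp)).1 ∉ apA os (run Y (N, emp)).2 a := by
  induction Y using List.reverseRecOn with
  | nil => intro os _ h; exact absurd rfl (h.1.ne 0 (Nat.zero_le _))
  | append_singleton Y o ih =>
    intro os hc h a hx
    obtain ⟨h1, h2, -⟩ := (ok_append _ _ _).1 h
    obtain ⟨h3, h4, -⟩ := (ok_append _ _ _).1 h1
    rw [run_append] at hx h2
    cases o with
    | inl k =>
      obtain rfl : k = 0 := (List.isChain_append.1 hc).2.2 (.inl k) (by simp) (.inr os) rfl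
      have hl := (lo_emp N).run Y h3
      have h5 := h4.2
      simp only [run, ap] at hx
      have h6 : ∀ b, (run Y (N, emp)).1 - 1 ∉ (run Y (N, emp)).2 b := fun b hb => by
        have := hl b _ hb
        omega
      rcases List.mem_append.1 hx with hx | hx
      · obtain ⟨i, hi, -, h7⟩ := mem_mv.1 hx
        have := hd_mem (h2.ne (i + 1) hi)
        simp only [run, ap] at this
        rw [h7] at this
        exact h6 _ this
      · cases a with
        | zero => exact h6 0 hx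
        | succ a => exact h6 _ ((cut_sublist _ _ _).subset hx)
    | inr os' =>
      obtain ⟨b, hb⟩ := mem_apA h2.ne hx
      exact ih os' hc.left_of_append h1 b hb

theorem code_inj (N : ℕ) (Y : List Op) : ∀ Y' : List Op, Canon Y → Canon Y' →
    Ok t Y (N, emp) → Ok t Y' (N, emp) → Y.length = Y'.length → run Y (N, emp) = run Y' (N, emp) →
    wd Y (N, emp) [] = wd Y' (N, emp) [] → Y = Y' := by
  induction Y using List.reverseRecOn with
  | nil => intro Y' _ _ _ _ h _ _; exact (List.eq_nil_of_length_eq_zero h.symm).symm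
  | append_singleton Y o ih =>
    intro Y' hc hc' h h' hlen hr hw
    rcases List.eq_nil_or_concat' Y' with rfl | ⟨Y', o', rfl⟩
    · simp at hlen
    obtain ⟨h1, h2, -⟩ := (ok_append _ _ _).1 h
    obtain ⟨h1', h2', -⟩ := (ok_append _ _ _).1 h'
    rw [run_append, run_append] at hr
    rw [wd_append, wd_append] at hw
    have hl := (lo_emp N).run Y h1
    have hl' := (lo_emp N).run Y' h1'
    have ih := ih Y' hc.left_of_append hc'.left_of_append h1 h1' (by simpa using hlen)
    obtain ⟨e1, e2⟩ := Prod.ext_iff.1 hr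
    cases o with
    | inl k =>
      cases o' with
      | inl k' =>
        simp only [run, ap] at e1 e2
        have h3 := h2.2
        have h3' := h2'.2
        have e3 : (run Y (N, emp)).1 = (run Y' (N, emp)).1 := by omega
        obtain rfl : k = k' := by
          by_contra hne
          have := congrFun e2 k
          rw [apR, apR, if_pos rfl, if_neg hne] at this
          have := hl' k _ (this ▸ List.mem_cons_self)
          omega
        rw [ih (Prod.ext e3 (funext fun a => ?_)) hw]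
        have := congrFun e2 a
        rw [apR, apR] at this
        split_ifs at this
        · exact (List.cons.inj this).2
        · exact this
      | inr os' =>
        simp only [run, ap] at e1 e2
        refine absurd ?_ (min_not_mem N Y' os' hc' h' k)
        rw [← e1, ← e2, apR, if_pos rfl]
        exact List.mem_cons_self
    | inr os =>
      cases o' with
      | inl k' =>
        simp only [run, ap] at e1 e2
        refine absurd ?_ (min_not_mem N Y os hc h k')
        rw [e1, e2, apR, if_pos rfl]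
        exact List.mem_cons_self
      | inr os' =>
        obtain ⟨e3, e4⟩ := List.cons.inj hw
        obtain ⟨rfl, e5⟩ := detA h2 h2' (Inc.run Y (S := (N, emp)) inc_emp (lo_emp N) h1)
          (Inc.run Y' (S := (N, emp)) inc_emp (lo_emp N) h1') e2 e3
        rw [ih (Prod.ext e1 e5) e4]

end Pool.Agent.P.MP_8acafb_co.HW
end

-- part Pool.Agent.P.MP_8acafb_co.HW3
section

namespace Pool.Agent.P.MP_8acafb_co.HW

theorem exists_chain (σ : ℕ → List ℕ) (z : ℕ) : ∃ (k : ℕ) (h o : ℕ → ℕ), h 0 = z ∧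
    (∀ j, j < k → h (j + 1) < h j ∧ o j ≤ j ∧ h (j + 1) ∈ σ (o j)) ∧
    ∀ j, j ≤ k → ∀ a, a ≤ j → ∀ x ∈ σ a, x < h j → j < k ∧ x ≤ h (j + 1) := by
  classical
  let F : ℕ → ℕ → Finset ℕ := fun j y =>
    ((Finset.range (j + 1)).biUnion fun a => (σ a).toFinset).filter (· < y)
  have hF : ∀ j y x, x ∈ F j y ↔ (∃ a, a ≤ j ∧ x ∈ σ a) ∧ x < y := fun j y x => by
    simp [F]
  let h : ℕ → ℕ := fun j => Nat.rec z (fun j y => (F j y).sup id) j
  have hs : ∀ j, h (j + 1) = (F j (h j)).sup id := fun _ => rfl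
  have hm : ∀ j, (F j (h j)).Nonempty → h (j + 1) ∈ F j (h j) := fun j hne => by
    obtain ⟨x, hx, he⟩ := Finset.exists_mem_eq_sup _ hne id
    rw [hs, he]; exact hx
  have hex : ∃ j, ¬ (F j (h j)).Nonempty := by
    by_contra hc
    push Not at hc
    have : ∀ j, h j + j ≤ z := fun j => by
      induction j with
      | zero => exact le_rfl
      | succ j ih => have := ((hF _ _ _).1 (hm j (hc j))).2; omega
    have := this (z + 1)
    omega
  have ho : ∀ j, ∃ a, j < Nat.find hex → a ≤ j ∧ h (j + 1) ∈ σ a := fun j => by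
    by_cases hj : j < Nat.find hex
    · obtain ⟨a, ha⟩ := ((hF _ _ _).1 (hm j (not_not.1 (Nat.find_min hex hj)))).1
      exact ⟨a, fun _ => ha⟩
    · exact ⟨0, fun h => absurd h hj⟩
  choose o ho using ho
  refine ⟨Nat.find hex, h, o, rfl, fun j hj =>
    ⟨((hF _ _ _).1 (hm j (not_not.1 (Nat.find_min hex hj)))).2, ho j hj⟩, fun j hj a ha x hx hlt => ?_⟩
  have hx' : x ∈ F j (h j) := (hF _ _ _).2 ⟨⟨a, ha, hx⟩, hlt⟩
  refine ⟨lt_of_le_of_ne hj fun he => Nat.find_spec hex (he ▸ ⟨x, hx'⟩), ?_⟩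
  rw [hs]
  exact Finset.le_sup (f := id) hx'

theorem exists_pred {σ : ℕ → List ℕ} (hi : Inc σ) (hdis : ∀ a b y, y ∈ σ a → y ∈ σ b → a = b)
    {z : ℕ} (hz : ∀ a, z ∉ σ a) : ∃ os σ0, OkA (os.length + 1) os σ0 ∧ apA os σ0 = σ ∧
      hd σ0 0 = z ∧ Inc σ0 ∧ ∀ a, os.length < a → σ0 a = σ a := by
  obtain ⟨k, h, o, h0, h1, h2⟩ := exists_chain σ z
  let os := (List.range k).map o
  have hk : os.length = k := by simp [os]
  have hos : ∀ i, i < k → os.getD i 0 = o i := fun i hi => by simp [os, hi]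
  let σ0 : ℕ → List ℕ := fun a => if a ≤ k then h a :: (σ a).filter (h a < ·) else σ a
  have hh : ∀ a, a ≤ k → hd σ0 a = h a := fun a ha => by simp [hd, σ0, ha]
  have ho : OkA (os.length + 1) os σ0 := by
    refine ⟨Nat.lt_succ_self _, fun i hi => ?_, fun j hj => ?_, fun j hj => ?_⟩
    · rw [hos i (hk ▸ hi)]; exact (h1 i (hk ▸ hi)).2.1
    · simp [σ0, hk ▸ hj]
    · rw [hk] at hj
      rw [hh _ hj, hh _ hj.le]
      exact (h1 j hj).1
  have hi0 : Inc σ0 := fun a => by
    simp only [σ0]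
    split_ifs
    · exact List.pairwise_cons.2 ⟨fun x hx => by simpa using (List.mem_filter.1 hx).2,
        (hi a).filter _⟩
    · exact hi a
  refine ⟨os, σ0, ho, funext fun a => ?_, (hh 0 (Nat.zero_le _)).trans h0, hi0,
    fun a ha => if_neg (by omega)⟩
  refine List.Pairwise.eq_of_mem_iff (r := (· < ·)) (hi0.apA ho a) (hi a) fun x => ?_
  rw [apA, List.mem_append, mem_mv, cut, hk]
  constructor
  · rintro (⟨i, hik, e1, e2⟩ | hx)
    · rw [← e2, hh _ hik, ← e1, hos i hik]
      exact (h1 i hik).2.2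
    · simp only [σ0] at hx
      split_ifs at hx
      · exact (List.mem_filter.1 hx).1
      · exact hx
  · intro hx
    by_cases ha : a ≤ k
    · rcases lt_trichotomy x (h a) with hlt | he | hlt
      · left
        have key : ∀ d j, j + d = k → a ≤ j → x < h j → ∃ i, i < k ∧ h (i + 1) = x := by
          intro d
          induction d with
          | zero => intro j hj haj hlt; have := (h2 j (by omega) a haj x hx hlt).1; omega
          | succ d ih =>
            intro j hj haj hlt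
            rcases (h2 j (by omega) a haj x hx hlt).2.lt_or_eq with h3 | h3
            · exact ih (j + 1) (by omega) (by omega) h3
            · exact ⟨j, by omega, h3.symm⟩
        obtain ⟨i, hik, e⟩ := key (k - a) a (by omega) le_rfl hlt
        exact ⟨i, hik, (hos i hik).trans (hdis _ _ x (e ▸ (h1 i hik).2.2) hx), (hh _ hik).trans e⟩
      · exfalso
        cases a with
        | zero => exact hz 0 (h0 ▸ he ▸ hx)
        | succ a =>
          have h3 := h1 a ha
          have := hdis _ _ x (he ▸ h3.2.2) hx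
          omega
      · right
        simp [σ0, ha, hx, hlt]
    · right
      simp [σ0, ha, hx]

theorem nodup_Run {σ : ℕ → List ℕ} {w : List ℕ} (j : ℕ) : (Run σ w j).Nodup →
    ∀ b, b < j → ∀ y ∈ σ b, y ∉ w ∧ ∀ a, a < b → y ∉ σ a := by
  induction j with
  | zero => intro _ b hb; omega
  | succ j ih =>
    intro h b hb y hy
    rw [Run, (pass_perm _ _).nodup_iff, List.nodup_append] at h
    rcases Nat.lt_succ_iff_lt_or_eq.1 hb with hb | rfl
    · exact ih h.2.1 b hb y hy
    · exact ⟨fun hw => h.2.2 y hy y ((mem_Run b).2 (Or.inl hw)) rfl,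
        fun a ha hya => h.2.2 y hy y ((mem_Run b).2 (Or.inr ⟨a, ha, hya⟩)) rfl⟩

theorem mem_apA_of_mem {os : List ℕ} {σ : ℕ → List ℕ} {k x : ℕ} (hk : k ≠ 0) (hx : x ∈ σ k) :
    ∃ b, x ∈ apA os σ b := by
  by_cases h : k ≤ os.length
  · rw [hd_cons (List.ne_nil_of_mem hx)] at hx
    rcases List.mem_cons.1 hx with rfl | hx
    · obtain ⟨i, rfl⟩ := Nat.exists_eq_succ_of_ne_zero hk
      exact ⟨_, List.mem_append_left _ (mem_mv.2 ⟨i, h, rfl, rfl⟩)⟩
    · exact ⟨k, List.mem_append_right _ (by rwa [cut, if_pos h])⟩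
  · exact ⟨k, List.mem_append_right _ (by rwa [cut, if_neg h])⟩

theorem exists_code {t : ℕ} (ht : 1 ≤ t) (N : ℕ) : ∀ (n r : ℕ) (σ : ℕ → List ℕ) (w : List ℕ),
    N - r + w.length = n → r ≤ N → Inc σ → (∀ a, t ≤ a → σ a = []) →
    Run σ w t = List.range' r (N - r) → ∃ Y, Canon Y ∧ Ok t Y (N, emp) ∧
      run Y (N, emp) = (r, σ) ∧ wd Y (N, emp) [] = w ∧
      ∀ k, Y.getLast? = some (.inl k) → r ∈ σ k := by
  intro n
  induction n using Nat.strong_induction_on with
  | _ n ih =>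
  intro r σ w hn hr hi hh hR
  have hlt : ∀ a y, y ∈ σ a → a < t := fun a y hy => by
    by_contra hc
    rw [hh a (by omega)] at hy
    exact List.not_mem_nil hy
  have hnd := nodup_Run t (hR ▸ List.nodup_range')
  have hdis : ∀ a b y, y ∈ σ a → y ∈ σ b → a = b := fun a b y ha hb => by
    rcases lt_trichotomy a b with h | h | h
    · exact absurd ha ((hnd b (hlt b y hb) y hb).2 a h)
    · exact h
    · exact absurd hb ((hnd a (hlt a y ha) y ha).2 b h)
  have hlo : ∀ a, ∀ y ∈ σ a, r ≤ y ∧ y < r + (N - r) := fun a y hy =>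
    List.mem_range'_1.1 (hR ▸ (mem_Run t).2 (Or.inr ⟨a, hlt a y hy, hy⟩))
  by_cases hA : ∃ k, r ∈ σ k
  · obtain ⟨k, hk⟩ := hA
    have hne := List.ne_nil_of_mem hk
    have e0 : hd σ k = r := le_antisymm (hi.hd_le hk) (hlo k _ (hd_mem hne)).1
    let σ0 : ℕ → List ℕ := fun a => if a = k then (σ a).tail else σ a
    have e1 : apR k r σ0 = σ := funext fun a => by
      simp only [apR, σ0]
      split_ifs with h
      · rw [h, ← e0, ← hd_cons hne]
      · rfl
    have hrN := (hlo k r hk).2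
    have e2 : Run σ w t = r :: Run σ0 w t := by
      rw [← e1, Run_apR, if_pos (hlt k r hk)]
      · intro a y hy
        simp only [σ0] at hy
        split_ifs at hy with h
        · exact e0 ▸ hi.hd_lt (h ▸ hy)
        · exact lt_of_le_of_ne (hlo a y hy).1 fun he => h (hdis _ _ r (he ▸ hy) hk)
      · intro y hy
        refine lt_of_le_of_ne (List.mem_range'_1.1 (hR ▸ (mem_Run t).2 (Or.inl hy))).1 fun he => ?_
        exact (hnd k (hlt k r hk) r hk).1 (he ▸ hy)
    obtain ⟨Y, c1, c2, c3, c4, -⟩ := ih _ (by omega) (r + 1) σ0 w rfl (by omega)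
      (fun a => by
        simp only [σ0]
        split_ifs
        · exact (hi a).sublist (List.tail_sublist _)
        · exact hi a)
      (fun a ha => by simp [σ0, hh a ha]) (by
        rw [e2, show N - r = N - (r + 1) + 1 by omega, List.range'_succ] at hR
        exact (List.cons.inj hR).2)
    refine ⟨Y ++ [.inl k], c1.append (List.isChain_singleton _) ?_, (ok_append _ _ _).2 ⟨c2, ?_⟩,
      ?_, ?_, ?_⟩
    · intro x _ y hy
      cases hy
      cases x <;> trivial
    · rw [c3]; exact ⟨⟨hlt k r hk, Nat.succ_pos _⟩, trivial⟩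
    · rw [run_append, c3]; exact Prod.ext rfl e1
    · rw [wd_append, c4]; rfl
    · intro k' hk'
      simp only [List.getLast?_concat, Option.some.injEq, Sum.inl.injEq] at hk'
      exact hk' ▸ hk
  · cases w with
    | nil =>
      have e1 : r = N := by
        by_contra hc
        have : r ∈ Run σ [] t := hR ▸ List.mem_range'_1.2 ⟨le_rfl, by omega⟩
        rcases (mem_Run t).1 this with h | ⟨a, -, h⟩
        · exact List.not_mem_nil h
        · exact hA ⟨a, h⟩
      refine ⟨[], List.isChain_nil, trivial, Prod.ext e1.symm (funext fun a => ?_), rfl, by simp⟩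
      refine (List.eq_nil_iff_forall_not_mem.2 fun y hy => ?_).symm
      have := hlo a y hy
      omega
    | cons z w =>
      obtain ⟨os, σ0, ho, e1, e2, hi0, hh0⟩ := exists_pred hi hdis (z := z)
        fun a ha => (hnd a (hlt a z ha) z ha).1 List.mem_cons_self
      obtain ⟨t', rfl⟩ : ∃ t', t = t' + 1 := ⟨t - 1, by omega⟩
      have e3 := casc ho hi0 w t'
      rw [e1, e2, hR] at e3
      have hk : os.length ≤ t' := by
        by_contra hc
        cases hf : fl os σ0 t' with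
        | nil => rw [fl_succ ho (by omega)] at hf; simp at hf
        | cons y l =>
          have h1 : y ∈ fl os σ0 t' := hf ▸ List.mem_cons_self
          simp only [fl, List.mem_map, List.mem_filter, List.mem_reverse, List.mem_range] at h1
          obtain ⟨i, ⟨h1, -⟩, h2⟩ := h1
          rw [hf] at e3
          have h3 : r = y := by
            cases hN : N - r with
            | zero => rw [hN] at e3; cases e3
            | succ m => rw [hN, List.range'_succ] at e3; exact (List.cons.inj e3).1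
          have h4 : r ∈ apA os σ0 (os.getD i 0) :=
            List.mem_append_left _ (mem_mv.2 ⟨i, h1, rfl, h2.trans h3.symm⟩)
          exact hA ⟨_, e1 ▸ h4⟩
      rw [fl_high hk, List.nil_append] at e3
      obtain ⟨Y, c1, c2, c3, c4, c5⟩ := ih _ (by simp only [List.length_cons] at hn; omega) r σ0 w
        rfl hr hi0 (fun a ha => (hh0 a (by omega)).trans (hh a ha)) e3.symm
      refine ⟨Y ++ [.inr os], c1.append (List.isChain_singleton _) ?_,
        (ok_append _ _ _).2 ⟨c2, ?_⟩, ?_, ?_, by simp⟩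
      · intro x hx y hy
        cases hy
        cases x with
        | inl k =>
          by_contra hc
          obtain ⟨b, hb⟩ := mem_apA_of_mem (os := os) hc (c5 k hx)
          exact hA ⟨b, e1 ▸ hb⟩
        | inr _ => trivial
      · rw [c3]; exact ⟨⟨Nat.lt_succ_of_le hk, ho.le, ho.ne, ho.dec⟩, trivial⟩
      · rw [run_append, c3]; exact Prod.ext rfl e1
      · rw [wd_append, c4, c3]; exact congrArg (· :: w) e2

end Pool.Agent.P.MP_8acafb_co.HW
end

-- part Pool.Agent.P.MP_8acafb_co.HW4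
section

namespace Pool.Agent.P.MP_8acafb_co.HW

open Finset

def words {α : Type} [DecidableEq α] (S : Finset α) : ℕ → Finset (List α)
  | 0 => {[]}
  | n + 1 => image₂ List.cons S (words S n)

theorem mem_words {α : Type} [DecidableEq α] {S : Finset α} {n : ℕ} {l : List α} :
    l ∈ words S n ↔ l.length = n ∧ ∀ x ∈ l, x ∈ S := by
  induction n generalizing l with
  | zero => cases l <;> simp [words]
  | succ n ih =>
    cases l with
    | nil => simp [words]
    | cons x l =>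
      simp only [words, mem_image₂, ih, List.cons.injEq, List.length_cons, Nat.add_right_cancel_iff,
        List.mem_cons, forall_eq_or_imp]
      exact ⟨fun ⟨a, ha, b, hb, e1, e2⟩ => e1 ▸ e2 ▸ ⟨hb.1, ha, hb.2⟩,
        fun h => ⟨x, h.2.1, l, ⟨h.1, h.2.2⟩, rfl, rfl⟩⟩

theorem card_words {α : Type} [DecidableEq α] (S : Finset α) (n : ℕ) :
    (words S n).card ≤ S.card ^ n := by
  induction n with
  | zero => simp [words]
  | succ n ih =>
    rw [pow_succ']
    exact (card_image₂_le _ _ _).trans (Nat.mul_le_mul_left _ ih)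

/-- The alphabet. -/
def Al (t : ℕ) : Finset Op := (range t).disjSum ((range t).biUnion (words (range t)))

variable {t : ℕ}

theorem card_Al (ht : 1 ≤ t) : (Al t).card ≤ 2 * t ^ (t + 1) := by
  have h1 : ((range t).biUnion (words (range t))).card ≤ t * t ^ t := by
    refine (card_biUnion_le_card_mul _ _ (t ^ t) fun k hk => (card_words _ _).trans ?_).trans ?_
    · rw [card_range]; exact Nat.pow_le_pow_right ht (mem_range.1 hk).le
    · rw [card_range]
  have h2 : t * 1 ≤ t * t ^ t := Nat.mul_le_mul_left _ (Nat.one_le_pow _ _ ht)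
  rw [Al, card_disjSum, card_range, pow_succ']
  omega

theorem ok_mem_Al {o : Op} {S : St} (h : ok t o S) : o ∈ Al t := by
  cases o with
  | inl k => exact inl_mem_disjSum.2 (mem_range.2 h.1)
  | inr os =>
    refine inr_mem_disjSum.2 (mem_biUnion.2 ⟨_, mem_range.2 h.len, mem_words.2 ⟨rfl, ?_⟩⟩)
    intro x hx
    obtain ⟨i, hi, rfl⟩ := List.getElem_of_mem hx
    have h1 := h.le i hi
    have h2 := h.len
    rw [List.getD_eq_getElem _ _ hi] at h1
    exact mem_range.2 (by omega)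

theorem Ok_mem_Al {Y : List Op} : ∀ {S : St}, Ok t Y S → ∀ o ∈ Y, o ∈ Al t := by
  induction Y with
  | nil => intro S _ o ho; exact absurd ho List.not_mem_nil
  | cons o Y ih => intro S h; exact List.forall_mem_cons.2 ⟨ok_mem_Al h.1, ih h.2⟩

open Classical in
noncomputable def fm (t l : ℕ) (p : List Op → Prop) : Finset (List Op) := (words (Al t) l).filter p

/-- The number of words of length `l` with property `p`. -/
noncomputable def cn (t l : ℕ) (p : List Op → Prop) : ℕ := (fm t l p).card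

theorem mem_fm {l : ℕ} {p : List Op → Prop} {Y : List Op} :
    Y ∈ fm t l p ↔ Y.length = l ∧ (∀ o ∈ Y, o ∈ Al t) ∧ p Y := by
  simp [fm, mem_words, and_assoc]

theorem cn_le (l : ℕ) (p : List Op → Prop) : cn t l p ≤ (Al t).card ^ l := by
  classical
  exact (card_filter_le _ _).trans (card_words _ _)

theorem cn_mul {l l' : ℕ} {p q r : List Op → Prop}
    (h : ∀ Y Z, Y.length = l → Z.length = l' → p Y → q Z → r (Y ++ Z)) :
    cn t l p * cn t l' q ≤ cn t (l + l') r := by
  rw [cn, cn, cn, ← card_product]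
  refine card_le_card_of_injOn (fun z => z.1 ++ z.2) ?_ ?_
  · rintro ⟨Y, Z⟩ hz
    simp only [coe_product, Set.mem_prod, mem_coe, mem_fm] at hz ⊢
    obtain ⟨⟨h1, h2, h3⟩, h4, h5, h6⟩ := hz
    exact ⟨by simp [h1, h4], List.forall_mem_append.2 ⟨h2, h5⟩, h Y Z h1 h4 h3 h6⟩
  · rintro ⟨Y, Z⟩ hz ⟨Y', Z'⟩ hz' he
    simp only [coe_product, Set.mem_prod, mem_coe, mem_fm] at hz hz'
    exact Prod.ext_iff.2 (List.append_inj he (hz.1.1.trans hz'.1.1.symm))

theorem cn_pos {p : List Op → Prop} {Y : List Op} (h1 : ∀ o ∈ Y, o ∈ Al t) (h2 : p Y) :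
    1 ≤ cn t Y.length p := card_pos.2 ⟨Y, mem_fm.2 ⟨rfl, h1, h2⟩⟩

theorem cn_ext {l : ℕ} {p q : List Op → Prop} (Z : List Op) (hZ : ∀ o ∈ Z, o ∈ Al t)
    (h : ∀ Y, p Y → q (Y ++ Z)) : cn t l p ≤ cn t (l + Z.length) q :=
  (Nat.le_mul_of_pos_right _ (cn_pos (p := (· = Z)) hZ rfl)).trans
    (cn_mul fun Y _ _ _ hp hq => hq ▸ h Y hp)

theorem cn_mono {l : ℕ} {p q : List Op → Prop} (h : ∀ Y, p Y → q Y) : cn t l p ≤ cn t l q :=
  card_le_card fun _ hY => mem_fm.2 ⟨(mem_fm.1 hY).1, (mem_fm.1 hY).2.1, h _ (mem_fm.1 hY).2.2⟩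

theorem cn_cut {ι : Type} (T : Finset ι) {l l' : ℕ} {p q : ι → List Op → Prop} {r : List Op → Prop}
    (h : ∀ Y Z, Z.length = l' → r (Y ++ Z) → ∃ θ ∈ T, p θ Y ∧ q θ Z) :
    cn t (l + l') r ≤ ∑ θ ∈ T, cn t l (p θ) * cn t l' (q θ) := by
  refine (card_le_card (t := T.biUnion fun θ => image₂ (· ++ ·) (fm t l (p θ)) (fm t l' (q θ)))
    fun Y hY => ?_).trans (card_biUnion_le.trans (sum_le_sum fun θ _ => card_image₂_le _ _ _))
  obtain ⟨h1, h2, h3⟩ := mem_fm.1 hY
  have h4 : (Y.drop l).length = l' := by simp [h1]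
  obtain ⟨θ, hθ, h5, h6⟩ := h (Y.take l) (Y.drop l) h4 (by rwa [List.take_append_drop])
  exact mem_biUnion.2 ⟨θ, hθ, mem_image₂.2 ⟨Y.take l,
    mem_fm.2 ⟨by simp [h1], fun o ho => h2 o (List.mem_of_mem_take ho), h5⟩, Y.drop l,
    mem_fm.2 ⟨h4, fun o ho => h2 o (List.mem_of_mem_drop ho), h6⟩, List.take_append_drop _ _⟩⟩

def Good (t : ℕ) (Y : List Op) : Prop := Canon Y ∧ ∃ r, Ok t Y (r, emp)

def PG (t : ℕ) (h : Fin t → ℤ) (Y : List Op) : Prop := Good t Y ∧ th t Y = h

def PB (t : ℕ) (h d : Fin t → ℤ) (Y : List Op) : Prop :=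
  PG t h Y ∧ ∀ r, nR Y ≤ r → Bal t (run Y (r, emp)).2 d

def Win (t : ℕ) (θ : Fin t → ℤ) (G : List Op) : Prop :=
  Canon G ∧ th t G = θ ∧ ∃ S : St, Lo S ∧ Inc S.2 ∧ Ok t G S

theorem Good.ok {Y : List Op} (h : Good t Y) {r : ℕ} (hr : nR Y ≤ r) : Ok t Y (r, emp) :=
  let ⟨_, h1⟩ := h.2; ok_emp h1 hr

theorem Good.mem_Al {Y : List Op} (h : Good t Y) : ∀ o ∈ Y, o ∈ Al t :=
  let ⟨_, h1⟩ := h.2; Ok_mem_Al h1

theorem Good.length {Y : List Op} (h : Good t Y) {r : ℕ} (hr : nR Y ≤ r) (a : Fin t) :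
    (((run Y (r, emp)).2 a).length : ℤ) = th t Y a := by
  simpa [emp] using length_run Y a (h.ok hr)

theorem closed_run {Y : List Op} (h : PG t 0 Y) {r : ℕ} (hr : nR Y ≤ r) :
    (run Y (r, emp)).2 = emp := by
  funext a
  by_cases ha : a < t
  · have := h.1.length hr ⟨a, ha⟩
    rw [h.2] at this
    exact List.eq_nil_of_length_eq_zero (by simpa using this)
  · exact run_high Y (by omega) (h.1.ok hr)

theorem closed_srt {Y : List Op} (h : PG t 0 Y) :
    Y.length = 2 * nR Y ∧ Srt t (nR Y) (wd Y (nR Y, emp) []) := by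
  have h1 := Run_run Y (w := []) (n := 0) (h.1.ok le_rfl) (lo_emp _) inc_emp
    ((Run_emp _ _).trans (iter_s_perm t []).eq_nil)
  rw [closed_run h le_rfl, Run_emp, Nat.sub_self, Nat.zero_add, ← List.range_eq_range'] at h1
  have h2 := h1 ▸ (iter_s_perm t (wd Y (nR Y, emp) [])).symm
  have h3 := length_wd Y (nR Y, emp) []
  rw [h2.length_eq, List.length_range, List.length_nil] at h3
  exact ⟨by omega, h2, h1⟩

theorem cn_le_W (N : ℕ) : cn t (2 * N) (PG t 0) ≤ W t N := by
  have key : ∀ Y ∈ fm t (2 * N) (PG t 0), nR Y = N := fun Y hY => by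
    have h1 := (mem_fm.1 hY).1
    have h2 := (closed_srt (mem_fm.1 hY).2.2).1
    omega
  refine card_le_card_of_injOn (fun Y => wd Y (N, emp) []) (fun Y hY => ?_) fun Y hY Y' hY' he => ?_
  · have := (closed_srt (mem_fm.1 hY).2.2).2
    rw [key Y hY] at this
    exact mem_X.2 this
  · obtain ⟨h1, -, h2⟩ := mem_fm.1 hY
    obtain ⟨h1', -, h2'⟩ := mem_fm.1 hY'
    refine code_inj N Y Y' h2.1.1 h2'.1.1 (h2.1.ok (key Y hY).le) (h2'.1.ok (key Y' hY').le)
      (h1.trans h1'.symm) (Prod.ext ?_ ?_) he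
    · rw [run_fst, run_fst, key Y hY, key Y' hY']
    · rw [closed_run h2 (key Y hY).le, closed_run h2' (key Y' hY').le]

theorem W_le_cn (ht : 1 ≤ t) (N : ℕ) : W t N ≤ cn t (2 * N) (PG t 0) := by
  refine card_le_card_of_surjOn (fun Y => wd Y (N, emp) []) fun π hπ => ?_
  have h := mem_X.1 hπ
  obtain ⟨Y, h1, h2, h3, h4, -⟩ := exists_code ht N _ 0 emp π rfl (Nat.zero_le _) inc_emp
    (fun _ _ => rfl) (by rw [Run_emp, h.2, List.range_eq_range', Nat.sub_zero])
  refine ⟨Y, mem_fm.2 ⟨?_, Ok_mem_Al h2, ⟨h1, N, h2⟩, funext fun a => ?_⟩, h4⟩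
  · have h5 := length_wd Y (N, emp) []
    have h6 := run_fst Y (N, emp)
    have h7 := nR_le Y _ h2
    rw [h4, h.1.length_eq, List.length_range, List.length_nil] at h5
    rw [h3] at h6
    simp only at h6 h7
    omega
  · have := length_run Y a h2
    rw [h3] at this
    simpa [emp] using this.symm

theorem Good.run_append {Y Z : List Op} (hY : Good t Y) (hZ : Good t Z) {r : ℕ}
    (hr : nR Y + nR Z ≤ r) : Ok t (Y ++ Z) (r, emp) ∧ (run (Y ++ Z) (r, emp)).2 =
      fun a => (run Z (r - nR Y, emp)).2 a ++ (run Y (r, emp)).2 a := by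
  have h1 := run_base (run Y (r, emp)).2 Z (hZ.ok (r := r - nR Y) (by omega))
  have h2 : run Y (r, emp) = (r - nR Y, fun a => emp a ++ (run Y (r, emp)).2 a) :=
    Prod.ext (run_fst _ _) rfl
  rw [ok_append, HW.run_append, h2]
  exact ⟨⟨hY.ok (by omega), h1.1⟩, congrArg Prod.snd h1.2⟩

theorem Good.append {Y Z : List Op} (hY : Good t Y) (hZ : Good t Z) : Good t (Y ++ Z) := by
  refine ⟨hY.1.append hZ.1 fun x _ y hy => ?_, _, (hY.run_append hZ le_rfl).1⟩
  obtain ⟨r, h⟩ := hZ.2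
  cases Z with
  | nil => cases hy
  | cons o Z =>
    cases hy
    cases y with
    | inl k => cases x <;> trivial
    | inr os => exact absurd rfl (h.1.ne 0 (Nat.zero_le _))

theorem PG.append {h h' : Fin t → ℤ} {Y Z : List Op} (hY : PG t h Y) (hZ : PG t h' Z) :
    PG t (h + h') (Y ++ Z) := ⟨hY.1.append hZ.1, by rw [th_append, hY.2, hZ.2]⟩

theorem PB.layer {h d x : Fin t → ℤ} {Y Z : List Op} (hY : PB t h (d + x) Y) (hZ : PG t x Z)
    (hc : ∀ b l, b < l → x b ≠ 0 → x b + d b ≤ d l) : PB t (h + x) d (Y ++ Z) := by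
  refine ⟨hY.1.append hZ, fun r hr => ?_⟩
  rw [nR_append] at hr
  rw [(hY.1.1.run_append hZ.1 hr).2]
  intro a b hab i j u v hij hu hv
  have hr' : nR Z ≤ r - nR Y := by omega
  have la := hZ.1.length hr' a
  have lb := hZ.1.length hr' b
  rw [hZ.2] at la lb
  simp only [List.getElem?_append] at hu hv
  split_ifs at hu hv with c1 c2 c2
  · have := hc b a hab (by omega)
    omega
  · have h1 := run_lt Z (hZ.1.ok hr') le_rfl (fun _ _ h => absurd h List.not_mem_nil) a u
      (List.mem_of_getElem? hu)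
    have h2 := (lo_emp r).run Y (hY.1.1.ok (by omega)) b v (List.mem_of_getElem? hv)
    rw [run_fst] at h2
    exact h1.trans_le h2
  · have := hc b a hab (by omega)
    omega
  · refine hY.2 r (by omega) a b hab _ _ u v ?_ hu hv
    simp only [Pi.add_apply]
    omega

theorem PG_single (b : Fin t) (n : ℕ) :
    PG t (Pi.single b (n : ℤ)) (List.replicate n (.inl b)) := by
  refine ⟨⟨List.isChain_replicate_of_rel n trivial, n, ?_⟩, funext fun a => ?_⟩
  · generalize emp = σ
    induction n generalizing σ with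
    | zero => trivial
    | succ n ih => exact ⟨⟨b.2, Nat.succ_pos _⟩, ih _⟩
  · simp [th, dh, Pi.single_apply, Fin.ext_iff]

theorem PB_nil (d : Fin t → ℤ) : PB t 0 d [] :=
  ⟨⟨⟨List.isChain_nil, 0, trivial⟩, rfl⟩, fun _ _ _ _ _ _ _ _ _ _ h => by simp [run, emp] at h⟩

theorem cn_layers (l : ℕ) (h d : Fin t → ℤ) (n : Fin t → ℕ)
    (hc : ∀ b l, b < l → n b + d b ≤ n l + d l) :
    cn t l (PB t h (d + fun a => (n a : ℤ))) ≤
      cn t (l + ∑ a, n a) (PB t (h + fun a => (n a : ℤ)) d) := by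
  have key : ∀ j, j ≤ t → cn t l (PB t h (d + fun a => (n a : ℤ))) ≤
      cn t (l + ∑ a : Fin t, if a.1 < j then n a else 0)
        (PB t (h + fun a => if a.1 < j then (n a : ℤ) else 0)
          (d + fun a => if a.1 < j then 0 else (n a : ℤ))) := by
    intro j
    induction j with
    | zero => intro _; simp [← Pi.zero_def]
    | succ j ih =>
      intro hj
      let b : Fin t := ⟨j, hj⟩
      refine (ih (by omega)).trans ((cn_ext _ (PG_single b (n b)).1.mem_Al
        (q := PB t (h + fun a => if a.1 < j + 1 then (n a : ℤ) else 0)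
          (d + fun a => if a.1 < j + 1 then 0 else (n a : ℤ))) fun Y hY => ?_).trans (le_of_eq ?_))
      · have e1 : (h + fun a : Fin t => if a.1 < j + 1 then (n a : ℤ) else 0) =
            (h + fun a : Fin t => if a.1 < j then (n a : ℤ) else 0) + Pi.single b (n b : ℤ) := by
          funext a
          by_cases ha : a = b
          · subst ha; simp [b]
          · have : a.1 ≠ j := fun h => ha (Fin.ext h)
            simp only [Pi.add_apply, Pi.single_eq_of_ne ha]
            split_ifs <;> omega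
        have e2 : (d + fun a : Fin t => if a.1 < j then 0 else (n a : ℤ)) =
            (d + fun a : Fin t => if a.1 < j + 1 then 0 else (n a : ℤ)) + Pi.single b (n b : ℤ) := by
          funext a
          by_cases ha : a = b
          · subst ha; simp [b]
          · have : a.1 ≠ j := fun h => ha (Fin.ext h)
            simp only [Pi.add_apply, Pi.single_eq_of_ne ha]
            split_ifs <;> omega
        rw [e1]
        refine PB.layer (e2 ▸ hY) (PG_single b (n b)) fun b' l hl hne => ?_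
        obtain rfl : b' = b := by
          by_contra hb
          exact hne (Pi.single_eq_of_ne hb _)
        have h1 := hc b l hl
        have h2 : ¬ l.1 < j + 1 := by have : j < l.1 := hl; omega
        simp only [Pi.single_eq_same, Pi.add_apply, if_neg h2, b, Nat.lt_succ_self, if_true] at h1 ⊢
        omega
      · congr 1
        rw [List.length_replicate, add_assoc, ← sum_pi_single' b (n b) univ |>.trans
          (if_pos (mem_univ b)), ← sum_add_distrib]
        congr 1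
        refine sum_congr rfl fun a _ => ?_
        by_cases ha : a = b
        · subst ha; simp [b]
        · have : a.1 ≠ j := fun h => ha (Fin.ext h)
          rw [Pi.single_eq_of_ne ha]
          split_ifs <;> omega
  simpa [← Pi.zero_def] using key t le_rfl

end Pool.Agent.P.MP_8acafb_co.HW
end

-- part Pool.Agent.P.MP_8acafb_co.HW5
section

namespace Pool.Agent.P.MP_8acafb_co.HW

open Finset

variable {t : ℕ}

theorem drop_run (ht : 1 ≤ t) (r n : ℕ) : ∀ σ : ℕ → List ℕ, n ≤ (σ 0).length →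
    Ok t (List.replicate n (.inr [])) (r, σ) ∧ run (List.replicate n (.inr [])) (r, σ) =
      (r, fun a => if a = 0 then (σ a).drop n else σ a) := by
  induction n with
  | zero => intro σ _; exact ⟨trivial, by simp [run]⟩
  | succ n ih =>
    intro σ h
    have e : ∀ a, apA [] σ a = if a = 0 then (σ a).tail else σ a := fun a => by simp [apA, mv, cut]
    obtain ⟨h1, h2⟩ := ih (apA [] σ) (by rw [e, if_pos rfl, List.length_tail]; omega)
    refine ⟨⟨⟨ht, by simp, fun j hj h0 => ?_, by simp⟩, h1⟩, h2.trans ?_⟩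
    · obtain rfl : j = 0 := Nat.le_zero.1 hj
      simp only at h0
      simp [h0] at h
    · refine Prod.ext rfl (funext fun a => ?_)
      simp only [e]
      split_ifs <;> simp

def tick : List Op := [.inl 0, .inr []]

theorem tick_run (ht : 1 ≤ t) {r : ℕ} (hr : 0 < r) (σ : ℕ → List ℕ) :
    Ok t tick (r, σ) ∧ run tick (r, σ) = (r - 1, σ) := by
  obtain ⟨h1, h2⟩ := drop_run ht (r - 1) 1 (apR 0 (r - 1) σ) (by simp [apR])
  refine ⟨⟨⟨ht, hr⟩, h1⟩, h2.trans (Prod.ext rfl (funext fun a => ?_))⟩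
  simp only [apR]
  split_ifs <;> simp

theorem th_tick (t : ℕ) : th t tick = 0 := by
  funext a
  simp [th, tick, dh]

theorem Good.tick (ht : 1 ≤ t) {Y Z : List Op} (hY : Good t Y) (hZ : Canon Z)
    (h : Ok t Z (nR Z, (run Y (nR Y + 1 + nR Z, emp)).2)) : Good t (Y ++ tick ++ Z) := by
  refine ⟨(hY.1.append (by simp [HW.tick, cok]) ?_).append hZ ?_, nR Y + 1 + nR Z, ?_⟩
  · intro x _ y hy
    cases hy
    cases x <;> trivial
  · intro x hx y _
    simp only [HW.tick, List.getLast?_append, List.getLast?_cons_cons, List.getLast?_singleton,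
      Option.some_or, Option.mem_def, Option.some.injEq] at hx
    subst hx
    trivial
  · have e : run Y (nR Y + 1 + nR Z, emp) = (nR Z + 1, (run Y (nR Y + 1 + nR Z, emp)).2) :=
      Prod.ext (by rw [run_fst]; simp only; omega) rfl
    rw [ok_append, ok_append, HW.run_append, e, (tick_run ht (Nat.succ_pos _) _).2]
    exact ⟨⟨hY.ok (by omega), (tick_run ht (Nat.succ_pos _) _).1⟩, h⟩

theorem tick_mem (ht : 1 ≤ t) : ∀ o ∈ tick, o ∈ Al t := Ok_mem_Al (tick_run ht one_pos emp).1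

theorem cn_block (ht : 1 ≤ t) (l m : ℕ) (h θ : Fin t → ℤ) (hm : ∀ a, (m : ℤ) ≤ h a) :
    cn t l (PB t h 0) * cn t m (Win t θ) ≤ cn t (l + 2 + m) (PG t (h + θ)) := by
  refine (Nat.mul_le_mul_right _ (cn_ext tick (tick_mem ht)
    (q := fun Y' => ∃ Y, Y' = Y ++ tick ∧ PB t h 0 Y) fun Y hY => ⟨Y, rfl, hY⟩)).trans (cn_mul ?_)
  rintro _ G - hG ⟨Y, rfl, hY⟩ ⟨h1, h2, S, h3, h4, h5⟩
  refine ⟨hY.1.1.tick ht h1 (transfer h3 h4 h5 (hY.2 _ (by omega)) (fun a ha => ?_)
    (fun a x hx => ?_) le_rfl), by rw [th_append, th_append, th_tick, add_zero, hY.1.2, h2]⟩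
  · have h6 := hY.1.1.length (r := nR Y + 1 + nR G) (by omega) ⟨a, ha⟩
    have h7 := hm ⟨a, ha⟩
    rw [hY.1.2] at h6
    simp only at h6
    omega
  · have := (lo_emp _).run Y (hY.1.1.ok (r := nR Y + 1 + nR G) (by omega)) a x hx
    rw [run_fst] at this
    simp only at this ⊢
    omega

def rd (k : ℕ) : List Op := .inr (List.replicate k 0) :: List.replicate k (.inr [])

theorem rd_run {k r : ℕ} {σ : ℕ → List ℕ} (h1 : ∀ j, j ≤ k → σ j ≠ [])
    (h2 : ∀ j, j < k → hd σ (j + 1) < hd σ j) :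
    Ok (k + 1) (rd k) (r, σ) ∧ run (rd k) (r, σ) = (r, cut k σ) := by
  have e0 : ∀ i, (List.replicate k 0).getD i 0 = 0 := fun i => by
    simp only [List.getD_eq_getElem?_getD, List.getElem?_replicate]
    split_ifs <;> rfl
  have e1 : (mv (List.replicate k 0) σ 0).length = k := by
    simp only [mv, e0]
    simp
  obtain ⟨h3, h4⟩ := drop_run (t := k + 1) (by omega) r k (apA (List.replicate k 0) σ)
    (by rw [apA, List.length_append, e1]; omega)
  refine ⟨⟨⟨by simp, fun i _ => by rw [e0]; omega, by simpa using h1, by simpa using h2⟩, h3⟩,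
    h4.trans (Prod.ext rfl (funext fun a => ?_))⟩
  simp only [apA, List.length_replicate]
  split_ifs with h
  · subst h
    exact List.drop_left' e1
  · have : mv (List.replicate k 0) σ a = [] := List.eq_nil_iff_forall_not_mem.2 fun x hx => by
      obtain ⟨i, -, h5, -⟩ := mem_mv.1 hx
      exact h ((e0 i) ▸ h5).symm
    rw [this, List.nil_append]

def clean (k : ℕ) : ℕ → List Op
  | 0 => []
  | n + 1 => rd k ++ clean k n

theorem clean_inr (k n : ℕ) : ∀ o ∈ clean k n, ∃ os, o = .inr os := by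
  induction n with
  | zero => intro o ho; cases ho
  | succ n ih =>
    intro o ho
    rcases List.mem_append.1 ho with h | h
    · rcases List.mem_cons.1 h with rfl | h
      · exact ⟨_, rfl⟩
      · exact ⟨_, List.eq_of_mem_replicate h⟩
    · exact ih o h

theorem inr_facts (Z : List Op) (h : ∀ o ∈ Z, ∃ os, o = .inr os) : Canon Z ∧ nR Z = 0 := by
  induction Z with
  | nil => exact ⟨List.isChain_nil, rfl⟩
  | cons o Z ih =>
    obtain ⟨os, rfl⟩ := h o List.mem_cons_self
    have := ih fun o ho => h o (List.mem_cons_of_mem _ ho)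
    exact ⟨List.isChain_cons.2 ⟨fun _ _ => trivial, this.1⟩, this.2⟩

theorem length_clean (k n : ℕ) : (clean k n).length = (k + 1) * n := by
  induction n with
  | zero => rfl
  | succ n ih => simp [clean, rd, ih]; ring

theorem clean_run {k r : ℕ} (n : ℕ) : ∀ σ : ℕ → List ℕ, Bal (k + 1) σ 0 →
    (∀ a, a ≤ k → (σ a).length = n) → Ok (k + 1) (clean k n) (r, σ) ∧
      ∀ a, a ≤ k → (run (clean k n) (r, σ)).2 a = [] := by
  induction n with
  | zero => intro σ _ h; exact ⟨trivial, fun a ha => List.eq_nil_of_length_eq_zero (h a ha)⟩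
  | succ n ih =>
    intro σ hb h
    have hne : ∀ j, j ≤ k → σ j ≠ [] := fun j hj h0 => by simpa [h0] using h j hj
    have h0 : ∀ j, j ≤ k → (σ j)[0]? = some (hd σ j) := fun j hj => by
      rw [hd_cons (hne j hj)]; rfl
    obtain ⟨h1, h2⟩ := rd_run (r := r) hne fun j hj =>
      hb ⟨j + 1, by omega⟩ ⟨j, by omega⟩ (Nat.lt_succ_self j) 0 0 _ _ le_rfl (h0 _ hj) (h0 _ hj.le)
    obtain ⟨h3, h4⟩ := ih (cut k σ) (fun a b hab i j x y hij hx hy => by
      rw [cut, if_pos (Nat.le_of_lt_succ (Fin.is_lt _)), List.getElem?_tail] at hx hy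
      refine hb a b hab _ _ x y ?_ hx hy
      simp only [Pi.zero_apply] at hij ⊢
      omega) fun a ha => by rw [cut, if_pos ha, List.length_tail, h a ha]; rfl
    rw [clean, ok_append, run_append, h2]
    exact ⟨⟨h1, h3⟩, h4⟩

theorem cn_clean (ht : 1 ≤ t) (l n : ℕ) :
    cn t l (PB t (fun _ => (n : ℤ)) 0) ≤ cn t (l + (2 + t * n)) (PG t 0) := by
  obtain ⟨k, rfl⟩ : ∃ k, t = k + 1 := ⟨t - 1, by omega⟩
  rcases Nat.eq_zero_or_pos (cn (k + 1) l (PB (k + 1) (fun _ => (n : ℤ)) 0)) with h0 | h0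
  · omega
  have key : ∀ Y, PB (k + 1) (fun _ => (n : ℤ)) 0 Y → PG (k + 1) 0 (Y ++ (tick ++ clean k n)) := by
    intro Y hY
    obtain ⟨h1, h2⟩ := inr_facts _ (clean_inr k n)
    have h3 : ∀ a, a ≤ k → ((run Y (nR Y + 1 + nR (clean k n), emp)).2 a).length = n := by
      intro a ha
      have := hY.1.1.length (r := nR Y + 1 + nR (clean k n)) (by omega) ⟨a, by omega⟩
      rw [hY.1.2] at this
      simp only at this
      exact_mod_cast this
    obtain ⟨h4, h5⟩ := clean_run (r := nR (clean k n)) n _ (hY.2 _ (by omega)) h3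
    rw [← List.append_assoc]
    refine ⟨hY.1.1.tick ht h1 h4, funext fun a => ?_⟩
    have h6 := length_run _ a h4
    rw [h5 a (Nat.le_of_lt_succ a.2), h3 a (Nat.le_of_lt_succ a.2)] at h6
    rw [th_append, th_append, th_tick, hY.1.2]
    simp only [Pi.add_apply, Pi.zero_apply, List.length_nil] at h6 ⊢
    omega
  obtain ⟨Y, hY⟩ := card_pos.1 h0
  have := cn_ext (l := l) (tick ++ clean k n)
    (fun o ho => (key Y (mem_fm.1 hY).2.2).1.mem_Al o (List.mem_append_right _ ho)) key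
  rwa [List.length_append, length_clean] at this

/-- The staircase of offsets. -/
def stair (t c : ℕ) (j : ℕ) (a : Fin t) : ℤ := ((a.1 + j) * c : ℕ)

theorem cn_layer {l l' c : ℕ} (h : Fin t → ℤ) (j : ℕ) :
    cn t l (PB t h (stair t c (j + 1))) * cn t l' (PG t fun _ => (c : ℤ)) ≤
      cn t (l + l') (PB t (h + fun _ => (c : ℤ)) (stair t c j)) := by
  refine cn_mul fun Y Z _ _ hY hZ => PB.layer (d := stair t c j) ?_ hZ fun b a hab _ => ?_
  · have : (stair t c j + fun _ => (c : ℤ)) = stair t c (j + 1) := by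
      funext a; simp only [stair, Pi.add_apply]; push_cast; ring
    rwa [this]
  · have h1 : (b.1 + j + 1) * c ≤ (a.1 + j) * c :=
      Nat.mul_le_mul_right _ (by have : b.1 < a.1 := hab; omega)
    simp only [stair]
    rw [Nat.succ_mul] at h1
    omega

theorem cn_lag (l c : ℕ) (h : Fin t → ℤ) : cn t l (PB t h (stair t c 0)) ≤
    cn t (l + ∑ a : Fin t, a.1 * c) (PB t (h + stair t c 0) 0) := by
  have := cn_layers l h 0 (fun a => a.1 * c) fun b a hab => by
    have h1 : b.1 * c ≤ a.1 * c := Nat.mul_le_mul_right _ (le_of_lt hab)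
    simp only [Pi.zero_apply]
    omega
  rwa [zero_add] at this

theorem cn_pow (l c K : ℕ) : ∀ j, cn t l (PG t fun _ => (c : ℤ)) ^ K ≤
    cn t (K * l) (PB t (fun _ => ((K * c : ℕ) : ℤ)) (stair t c j)) := by
  induction K with
  | zero =>
    intro j
    simpa [← Pi.zero_def] using cn_pos (t := t) (Y := []) (by simp) (PB_nil (stair t c j))
  | succ K ih =>
    intro j
    have := (Nat.mul_le_mul_right _ (ih (j + 1))).trans (cn_layer (l' := l) _ j)
    rw [pow_succ, Nat.succ_mul, Nat.succ_mul]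
    refine this.trans (le_of_eq ?_)
    congr 2

theorem cn_cat (ht : 1 ≤ t) (l c K : ℕ) (θ : Fin t → ℤ) :
    cn t l (PG t fun _ => (c : ℤ)) ^ K * cn t (K * c) (Win t θ) ≤
      cn t (K * l + ∑ a : Fin t, a.1 * c + 2 + K * c)
        (PG t ((fun _ => ((K * c : ℕ) : ℤ)) + stair t c 0 + θ)) :=
  (Nat.mul_le_mul_right _ ((cn_pow l c K 0).trans (cn_lag _ _ _))).trans
    (cn_block ht _ _ _ _ fun a => by
      simp only [Pi.add_apply, stair]
      omega)

theorem cn_close (ht : 1 ≤ t) (l c : ℕ) : ∃ e, e ≤ 3 * (t * t * c) + 2 ∧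
    cn t l (PG t fun _ => (c : ℤ)) ≤ cn t (l + e) (PG t 0) := by
  let n : Fin t → ℕ := fun a => (t - 1 - a.1) * c
  have hn : ∀ a : Fin t, n a + (a.1 + 1) * c = t * c := fun a => by
    rw [← Nat.add_mul]
    congr 1
    have := a.2
    omega
  have h1 := (cn_pos (t := t) (Y := []) (by simp) (PB_nil _)).trans
    (cn_layers _ 0 (stair t c 1) n fun b a _ => by
      have := hn a
      have := hn b
      simp only [stair]
      omega)
  have h2 := (Nat.le_mul_of_pos_left _ h1).trans (cn_layer (l' := l) _ 0)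
  have h3 := h2.trans (cn_lag _ _ _)
  have e : ((0 + fun a => (n a : ℤ)) + fun _ => (c : ℤ)) + stair t c 0 =
      fun _ => ((t * c : ℕ) : ℤ) := by
    funext a
    have := hn a
    simp only [Pi.add_apply, Pi.zero_apply, stair, Nat.add_zero]
    rw [Nat.succ_mul] at this
    omega
  rw [e] at h3
  have h4 := h3.trans (cn_clean ht _ _)
  refine ⟨∑ a, n a + ∑ a : Fin t, a.1 * c + (2 + t * (t * c)), ?_, h4.trans (le_of_eq ?_)⟩
  · have h5 : ∑ a, n a + ∑ a : Fin t, a.1 * c ≤ ∑ _a : Fin t, t * c := by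
      rw [← sum_add_distrib]
      refine sum_le_sum fun a _ => ?_
      have := hn a
      rw [Nat.succ_mul] at this
      omega
    rw [sum_const, card_univ, Fintype.card_fin, smul_eq_mul] at h5
    rw [mul_assoc]
    omega
  · congr 1
    simp only [List.length_nil]
    omega

end Pool.Agent.P.MP_8acafb_co.HW
end

-- part Pool.Agent.P.MP_8acafb_co.HW6
section

namespace Pool.Agent.P.MP_8acafb_co.HW

open Finset

variable {t : ℕ}

/-- The possible height changes of a window of length `m`. -/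
noncomputable def Ty (t m : ℕ) : Finset (Fin t → ℤ) :=
  Fintype.piFinset fun _ => Icc (-((t * m : ℕ) : ℤ)) ((t * m : ℕ) : ℤ)

theorem card_Ty (t m : ℕ) : (Ty t m).card = (2 * (t * m) + 1) ^ t := by
  rw [Ty, Fintype.card_piFinset, prod_const, card_univ, Fintype.card_fin, Int.card_Icc]
  congr 1
  omega

theorem mem_Ty {m : ℕ} {θ : Fin t → ℤ} : θ ∈ Ty t m ↔ ∀ a, |θ a| ≤ t * m := by
  simp [Ty, abs_le]

theorem pigeon (m r : ℕ) : ∀ h : Fin t → ℤ, 0 < cn t (r * m) (PG t h) →
    ∃ f : Fin r → Fin t → ℤ, (∀ i, f i ∈ Ty t m ∧ 0 < cn t m (Win t (f i))) ∧ ∑ i, f i = h ∧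
      cn t (r * m) (PG t h) ≤ (Ty t m).card ^ r * ∏ i, cn t m (Win t (f i)) := by
  induction r with
  | zero =>
    intro h h0
    obtain ⟨Y, hY⟩ := card_pos.1 h0
    obtain ⟨h1, -, h2⟩ := mem_fm.1 hY
    rw [Nat.zero_mul] at h1
    obtain rfl := List.eq_nil_of_length_eq_zero h1
    exact ⟨Fin.elim0, fun i => i.elim0, h2.2, by simpa using cn_le (t := t) 0 (PG t h)⟩
  | succ r ih =>
    intro h h0
    have h1 := cn_cut (t := t) (Ty t m) (l := r * m) (l' := m) (p := fun θ => PG t (h - θ))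
      (q := Win t) (r := PG t h) fun Y Z hZ hr => by
        obtain ⟨⟨hc, r0, ho⟩, he⟩ := hr
        obtain ⟨h1, h2⟩ := (ok_append _ _ _).1 ho
        refine ⟨th t Z, mem_Ty.2 fun a => hZ ▸ abs_th Z a h2, ⟨⟨hc.left_of_append, r0, h1⟩, ?_⟩,
          hc.right_of_append, rfl, _, (lo_emp r0).run Y h1,
          Inc.run Y (S := (r0, emp)) inc_emp (lo_emp r0) h1, h2⟩
        rw [← he, th_append, add_sub_cancel_right]
    rw [Nat.succ_mul] at h0 ⊢
    obtain ⟨θ, hθ, hmax⟩ := exists_max_image (Ty t m)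
      (fun θ => cn t (r * m) (PG t (h - θ)) * cn t m (Win t θ)) ⟨0, mem_Ty.2 fun a => by positivity⟩
    have h2 := h1.trans (sum_le_card_nsmul _ _ _ hmax)
    rw [smul_eq_mul] at h2
    have h3 := Nat.pos_of_mul_pos_left (h0.trans_le h2)
    obtain ⟨f, hf1, hf2, hf3⟩ := ih (h - θ) (Nat.pos_of_mul_pos_right h3)
    refine ⟨Fin.cons θ f, Fin.forall_fin_succ.2 ⟨⟨hθ, Nat.pos_of_mul_pos_left h3⟩, hf1⟩, ?_,
      h2.trans ?_⟩
    · rw [Fin.sum_univ_succ, Fin.cons_zero]
      simp only [Fin.cons_succ, hf2, add_sub_cancel]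
    · rw [Fin.prod_univ_succ, Fin.cons_zero]
      simp only [Fin.cons_succ]
      calc _ ≤ (Ty t m).card * (((Ty t m).card ^ r * ∏ i, cn t m (Win t (f i))) *
            cn t m (Win t θ)) := Nat.mul_le_mul_left _ (Nat.mul_le_mul_right _ hf3)
        _ = _ := by ring

theorem rounding {ι : Type} [Fintype ι] (w : ι → ℝ) (hw : ∀ i, 0 ≤ w i) (h1 : ∑ i, w i = 1)
    (R : ℕ) : ∃ k : ι → ℕ, ∑ i, k i = R ∧ ∑ i, |(k i : ℝ) - R * w i| ≤ 2 * Fintype.card ι := by
  classical
  obtain ⟨i0, -⟩ : (univ : Finset ι).Nonempty := nonempty_of_sum_ne_zero (by rw [h1]; norm_num)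
  have h0 : ∀ i, 0 ≤ (R : ℝ) * w i := fun i => mul_nonneg (Nat.cast_nonneg _) (hw i)
  have h2 : ∑ i, (R : ℝ) * w i = R := by rw [← mul_sum, h1, mul_one]
  have h3 : ((∑ i, ⌊(R : ℝ) * w i⌋₊ : ℕ) : ℝ) ≤ R := by
    rw [Nat.cast_sum]
    exact (sum_le_sum fun i _ => Nat.floor_le (h0 i)).trans h2.le
  have h4 : ∑ i, ⌊(R : ℝ) * w i⌋₊ ≤ R := by exact_mod_cast h3
  have h5 : ∑ i, ((R : ℝ) * w i - ⌊(R : ℝ) * w i⌋₊) ≤ Fintype.card ι := by
    have := sum_le_card_nsmul univ (fun i => (R : ℝ) * w i - ⌊(R : ℝ) * w i⌋₊) 1 fun i _ => by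
      have := Nat.lt_floor_add_one ((R : ℝ) * w i)
      linarith
    simpa using this
  let e : ι → ℕ := Pi.single i0 (R - ∑ i, ⌊(R : ℝ) * w i⌋₊)
  have he : ∑ i, e i = R - ∑ i, ⌊(R : ℝ) * w i⌋₊ := by simp [e]
  refine ⟨fun i => ⌊(R : ℝ) * w i⌋₊ + e i, by rw [sum_add_distrib, he]; omega, ?_⟩
  calc _ ≤ ∑ i, (((R : ℝ) * w i - ⌊(R : ℝ) * w i⌋₊) + e i) := by
        refine sum_le_sum fun i _ => abs_le.2 ?_
        have := Nat.floor_le (h0 i)
        have : (0 : ℝ) ≤ e i := Nat.cast_nonneg _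
        push_cast
        constructor <;> linarith
    _ ≤ _ := by
        rw [sum_add_distrib, ← Nat.cast_sum, he, Nat.cast_sub h4]
        rw [sum_sub_distrib, h2, ← Nat.cast_sum] at h5 ⊢
        linarith

theorem log_cn_le (ht : 1 ≤ t) (l : ℕ) (p : List Op → Prop) :
    Real.log (cn t l p) ≤ (t : ℝ) ^ 2 * l := by
  rcases Nat.eq_zero_or_pos (cn t l p) with h | h
  · rw [h, Nat.cast_zero, Real.log_zero]; positivity
  have ht' : (0 : ℝ) < t := by exact_mod_cast ht
  have h1 : (cn t l p : ℝ) ≤ (2 * (t : ℝ) ^ (t + 1)) ^ l := by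
    exact_mod_cast (cn_le l p).trans (Nat.pow_le_pow_left (card_Al ht) l)
  have h2 := Real.log_le_log (by exact_mod_cast h) h1
  rw [Real.log_pow, Real.log_mul two_ne_zero (by positivity), Real.log_pow] at h2
  have h3 := Real.log_le_sub_one_of_pos ht'
  have h4 := Real.log_two_lt_d9
  have h5 : Real.log 2 + ((t + 1 : ℕ) : ℝ) * Real.log t ≤ (t : ℝ) ^ 2 := by
    push_cast
    nlinarith
  nlinarith [mul_le_mul_of_nonneg_left h5 (Nat.cast_nonneg l : (0 : ℝ) ≤ l)]

theorem abs_sum_le {ι : Type} [Fintype ι] (u v : ι → ℝ) {B D : ℝ} (hB : 0 ≤ B)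
    (hu : ∑ i, |u i| ≤ D) (hv : ∀ i, |v i| ≤ B) : |∑ i, u i * v i| ≤ D * B := by
  refine (abs_sum_le_sum_abs _ _).trans (le_trans ?_ (mul_le_mul_of_nonneg_right hu hB))
  rw [sum_mul]
  exact sum_le_sum fun i _ => by
    rw [abs_mul]; exact mul_le_mul_of_nonneg_left (hv i) (abs_nonneg _)

theorem exists_types (ht : 1 ≤ t) {m r : ℕ} (hr : 0 < r) {y : ℝ} (h0 : 0 < cn t (r * m) (PG t 0))
    (hy : r * y ≤ Real.log (cn t (r * m) (PG t 0))) (R : ℕ) :
    ∃ (ι : Type) (_ : Fintype ι) (θ : ι → Fin t → ℤ) (k : ι → ℕ),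
      (∀ i, 0 < cn t m (Win t (θ i))) ∧ ∑ i, k i = R ∧
      (∀ a, |∑ i, (k i : ℤ) * θ i a| ≤ 2 * (t + 2) * (t * m)) ∧
      R * (y - Real.log (Ty t m).card) - 2 * (t + 2) * ((t : ℝ) ^ 2 * m) ≤
        ∑ i, k i * Real.log (cn t m (Win t (θ i))) := by
  obtain ⟨f, hf1, hf2, hf3⟩ := pigeon m r 0 h0
  let pt : (Fin t → ℤ) → (Fin t → ℝ) × ℝ :=
    fun θ => (fun a => (θ a : ℝ), Real.log (cn t m (Win t θ)))
  let S : Set ((Fin t → ℝ) × ℝ) := pt '' {θ | θ ∈ Ty t m ∧ 0 < cn t m (Win t θ)}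
  have hr' : (0 : ℝ) < r := by exact_mod_cast hr
  have hz : ∑ i, (r : ℝ)⁻¹ • pt (f i) ∈ convexHull ℝ S :=
    (convex_convexHull ℝ S).sum_mem (fun _ _ => by positivity) (by simp [hr.ne'])
      fun i _ => subset_convexHull ℝ S ⟨f i, hf1 i, rfl⟩
  obtain ⟨ι, _, z, w, hz1, hz2, hw, hw1, hw2⟩ := eq_pos_convex_span_of_mem_convexHull hz
  have hc : (Fintype.card ι : ℝ) ≤ t + 2 := by
    have h1 := hz2.card_le_finrank_succ
    have h2 := (vectorSpan ℝ (Set.range z)).finrank_le
    have h3 : Module.finrank ℝ ((Fin t → ℝ) × ℝ) = t + 1 := by simp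
    exact_mod_cast (by omega : Fintype.card ι ≤ t + 2)
  choose θ hθ hθ' using fun i => hz1 ⟨i, rfl⟩
  obtain ⟨k, hk1, hk2⟩ := rounding w (fun i => (hw i).le) hw1 R
  have hk3 : ∑ i, |(k i : ℝ) - R * w i| ≤ 2 * (t + 2) := by linarith
  have e1 : ∀ a, ∑ i, w i * (θ i a : ℝ) = 0 := fun a => by
    have h1 := congrFun (congrArg Prod.fst hw2) a
    have h2 := congrArg (fun x : ℤ => (x : ℝ)) (congrFun hf2 a)
    simp only [Finset.sum_apply, Int.cast_sum, Pi.zero_apply, Int.cast_zero] at h2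
    simpa [Prod.fst_sum, ← hθ', pt, ← mul_sum, h2] using h1
  have e2 : y - Real.log (Ty t m).card ≤ ∑ i, w i * Real.log (cn t m (Win t (θ i))) := by
    have h1 := congrArg Prod.snd hw2
    simp only [Prod.snd_sum, ← hθ', pt, Prod.smul_snd, smul_eq_mul, ← mul_sum] at h1
    rw [h1, ← div_eq_inv_mul, le_div_iff₀ hr']
    have h2 : (cn t (r * m) (PG t 0) : ℝ) ≤
        ((Ty t m).card : ℝ) ^ r * ∏ i, (cn t m (Win t (f i)) : ℝ) := by exact_mod_cast hf3
    have h3 := Real.log_le_log (by exact_mod_cast h0) h2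
    have h4 : ∀ i, (cn t m (Win t (f i)) : ℝ) ≠ 0 := fun i => by exact_mod_cast (hf1 i).2.ne'
    rw [Real.log_mul (by rw [card_Ty]; positivity) (prod_ne_zero_iff.2 fun i _ => h4 i),
      Real.log_pow, Real.log_prod fun i _ => h4 i] at h3
    linarith
  refine ⟨ι, inferInstance, θ, k, fun i => (hθ i).2, hk1, fun a => ?_, ?_⟩
  · have h1 := abs_sum_le _ (fun i => (θ i a : ℝ)) (B := t * m) (by positivity) hk3
      fun i => by exact_mod_cast mem_Ty.1 (hθ i).1 a
    simp only [sub_mul, sum_sub_distrib, mul_assoc, ← mul_sum, e1, mul_zero, sub_zero] at h1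
    rw [← mul_assoc] at h1
    exact_mod_cast h1
  · have h1 := abs_sum_le _ (fun i => Real.log (cn t m (Win t (θ i)))) (B := (t : ℝ) ^ 2 * m)
      (by positivity) hk3 fun i => by
        rw [abs_of_nonneg (Real.log_natCast_nonneg _)]
        exact log_cn_le ht _ _
    simp only [sub_mul, sum_sub_distrib, mul_assoc, ← mul_sum] at h1
    have := mul_le_mul_of_nonneg_left e2 (Nat.cast_nonneg R : (0 : ℝ) ≤ R)
    linarith [(abs_le.1 h1).1]

/-- Length, final heights and entropy of families of codes. -/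
def Hs (t : ℕ) : AddSubmonoid (ℕ × (Fin t → ℤ) × ℝ) where
  carrier := {z | Real.exp z.2.2 ≤ cn t z.1 (PG t z.2.1)}
  zero_mem' := by
    have := cn_pos (t := t) (Y := []) (by simp) (PB_nil (t := t) 0).1
    change Real.exp 0 ≤ cn t 0 (PG t 0)
    rw [Real.exp_zero]
    exact_mod_cast this
  add_mem' := fun {a b} ha hb => by
    change Real.exp (a.2.2 + b.2.2) ≤ cn t (a.1 + b.1) (PG t (a.2.1 + b.2.1))
    rw [Real.exp_add]
    refine (mul_le_mul ha hb (Real.exp_pos _).le (Nat.cast_nonneg _)).trans ?_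
    exact_mod_cast cn_mul fun Y Z _ _ hY hZ => PG.append hY hZ

theorem mem_Hs {l : ℕ} {h : Fin t → ℤ} {x : ℝ} :
    (l, h, x) ∈ Hs t ↔ Real.exp x ≤ cn t l (PG t h) := Iff.rfl

theorem pad_mem (p : Fin t → ℕ) : (∑ a, p a, fun a => (p a : ℤ), (0 : ℝ)) ∈ Hs t := by
  have : ∑ a, (p a, Pi.single a (p a : ℤ), (0 : ℝ)) ∈ Hs t := sum_mem fun a _ => by
    have := cn_pos (PG_single a (p a)).1.mem_Al (PG_single a (p a))
    rw [List.length_replicate] at this
    rw [mem_Hs, Real.exp_zero]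
    exact_mod_cast this
  have e : ∑ a, (p a, Pi.single a (p a : ℤ), (0 : ℝ)) = (∑ a, p a, fun a => (p a : ℤ), (0 : ℝ)) := by
    refine Prod.ext (by simp [Prod.fst_sum]) (Prod.ext ?_ (by simp [Prod.snd_sum]))
    simp only [Prod.snd_sum, Prod.fst_sum]
    exact univ_sum_single fun a => (p a : ℤ)
  exact e ▸ this

theorem level (ht : 1 ≤ t) {l c : ℕ} {x : ℝ} (h : (l, fun _ => (c : ℤ), x) ∈ Hs t) (K R : ℕ)
    {r : ℕ} (hr : 0 < r) {y : ℝ} (h0 : 0 < cn t (r * (K * c)) (PG t 0))
    (hy : r * y ≤ Real.log (cn t (r * (K * c)) (PG t 0))) :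
    ∃ (e : ℕ) (x' : ℝ), e ≤ R * (t * t * c + 2) + t * (R * t * c + 4 * (t + 2) * (t * (K * c))) ∧
      R * K * x + R * (y - Real.log (Ty t (K * c)).card) -
        2 * (t + 2) * ((t : ℝ) ^ 2 * (K * c : ℕ)) ≤ x' ∧
      (R * K * l + R * K * c + e,
        fun _ => ((R * (K + t) * c + 2 * (t + 2) * (t * (K * c)) : ℕ) : ℤ), x') ∈ Hs t := by
  obtain ⟨ι, _, θ, k, h1, h2, h3, h4⟩ := exists_types ht hr h0 hy R
  have hb : ∑ i, k i • (K * l + ∑ a : Fin t, a.1 * c + 2 + K * c,
      (fun _ => ((K * c : ℕ) : ℤ)) + stair t c 0 + θ i,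
      K * x + Real.log (cn t (K * c) (Win t (θ i)))) ∈ Hs t :=
    sum_mem fun i _ => nsmul_mem (by
      rw [mem_Hs, Real.exp_add, Real.exp_log (by exact_mod_cast h1 i), Real.exp_nat_mul]
      refine (mul_le_mul_of_nonneg_right (pow_le_pow_left₀ (Real.exp_pos _).le h K)
        (Nat.cast_nonneg _)).trans ?_
      exact_mod_cast cn_cat ht l c K (θ i)) _
  have hp : ∀ a : Fin t, ∃ p : ℕ, p ≤ R * t * c + 4 * (t + 2) * (t * (K * c)) ∧
      (R : ℤ) * (K * c + a.1 * c) + ∑ i, (k i : ℤ) * θ i a + p =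
        ((R * (K + t) * c + 2 * (t + 2) * (t * (K * c)) : ℕ) : ℤ) := fun a => by
    obtain ⟨h5, h6⟩ := abs_le.1 (h3 a)
    have h7 : R * (a.1 * c) ≤ R * (t * c) := Nat.mul_le_mul_left _ (Nat.mul_le_mul_right _ a.2.le)
    have h8 : (R : ℤ) * (a.1 * c) ≤ R * (t * c) := by exact_mod_cast h7
    have h9 : (0 : ℤ) ≤ R * (a.1 * c) := by positivity
    push_cast at h5 h6
    obtain ⟨p, hp⟩ := Int.eq_ofNat_of_zero_le (a := ((R * (K + t) * c +
      2 * (t + 2) * (t * (K * c)) : ℕ) : ℤ) - ((R : ℤ) * (K * c + a.1 * c) +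
        ∑ i, (k i : ℤ) * θ i a)) (by push_cast; linarith)
    refine ⟨p, ?_, by omega⟩
    zify
    push_cast at hp
    linarith
  choose p hp1 hp2 using hp
  have h5 := add_mem hb (pad_mem p)
  refine ⟨R * (∑ a : Fin t, a.1 * c + 2) + ∑ a, p a,
    R * K * x + ∑ i, k i * Real.log (cn t (K * c) (Win t (θ i))), ?_, by linarith, ?_⟩
  · refine Nat.add_le_add (Nat.mul_le_mul_left _ (Nat.add_le_add_right ?_ _)) ?_
    · have := sum_le_card_nsmul univ (fun a : Fin t => a.1 * c) (t * c)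
        fun a _ => Nat.mul_le_mul_right _ a.2.le
      simpa [mul_assoc] using this
    · simpa using sum_le_card_nsmul univ p _ fun a _ => hp1 a
  · have hR : ∑ i, (k i : ℝ) = R := by exact_mod_cast h2
    have hZ : ∑ i, (k i : ℤ) = R := by exact_mod_cast h2
    refine (congrArg (· ∈ Hs t) (Prod.ext ?_ (Prod.ext (funext fun a => ?_) ?_))).mp h5
    · simp only [Prod.fst_add, Prod.fst_sum, Prod.smul_fst, smul_eq_mul, ← sum_mul, h2]
      ring
    · simp only [Prod.fst_add, Prod.snd_add, Prod.fst_sum, Prod.snd_sum, Prod.smul_mk,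
        Pi.add_apply, Finset.sum_apply, Pi.smul_apply]
      rw [← hp2 a]
      simp only [nsmul_eq_mul, stair, mul_add, sum_add_distrib, ← sum_mul, hZ]
      push_cast
      ring
    · simp only [Prod.snd_add, Prod.snd_sum, Prod.smul_mk]
      simp only [nsmul_eq_mul, mul_add, sum_add_distrib, ← sum_mul, hR]
      ring

end Pool.Agent.P.MP_8acafb_co.HW
end

-- part Pool.Agent.P.MP_8acafb_co.HW7
section

namespace Pool.Agent.P.MP_8acafb_co.HW

open Finset Filter Topology

variable {t : ℕ}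

/-- Closed codes have entropy almost `lam` per letter along the multiples of every `m`. -/
def Ent (t : ℕ) (lam : ℝ) : Prop := ∀ m, 0 < m → ∃ r, 0 < r ∧ 0 < cn t (r * m) (PG t 0) ∧
  r * (lam * m - 1) ≤ Real.log (cn t (r * m) (PG t 0))

structure Lv (t P : ℕ) (lam : ℝ) (s l c : ℕ) (x : ℝ) : Prop where
  mem : (l, fun _ => (c : ℤ), x) ∈ Hs t
  pos : 1 ≤ c
  cle : c ≤ (2 * P ^ 4) ^ s
  lge : s * c ≤ 2 * l
  lle : l ≤ (t + 2 * s) * c
  loss : P * (lam * l - x) ≤ (t : ℝ) ^ 3 * (P + 10 * s) * c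

theorem log_Ty (ht : 1 ≤ t) {P c : ℕ} (hP : 1 ≤ P) (hc : 1 ≤ c) :
    1 + Real.log (Ty t (P ^ 2 * c)).card ≤ 6 * (t : ℝ) ^ 3 * P * c := by
  have ht' : (1 : ℝ) ≤ t := by exact_mod_cast ht
  have hP' : (1 : ℝ) ≤ P := by exact_mod_cast hP
  have hc' : (1 : ℝ) ≤ c := by exact_mod_cast hc
  have h1 : (1 : ℝ) ≤ t * (P ^ 2 * c) := one_le_mul_of_one_le_of_one_le ht'
    (one_le_mul_of_one_le_of_one_le (one_le_pow₀ hP') hc')
  have h2 : Real.log (2 * (t * (P ^ 2 * c)) + 1) ≤ Real.log (3 * t * c * P ^ 2) :=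
    Real.log_le_log (by positivity) (by linarith)
  rw [Real.log_mul (by positivity) (by positivity), Real.log_pow] at h2
  have h3 := Real.log_le_sub_one_of_pos (show (0 : ℝ) < 3 * t * c by positivity)
  have h4 := Real.log_le_sub_one_of_pos (show (0 : ℝ) < P by positivity)
  have h5 : (1 : ℝ) ≤ t * c := one_le_mul_of_one_le_of_one_le ht' hc'
  have h6 : Real.log (2 * (t * (P ^ 2 * c)) + 1) ≤ 5 * (t * c * P) := by
    push_cast at h2
    nlinarith
  have h7 : (1 : ℝ) ≤ t * (t * c * P) :=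
    one_le_mul_of_one_le_of_one_le ht' (one_le_mul_of_one_le_of_one_le h5 hP')
  rw [card_Ty]
  push_cast
  rw [Real.log_pow]
  have h8 := mul_le_mul_of_nonneg_left h6 (show (0 : ℝ) ≤ t by positivity)
  have h9 := mul_le_mul_of_nonneg_right ht' (show (0 : ℝ) ≤ t * (t * c * P) by positivity)
  nlinarith

theorem Lv.step (ht : 1 ≤ t) {P : ℕ} (hP : 7 * t ^ 2 ≤ P) {lam : ℝ}
    (h1 : lam ≤ (t : ℝ) ^ 2) (hE : Ent t lam) {s l c : ℕ} {x : ℝ} (hs : s + 1 ≤ P)
    (h : Lv t P lam s l c x) : ∃ l' c' x', Lv t P lam (s + 1) l' c' x' := by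
  have hc := h.pos
  have hP1 : 1 ≤ P := by omega
  obtain ⟨r, hr, h2, h3⟩ := hE (P ^ 2 * c) (by positivity)
  obtain ⟨e, x', he, hx, hm⟩ := level ht h.mem (P ^ 2) (P ^ 2) hr h2 h3
  have t1 : t ≤ t ^ 2 := Nat.le_self_pow two_ne_zero t
  have t2 : t ^ 2 ≤ t ^ 3 := Nat.pow_le_pow_right ht (by norm_num)
  have t3 : t ^ 3 ≤ t ^ 4 := Nat.pow_le_pow_right ht (by norm_num)
  have e1 : e ≤ 16 * t ^ 3 * (P ^ 2 * c) := by
    have a1 : P ^ 2 * 2 ≤ P ^ 2 * (2 * c) := Nat.mul_le_mul_left _ (by omega)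
    have a2 : (10 * t ^ 2 + 2 + 4 * t ^ 3) * (P ^ 2 * c) ≤ 16 * t ^ 3 * (P ^ 2 * c) :=
      Nat.mul_le_mul_right _ (by omega)
    nlinarith
  have e2 : 16 * t ^ 3 ≤ P ^ 2 := by
    have := Nat.pow_le_pow_left hP 2
    nlinarith
  have e3 : e ≤ P ^ 4 * c := by
    have := Nat.mul_le_mul_right (P ^ 2 * c) e2
    nlinarith
  obtain ⟨c', hc'⟩ : ∃ c', c' = P ^ 2 * (P ^ 2 + t) * c + 2 * (t + 2) * (t * (P ^ 2 * c)) :=
    ⟨_, rfl⟩
  rw [← hc'] at hm
  have c1 : P ^ 4 * c ≤ c' := by
    rw [hc']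
    nlinarith [Nat.zero_le (P ^ 2 * t * c), Nat.zero_le (2 * (t + 2) * (t * (P ^ 2 * c)))]
  have c2 : c' ≤ P ^ 4 * c + P ^ 3 * c := by
    have : (5 * t + 2 * t ^ 2) * (P ^ 2 * c) ≤ P * (P ^ 2 * c) := Nat.mul_le_mul_right _ (by omega)
    rw [hc']
    nlinarith
  have c3 : (s + 1) * (P ^ 3 * c) ≤ P ^ 4 * c := by
    have := Nat.mul_le_mul_right (P ^ 3 * c) hs
    nlinarith
  refine ⟨_, c', x', hm, le_trans (Nat.mul_pos (by positivity) hc) c1, ?_, ?_, ?_, ?_⟩
  · have a1 := Nat.mul_le_mul_left (2 * P ^ 4) h.cle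
    have a2 : 1 * (P ^ 3 * c) ≤ (s + 1) * (P ^ 3 * c) := Nat.mul_le_mul_right _ (by omega)
    rw [pow_succ']
    nlinarith
  · have a1 := Nat.mul_le_mul_left (P ^ 4) h.lge
    have a2 := Nat.mul_le_mul_left (s + 1) c2
    nlinarith
  · have a1 := Nat.mul_le_mul_left (P ^ 4) h.lle
    have a2 := Nat.mul_le_mul_left (t + 2 * (s + 1)) c1
    nlinarith
  · have hT := log_Ty ht hP1 hc
    have hl := h.loss
    have ht' : (1 : ℝ) ≤ t := by exact_mod_cast ht
    have hP' : 7 * (t : ℝ) ^ 2 ≤ P := by exact_mod_cast hP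
    have e1' : (e : ℝ) ≤ 16 * t ^ 3 * (P ^ 2 * c) := by exact_mod_cast e1
    have c1' : (P : ℝ) ^ 4 * c ≤ c' := by exact_mod_cast c1
    push_cast at hx ⊢
    generalize Real.log (Ty t (P ^ 2 * c)).card = L at hx hT
    have hu : (0 : ℝ) ≤ t ^ 3 * (P ^ 2 * c) := by positivity
    have a1 : lam * e ≤ 3 * P * (t ^ 3 * (P ^ 2 * c)) := by
      have b1 := mul_le_mul h1 e1' (Nat.cast_nonneg _) (by positivity)
      have b2 := mul_le_mul_of_nonneg_right hP' hu
      have b3 : (0 : ℝ) ≤ t ^ 2 * (t ^ 3 * (P ^ 2 * c)) := by positivity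
      nlinarith
    have a2 : (P : ℝ) ^ 2 * (1 + L) ≤ 6 * P * (t ^ 3 * (P ^ 2 * c)) := by
      have := mul_le_mul_of_nonneg_left hT (show (0 : ℝ) ≤ P ^ 2 by positivity)
      linarith
    have a3 : 2 * ((t : ℝ) + 2) * (t ^ 2 * (P ^ 2 * c)) ≤ P * (t ^ 3 * (P ^ 2 * c)) := by
      have b1 : (7 : ℝ) ≤ P := by nlinarith
      have b2 := mul_le_mul_of_nonneg_right b1 hu
      have b3 := mul_le_mul_of_nonneg_right ht' (show (0 : ℝ) ≤ t ^ 2 * (P ^ 2 * c) by positivity)
      nlinarith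
    have a4 : lam * (P ^ 2 * P ^ 2 * l + P ^ 2 * P ^ 2 * c + e) - x' ≤
        P ^ 4 * (lam * l - x) + 10 * P * (t ^ 3 * (P ^ 2 * c)) := by linarith
    have a5 := mul_le_mul_of_nonneg_left a4 (Nat.cast_nonneg P : (0 : ℝ) ≤ P)
    have a6 := mul_le_mul_of_nonneg_left hl (show (0 : ℝ) ≤ P ^ 4 by positivity)
    have a7 := mul_le_mul_of_nonneg_left c1'
      (show (0 : ℝ) ≤ t ^ 3 * (P + 10 * (s + 1)) by positivity)
    linarith

theorem exists_Lv (ht : 1 ≤ t) {P : ℕ} (hP : 7 * t ^ 2 ≤ P) {lam : ℝ}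
    (h1 : lam ≤ (t : ℝ) ^ 2) (hE : Ent t lam) (s : ℕ) (hs : s ≤ P) :
    ∃ l c x, Lv t P lam s l c x := by
  induction s with
  | zero =>
    refine ⟨t, 1, 0, by simpa using pad_mem (t := t) fun _ => 1, le_rfl, by simp, by simp, by simp,
      ?_⟩
    have := mul_le_mul_of_nonneg_right h1 (show (0 : ℝ) ≤ P * t by positivity)
    push_cast
    linarith
  | succ s ih =>
    obtain ⟨l, c, x, h⟩ := ih (by omega)
    exact h.step ht hP h1 hE hs

theorem exists_N (ht : 1 ≤ t) {P : ℕ} (hP : 7 * t ^ 2 ≤ P) {lam : ℝ}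
    (h1 : lam ≤ (t : ℝ) ^ 2) (hE : Ent t lam) : ∃ N : ℕ, 1 ≤ N ∧ P * N ≤ P ^ (6 * P) ∧
      P * (2 * lam * N - Real.log (W t N)) ≤ 64 * (t : ℝ) ^ 4 * N := by
  obtain ⟨l, c, x, h⟩ := exists_Lv ht hP h1 hE P le_rfl
  obtain ⟨e, he, h2⟩ := cn_close ht l c
  have h3 : Real.exp x ≤ cn t (l + e) (PG t 0) := (mem_Hs.1 h.mem).trans (by exact_mod_cast h2)
  have h4 : 0 < cn t (l + e) (PG t 0) := by exact_mod_cast (Real.exp_pos x).trans_le h3
  obtain ⟨Y, hY⟩ := card_pos.1 h4
  obtain ⟨N, hN⟩ : ∃ N, l + e = 2 * N :=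
    ⟨nR Y, (mem_fm.1 hY).1.symm.trans (closed_srt (mem_fm.1 hY).2.2).1⟩
  rw [hN] at h3
  have h5 : x ≤ Real.log (W t N) :=
    (Real.le_log_iff_exp_le (by exact_mod_cast W_pos t N)).2
      (h3.trans (by exact_mod_cast cn_le_W N))
  have hc := h.pos
  have t1 : t ≤ t ^ 2 := Nat.le_self_pow two_ne_zero t
  have hP7 : 7 ≤ P := by omega
  have e1 : e ≤ 5 * (t ^ 2 * c) := by
    have : 1 ≤ t ^ 2 * c := Nat.mul_pos (by positivity) hc
    nlinarith
  have l1 := h.lge
  have l2 := h.lle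
  refine ⟨N, ?_, ?_, ?_⟩
  · have : 7 * 1 ≤ P * c := Nat.mul_le_mul hP7 hc
    omega
  · have a1 : (t + 5 * t ^ 2) * c ≤ P * c := Nat.mul_le_mul_right _ (by omega)
    have a2 : N ≤ 2 * P * c := by nlinarith
    calc P * N ≤ P * (2 * P * (2 * P ^ 4) ^ P) :=
          Nat.mul_le_mul_left _ (a2.trans (Nat.mul_le_mul_left _ h.cle))
      _ ≤ P * (P * P * (P * P ^ 4) ^ P) := by gcongr <;> omega
      _ = P ^ (3 + 5 * P) := by rw [← pow_succ', ← pow_mul]; ring
      _ ≤ _ := Nat.pow_le_pow_right (by omega) (by omega)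
  · have hl := h.loss
    have ht' : (1 : ℝ) ≤ t := by exact_mod_cast ht
    have hN' : (l : ℝ) + e = 2 * N := by exact_mod_cast hN
    have e1' : (e : ℝ) ≤ 5 * (t ^ 2 * c) := by exact_mod_cast e1
    have l1' : (P : ℝ) * c ≤ 4 * N := by exact_mod_cast (by omega : P * c ≤ 4 * N)
    have a1 := mul_le_mul h1 e1' (Nat.cast_nonneg _) (by positivity)
    have a2 : 2 * lam * N - Real.log (W t N) ≤ lam * l - x + 5 * (t ^ 4 * c) := by
      have : 2 * lam * N = lam * l + lam * e := by rw [← mul_add, hN']; ring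
      linarith
    have a3 := mul_le_mul_of_nonneg_left a2 (Nat.cast_nonneg P : (0 : ℝ) ≤ P)
    have a4 := mul_le_mul_of_nonneg_right ht' (show (0 : ℝ) ≤ t ^ 3 * (P * c) by positivity)
    have a5 := mul_le_mul_of_nonneg_left l1' (show (0 : ℝ) ≤ t ^ 4 by positivity)
    linarith

theorem W_pow (t N q ρ : ℕ) : W t N ^ q ≤ W t (q * N + ρ) := by
  induction q with
  | zero => exact W_pos _ _
  | succ q ih =>
    rw [pow_succ, show (q + 1) * N + ρ = q * N + ρ + N by ring]
    exact (Nat.mul_le_mul_right _ ih).trans (W_supermul _ _ _)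

theorem all_n (ht : 1 ≤ t) {lam : ℝ} (h0 : 0 ≤ lam) (h1 : lam ≤ (t : ℝ) ^ 2) (hE : Ent t lam)
    {P n : ℕ} (hP : 1 ≤ P) (hn : P ^ (6 * P) ≤ n) :
    P * (2 * lam * n - Real.log (W t n)) ≤ 70 * (t : ℝ) ^ 4 * n := by
  have ht' : (1 : ℝ) ≤ t := by exact_mod_cast ht
  have t2 : (t : ℝ) ^ 2 ≤ t ^ 4 := pow_le_pow_right₀ ht' (by norm_num)
  have hn0 : (0 : ℝ) ≤ n := Nat.cast_nonneg n
  have hP0 : (0 : ℝ) ≤ P := Nat.cast_nonneg P
  by_cases hPt : 7 * t ^ 2 ≤ P
  · obtain ⟨N, h2, h3, h4⟩ := exists_N ht hPt h1 hE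
    have h5 := W_pow t N (n / N) (n % N)
    rw [Nat.div_add_mod'] at h5
    have h6 : (n / N : ℕ) * Real.log (W t N) ≤ Real.log (W t n) := by
      rw [← Real.log_pow]
      exact Real.log_le_log (by exact_mod_cast pow_pos (W_pos t N) _) (by exact_mod_cast h5)
    have h7 : ((n / N : ℕ) : ℝ) * N ≤ n := by exact_mod_cast Nat.div_mul_le_self n N
    have h8 : (n : ℝ) ≤ (n / N : ℕ) * N + N := by exact_mod_cast (Nat.lt_div_mul_add h2).le
    have h9 : (P : ℝ) * N ≤ n := by exact_mod_cast h3.trans hn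
    have a1 := mul_le_mul_of_nonneg_left h4 (Nat.cast_nonneg (n / N) : (0 : ℝ) ≤ (n / N : ℕ))
    have a2 := mul_le_mul_of_nonneg_left h6 hP0
    have a3 := mul_le_mul_of_nonneg_left h7 (show (0 : ℝ) ≤ t ^ 4 by positivity)
    have a4 := mul_le_mul_of_nonneg_left h8 (mul_nonneg hP0 h0)
    have a5 := mul_le_mul (h1.trans t2) h9 (by positivity) (by positivity)
    have a6 : (0 : ℝ) ≤ t ^ 4 * n := by positivity
    linarith
  · have h2 : (P : ℝ) ≤ 7 * t ^ 2 := by exact_mod_cast (not_le.1 hPt).le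
    have h3 := mul_nonneg hP0 (Real.log_natCast_nonneg (W t n))
    have a1 := mul_le_mul_of_nonneg_right (mul_le_mul h2 h1 h0 (by positivity)) hn0
    have a6 : (0 : ℝ) ≤ t ^ 4 * n := by positivity
    linarith

theorem main (ht : 1 ≤ t) : ∃ μ : ℝ,
    Tendsto (fun n : ℕ => (W t n : ℝ) ^ (1 / (n : ℝ))) atTop (𝓝 μ) ∧
      ∀ P n : ℕ, 1 ≤ P → P ^ (6 * P) ≤ n →
        μ ^ n ≤ W t n * Real.exp (70 * (t : ℝ) ^ 4 * n / P) := by
  obtain ⟨μ, hμ, h1, h2⟩ := exists_mu t
  have hW : ∀ n, (0 : ℝ) < W t n := fun n => by exact_mod_cast W_pos t n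
  have hc : ∀ n, Real.log (W t n) ≤ Real.log (cn t (2 * n) (PG t 0)) := fun n =>
    Real.log_le_log (hW n) (by exact_mod_cast W_le_cn ht n)
  have h3 : 0 ≤ Real.log μ := Real.log_nonneg (by
    have a1 : (1 : ℝ) ≤ W t 1 := by exact_mod_cast W_pos t 1
    simpa using a1.trans (h2 1))
  have h4 : Real.log μ ≤ 2 * (t : ℝ) ^ 2 := by
    rw [Real.log_le_iff_le_exp hμ]
    refine mu_le t μ h1 1 one_pos _ (Real.exp_pos _).le fun m => ?_
    rw [mul_one, pow_one, ← Real.exp_nat_mul, ← Real.log_le_iff_le_exp (hW m)]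
    have := (hc m).trans (log_cn_le ht _ _)
    push_cast at this
    linarith
  have hE : Ent t (Real.log μ / 2) := fun m hm => by
    have hm' : (0 : ℝ) < m := by exact_mod_cast hm
    have a1 : μ * Real.exp (-(2 / m)) < μ :=
      mul_lt_of_lt_one_right hμ (Real.exp_lt_one_iff.2 (by rw [neg_lt_zero]; positivity))
    obtain ⟨r, hr, hr0⟩ := (((h1.comp (tendsto_id.atTop_mul_const' hm)).eventually_const_lt
      a1).and (eventually_gt_atTop 0)).exists
    simp only [Function.comp, id] at hr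
    have hr' : (0 : ℝ) < r := by exact_mod_cast hr0
    have a2 := Real.log_lt_log (by positivity) hr
    rw [Real.log_mul hμ.ne' (Real.exp_pos _).ne', Real.log_exp, Real.log_rpow (hW _), one_div,
      inv_mul_eq_div, lt_div_iff₀ (by positivity)] at a2
    refine ⟨2 * r, by omega, ?_, ?_⟩
    · rw [mul_assoc]; exact (W_pos _ _).trans_le (W_le_cn ht _)
    · rw [mul_assoc 2 r m]
      refine le_trans (le_of_eq ?_) (a2.le.trans (hc _))
      push_cast
      field_simp
      ring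
  refine ⟨μ, h1, fun P n hP hn => ?_⟩
  have h5 := all_n ht (by linarith) (by linarith) hE hP hn
  have hP' : (0 : ℝ) < P := by exact_mod_cast hP
  rw [← Real.log_le_log_iff (by positivity) (mul_pos (hW n) (Real.exp_pos _)), Real.log_pow,
    Real.log_mul (hW n).ne' (Real.exp_pos _).ne', Real.log_exp, ← sub_le_iff_le_add',
    le_div_iff₀ hP']
  linarith

end Pool.Agent.P.MP_8acafb_co.HW
end
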